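import Mathlib

open Complex Metric Set Filter Topology

namespace Pool.Agent.Helper32.CN

/-! ### Analytic logarithm and square root on the unit disc -/

theorem exists_log {f : ℂ → ℂ} (hf : DifferentiableOn ℂ f (ball 0 1))
    (h0 : ∀ w ∈ ball (0:ℂ) 1, f w ≠ 0) :
    ∃ L : ℂ → ℂ, DifferentiableOn ℂ L (ball 0 1) ∧ ∀ w ∈ ball (0:ℂ) 1, exp (L w) = f w := by
  have hf' : DifferentiableOn ℂ (deriv f) (ball 0 1) := hf.deriv isOpen_ball
  have hq : DifferentiableOn ℂ (fun w => deriv f w / f w) (ball 0 1) := hf'.div hf h0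
  obtain ⟨L, hL0, hL⟩ := (hq.isExactOn_ball).with_val_at 0 (Complex.log (f 0))
  have h00 : (0:ℂ) ∈ ball (0:ℂ) 1 := by simp
  refine ⟨L, fun w hw => (hL w hw).differentiableAt.differentiableWithinAt, ?_⟩
  -- exp (-L) * f is constant
  have hc : ∀ w ∈ ball (0:ℂ) 1, HasDerivAt (fun w => exp (-L w) * f w) 0 w := by
    intro w hw
    have h1 : HasDerivAt f (deriv f w) w :=
      (hf.differentiableAt (isOpen_ball.mem_nhds hw)).hasDerivAt
    have h2 := ((hL w hw).neg.cexp).mul h1
    convert! h2 using 1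
    have := h0 w hw
    simp only [Pi.neg_apply]
    field_simp
    ring
  have hconst : ∀ w ∈ ball (0:ℂ) 1, exp (-L w) * f w = exp (-L 0) * f 0 := by
    intro w hw
    exact (isOpen_ball.is_const_of_deriv_eq_zero (convex_ball (0:ℂ) 1).isPreconnected
      (fun x hx => (hc x hx).differentiableAt.differentiableWithinAt)
      (fun x hx => (hc x hx).deriv) hw h00)
  intro w hw
  have h1 := hconst w hw
  rw [hL0, Complex.exp_neg (Complex.log (f 0)), Complex.exp_log (h0 0 h00),
    inv_mul_cancel₀ (h0 0 h00), Complex.exp_neg] at h1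
  have h2 := Complex.exp_ne_zero (L w)
  field_simp at h1
  exact h1.symm

theorem exists_sqrt {f : ℂ → ℂ} (hf : DifferentiableOn ℂ f (ball 0 1))
    (h0 : ∀ w ∈ ball (0:ℂ) 1, f w ≠ 0) :
    ∃ h : ℂ → ℂ, DifferentiableOn ℂ h (ball 0 1) ∧ ∀ w ∈ ball (0:ℂ) 1, h w ^ 2 = f w := by
  obtain ⟨L, hL, he⟩ := exists_log hf h0
  refine ⟨fun w => exp (L w / 2), (hL.div_const 2).cexp, fun w hw => ?_⟩
  rw [← Complex.exp_nat_mul, ← he w hw]
  congr 1
  push_cast
  ring

/-! ### Injective holomorphic functions -/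

section inj

variable {F : ℂ → ℂ} {c : ℂ} {r : ℝ}

theorem nhds_le_map (hd : DifferentiableOn ℂ F (ball c r)) (hi : InjOn F (ball c r))
    {z : ℂ} (hz : z ∈ ball c r) : 𝓝 (F z) ≤ map F (𝓝 z) := by
  have ha : AnalyticAt ℂ F z := hd.analyticAt (isOpen_ball.mem_nhds hz)
  rcases ha.eventually_constant_or_nhds_le_map_nhds with h | h
  · exfalso
    have h1 : ∀ᶠ w in 𝓝 z, w ∈ ball c r := isOpen_ball.mem_nhds hz
    have h2 : ∀ᶠ w in 𝓝 z, w = z := by
      filter_upwards [h, h1] with w hw hw'
      exact hi hw' hz hw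
    have h3 : ({z} : Set ℂ) ∈ 𝓝 z := h2
    have h4 : IsOpen ({z} : Set ℂ) := by
      rw [isOpen_singleton_iff_nhds_eq_pure]
      apply le_antisymm _ (pure_le_nhds z)
      rw [le_pure_iff]
      exact h3
    exact absurd h4 (not_isOpen_singleton z)
  · exact h

theorem isOpen_image (hd : DifferentiableOn ℂ F (ball c r)) (hi : InjOn F (ball c r))
    {V : Set ℂ} (hV : IsOpen V) (hVs : V ⊆ ball c r) : IsOpen (F '' V) := by
  rw [isOpen_iff_mem_nhds]
  rintro _ ⟨z, hz, rfl⟩
  exact nhds_le_map hd hi (hVs hz) (image_mem_map (hV.mem_nhds hz))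

theorem exists_inverse (hd : DifferentiableOn ℂ F (ball c r)) (hi : InjOn F (ball c r)) :
    ∃ ψ : ℂ → ℂ, DifferentiableOn ℂ ψ (F '' ball c r) ∧
      (∀ w ∈ ball c r, ψ (F w) = w) ∧ ∀ w ∈ ball c r, deriv F w ≠ 0 := by
  classical
  set ψ := Function.invFunOn F (ball c r) with hψ
  have hψF : ∀ w ∈ ball c r, ψ (F w) = w := fun w hw => hi.leftInvOn_invFunOn hw
  have hFψ : ∀ z ∈ F '' ball c r, F (ψ z) = z := by
    rintro _ ⟨w, hw, rfl⟩
    rw [hψF w hw]
  have hopen : IsOpen (F '' ball c r) := isOpen_image hd hi isOpen_ball subset_rfl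
  have hcont : ∀ w ∈ ball c r, ContinuousAt ψ (F w) := by
    intro w hw
    have h1 : Tendsto ψ (map F (𝓝 w)) (𝓝 w) := by
      rw [tendsto_map'_iff]
      have h2 : (ψ ∘ F) =ᶠ[𝓝 w] id := by
        filter_upwards [isOpen_ball.mem_nhds hw] with x hx
        exact hψF x hx
      exact (tendsto_congr' h2).2 tendsto_id
    have h3 := h1.mono_left (nhds_le_map hd hi hw)
    unfold ContinuousAt
    rw [hψF w hw]
    exact h3
  have hderiv : ∀ w ∈ ball c r, deriv F w ≠ 0 → DifferentiableAt ℂ ψ (F w) := by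
    intro w hw h0
    have h1 : HasDerivAt F (deriv F w) (ψ (F w)) := by
      rw [hψF w hw]
      exact (hd.differentiableAt (isOpen_ball.mem_nhds hw)).hasDerivAt
    have h2 : ∀ᶠ y in 𝓝 (F w), F (ψ y) = y := by
      filter_upwards [hopen.mem_nhds (mem_image_of_mem F hw)] with y hy
      exact hFψ y hy
    exact (h1.of_local_left_inverse (hcont w hw) h0 h2).differentiableAt
  have hne : ∀ w ∈ ball c r, deriv F w ≠ 0 := by
    intro w hw h0
    have ha : AnalyticAt ℂ (deriv F) w :=
      (hd.deriv isOpen_ball).analyticAt (isOpen_ball.mem_nhds hw)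
    have hdiff : DifferentiableAt ℂ ψ (F w) := by
      rcases ha.eventually_eq_zero_or_eventually_ne_zero with h | h
      · exfalso
        -- F is constant near w
        obtain ⟨ε, hε, hball⟩ := Metric.eventually_nhds_iff_ball.1
          (h.and (isOpen_ball.mem_nhds hw : ball c r ∈ 𝓝 w))
        have h1 : ∀ x ∈ ball w ε, F x = F w := by
          intro x hx
          exact (isOpen_ball.is_const_of_deriv_eq_zero (convex_ball w ε).isPreconnected
            (fun y hy => (hd.differentiableAt
              (isOpen_ball.mem_nhds (hball y hy).2)).differentiableWithinAt)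
            (fun y hy => (hball y hy).1) hx (mem_ball_self hε))
        have h2 : w + (ε/2 : ℝ) ∈ ball w ε := by
          simp only [mem_ball, dist_self_add_left, norm_real, Real.norm_eq_abs]
          rw [abs_of_pos (by linarith)]; linarith
        have h3 := hi (hball _ h2).2 hw (h1 _ h2)
        have h4 : ((ε/2 : ℝ) : ℂ) = 0 := by
          simpa using h3
        rw [Complex.ofReal_eq_zero] at h4
        linarith
      · -- ψ differentiable on a punctured neighbourhood
        have h1 : ∀ᶠ x in 𝓝 w, x = w ∨ deriv F x ≠ 0 := by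
          rw [eventually_nhdsWithin_iff] at h
          filter_upwards [h] with x hx
          by_cases hxw : x = w
          · exact Or.inl hxw
          · exact Or.inr (hx hxw)
        have h2 : ∀ᶠ y in 𝓝 (F w), y ∈ F '' ball c r ∧ (ψ y = w ∨ deriv F (ψ y) ≠ 0) := by
          have h21 : ∀ᶠ y in 𝓝 (F w), y ∈ F '' ball c r :=
            hopen.mem_nhds (mem_image_of_mem F hw)
          have := (hcont w hw)
          unfold ContinuousAt at this
          rw [hψF w hw] at this
          exact h21.and (this.eventually h1)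
        have h3 : ∀ᶠ y in 𝓝[≠] (F w), DifferentiableAt ℂ ψ y := by
          rw [eventually_nhdsWithin_iff]
          filter_upwards [h2] with y hy hyne
          obtain ⟨⟨x, hx, rfl⟩, h | h⟩ := hy
          · rw [hψF x hx] at h
            exact absurd (by rw [h]; exact mem_singleton _) hyne
          · rw [hψF x hx] at h
            exact hderiv x hx h
        exact (Complex.analyticAt_of_differentiable_on_punctured_nhds_of_continuousAt h3
          (hcont w hw)).differentiableAt
    have hF : HasDerivAt F (deriv F w) w :=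
      (hd.differentiableAt (isOpen_ball.mem_nhds hw)).hasDerivAt
    have h1 : HasDerivAt (ψ ∘ F) (deriv ψ (F w) * deriv F w) w :=
      hdiff.hasDerivAt.comp w hF
    have h2 : HasDerivAt (ψ ∘ F) 1 w := by
      refine (hasDerivAt_id w).congr_of_eventuallyEq ?_
      filter_upwards [isOpen_ball.mem_nhds hw] with x hx
      exact hψF x hx
    have h3 := h1.unique h2
    rw [h0, mul_zero] at h3
    exact zero_ne_one h3
  refine ⟨ψ, ?_, hψF, hne⟩
  rintro _ ⟨w, hw, rfl⟩
  exact (hderiv w hw (hne w hw)).differentiableWithinAt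

theorem deriv_ne_zero (hd : DifferentiableOn ℂ F (ball c r)) (hi : InjOn F (ball c r))
    {w : ℂ} (hw : w ∈ ball c r) : deriv F w ≠ 0 := by
  obtain ⟨ψ, -, -, h⟩ := exists_inverse hd hi
  exact h w hw

end inj

end Pool.Agent.Helper32.CN
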