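import Mathlib

open Real MeasureTheory Set

namespace Pool.Agent.Helper32.CN

/-- half-open dyadic arc of length `2π/2^n` -/
def arc (n : ℕ) (j : ℤ) : Set ℝ := Ico (2 * π * j / 2^n) (2 * π * (j + 1) / 2^n)

/-- index of the dyadic arc of generation `n` containing `θ` -/
noncomputable def idx (n : ℕ) (θ : ℝ) : ℤ := ⌊θ / (2 * π) * 2^n⌋

theorem mem_arc_iff {n : ℕ} {j : ℤ} {θ : ℝ} : θ ∈ arc n j ↔ idx n θ = j := by
  unfold arc idx
  rw [Int.floor_eq_iff, mem_Ico]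
  have hp : (0:ℝ) < 2 * π := by positivity
  have h2 : (0:ℝ) < 2^n := by positivity
  rw [div_le_iff₀ h2, lt_div_iff₀ h2, div_mul_eq_mul_div, le_div_iff₀ hp, div_lt_iff₀ hp]
  constructor <;> rintro ⟨h1, h2⟩ <;> constructor <;> linarith

theorem mem_arc_idx (n : ℕ) (θ : ℝ) : θ ∈ arc n (idx n θ) := mem_arc_iff.2 rfl

theorem idx_coarse {m n : ℕ} (h : m ≤ n) (θ : ℝ) : idx m θ = idx n θ / 2^(n-m) := by
  unfold idx
  have h1 : θ / (2 * π) * 2^m = (θ / (2*π) * 2^n) / ((2^(n-m) : ℕ) : ℝ) := by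
    push_cast
    rw [eq_div_iff (by positivity), mul_assoc, ← pow_add, Nat.add_sub_cancel' h]
  rw [h1, Int.floor_div_natCast]
  push_cast
  rfl

theorem idx_nonneg {n : ℕ} {θ : ℝ} (h : 0 ≤ θ) : 0 ≤ idx n θ := by
  unfold idx
  exact Int.floor_nonneg.2 (by positivity)

theorem idx_lt {n : ℕ} {θ : ℝ} (h : θ < 2 * π) : idx n θ < 2^n := by
  unfold idx
  rw [Int.floor_lt]
  push_cast
  have : θ / (2 * π) < 1 := (div_lt_one (by positivity)).2 h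
  have h2 : (0:ℝ) < 2^n := by positivity
  nlinarith

theorem volume_arc (n : ℕ) (j : ℤ) : volume (arc n j) = ENNReal.ofReal (2 * π / 2^n) := by
  unfold arc
  rw [Real.volume_Ico]
  congr 1
  ring

theorem measurableSet_arc (n : ℕ) (j : ℤ) : MeasurableSet (arc n j) := measurableSet_Ico

theorem arc_subset {n : ℕ} {j : ℤ} (h0 : 0 ≤ j) (h1 : j < 2^n) : arc n j ⊆ Ico 0 (2 * π) := by
  intro θ hθ
  unfold arc at hθ
  have h2 : (0:ℝ) < 2^n := by positivity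
  have hp : (0:ℝ) < 2 * π := by positivity
  have h3 : (0:ℝ) ≤ j := by exact_mod_cast h0
  have h4 : ((j:ℝ) + 1) ≤ 2^n := by exact_mod_cast h1
  refine ⟨le_trans (by positivity) hθ.1, lt_of_lt_of_le hθ.2 ?_⟩
  rw [div_le_iff₀ h2]
  exact mul_le_mul_of_nonneg_left h4 hp.le

/-- The family of maximal dyadic arcs (of generation at most `N`) with property `P`. -/
noncomputable def stop (P : ℕ → ℤ → Prop) (N : ℕ) : Finset (ℕ × ℤ) := by
  classical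
  exact ((Finset.range (N+1)) ×ˢ (Finset.Ico (0:ℤ) (2^N))).filter
    (fun I => I.2 < 2^I.1 ∧ P I.1 I.2 ∧ ∀ m < I.1, ¬ P m (I.2 / 2^(I.1 - m)))

theorem mem_stop {P : ℕ → ℤ → Prop} {N : ℕ} {I : ℕ × ℤ} :
    I ∈ stop P N ↔ I.1 ≤ N ∧ 0 ≤ I.2 ∧ I.2 < 2^I.1 ∧ P I.1 I.2 ∧
      ∀ m < I.1, ¬ P m (I.2 / 2^(I.1 - m)) := by
  classical
  unfold stop
  rw [Finset.mem_filter, Finset.mem_product, Finset.mem_range, Finset.mem_Ico]
  constructor
  · rintro ⟨⟨h1, h2, h3⟩, h4, h5, h6⟩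
    exact ⟨by omega, h2, h4, h5, h6⟩
  · rintro ⟨h1, h2, h4, h5, h6⟩
    refine ⟨⟨by omega, h2, ?_⟩, h4, h5, h6⟩
    exact lt_of_lt_of_le h4 (pow_le_pow_right₀ (by norm_num) h1)

theorem stop_cover {P : ℕ → ℤ → Prop} {N : ℕ} {θ : ℝ} (h0 : 0 ≤ θ) (h1 : θ < 2 * π)
    (h : ∃ n ≤ N, P n (idx n θ)) : ∃ I ∈ stop P N, θ ∈ arc I.1 I.2 := by
  classical
  obtain ⟨n, hn, hP⟩ := h
  have hex : ∃ n, P n (idx n θ) := ⟨n, hP⟩
  set m := Nat.find hex with hm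
  have hmP : P m (idx m θ) := Nat.find_spec hex
  have hmin : ∀ k < m, ¬ P k (idx k θ) := fun k hk => Nat.find_min hex hk
  have hmn : m ≤ n := Nat.find_min' hex hP
  refine ⟨(m, idx m θ), mem_stop.2 ⟨by simpa using hmn.trans hn, idx_nonneg h0, idx_lt h1, hmP, ?_⟩,
    mem_arc_idx m θ⟩
  intro k hk
  have := hmin k hk
  rwa [idx_coarse hk.le θ] at this

theorem stop_disjoint {P : ℕ → ℤ → Prop} {N : ℕ} {I J : ℕ × ℤ} (hI : I ∈ stop P N)
    (hJ : J ∈ stop P N) {θ : ℝ} (hθI : θ ∈ arc I.1 I.2) (hθJ : θ ∈ arc J.1 J.2) : I = J := by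
  rw [mem_stop] at hI hJ
  rw [mem_arc_iff] at hθI hθJ
  obtain ⟨-, -, -, hPI, hmI⟩ := hI
  obtain ⟨-, -, -, hPJ, hmJ⟩ := hJ
  have h1 : I.1 = J.1 := by
    rcases lt_trichotomy I.1 J.1 with h | h | h
    · exfalso
      apply hmJ _ h
      rw [← hθJ, ← idx_coarse h.le, hθI]
      exact hPI
    · exact h
    · exfalso
      apply hmI _ h
      rw [← hθI, ← idx_coarse h.le, hθJ]
      exact hPJ
  have h2 : I.2 = J.2 := by rw [← hθI, ← hθJ, h1]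
  exact Prod.ext h1 h2

theorem stop_pairwise (P : ℕ → ℤ → Prop) (N : ℕ) :
    (stop P N : Set (ℕ × ℤ)).PairwiseDisjoint (fun I => arc I.1 I.2) := by
  intro I hI J hJ hIJ
  rw [Function.onFun, Set.disjoint_left]
  intro θ h1 h2
  exact hIJ (stop_disjoint hI hJ h1 h2)

theorem stop_subset {P : ℕ → ℤ → Prop} {N : ℕ} {I : ℕ × ℤ} (hI : I ∈ stop P N) :
    arc I.1 I.2 ⊆ Ico 0 (2 * π) := by
  rw [mem_stop] at hI
  exact arc_subset hI.2.1 hI.2.2.1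

theorem stop_sum_le (P : ℕ → ℤ → Prop) (N : ℕ) :
    ∑ I ∈ stop P N, (2 * π / 2^I.1 : ℝ) ≤ 2 * π := by
  have h1 : ∑ I ∈ stop P N, volume (arc I.1 I.2) ≤ volume (Ico 0 (2 * π)) := by
    rw [← measure_biUnion_finset (stop_pairwise P N) (fun I _ => measurableSet_arc _ _)]
    exact measure_mono (iUnion₂_subset fun I hI => stop_subset hI)
  rw [Real.volume_Ico, sub_zero] at h1
  simp_rw [volume_arc] at h1
  rw [← ENNReal.ofReal_sum_of_nonneg (fun I _ => by positivity),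
    ENNReal.ofReal_le_ofReal_iff (by positivity)] at h1
  exact h1

end Pool.Agent.Helper32.CN
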