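import Pool.Agent.Helper32.CN.Distortion
import Pool.Agent.Helper32.CN.Dyadic

open Complex Metric Set Filter Topology MeasureTheory InnerProductSpace

namespace Pool.Agent.Helper32.CN

open Real in
/-- radius of the top point of the dyadic box -/
noncomputable def rad (n : ℕ) : ℝ := 1 - (2^n)⁻¹

open Real in
/-- centre angle -/
noncomputable def ang (n : ℕ) (j : ℤ) : ℝ := 2 * π * (j + 1/2) / 2^n

/-- reference point of the dyadic box over the arc `(n, j)` -/
noncomputable def wI (n : ℕ) (j : ℤ) : ℂ := circleMap 0 (rad n) (ang n j)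

theorem rad_nonneg (n : ℕ) : 0 ≤ rad n := by
  unfold rad
  have : ((2:ℝ)^n)⁻¹ ≤ 1 := inv_le_one_of_one_le₀ (one_le_pow₀ (by norm_num))
  linarith

theorem rad_lt_one (n : ℕ) : rad n < 1 := by
  unfold rad
  have : (0:ℝ) < ((2:ℝ)^n)⁻¹ := by positivity
  linarith

theorem norm_wI (n : ℕ) (j : ℤ) : ‖wI n j‖ = rad n := by
  unfold wI
  rw [norm_circleMap_zero, abs_of_nonneg (rad_nonneg n)]

theorem wI_mem (n : ℕ) (j : ℤ) : wI n j ∈ ball (0:ℂ) 1 := by
  rw [mem_ball, dist_zero_right, norm_wI]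
  exact rad_lt_one n

theorem circleMap_mem {ρ : ℝ} (h0 : 0 ≤ ρ) (h1 : ρ < 1) (θ : ℝ) :
    circleMap 0 ρ θ ∈ ball (0:ℂ) 1 := by
  rw [mem_ball, dist_zero_right, norm_circleMap_zero, abs_of_nonneg h0]
  exact h1

theorem norm_circleMap_sub_le {ρ ρ' : ℝ} (h0 : 0 ≤ ρ') (h1 : ρ' ≤ 1) (θ θ' : ℝ) :
    ‖circleMap 0 ρ θ - circleMap 0 ρ' θ'‖ ≤ |ρ - ρ'| + |θ - θ'| := by
  have e1 : ‖circleMap 0 ρ θ - circleMap 0 ρ' θ‖ = |ρ - ρ'| := by
    simp only [circleMap, zero_add]
    rw [← sub_mul, norm_mul, Complex.norm_exp_ofReal_mul_I, mul_one, ← Complex.ofReal_sub,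
      Complex.norm_real, Real.norm_eq_abs]
  have e2 : ‖circleMap 0 ρ' θ - circleMap 0 ρ' θ'‖ ≤ |θ - θ'| := by
    have h := (lipschitzWith_circleMap 0 ρ').dist_le_mul θ θ'
    rw [dist_eq_norm, Real.dist_eq] at h
    simp only [Real.coe_nnabs, abs_of_nonneg h0] at h
    refine h.trans ?_
    exact mul_le_of_le_one_left (abs_nonneg _) h1
  calc ‖circleMap 0 ρ θ - circleMap 0 ρ' θ'‖
      = ‖(circleMap 0 ρ θ - circleMap 0 ρ' θ) + (circleMap 0 ρ' θ - circleMap 0 ρ' θ')‖ := by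
        congr 1; ring
    _ ≤ _ := norm_add_le _ _
    _ ≤ |ρ - ρ'| + |θ - θ'| := by rw [e1]; linarith

open Real in
theorem abs_sub_ang_le {n : ℕ} {j : ℤ} {θ : ℝ} (h : θ ∈ arc n j) : |θ - ang n j| ≤ π / 2^n := by
  unfold arc at h
  unfold ang
  rw [abs_le]
  have h2 : (0:ℝ) < 2^n := by positivity
  obtain ⟨h3, h4⟩ := h
  rw [div_le_iff₀ h2] at h3
  rw [lt_div_iff₀ h2] at h4
  constructor
  · rw [neg_le, neg_sub, sub_le_iff_le_add, div_add' _ _ _ h2.ne', div_le_div_iff_of_pos_right h2]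
    linarith
  · rw [sub_le_iff_le_add, ← add_div, le_div_iff₀ h2]
    linarith

theorem poissonKernel_lower {n : ℕ} {j : ℤ} {θ ρ : ℝ} (hθ : θ ∈ arc n j)
    (hρ : rad (n+1) ≤ ρ) (hρ1 : ρ < 1) :
    (2:ℝ)^n / 100 ≤ poissonKernel 0 (wI n j) (circleMap 0 ρ θ) := by
  have h2 : (0:ℝ) < (2^n : ℝ)⁻¹ := by positivity
  have hr : rad n = 1 - (2^n : ℝ)⁻¹ := rfl
  have hr1 : rad (n+1) = 1 - (2^n : ℝ)⁻¹/2 := by
    unfold rad; rw [pow_succ, mul_inv]; ring
  set e := (2^n : ℝ)⁻¹ with he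
  have he1 : e ≤ 1 := inv_le_one_of_one_le₀ (one_le_pow₀ (by norm_num))
  have hwρ : ‖wI n j‖ < ρ := by rw [norm_wI]; linarith
  rw [poissonKernel_circle, norm_wI]
  have hden : ‖circleMap 0 ρ θ - wI n j‖ ≤ 5 * e := by
    unfold wI
    refine (norm_circleMap_sub_le (rad_nonneg n) (rad_lt_one n).le _ _).trans ?_
    have a1 := abs_sub_ang_le hθ
    have a2 : |ρ - rad n| ≤ e := by
      rw [abs_le]; constructor <;> linarith
    have a3 : Real.pi / 2^n ≤ 4 * e := by
      rw [div_eq_mul_inv]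
      exact mul_le_mul_of_nonneg_right Real.pi_le_four h2.le
    linarith
  have hpos := norm_pos_iff.2 (circleMap_sub_ne hwρ θ)
  have hnum : e / 4 ≤ ρ^2 - (rad n)^2 := by
    have : ρ^2 - (rad n)^2 = (ρ - rad n) * (ρ + rad n) := by ring
    rw [this]
    have a1 : e/2 ≤ ρ - rad n := by linarith
    have a2 : 1/2 ≤ ρ + rad n := by
      have := rad_nonneg n
      linarith
    nlinarith
  rw [le_div_iff₀ (by positivity)]
  have h3 : ‖circleMap 0 ρ θ - wI n j‖^2 ≤ (5*e)^2 := pow_le_pow_left₀ hpos.le hden 2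
  have h4 : (2:ℝ)^n = 1 / e := by rw [he]; simp
  rw [h4]
  calc 1 / e / 100 * ‖circleMap 0 ρ θ - wI n j‖^2 ≤ 1 / e / 100 * (5*e)^2 := by gcongr
    _ = e / 4 := by field_simp; ring
    _ ≤ _ := hnum

open Real in
/-- Chebyshev on a dyadic arc, from the Poisson formula. -/
theorem arc_chebyshev {L : ℂ → ℂ} (hL : DifferentiableOn ℂ L (ball 0 1))
    (hpos : ∀ w ∈ ball (0:ℂ) 1, 0 ≤ (L w).re) {n : ℕ} {j : ℤ} (hj0 : 0 ≤ j) (hj1 : j < 2^n)
    {ρ : ℝ} (hρ : rad (n+1) ≤ ρ) (hρ1 : ρ < 1) {T : ℝ} (hT : 0 < T) :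
    volume {θ ∈ arc n j | T < (L (circleMap 0 ρ θ)).re} ≤
      ENNReal.ofReal (100 * (2 * π / 2^n) * (L (wI n j)).re / T) := by
  have hρ0 : 0 ≤ ρ := (rad_nonneg _).trans hρ
  have hwρ : ‖wI n j‖ < ρ := by
    rw [norm_wI]
    refine lt_of_lt_of_le ?_ hρ
    unfold rad
    rw [pow_succ, mul_inv]
    have : (0:ℝ) < (2^n)⁻¹ := by positivity
    linarith
  set u : ℝ → ℝ := fun θ => (L (circleMap 0 ρ θ)).re with hu
  have huc : Continuous u :=
    Complex.continuous_re.comp (continuousOn_circle hL.continuousOn hρ0 hρ1)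
  have hu0 : ∀ θ, 0 ≤ u θ := fun θ => hpos _ (circleMap_mem hρ0 hρ1 θ)
  have hP := continuous_poissonKernel_circle hwρ
  have hsub : arc n j ⊆ Ioc 0 (2*π) ∪ {0} := by
    intro θ hθ
    have := arc_subset hj0 hj1 hθ
    rcases this.1.eq_or_lt with h | h
    · right; exact h.symm
    · left; exact ⟨h, this.2.le⟩
  -- integral over the arc
  have h1 : ∫ θ in arc n j, u θ ≤ (100 / 2^n) * (2 * π * (L (wI n j)).re) := by
    rw [← poisson_re hL hρ1 hwρ, intervalIntegral.integral_of_le (by positivity),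
      ← integral_const_mul]
    have hmeas : MeasurableSet (arc n j) := measurableSet_arc n j
    have hsub' : arc n j ≤ᵐ[volume] Ioc 0 (2*π) := by
      have : (arc n j \ {0} : Set ℝ) ⊆ Ioc 0 (2*π) := by
        intro θ hθ
        rcases hsub hθ.1 with h | h
        · exact h
        · exact absurd h hθ.2
      refine (MeasureTheory.ae_le_set).2 ?_
      refine measure_mono_null (t := {0}) ?_ (by simp)
      intro θ hθ
      by_contra h0
      exact hθ.2 (this ⟨hθ.1, h0⟩)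
    have hint2 : IntegrableOn (fun θ => 100 / 2^n *
        (poissonKernel 0 (wI n j) (circleMap 0 ρ θ) * (L (circleMap 0 ρ θ)).re))
        (Ioc 0 (2*π)) := by
      have hc : Continuous (fun θ => 100 / 2^n *
        (poissonKernel 0 (wI n j) (circleMap 0 ρ θ) * (L (circleMap 0 ρ θ)).re)) :=
        continuous_const.mul (hP.mul huc)
      exact (hc.integrableOn_Icc).mono_set Ioc_subset_Icc_self
    refine le_trans ?_ (setIntegral_mono_set hint2 ?_ hsub')
    · refine setIntegral_mono_on ?_ ?_ hmeas ?_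
      · exact (huc.integrableOn_Icc (a := 0) (b := 2*π)).mono_set
          ((arc_subset hj0 hj1).trans Ico_subset_Icc_self)
      · have hc : Continuous (fun θ => 100 / 2^n *
          (poissonKernel 0 (wI n j) (circleMap 0 ρ θ) * (L (circleMap 0 ρ θ)).re)) :=
          continuous_const.mul (hP.mul huc)
        exact (hc.integrableOn_Icc (a := 0) (b := 2*π)).mono_set
          ((arc_subset hj0 hj1).trans Ico_subset_Icc_self)
      · intro θ hθ
        have h3 := poissonKernel_lower hθ hρ hρ1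
        have h4 := hu0 θ
        have h5 : 1 ≤ 100 / 2^n * poissonKernel 0 (wI n j) (circleMap 0 ρ θ) := by
          rw [div_mul_eq_mul_div, one_le_div₀ (by positivity)]
          linarith
        calc u θ = 1 * u θ := (one_mul _).symm
          _ ≤ (100 / 2^n * poissonKernel 0 (wI n j) (circleMap 0 ρ θ)) * u θ :=
            mul_le_mul_of_nonneg_right h5 h4
          _ = _ := by rw [hu]; ring
    · refine Filter.Eventually.of_forall fun θ => ?_
      have h3 := (poissonKernel_circle_pos hwρ θ).le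
      have h4 := hu0 θ
      simp only [Pi.zero_apply]
      positivity
  -- Chebyshev
  have h2 := mul_meas_ge_le_integral_of_nonneg (μ := volume.restrict (arc n j)) (f := u)
    (Filter.Eventually.of_forall hu0)
    ((huc.integrableOn_Icc (a := 0) (b := 2*π)).mono_set
          ((arc_subset hj0 hj1).trans Ico_subset_Icc_self)) T
  have h3 : volume {θ ∈ arc n j | T < (L (circleMap 0 ρ θ)).re} ≤
      (volume.restrict (arc n j)) {θ | T ≤ u θ} := by
    rw [Measure.restrict_apply (measurableSet_le measurable_const huc.measurable)]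
    exact measure_mono fun θ hθ => ⟨le_of_lt hθ.2, hθ.1⟩
  have hfin : (volume.restrict (arc n j)) {θ | T ≤ u θ} ≠ ⊤ := by
    refine ne_top_of_le_ne_top ?_ (measure_mono (subset_univ _))
    rw [Measure.restrict_apply_univ, volume_arc]
    exact ENNReal.ofReal_ne_top
  refine h3.trans ?_
  rw [← ENNReal.ofReal_toReal hfin]
  apply ENNReal.ofReal_le_ofReal
  rw [le_div_iff₀ hT]
  have h4 : T * ((volume.restrict (arc n j)) {θ | T ≤ u θ}).toReal ≤
    (100 / 2^n) * (2 * π * (L (wI n j)).re) := h2.trans h1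
  calc _ = T * ((volume.restrict (arc n j)) {θ | T ≤ u θ}).toReal := by ring
    _ ≤ _ := h4
    _ = _ := by ring

end Pool.Agent.Helper32.CN
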