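import Pool.Agent.Helper32.CN.CZ

open Complex Metric Set Filter Topology MeasureTheory
open scoped ENNReal

namespace Pool.Agent.Helper32.CN

/-- density representing the Cauchy kernel of an omitted point -/
noncomputable def Gat (φ : ℂ → ℂ) (F : Set ℝ) (s : ℝ) (ζ p : ℂ) (θ : ℝ) : ℂ :=
  (2 * Real.pi * I)⁻¹ * (bb F θ * PhiD φ (zz F s θ) *
    ((XX φ F s θ - p)⁻¹ - (XX φ F s θ - ζ)⁻¹))

namespace Saw

variable {φ : ℂ → ℂ} {F : Set ℝ} {s Λ : ℝ} (S : Saw φ F s Λ)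
include S

theorem XX_per (θ : ℝ) (k : ℤ) : XX φ F s (θ + k * (2 * Real.pi)) = XX φ F s θ := by
  unfold XX Phi
  rw [S.exp_zz_per]

/-- nearest point of the curve to `ζ` -/
theorem exists_nearest_curve (ζ : ℂ) : ∃ θ₁, ∀ θ, ‖XX φ F s θ₁ - ζ‖ ≤ ‖XX φ F s θ - ζ‖ := by
  have hc : ContinuousOn (fun θ => ‖XX φ F s θ - ζ‖) (Icc 0 (2 * Real.pi)) :=
    (S.continuous_XX.sub continuous_const).norm.continuousOn
  obtain ⟨θ₁, -, h⟩ := isCompact_Icc.exists_isMinOn (nonempty_Icc.2 (by positivity)) hc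
  refine ⟨θ₁, fun θ => ?_⟩
  have hpi : (0:ℝ) < 2 * Real.pi := by positivity
  set k : ℤ := ⌊θ / (2 * Real.pi)⌋ with hk
  have h1 : θ - k * (2 * Real.pi) ∈ Icc 0 (2 * Real.pi) := by
    have a1 := Int.floor_le (θ / (2 * Real.pi))
    have a2 := Int.lt_floor_add_one (θ / (2 * Real.pi))
    rw [← hk] at a1 a2
    rw [le_div_iff₀ hpi] at a1
    rw [div_lt_iff₀ hpi] at a2
    constructor <;> linarith
  have h2 := h h1
  have h3 : XX φ F s (θ - k * (2 * Real.pi)) = XX φ F s θ := by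
    have := S.XX_per θ (-k)
    push_cast at this
    rw [← this]; congr 1; ring
  simp only [mem_ofPred_eq, h3] at h2
  exact h2

theorem measurable_PhiD_zz : Measurable fun θ => PhiD φ (zz F s θ) := by
  have hz : Continuous (zz F s) := (zz_lipschitz F s).continuous
  have h1 : Continuous fun θ => exp (I * zz F s θ) := by fun_prop
  have h2 : Continuous fun θ => deriv φ (exp (I * zz F s θ)) :=
    (S.hd.deriv isOpen_ball).continuousOn.comp_continuous h1 fun θ => S.mem_ball θ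
  unfold PhiD
  exact ((continuous_const.mul h1).mul h2).measurable

theorem measurable_Gat (ζ p : ℂ) : Measurable (Gat φ F s ζ p) := by
  unfold Gat
  have hX := S.continuous_XX.measurable
  exact measurable_const.mul (((measurable_bb F).mul S.measurable_PhiD_zz).mul
    (((hX.sub_const p).inv).sub (hX.sub_const ζ).inv))

/-- vanishing of the double integral -/
theorem integral_two_inner {z₀ z₁ : ℂ} (h0 : yy F s z₀.re < z₀.im) (h1 : yy F s z₁.re < z₁.im) :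
    IntervalIntegrable (fun θ => bb F θ * (PhiD φ (zz F s θ) *
      ((XX φ F s θ - Phi φ z₁)⁻¹ * (XX φ F s θ - Phi φ z₀)⁻¹))) volume 0 (2 * Real.pi) ∧
    ∫ θ in (0:ℝ)..2 * Real.pi, bb F θ * (PhiD φ (zz F s θ) *
      ((XX φ F s θ - Phi φ z₁)⁻¹ * (XX φ F s θ - Phi φ z₀)⁻¹)) = 0 := by
  have hne : ∀ z : ℂ, yy F s z.re < z.im → ∀ θ, XX φ F s θ - Phi φ z ≠ 0 := by
    intro z hz θ he
    unfold XX Phi at he
    have := S.yy_pos z.re
    exact S.exp_ne hz θ (S.hi (S.mem_ball θ) (exp_I_mem (by linarith)) (sub_eq_zero.1 he))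
  by_cases hpq : Phi φ z₁ = Phi φ z₀
  · rw [hpq]
    have h := curve_ftc F s (G := fun z => -(Phi φ z - Phi φ z₀)⁻¹) ?_
      (g := fun θ => PhiD φ (zz F s θ) * ((XX φ F s θ - Phi φ z₀)⁻¹ * (XX φ F s θ - Phi φ z₀)⁻¹)) ?_
    · refine ⟨h.1, ?_⟩
      rw [h.2]
      have e : Phi φ (zz F s (2 * Real.pi)) = Phi φ (zz F s 0) := by
        unfold Phi; rw [S.exp_zz_two_pi]
      rw [e, sub_self]
    · intro θ
      have h2 : AnalyticAt ℂ (Phi φ) (zz F s θ) := by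
        have a1 : AnalyticAt ℂ φ (exp (I * zz F s θ)) :=
          S.hd.analyticAt (isOpen_ball.mem_nhds (S.mem_ball θ))
        have a2 : AnalyticAt ℂ (fun z => exp (I * z)) (zz F s θ) := by fun_prop
        exact AnalyticAt.comp (g := φ) (f := fun z => exp (I * z)) a1 a2
      exact ((h2.sub analyticAt_const).inv (hne z₀ h0 θ)).neg
    · intro θ
      have a0 : 0 < (zz F s θ).im := by rw [zz_im]; exact S.yy_pos θ
      have a1 := ((S.hasDerivAt_Phi a0).sub_const (Phi φ z₀)).inv (hne z₀ h0 θ)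
      have a2 := a1.neg
      convert! a2 using 1
      have := hne z₀ h0 θ
      unfold XX at this ⊢
      field_simp
  · obtain ⟨i1, e1⟩ := S.integral_winding h1
    obtain ⟨i0, e0⟩ := S.integral_winding h0
    have e : (fun θ => bb F θ * (PhiD φ (zz F s θ) *
        ((XX φ F s θ - Phi φ z₁)⁻¹ * (XX φ F s θ - Phi φ z₀)⁻¹))) =
        fun θ => (Phi φ z₁ - Phi φ z₀)⁻¹ * (bb F θ * (PhiD φ (zz F s θ) / (XX φ F s θ - Phi φ z₁)) -
          bb F θ * (PhiD φ (zz F s θ) / (XX φ F s θ - Phi φ z₀))) := by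
      ext θ
      have n1 := hne z₁ h1 θ
      have n0 := hne z₀ h0 θ
      have n2 := sub_ne_zero.2 hpq
      field_simp
      ring
    rw [e]
    refine ⟨(i1.sub i0).const_mul _, ?_⟩
    rw [intervalIntegral.integral_const_mul, intervalIntegral.integral_sub i1 i0, e1, e0]
    ring

/-- exact representation of the Cauchy kernel of an omitted point -/
theorem representation {ζ : ℂ} (hζ : ∀ w ∈ ball (0:ℂ) 1, φ w ≠ ζ) {z₀ z₁ : ℂ}
    (h0 : yy F s z₀.re < z₀.im) (h1 : yy F s z₁.re < z₁.im) :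
    Integrable (fun θ => Gat φ F s ζ (Phi φ z₁) θ * (XX φ F s θ - Phi φ z₀)⁻¹) ν0 ∧
    ∫ θ, Gat φ F s ζ (Phi φ z₁) θ * (XX φ F s θ - Phi φ z₀)⁻¹ ∂ν0 = (ζ - Phi φ z₀)⁻¹ := by
  have hz0 : exp (I * z₀) ∈ ball (0:ℂ) 1 := exp_I_mem (by have := S.yy_pos z₀.re; linarith)
  have hne : ∀ θ, XX φ F s θ - Phi φ z₀ ≠ 0 := by
    intro θ he
    unfold XX Phi at he
    exact S.exp_ne h0 θ (S.hi (S.mem_ball θ) hz0 (sub_eq_zero.1 he))
  have hneζ : ∀ θ, XX φ F s θ - ζ ≠ 0 := fun θ => sub_ne_zero.2 (hζ _ (S.mem_ball θ))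
  have hq : ζ - Phi φ z₀ ≠ 0 := sub_ne_zero.2 (hζ _ hz0).symm
  obtain ⟨i1, e1⟩ := S.integral_two_inner h0 h1
  obtain ⟨i2, e2⟩ := S.integral_omitted hζ
  obtain ⟨i3, e3⟩ := S.integral_winding h0
  have e : (fun θ => Gat φ F s ζ (Phi φ z₁) θ * (XX φ F s θ - Phi φ z₀)⁻¹) =
      fun θ => (2 * Real.pi * I)⁻¹ * (bb F θ * (PhiD φ (zz F s θ) *
        ((XX φ F s θ - Phi φ z₁)⁻¹ * (XX φ F s θ - Phi φ z₀)⁻¹)) -
        (ζ - Phi φ z₀)⁻¹ * (bb F θ * (PhiD φ (zz F s θ) / (XX φ F s θ - ζ)) -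
          bb F θ * (PhiD φ (zz F s θ) / (XX φ F s θ - Phi φ z₀)))) := by
    ext θ
    have n1 := hne θ
    have n2 := hneζ θ
    have key : (XX φ F s θ - ζ)⁻¹ * (XX φ F s θ - Phi φ z₀)⁻¹ =
        (ζ - Phi φ z₀)⁻¹ * ((XX φ F s θ - ζ)⁻¹ - (XX φ F s θ - Phi φ z₀)⁻¹) := by
      field_simp
      ring
    unfold Gat
    calc _ = (2 * Real.pi * I)⁻¹ * (bb F θ * (PhiD φ (zz F s θ) *
        ((XX φ F s θ - Phi φ z₁)⁻¹ * (XX φ F s θ - Phi φ z₀)⁻¹)) -
        bb F θ * PhiD φ (zz F s θ) * ((XX φ F s θ - ζ)⁻¹ * (XX φ F s θ - Phi φ z₀)⁻¹)) := by ring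
      _ = _ := by rw [key]; ring
  rw [integrable_ν0, integral_ν0, e]
  refine ⟨(i1.sub ((i2.sub i3).const_mul _)).const_mul _, ?_⟩
  rw [intervalIntegral.integral_const_mul,
    intervalIntegral.integral_sub i1 ((i2.sub i3).const_mul _),
    intervalIntegral.integral_const_mul, intervalIntegral.integral_sub i2 i3, e1, e2, e3]
  have hpi : (2 * Real.pi * I : ℂ) ≠ 0 := by
    simp [Real.pi_ne_zero]
  field_simp
  ring

/-- a good choice of the auxiliary point, with `L¹` bound -/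
theorem exists_Gat {D : ℝ} (hD : 1 ≤ D) {ζ : ℂ} (hζ : ∀ w ∈ ball (0:ℂ) 1, φ w ≠ ζ)
    (hζD : ∀ w ∈ ball (0:ℂ) 1, ‖φ w - ζ‖ ≤ D) :
    ∃ z₁ : ℂ, yy F s z₁.re < z₁.im ∧ Integrable (Gat φ F s ζ (Phi φ z₁)) ν0 ∧
      ∫ θ, ‖Gat φ F s ζ (Phi φ z₁) θ‖ ∂ν0 ≤ 4 * 10^6 * D * Λ^8 := by
  have hΛ := S.hΛ
  have hΛ0 := S.Λpos
  obtain ⟨θ₁, hmin⟩ := S.exists_nearest_curve ζ
  set d := ‖XX φ F s θ₁ - ζ‖ with hd
  have hd0 : 0 < d := norm_pos_iff.2 (sub_ne_zero.2 (hζ _ (S.mem_ball θ₁)))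
  have hdD : d ≤ D := hζD _ (S.mem_ball θ₁)
  set τ := d / (4 * D) with hτ
  have hD0 : 0 < D := by linarith
  have hτ0 : 0 < τ := by positivity
  have hτd : τ ≤ d := by
    rw [hτ, div_le_iff₀ (by positivity)]; nlinarith
  have hτ1 : τ ≤ 2/5 := by
    rw [hτ, div_le_iff₀ (by positivity)]; linarith
  set z₁ : ℂ := zz F s θ₁ + τ * I with hz₁
  set p := Phi φ z₁ with hp
  have hX := S.continuous_XX.measurable
  -- pointwise bound
  have hpt : ∀ θ, ‖Gat φ F s ζ p θ‖ ≤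
      (3464 * D * Λ^4) * (d / (d + ‖XX φ F s θ - XX φ F s θ₁‖)^2) := by
    intro θ
    set r := ‖XX φ F s θ - XX φ F s θ₁‖ with hr
    have hr0 : 0 ≤ r := norm_nonneg _
    have a1 : ‖p - ζ‖ ≤ 2 * Λ * d := by
      have b1 := S.vertical_XX θ₁ hτ0.le
      have b2 := norm_add_le (p - XX φ F s θ₁) (XX φ F s θ₁ - ζ)
      rw [sub_add_sub_cancel] at b2
      have b3 : Λ * τ ≤ Λ * d := mul_le_mul_of_nonneg_left hτd hΛ0.le
      have b4 : d ≤ Λ * d := le_mul_of_one_le_left hd0.le hΛ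
      have b5 : ‖p - XX φ F s θ₁‖ ≤ Λ * τ := b1
      linarith
    have a2 : (r + d) / 3 ≤ ‖XX φ F s θ - ζ‖ := by
      have b1 := hmin θ
      have b2 := norm_sub_le (XX φ F s θ - ζ) (XX φ F s θ₁ - ζ)
      rw [sub_sub_sub_cancel_right] at b2
      linarith
    have a3 : (433 * Λ^2)⁻¹ * ((r + d) / (4 * D)) ≤ ‖XX φ F s θ - p‖ := by
      have b1 := S.sep_add hτ0 hτ1 (θ₀ := θ₁) θ
      refine le_trans (mul_le_mul_of_nonneg_left ?_ (by positivity)) b1
      rw [add_div]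
      have : r / (4 * D) ≤ r := div_le_self hr0 (by linarith)
      linarith
    have a4 : 0 < ‖XX φ F s θ - ζ‖ := lt_of_lt_of_le (by positivity) a2
    have a5 : 0 < ‖XX φ F s θ - p‖ := lt_of_lt_of_le (by positivity) a3
    have n1 := norm_pos_iff.1 a4
    have n2 := norm_pos_iff.1 a5
    have a6 : (XX φ F s θ - p)⁻¹ - (XX φ F s θ - ζ)⁻¹ =
        (p - ζ) / ((XX φ F s θ - p) * (XX φ F s θ - ζ)) := by
      field_simp
      ring
    have a7 : ‖PhiD φ (zz F s θ)‖ ≤ Λ := by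
      apply S.norm_PhiD_le
      rw [zz_re, zz_im]
      have := S.yy_pos θ
      linarith
    have a8 : ‖(2 * Real.pi * I : ℂ)⁻¹‖ ≤ 1/6 := by
      rw [norm_inv, norm_mul, norm_mul, Complex.norm_I, mul_one, Complex.norm_ofNat,
        Complex.norm_real, Real.norm_eq_abs, abs_of_pos Real.pi_pos, one_div]
      apply inv_anti₀ (by norm_num)
      have := Real.pi_gt_three
      linarith
    unfold Gat
    rw [a6, norm_mul, norm_mul, norm_mul, norm_div, norm_mul]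
    have a9 : ‖p - ζ‖ / (‖XX φ F s θ - p‖ * ‖XX φ F s θ - ζ‖) ≤
        (2 * Λ * d) / (((433 * Λ^2)⁻¹ * ((r + d) / (4 * D))) * ((r + d) / 3)) := by
      apply div_le_div₀ (by positivity) a1 (by positivity)
      exact mul_le_mul a3 a2 (by positivity) a5.le
    calc ‖(2 * Real.pi * I : ℂ)⁻¹‖ * (‖bb F θ‖ * ‖PhiD φ (zz F s θ)‖ *
          (‖p - ζ‖ / (‖XX φ F s θ - p‖ * ‖XX φ F s θ - ζ‖)))
        ≤ (1/6) * (2 * Λ * ((2 * Λ * d) / (((433 * Λ^2)⁻¹ * ((r + d) / (4 * D))) * ((r + d) / 3)))) := by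
          apply mul_le_mul a8 _ (by positivity) (by norm_num)
          apply mul_le_mul _ a9 (by positivity) (by positivity)
          exact mul_le_mul (norm_bb_le F θ) a7 (norm_nonneg _) (by norm_num)
      _ = (3464 * D * Λ^4) * (d / (d + r)^2) := by
          have h5 : 0 < r + d := by positivity
          have h6 : d + r = r + d := by ring
          rw [h6]
          field_simp
          ring
  have htail := tail_integral (ν := ν0) hX (G := 120 * Λ^4) (by positivity)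
    (x := XX φ F s θ₁) (fun r hr => S.growth_ν0 _ hr) hd0
  have htaili := tail_integrable (ν := ν0) hX (x := XX φ F s θ₁) hd0
  have hi : Integrable (Gat φ F s ζ p) ν0 := by
    refine Integrable.mono' (htaili.const_mul (3464 * D * Λ^4))
      (S.measurable_Gat ζ p).aestronglyMeasurable (Filter.Eventually.of_forall hpt)
  refine ⟨z₁, by simp [hz₁, hτ0], hi, ?_⟩
  calc ∫ θ, ‖Gat φ F s ζ p θ‖ ∂ν0
      ≤ ∫ θ, (3464 * D * Λ^4) * (d / (d + ‖XX φ F s θ - XX φ F s θ₁‖)^2) ∂ν0 :=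
        integral_mono hi.norm (htaili.const_mul _) hpt
    _ = (3464 * D * Λ^4) * ∫ θ, (d / (d + ‖XX φ F s θ - XX φ F s θ₁‖)^2) ∂ν0 :=
        integral_const_mul _ _
    _ ≤ (3464 * D * Λ^4) * (8 * (120 * Λ^4)) := by gcongr
    _ ≤ 4 * 10^6 * D * Λ^8 := by
        have : 0 ≤ D * Λ^8 := by positivity
        nlinarith

end Saw

end Pool.Agent.Helper32.CN
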