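import Mathlib

open Metric Set Filter Topology MeasureTheory Real

namespace Pool.Agent.Helper32.CN

theorem posLog_le_add {x y : ℝ} (hx : 0 ≤ x) (hy : 0 ≤ y) : log⁺ x ≤ log⁺ y + |x - y| := by
  rw [posLog_eq_log_max_one hx, posLog_eq_log_max_one hy]
  have h0 := abs_nonneg (x - y)
  have h1 : max 1 x ≤ max 1 y * (1 + |x - y|) := by
    have a1 : x ≤ y + |x - y| := by linarith [le_abs_self (x - y)]
    have a2 : 1 ≤ max 1 y := le_max_left _ _
    have a3 : y ≤ max 1 y := le_max_right _ _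
    apply max_le
    · nlinarith
    · nlinarith
  have h2 : 0 < max 1 y := lt_of_lt_of_le one_pos (le_max_left _ _)
  have h3 : 0 < max 1 x := lt_of_lt_of_le one_pos (le_max_left _ _)
  calc Real.log (max 1 x) ≤ Real.log (max 1 y * (1 + |x - y|)) := Real.log_le_log h3 h1
    _ = Real.log (max 1 y) + Real.log (1 + |x - y|) := by
        rw [Real.log_mul h2.ne' (by positivity)]
    _ ≤ Real.log (max 1 y) + |x - y| := by
        have := Real.log_le_sub_one_of_pos (show 0 < 1 + |x - y| by positivity)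
        linarith

/-- A nonlinear uniform boundedness principle. -/
theorem ubp {E : Type*} [NormedAddCommGroup E] [NormedSpace ℝ E] [CompleteSpace E]
    (T : ℕ → E → ℝ) (C₀ : ℝ) (hcont : ∀ m, Continuous (T m))
    (hsub : ∀ m a b, T m (a - b) ≤ T m a + T m b + C₀)
    (D : ℝ → ℝ) (hscale : ∀ m s a, T m (s • a) ≤ T m a + D s)
    (hb : ∀ c, ∃ C, ∀ m, T m c ≤ C) : ∃ C, ∀ c, ‖c‖ ≤ 1 → ∀ m, T m c ≤ C := by
  set A : ℕ → Set E := fun j => {c | ∀ m, T m c ≤ j} with hA
  have hclosed : ∀ j, IsClosed (A j) := by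
    intro j
    have : A j = ⋂ m, {c | T m c ≤ j} := by ext c; simp [hA]
    rw [this]
    exact isClosed_iInter fun m => isClosed_le (hcont m) continuous_const
  have hunion : ⋃ j, A j = univ := by
    rw [eq_univ_iff_forall]
    intro c
    obtain ⟨C, hC⟩ := hb c
    obtain ⟨j, hj⟩ := exists_nat_ge C
    exact mem_iUnion.2 ⟨j, fun m => (hC m).trans hj⟩
  obtain ⟨j, c₀, hc₀⟩ := nonempty_interior_of_iUnion_of_closed hclosed hunion
  obtain ⟨r, hr, hball⟩ := Metric.isOpen_iff.1 isOpen_interior c₀ hc₀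
  have hball' : ball c₀ r ⊆ A j := hball.trans interior_subset
  refine ⟨(j + j + C₀) + D (2/r), fun c hc m => ?_⟩
  have h1 : c₀ + (r/2) • c ∈ ball c₀ r := by
    rw [mem_ball, dist_self_add_left, norm_smul, Real.norm_eq_abs, abs_of_pos (by linarith)]
    nlinarith
  have h2 := hball' h1 m
  have h3 := hball' (mem_ball_self hr) m
  have h4 := hsub m (c₀ + (r/2) • c) c₀
  rw [add_sub_cancel_left] at h4
  have h5 := hscale m (2/r) ((r/2) • c)
  rw [smul_smul] at h5
  have h6 : 2 / r * (r / 2) = 1 := by field_simp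
  rw [h6, one_smul] at h5
  linarith

section l1

variable {ι : Type*} (K : ℕ → ι → ℝ → ℂ) (B : ℕ → ℝ)

theorem summable_mul_K (hK : ∀ m i θ, ‖K m i θ‖ ≤ B m) {c : ι → ℝ} (hc : Summable fun i => |c i|)
    (m : ℕ) (θ : ℝ) : Summable fun i => (c i : ℂ) * K m i θ := by
  refine Summable.of_norm_bounded (hc.mul_right (B m)) fun i => ?_
  rw [norm_mul, Complex.norm_real, Real.norm_eq_abs]
  exact mul_le_mul_of_nonneg_left (hK m i θ) (abs_nonneg _)

theorem continuous_tsum_K (hK : ∀ m i θ, ‖K m i θ‖ ≤ B m) (hKc : ∀ m i, Continuous (K m i))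
    {c : ι → ℝ} (hc : Summable fun i => |c i|) (m : ℕ) :
    Continuous fun θ => ∑' i, (c i : ℂ) * K m i θ := by
  refine continuous_tsum (u := fun i => |c i| * B m) (fun i => continuous_const.mul (hKc m i))
    (hc.mul_right (B m)) fun i θ => ?_
  rw [norm_mul, Complex.norm_real, Real.norm_eq_abs]
  exact mul_le_mul_of_nonneg_left (hK m i θ) (abs_nonneg _)

theorem norm_tsum_K_le (hK : ∀ m i θ, ‖K m i θ‖ ≤ B m) {c : ι → ℝ} (hc : Summable fun i => |c i|)
    (m : ℕ) (θ : ℝ) : ‖∑' i, (c i : ℂ) * K m i θ‖ ≤ B m * ∑' i, |c i| := by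
  have h1 : Summable fun i => ‖(c i : ℂ) * K m i θ‖ :=
    (hc.mul_right (B m)).of_nonneg_of_le (fun i => norm_nonneg _) fun i => by
      rw [norm_mul, Complex.norm_real, Real.norm_eq_abs]
      exact mul_le_mul_of_nonneg_left (hK m i θ) (abs_nonneg _)
  refine (norm_tsum_le_tsum_norm h1).trans ?_
  rw [mul_comm, ← tsum_mul_right]
  refine h1.tsum_le_tsum (fun i => ?_) (hc.mul_right (B m))
  rw [norm_mul, Complex.norm_real, Real.norm_eq_abs]
  exact mul_le_mul_of_nonneg_left (hK m i θ) (abs_nonneg _)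

theorem l1_ubp (hK : ∀ m i θ, ‖K m i θ‖ ≤ B m) (hKc : ∀ m i, Continuous (K m i))
    (hpos : ∀ c : ι → ℝ, (∀ i, 0 ≤ c i) → Summable c →
      ∃ C, ∀ m, ∫ θ in (0:ℝ)..2*π, log⁺ ‖∑' i, (c i : ℂ) * K m i θ‖ ≤ C) :
    ∃ C, ∀ (s : Finset ι) (c : ι → ℝ), ∑ i ∈ s, |c i| ≤ 1 →
      ∀ m, ∫ θ in (0:ℝ)..2*π, log⁺ ‖∑ i ∈ s, (c i : ℂ) * K m i θ‖ ≤ C := by
  classical
  -- the functional
  set E := lp (fun _ : ι => ℝ) 1 with hE
  have hsum : ∀ c : E, Summable fun i => |(c : ι → ℝ) i| := by
    intro c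
    have := (lp.memℓp c).summable (by norm_num)
    simpa using this
  set T : ℕ → E → ℝ := fun m c => ∫ θ in (0:ℝ)..2*π, log⁺ ‖∑' i, (((c : ι → ℝ) i : ℝ) : ℂ) * K m i θ‖
    with hT
  have hnorm : ∀ c : E, ‖c‖ = ∑' i, |(c : ι → ℝ) i| := by
    intro c
    rw [lp.norm_eq_tsum_rpow (by norm_num)]
    simp
  have hint : ∀ {c : ι → ℝ}, (Summable fun i => |c i|) → ∀ m, IntervalIntegrable
      (fun θ => log⁺ ‖∑' i, (c i : ℂ) * K m i θ‖) volume 0 (2*π) := by
    intro c hc m
    exact (continuous_posLog.comp (continuous_tsum_K K B hK hKc hc m).norm).intervalIntegrable _ _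
  have h2pi : (0:ℝ) ≤ 2 * π := by positivity
  have hsubE : ∀ (a b : E) m θ, ∑' i, ((((a - b : E) : ι → ℝ) i : ℝ) : ℂ) * K m i θ =
      (∑' i, (((a : ι → ℝ) i : ℝ) : ℂ) * K m i θ) - ∑' i, (((b : ι → ℝ) i : ℝ) : ℂ) * K m i θ := by
    intro a b m θ
    rw [← (summable_mul_K K B hK (hsum a) m θ).tsum_sub (summable_mul_K K B hK (hsum b) m θ)]
    congr 1
    ext i
    rw [lp.coeFn_sub, Pi.sub_apply]
    push_cast
    ring
  have key := ubp T (2 * π * Real.log 2) ?_ ?_ (fun s => 2 * π * log⁺ |s|) ?_ ?_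
  · obtain ⟨C, hC⟩ := key
    refine ⟨C, fun s c hc m => ?_⟩
    have hfin : Summable fun i => |(if i ∈ s then c i else 0)| :=
      summable_of_ne_finset_zero (s := s) (fun i hi => by simp [hi])
    have hmem : Memℓp (fun i => if i ∈ s then c i else 0) 1 := by
      apply memℓp_gen
      simpa using hfin
    have h1 := hC ⟨_, hmem⟩ ?_ m
    · refine le_trans (le_of_eq ?_) h1
      simp only [hT]
      congr 1
      ext θ
      congr 2
      rw [tsum_eq_sum (s := s) (fun i hi => by simp [hi])]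
      refine Finset.sum_congr rfl fun i hi => ?_
      simp [hi]
    · rw [hnorm]
      refine le_trans (le_of_eq ?_) hc
      rw [tsum_eq_sum (s := s) (fun i hi => by simp [hi])]
      refine Finset.sum_congr rfl fun i hi => ?_
      simp [hi]
  · -- continuity
    intro m
    have hlip : ∀ a b : E, T m a ≤ T m b + 2 * π * B m * ‖a - b‖ := by
      intro a b
      have h1 : T m a ≤ ∫ θ in (0:ℝ)..2*π,
          (log⁺ ‖∑' i, (((b : ι → ℝ) i : ℝ) : ℂ) * K m i θ‖ + B m * ‖a - b‖) := by
        refine intervalIntegral.integral_mono_on h2pi (hint (hsum a) m)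
          ((hint (hsum b) m).add intervalIntegrable_const) fun θ _ => ?_
        refine (posLog_le_add (norm_nonneg _)
          (norm_nonneg (∑' i, (((b : ι → ℝ) i : ℝ) : ℂ) * K m i θ))).trans ?_
        have e1 := abs_norm_sub_norm_le (∑' i, (((a : ι → ℝ) i : ℝ) : ℂ) * K m i θ)
          (∑' i, (((b : ι → ℝ) i : ℝ) : ℂ) * K m i θ)
        rw [← hsubE] at e1
        have e2 := norm_tsum_K_le K B hK (hsum (a - b)) m θ
        rw [← hnorm] at e2
        linarith
      rw [intervalIntegral.integral_add (hint (hsum b) m) intervalIntegrable_const,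
        intervalIntegral.integral_const, sub_zero, smul_eq_mul] at h1
      linarith
    have hBm : 0 ≤ |B m| := abs_nonneg _
    rw [Metric.continuous_iff]
    intro b ε hε
    refine ⟨ε / (2 * π * |B m| + 1), by positivity, fun a ha => ?_⟩
    rw [dist_eq_norm] at ha
    rw [Real.dist_eq, abs_lt]
    have h1 := hlip a b
    have h2 := hlip b a
    rw [norm_sub_rev b a] at h2
    have h3 : 2 * π * B m * ‖a - b‖ ≤ 2 * π * |B m| * ‖a - b‖ := by
      gcongr
      exact le_abs_self _
    have h4 : 2 * π * |B m| * ‖a - b‖ < ε := by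
      rw [lt_div_iff₀ (by positivity)] at ha
      nlinarith [norm_nonneg (a - b)]
    constructor <;> linarith
  · -- subadditivity
    intro m a b
    have h1 : T m (a - b) ≤ ∫ θ in (0:ℝ)..2*π,
        ((log⁺ ‖∑' i, (((a : ι → ℝ) i : ℝ) : ℂ) * K m i θ‖ +
          log⁺ ‖∑' i, (((b : ι → ℝ) i : ℝ) : ℂ) * K m i θ‖) + Real.log 2) := by
      refine intervalIntegral.integral_mono_on h2pi (hint (hsum _) m)
        (((hint (hsum a) m).add (hint (hsum b) m)).add intervalIntegrable_const) fun θ _ => ?_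
      rw [hsubE, sub_eq_add_neg]
      have := posLog_norm_add_le (∑' i, (((a : ι → ℝ) i : ℝ) : ℂ) * K m i θ)
        (-∑' i, (((b : ι → ℝ) i : ℝ) : ℂ) * K m i θ)
      rw [norm_neg] at this
      linarith
    rw [intervalIntegral.integral_add ((hint (hsum a) m).add (hint (hsum b) m))
      intervalIntegrable_const, intervalIntegral.integral_add (hint (hsum a) m) (hint (hsum b) m),
      intervalIntegral.integral_const, sub_zero, smul_eq_mul] at h1
    linarith
  · -- scaling
    intro m s a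
    have h1 : T m (s • a) ≤ ∫ θ in (0:ℝ)..2*π,
        (log⁺ ‖∑' i, (((a : ι → ℝ) i : ℝ) : ℂ) * K m i θ‖ + log⁺ |s|) := by
      refine intervalIntegral.integral_mono_on h2pi (hint (hsum _) m)
        ((hint (hsum a) m).add intervalIntegrable_const) fun θ _ => ?_
      have e : ∑' i, ((((s • a : E) : ι → ℝ) i : ℝ) : ℂ) * K m i θ =
          (s : ℂ) * ∑' i, (((a : ι → ℝ) i : ℝ) : ℂ) * K m i θ := by
        rw [← tsum_mul_left]
        congr 1
        ext i
        rw [lp.coeFn_smul, Pi.smul_apply, smul_eq_mul]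
        push_cast
        ring
      rw [e, norm_mul, Complex.norm_real, Real.norm_eq_abs, add_comm]
      exact posLog_mul
    rw [intervalIntegral.integral_add (hint (hsum a) m) intervalIntegrable_const,
      intervalIntegral.integral_const, sub_zero, smul_eq_mul] at h1
    exact h1
  · -- pointwise boundedness
    intro c
    have hp : Summable fun i => max ((c : ι → ℝ) i) 0 :=
      (hsum c).of_nonneg_of_le (fun i => le_max_right _ _)
        (fun i => max_le (le_abs_self _) (abs_nonneg _))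
    have hn : Summable fun i => max (-(c : ι → ℝ) i) 0 :=
      (hsum c).of_nonneg_of_le (fun i => le_max_right _ _)
        (fun i => max_le (neg_le_abs _) (abs_nonneg _))
    obtain ⟨C1, h1⟩ := hpos _ (fun i => le_max_right _ _) hp
    obtain ⟨C2, h2⟩ := hpos _ (fun i => le_max_right _ _) hn
    refine ⟨C1 + C2 + 2 * π * Real.log 2, fun m => ?_⟩
    have hp' : Summable fun i => |max ((c : ι → ℝ) i) 0| := hp.abs
    have hn' : Summable fun i => |max (-(c : ι → ℝ) i) 0| := hn.abs
    have h3 : T m c ≤ ∫ θ in (0:ℝ)..2*π,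
        ((log⁺ ‖∑' i, ((max ((c : ι → ℝ) i) 0 : ℝ) : ℂ) * K m i θ‖ +
          log⁺ ‖∑' i, ((max (-(c : ι → ℝ) i) 0 : ℝ) : ℂ) * K m i θ‖) + Real.log 2) := by
      refine intervalIntegral.integral_mono_on h2pi (hint (hsum _) m)
        (((hint hp' m).add (hint hn' m)).add intervalIntegrable_const) fun θ _ => ?_
      have e : ∑' i, (((c : ι → ℝ) i : ℝ) : ℂ) * K m i θ =
          (∑' i, ((max ((c : ι → ℝ) i) 0 : ℝ) : ℂ) * K m i θ) +
          -(∑' i, ((max (-(c : ι → ℝ) i) 0 : ℝ) : ℂ) * K m i θ) := by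
        rw [← sub_eq_add_neg, ← (summable_mul_K K B hK hp' m θ).tsum_sub
          (summable_mul_K K B hK hn' m θ)]
        congr 1
        ext i
        rw [← sub_mul]
        congr 1
        have : (c : ι → ℝ) i = max ((c : ι → ℝ) i) 0 - max (-(c : ι → ℝ) i) 0 := by
          rcases le_total 0 ((c : ι → ℝ) i) with h | h
          · rw [max_eq_left h, max_eq_right (by linarith)]; ring
          · rw [max_eq_right h, max_eq_left (by linarith)]; ring
        rw [← Complex.ofReal_sub, ← this]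
      rw [e]
      have := posLog_norm_add_le (∑' i, ((max ((c : ι → ℝ) i) 0 : ℝ) : ℂ) * K m i θ)
        (-(∑' i, ((max (-(c : ι → ℝ) i) 0 : ℝ) : ℂ) * K m i θ))
      rw [norm_neg] at this
      linarith
    rw [intervalIntegral.integral_add ((hint hp' m).add (hint hn' m))
      intervalIntegrable_const, intervalIntegral.integral_add (hint hp' m) (hint hn' m),
      intervalIntegral.integral_const, sub_zero, smul_eq_mul] at h3
    linarith [h1 m, h2 m]

end l1

end Pool.Agent.Helper32.CN
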