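import Pool.Agent.Helper32.CN.CurveL2

open Complex Metric Set Filter Topology MeasureTheory
open scoped ENNReal

namespace Pool.Agent.Helper32.CN

/-- Chebyshev, packaged -/
theorem cheb {α : Type*} [MeasurableSpace α] {ν : Measure α} [IsFiniteMeasure ν] {f : α → ℝ}
    (hf : Integrable f ν) (h0 : ∀ a, 0 ≤ f a) {c : ℝ} (hc : 0 < c) :
    ν {a | c < f a} ≤ ENNReal.ofReal ((∫ a, f a ∂ν) / c) := by
  have h := mul_meas_ge_le_integral_of_nonneg (Filter.Eventually.of_forall h0) hf c
  have h1 : ν {a | c < f a} ≤ ν {a | c ≤ f a} := measure_mono fun a (ha : c < f a) => (le_of_lt ha : c ≤ f a)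
  refine h1.trans ?_
  have hfin : ν {a | c ≤ f a} ≠ ⊤ := measure_ne_top _ _
  rw [← ENNReal.ofReal_toReal hfin]
  apply ENNReal.ofReal_le_ofReal
  rw [le_div_iff₀ hc, mul_comm]
  exact h

/-- arc length -/
noncomputable def alen (n : ℕ) : ℝ := 2 * Real.pi / 2^n

theorem alen_pos (n : ℕ) : 0 < alen n := by unfold alen; positivity

theorem volume_arc' (n : ℕ) (j : ℤ) : volume.real (arc n j) = alen n := by
  rw [Measure.real, volume_arc, ENNReal.toReal_ofReal (by positivity)]
  rfl

/-- left endpoint -/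
noncomputable def lep (I : ℕ × ℤ) : ℝ := 2 * Real.pi * I.2 / 2^I.1

theorem abs_sub_lep_le {I : ℕ × ℤ} {θ : ℝ} (h : θ ∈ arc I.1 I.2) : |θ - lep I| ≤ alen I.1 := by
  unfold arc at h
  unfold lep alen
  have h2 : (0:ℝ) < 2^I.1 := by positivity
  obtain ⟨h3, h4⟩ := h
  rw [abs_le]
  constructor
  · have : 0 ≤ θ - 2 * Real.pi * I.2 / 2^I.1 := by linarith
    have : (0:ℝ) ≤ 2 * Real.pi / 2^I.1 := by positivity
    linarith
  · have : 2 * Real.pi * (I.2 + 1) / 2^I.1 = 2 * Real.pi * I.2 / 2^I.1 + 2 * Real.pi / 2^I.1 := by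
      ring
    linarith

section

variable {X : ℝ → ℂ} {L G K ε : ℝ}

open Classical in
theorem CZ (hL : 0 < L) (hG : 0 ≤ G) (hε : 0 < ε)
    (hX : ∀ θ θ', ‖X θ - X θ'‖ ≤ L * |θ - θ'|)
    (hgrow : ∀ (x : ℂ) (r : ℝ), 0 < r → ν0 {θ | ‖X θ - x‖ ≤ r} ≤ ENNReal.ofReal (G * r))
    (hK : ∀ g : ℝ → ℂ, Measurable g → ∀ t : ℝ, 0 < t → (∀ θ, ‖g θ‖ ≤ t) →
      ∫ θ, ‖CC ε ν0 X g θ‖^2 ∂ν0 ≤ K * t^2)
    {g : ℝ → ℂ} (hgi : Integrable g ν0) (hg1 : ∫ θ, ‖g θ‖ ∂ν0 ≤ 1)
    {t lam : ℝ} (ht : 1 ≤ t) (hlam : 1 ≤ lam) :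
    ν0 {θ | 3 * lam < ‖CC ε ν0 X g θ‖} ≤
      ENNReal.ofReal (2 * L * G / t + K * (2 * t)^2 / lam^2 + 64 * G / lam) := by
  have hXc : Continuous X := by
    rw [Metric.continuous_iff]
    intro b δ hδ
    refine ⟨δ / L, by positivity, fun a ha => ?_⟩
    rw [dist_eq_norm]
    refine (hX a b).trans_lt ?_
    rw [Real.dist_eq, lt_div_iff₀ hL] at ha
    linarith
  have hXm : Measurable X := hXc.measurable
  have ht0 : 0 < t := by linarith
  have hlam0 : 0 < lam := by linarith
  -- choice of N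
  obtain ⟨N, hN⟩ : ∃ N : ℕ, 2 * L * (2 * Real.pi) / ε^2 < 2^(N+1) := by
    obtain ⟨n, hn⟩ := pow_unbounded_of_one_lt (2 * L * (2 * Real.pi) / ε^2) (show (1:ℝ) < 2 by norm_num)
    exact ⟨n, hn.trans (pow_lt_pow_right₀ (by norm_num) (Nat.lt_succ_self n))⟩
  set m : ℕ × ℤ → ℝ := fun I => ∫ θ in arc I.1 I.2, ‖g θ‖ with hm
  set P : ℕ → ℤ → Prop := fun n j => n = N + 1 ∨ t * alen n < m (n, j) with hP
  set T := stop P (N+1) with hT
  have hgI : IntegrableOn g (Ico 0 (2 * Real.pi)) volume := hgi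
  have hTsub : ∀ I ∈ T, arc I.1 I.2 ⊆ Ico 0 (2 * Real.pi) := fun I hI => stop_subset hI
  have hcover : ⋃ I ∈ T, arc I.1 I.2 = Ico 0 (2 * Real.pi) := by
    apply subset_antisymm
    · exact iUnion₂_subset hTsub
    · intro θ hθ
      obtain ⟨I, hI, hmem⟩ := stop_cover (P := P) (N := N+1) hθ.1 hθ.2 ⟨N+1, le_rfl, Or.inl rfl⟩
      exact mem_iUnion₂.2 ⟨I, hI, hmem⟩
  have hgarc : ∀ I ∈ T, IntegrableOn g (arc I.1 I.2) volume := fun I hI => hgI.mono_set (hTsub I hI)
  have hm0 : ∀ I, 0 ≤ m I := fun I => integral_nonneg fun θ => norm_nonneg _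
  have hpart : ∀ {E : Type} [NormedAddCommGroup E] [NormedSpace ℝ E] (f : ℝ → E),
      Integrable f ν0 → ∫ θ, f θ ∂ν0 = ∑ I ∈ T, ∫ θ in arc I.1 I.2, f θ := by
    intro E _ _ f hf
    have h1 : ∫ θ, f θ ∂ν0 = ∫ θ in ⋃ I ∈ T, arc I.1 I.2, f θ := by rw [hcover]; rfl
    rw [h1, integral_biUnion_finset T (fun I _ => measurableSet_arc _ _) (stop_pairwise P (N+1))]
    intro I hI
    exact (show IntegrableOn f (Ico 0 (2 * Real.pi)) volume from hf).mono_set (hTsub I hI)
  have hmsum : ∑ I ∈ T, m I ≤ 1 := by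
    rw [← hpart (fun θ => ‖g θ‖) hgi.norm]
    exact hg1
  -- generation at least one
  have hgen : ∀ I ∈ T, 1 ≤ I.1 := by
    intro I hI
    by_contra hlt
    have h0 : I.1 = 0 := by omega
    obtain ⟨-, -, -, hPI, -⟩ := mem_stop.1 hI
    rcases hPI with h | h
    · omega
    · have h1 : m I ≤ 1 := (Finset.single_le_sum (fun J _ => hm0 J) hI).trans hmsum
      have h2 : alen I.1 = 2 * Real.pi := by rw [h0]; simp [alen]
      rw [h2] at h
      have h3 := Real.pi_gt_three
      have h4 : m (I.1, I.2) = m I := rfl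
      rw [h4] at h
      nlinarith
  -- mass bound from the parent
  have hmass : ∀ I ∈ T, m I ≤ 2 * t * alen I.1 := by
    intro I hI
    obtain ⟨h1, h2, h3, -, h5⟩ := mem_stop.1 hI
    have hg1' := hgen I hI
    have h6 := h5 (I.1 - 1) (by omega)
    have e1 : I.1 - (I.1 - 1) = 1 := by omega
    rw [e1, pow_one] at h6
    have h7 : m (I.1 - 1, I.2 / 2) ≤ t * alen (I.1 - 1) := by
      by_contra hcon
      push Not at hcon
      exact h6 (Or.inr hcon)
    have h8 : arc I.1 I.2 ⊆ arc (I.1 - 1) (I.2 / 2) := by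
      intro θ hθ
      rw [mem_arc_iff] at hθ ⊢
      rw [idx_coarse (show I.1 - 1 ≤ I.1 by omega), hθ, e1, pow_one]
    have h9 : arc (I.1 - 1) (I.2 / 2) ⊆ Ico 0 (2 * Real.pi) := by
      apply arc_subset
      · exact Int.ediv_nonneg h2 (by norm_num)
      · rw [Int.ediv_lt_iff_lt_mul (by norm_num)]
        have : (2:ℤ)^(I.1 - 1) * 2 = 2^I.1 := by rw [← pow_succ]; congr 1; omega
        rw [this]; exact h3
    have h10 : m I ≤ m (I.1 - 1, I.2 / 2) :=
      setIntegral_mono_set (hgI.mono_set h9).norm (Filter.Eventually.of_forall fun θ => norm_nonneg _)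
        (LE.le.eventuallyLE h8)
    have h11 : alen (I.1 - 1) = 2 * alen I.1 := by
      unfold alen
      have : (2:ℝ)^I.1 = 2^(I.1 - 1) * 2 := by rw [← pow_succ]; congr 1; omega
      rw [this]; field_simp
    rw [h11] at h7
    linarith
  -- averages
  set av : ℕ × ℤ → ℂ := fun I => ((alen I.1)⁻¹ : ℂ) * ∫ θ in arc I.1 I.2, g θ with hav
  have hav_norm : ∀ I, ‖av I‖ ≤ (alen I.1)⁻¹ * m I := by
    intro I
    simp only [hav, norm_mul, norm_inv, Complex.norm_real, Real.norm_eq_abs]
    rw [abs_of_pos (alen_pos _)]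
    exact mul_le_mul_of_nonneg_left (norm_integral_le_integral_norm _)
      (inv_nonneg.2 (alen_pos _).le)
  have hav_le : ∀ I ∈ T, ‖av I‖ ≤ 2 * t := by
    intro I hI
    refine (hav_norm I).trans ?_
    rw [inv_mul_le_iff₀ (alen_pos _)]
    have := hmass I hI
    linarith
  -- good function
  set h : ℝ → ℂ := fun θ => ∑ I ∈ T, (arc I.1 I.2).indicator (fun _ => av I) θ with hh
  have hhm : Measurable h := by
    refine Finset.measurable_sum T fun I _ => measurable_const.indicator (measurableSet_arc _ _)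
  have hh_arc : ∀ I ∈ T, ∀ θ ∈ arc I.1 I.2, h θ = av I := by
    intro I hI θ hθ
    simp only [hh]
    rw [Finset.sum_eq_single I]
    · rw [indicator_of_mem hθ]
    · intro J hJ hne
      rw [indicator_of_notMem]
      intro hθJ
      exact hne (stop_disjoint hJ hI hθJ hθ)
    · intro hn; exact absurd hI hn
  have hh_out : ∀ θ, (∀ I ∈ T, θ ∉ arc I.1 I.2) → h θ = 0 := by
    intro θ hθ
    simp only [hh]
    exact Finset.sum_eq_zero fun I hI => indicator_of_notMem (hθ I hI) _
  have hhb : ∀ θ, ‖h θ‖ ≤ 2 * t := by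
    intro θ
    by_cases hex : ∃ I ∈ T, θ ∈ arc I.1 I.2
    · obtain ⟨I, hI, hθ⟩ := hex
      rw [hh_arc I hI θ hθ]
      exact hav_le I hI
    · push Not at hex
      rw [hh_out θ hex, norm_zero]
      linarith
  have hhi : Integrable h ν0 := integrable_bdd hhm hhb
  -- the geometric quantities
  set R : ℕ × ℤ → ℝ := fun I => 2 * (L * alen I.1) with hR
  have hR0 : ∀ I, 0 < R I := fun I => by simp only [hR]; have := alen_pos I.1; positivity
  set xI : ℕ × ℤ → ℂ := fun I => X (lep I) with hxI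
  have hXI : ∀ I : ℕ × ℤ, ∀ θ ∈ arc I.1 I.2, ‖X θ - xI I‖ ≤ L * alen I.1 := by
    intro I θ hθ
    exact (hX θ (lep I)).trans (mul_le_mul_of_nonneg_left (abs_sub_lep_le hθ) hL.le)
  set big : Finset (ℕ × ℤ) := T.filter (fun I => t * alen I.1 < m I) with hbig
  set Ex : Set ℝ := ⋃ I ∈ big, {θ | ‖X θ - xI I‖ ≤ R I} with hEx
  set B : ℝ → ℝ := fun θ => ∑ I ∈ big, 8 * m I * (R I / (R I + ‖X θ - xI I‖)^2) with hB
  have hB0 : ∀ θ, 0 ≤ B θ := fun θ => Finset.sum_nonneg fun I _ => by
    have h1 := hm0 I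
    have h2 := hR0 I
    positivity
  have hBi : Integrable B ν0 := integrable_finsetSum _ fun I _ =>
    (tail_integrable hXm (hR0 I)).const_mul _
  have hbigT : big ⊆ T := Finset.filter_subset _ _
  have hBint : ∫ θ, B θ ∂ν0 ≤ 64 * G := by
    simp only [hB]
    rw [integral_finsetSum _ fun I _ => (tail_integrable hXm (hR0 I)).const_mul _]
    calc ∑ I ∈ big, ∫ θ, 8 * m I * (R I / (R I + ‖X θ - xI I‖)^2) ∂ν0
        ≤ ∑ I ∈ big, 8 * m I * (8 * G) := by
          refine Finset.sum_le_sum fun I _ => ?_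
          rw [integral_const_mul]
          refine mul_le_mul_of_nonneg_left ?_ (by have := hm0 I; positivity)
          exact tail_integral hXm hG (fun r hr => hgrow _ r hr) (hR0 I)
      _ = 64 * G * ∑ I ∈ big, m I := by rw [Finset.mul_sum]; congr 1; ext I; ring
      _ ≤ 64 * G * 1 := by
          refine mul_le_mul_of_nonneg_left ?_ (by positivity)
          exact (Finset.sum_le_sum_of_subset_of_nonneg hbigT fun I _ _ => hm0 I).trans hmsum
      _ = 64 * G := mul_one _
  have hExm : ν0 Ex ≤ ENNReal.ofReal (2 * L * G / t) := by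
    refine (measure_biUnion_finset_le _ _).trans ?_
    calc ∑ I ∈ big, ν0 {θ | ‖X θ - xI I‖ ≤ R I} ≤ ∑ I ∈ big, ENNReal.ofReal (G * R I) :=
          Finset.sum_le_sum fun I _ => hgrow _ _ (hR0 I)
      _ = ENNReal.ofReal (∑ I ∈ big, G * R I) := by
          rw [ENNReal.ofReal_sum_of_nonneg]
          intro I _; have := hR0 I; positivity
      _ ≤ ENNReal.ofReal (2 * L * G / t) := by
          apply ENNReal.ofReal_le_ofReal
          calc ∑ I ∈ big, G * R I ≤ ∑ I ∈ big, (2 * L * G / t) * m I := by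
                refine Finset.sum_le_sum fun I hI => ?_
                have h1 := (Finset.mem_filter.1 hI).2
                have h2 : alen I.1 ≤ m I / t := by rw [le_div_iff₀ ht0]; linarith
                have h3 : G * R I = (2 * L * G) * alen I.1 := by simp only [hR]; ring
                rw [h3]
                calc (2 * L * G) * alen I.1 ≤ (2 * L * G) * (m I / t) := by gcongr
                  _ = _ := by ring
            _ = (2 * L * G / t) * ∑ I ∈ big, m I := by rw [Finset.mul_sum]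
            _ ≤ (2 * L * G / t) * 1 := by
                refine mul_le_mul_of_nonneg_left ?_ (by positivity)
                exact (Finset.sum_le_sum_of_subset_of_nonneg hbigT fun I _ _ => hm0 I).trans hmsum
            _ = _ := mul_one _
  -- pointwise estimate off the exceptional set
  have hpt : ∀ θ₀, θ₀ ∉ Ex → ‖CC ε ν0 X g θ₀‖ ≤ ‖CC ε ν0 X h θ₀‖ + B θ₀ + 1 := by
    intro θ₀ hθ₀
    have hkg := integrable_kk_mul (ν := ν0) hXm hε hgi (X θ₀)
    have hkh := integrable_kk_mul (ν := ν0) hXm hε hhi (X θ₀)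
    have e1 : CC ε ν0 X g θ₀ - CC ε ν0 X h θ₀ =
        ∑ I ∈ T, ∫ θ in arc I.1 I.2, (kk ε (X θ) (X θ₀) - kk ε (xI I) (X θ₀)) * (g θ - av I) := by
      rw [← CC_sub hXm hε hgi hhi]
      unfold CC
      have hi3 : Integrable (fun b => kk ε (X b) (X θ₀) * (g b - h b)) ν0 :=
        integrable_kk_mul hXm hε (hgi.sub hhi) _
      rw [hpart _ hi3]
      refine Finset.sum_congr rfl fun I hI => ?_
      have hvol : volume (arc I.1 I.2) ≠ ⊤ := by rw [volume_arc]; exact ENNReal.ofReal_ne_top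
      have hconst : IntegrableOn (fun _ : ℝ => av I) (arc I.1 I.2) volume := integrableOn_const hvol
      have hzero : ∫ θ in arc I.1 I.2, kk ε (xI I) (X θ₀) * (g θ - av I) = 0 := by
        rw [integral_const_mul, integral_sub (hgarc I hI) hconst, setIntegral_const, volume_arc']
        have : (alen I.1 • av I : ℂ) = ∫ θ in arc I.1 I.2, g θ := by
          have hne : (alen I.1 : ℂ) ≠ 0 := by exact_mod_cast (alen_pos _).ne'
          simp only [hav]
          rw [Complex.real_smul, mul_inv_cancel_left₀ hne]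
        rw [this, sub_self, mul_zero]
      have hia : IntegrableOn (fun θ => kk ε (X θ) (X θ₀) * (g θ - av I)) (arc I.1 I.2) volume := by
        refine Integrable.bdd_mul (c := ε⁻¹) ((hgarc I hI).sub hconst)
          (measurable_kk_comp hε hXm measurable_const).aestronglyMeasurable ?_
        exact Filter.Eventually.of_forall fun b => norm_kk_le hε _ _
      have hib : IntegrableOn (fun θ => kk ε (xI I) (X θ₀) * (g θ - av I)) (arc I.1 I.2) volume :=
        ((hgarc I hI).sub hconst).const_mul _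
      have e2 : ∫ θ in arc I.1 I.2, kk ε (X θ) (X θ₀) * (g θ - h θ) =
          ∫ θ in arc I.1 I.2, kk ε (X θ) (X θ₀) * (g θ - av I) := by
        refine setIntegral_congr_fun (measurableSet_arc _ _) fun θ hθ => ?_
        rw [hh_arc I hI θ hθ]
      rw [e2]
      calc ∫ θ in arc I.1 I.2, kk ε (X θ) (X θ₀) * (g θ - av I)
          = (∫ θ in arc I.1 I.2, kk ε (X θ) (X θ₀) * (g θ - av I)) -
            ∫ θ in arc I.1 I.2, kk ε (xI I) (X θ₀) * (g θ - av I) := by rw [hzero, sub_zero]
        _ = ∫ θ in arc I.1 I.2, (kk ε (X θ) (X θ₀) * (g θ - av I) -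
              kk ε (xI I) (X θ₀) * (g θ - av I)) := (integral_sub hia hib).symm
        _ = _ := by congr 1; ext θ; ring
    -- L¹ norm of the bad pieces
    have hbad : ∀ I ∈ T, ∫ θ in arc I.1 I.2, ‖g θ - av I‖ ≤ 2 * m I := by
      intro I hI
      have hvol : volume (arc I.1 I.2) ≠ ⊤ := by rw [volume_arc]; exact ENNReal.ofReal_ne_top
      have hconst : IntegrableOn (fun _ : ℝ => ‖av I‖) (arc I.1 I.2) volume := integrableOn_const hvol
      have hconst' : IntegrableOn (fun _ : ℝ => av I) (arc I.1 I.2) volume := integrableOn_const hvol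
      calc ∫ θ in arc I.1 I.2, ‖g θ - av I‖ ≤ ∫ θ in arc I.1 I.2, (‖g θ‖ + ‖av I‖) :=
            integral_mono ((hgarc I hI).sub hconst').norm ((hgarc I hI).norm.add hconst)
              fun θ => norm_sub_le _ _
        _ = m I + alen I.1 * ‖av I‖ := by
            rw [integral_add (hgarc I hI).norm hconst, setIntegral_const, volume_arc', smul_eq_mul]
        _ ≤ m I + alen I.1 * ((alen I.1)⁻¹ * m I) := by
            have := hav_norm I
            have := alen_pos I.1
            gcongr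
        _ = 2 * m I := by
            have := (alen_pos I.1).ne'
            field_simp
            ring
    have hpiece : ∀ I ∈ T, ∀ q : ℝ, 0 ≤ q → (∀ θ ∈ arc I.1 I.2,
        ‖kk ε (X θ) (X θ₀) - kk ε (xI I) (X θ₀)‖ ≤ q) →
        ‖∫ θ in arc I.1 I.2, (kk ε (X θ) (X θ₀) - kk ε (xI I) (X θ₀)) * (g θ - av I)‖ ≤
          q * (2 * m I) := by
      intro I hI q hq hbound
      have hvol : volume (arc I.1 I.2) ≠ ⊤ := by rw [volume_arc]; exact ENNReal.ofReal_ne_top
      have hconst' : IntegrableOn (fun _ : ℝ => av I) (arc I.1 I.2) volume := integrableOn_const hvol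
      calc _ ≤ ∫ θ in arc I.1 I.2, ‖(kk ε (X θ) (X θ₀) - kk ε (xI I) (X θ₀)) * (g θ - av I)‖ :=
            norm_integral_le_integral_norm _
        _ ≤ ∫ θ in arc I.1 I.2, q * ‖g θ - av I‖ := by
            refine setIntegral_mono_on ?_ (((hgarc I hI).sub hconst').norm.const_mul q)
              (measurableSet_arc _ _) fun θ hθ => ?_
            · refine Integrable.norm ?_
              refine Integrable.bdd_mul (c := 2 * ε⁻¹) ((hgarc I hI).sub hconst')
                ((measurable_kk_comp hε hXm measurable_const).sub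
                  measurable_const).aestronglyMeasurable ?_
              refine Filter.Eventually.of_forall fun b => ?_
              refine (norm_sub_le _ _).trans ?_
              have a1 := norm_kk_le hε (X b) (X θ₀)
              have a2 := norm_kk_le hε (xI I) (X θ₀)
              linarith
            · rw [norm_mul]
              exact mul_le_mul_of_nonneg_right (hbound θ hθ) (norm_nonneg _)
        _ = q * ∫ θ in arc I.1 I.2, ‖g θ - av I‖ := integral_const_mul _ _
        _ ≤ q * (2 * m I) := mul_le_mul_of_nonneg_left (hbad I hI) hq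
    have hbigpiece : ∀ I ∈ big,
        ‖∫ θ in arc I.1 I.2, (kk ε (X θ) (X θ₀) - kk ε (xI I) (X θ₀)) * (g θ - av I)‖ ≤
          8 * m I * (R I / (R I + ‖X θ₀ - xI I‖)^2) := by
      intro I hI
      have hfar : R I < ‖X θ₀ - xI I‖ := by
        by_contra hcon
        push Not at hcon
        exact hθ₀ (mem_iUnion₂.2 ⟨I, hI, hcon⟩)
      have hRI := hR0 I
      have hfar' : R I < ‖xI I - X θ₀‖ := by rw [norm_sub_rev]; exact hfar
      have hq : ∀ θ ∈ arc I.1 I.2, ‖kk ε (X θ) (X θ₀) - kk ε (xI I) (X θ₀)‖ ≤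
          4 * (R I / (R I + ‖X θ₀ - xI I‖)^2) := by
        intro θ hθ
        have a1 := hXI I θ hθ
        have a2 : 2 * ‖X θ - xI I‖ ≤ R I := by simp only [hR]; linarith
        refine (kk_sub_le_far hε (a2.trans hfar'.le) (hRI.trans hfar')).trans ?_
        set d := ‖X θ₀ - xI I‖ with hd
        have hd' : ‖xI I - X θ₀‖ = d := norm_sub_rev _ _
        rw [hd']
        have a3 : 0 < d := hRI.trans hfar
        have a4 : (R I + d)^2 ≤ 4 * d^2 := by nlinarith
        calc 2 * ‖X θ - xI I‖ / d^2 ≤ R I / d^2 := by gcongr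
          _ = 4 * (R I / (4 * d^2)) := by field_simp
          _ ≤ 4 * (R I / (R I + d)^2) := by gcongr
      refine (hpiece I (hbigT hI) _ (by positivity) hq).trans (le_of_eq ?_)
      ring
    have hsmallpiece : ∀ I ∈ T, I ∉ big →
        ‖∫ θ in arc I.1 I.2, (kk ε (X θ) (X θ₀) - kk ε (xI I) (X θ₀)) * (g θ - av I)‖ ≤ m I := by
      intro I hI hnb
      have hPI := (mem_stop.1 hI).2.2.2.1
      have hI1 : I.1 = N + 1 := by
        rcases hPI with h | h
        · exact h
        · exact absurd (Finset.mem_filter.2 ⟨hI, h⟩) hnb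
      have hq : ∀ θ ∈ arc I.1 I.2, ‖kk ε (X θ) (X θ₀) - kk ε (xI I) (X θ₀)‖ ≤ 1/2 := by
        intro θ hθ
        refine (kk_sub_le' hε _ _ _).trans ?_
        have a1 := hXI I θ hθ
        rw [div_le_iff₀ (by positivity)]
        refine a1.trans ?_
        unfold alen
        rw [hI1]
        rw [div_lt_iff₀ (by positivity)] at hN
        rw [mul_div_assoc', div_le_iff₀ (by positivity)]
        linarith
      refine (hpiece I hI _ (by norm_num) hq).trans (le_of_eq ?_)
      ring
    have e2 : ‖CC ε ν0 X g θ₀ - CC ε ν0 X h θ₀‖ ≤ B θ₀ + 1 := by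
      rw [e1]
      refine (norm_sum_le _ _).trans ?_
      rw [← Finset.sum_filter_add_sum_filter_not T (fun I => t * alen I.1 < m I)]
      refine add_le_add ?_ ?_
      · exact Finset.sum_le_sum fun I hI => hbigpiece I hI
      · refine le_trans (Finset.sum_le_sum (g := m) fun I hI => ?_)
          ((Finset.sum_le_sum_of_subset_of_nonneg (Finset.filter_subset _ _)
            fun I _ _ => hm0 I).trans hmsum)
        rw [Finset.mem_filter] at hI
        exact hsmallpiece I hI.1 fun hb => hI.2 (Finset.mem_filter.1 hb).2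
    have e3 := norm_add_le (CC ε ν0 X g θ₀ - CC ε ν0 X h θ₀) (CC ε ν0 X h θ₀)
    rw [sub_add_cancel] at e3
    linarith
  -- conclusion
  have hsub : {θ | 3 * lam < ‖CC ε ν0 X g θ‖} ⊆
      Ex ∪ ({θ | lam^2 < ‖CC ε ν0 X h θ‖^2} ∪ {θ | lam < B θ}) := by
    intro θ hθ
    rw [mem_ofPred_eq] at hθ
    by_cases h1 : θ ∈ Ex
    · left; exact h1
    right
    by_cases h2 : lam < B θ
    · right; exact h2
    left
    have h3 := hpt θ h1
    rw [mem_ofPred_eq]
    have h4 : lam < ‖CC ε ν0 X h θ‖ := by linarith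
    exact pow_lt_pow_left₀ h4 hlam0.le (by norm_num)
  have hK0 : 0 ≤ K := by
    have h1 := hK (fun _ => 0) measurable_const 1 one_pos (fun θ => by simp)
    have h2 : 0 ≤ ∫ θ, ‖CC ε ν0 X (fun _ => 0) θ‖^2 ∂ν0 := integral_nonneg fun θ => by positivity
    linarith
  have hc1 := cheb (integrable_CC_sq hXm hε hhm hhi) (fun θ => by positivity)
    (show 0 < lam^2 by positivity)
  have hc2 := cheb hBi hB0 hlam0
  have hc1' : ν0 {θ | lam^2 < ‖CC ε ν0 X h θ‖^2} ≤ ENNReal.ofReal (K * (2 * t)^2 / lam^2) := by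
    refine hc1.trans (ENNReal.ofReal_le_ofReal ?_)
    exact div_le_div_of_nonneg_right (hK h hhm (2 * t) (by positivity) hhb) (by positivity)
  have hc2' : ν0 {θ | lam < B θ} ≤ ENNReal.ofReal (64 * G / lam) := by
    refine hc2.trans (ENNReal.ofReal_le_ofReal ?_)
    exact div_le_div_of_nonneg_right hBint hlam0.le
  calc ν0 {θ | 3 * lam < ‖CC ε ν0 X g θ‖}
      ≤ ν0 (Ex ∪ ({θ | lam^2 < ‖CC ε ν0 X h θ‖^2} ∪ {θ | lam < B θ})) := measure_mono hsub
    _ ≤ ν0 Ex + (ν0 {θ | lam^2 < ‖CC ε ν0 X h θ‖^2} + ν0 {θ | lam < B θ}) :=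
        (measure_union_le _ _).trans (add_le_add_right (measure_union_le _ _) _)
    _ ≤ ENNReal.ofReal (2 * L * G / t) + (ENNReal.ofReal (K * (2 * t)^2 / lam^2) +
          ENNReal.ofReal (64 * G / lam)) := add_le_add hExm (add_le_add hc1' hc2')
    _ = ENNReal.ofReal (2 * L * G / t + K * (2 * t)^2 / lam^2 + 64 * G / lam) := by
        rw [← ENNReal.ofReal_add (by positivity) (by positivity),
          ← ENNReal.ofReal_add (by positivity) (by positivity), add_assoc]

end

end Pool.Agent.Helper32.CN
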