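import Pool.Agent.Helper32.CN.Arcs

open Complex Metric Set Filter Topology MeasureTheory

namespace Pool.Agent.Helper32.CN

open Real in
/-- Lower bound for the oscillation on an arc of large harmonic measure. -/
theorem osc_disc {F : ℂ → ℂ} (hd : DifferentiableOn ℂ F (ball 0 1)) (hi : InjOn F (ball 0 1))
    {a : ℂ} (ha : ∀ w ∈ ball (0:ℂ) 1, F w ≠ a) {w : ℂ} {σ : ℝ} (hw : ‖w‖ < σ) (hσ : σ < 1)
    {A : Set ℝ} (hAm : MeasurableSet A) (hA : A ⊆ Ico 0 (2 * π))
    (hP : 2 * π / 200 ≤ ∫ θ in A, poissonKernel 0 w (circleMap 0 σ θ))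
    {V : ℝ} (hV : 0 < V) (hAV : ∀ θ ∈ A, ‖F (circleMap 0 σ θ) - a‖ ≤ V) :
    ‖F w - a‖ ≤ 384^200 * V := by
  have hσ0 : 0 ≤ σ := (norm_nonneg w).trans hw.le
  have hwb : w ∈ ball (0:ℂ) 1 := by rw [mem_ball, dist_zero_right]; linarith
  have hopen : IsOpen (F '' ball 0 1) := isOpen_image hd hi isOpen_ball subset_rfl
  have haU : a ∉ F '' ball 0 1 := by rintro ⟨v, hv, he⟩; exact ha v hv he
  have hne : F '' ball 0 1 ≠ univ := fun h => haU (h ▸ mem_univ a)
  obtain ⟨ζ, hζ, hball, hpos, hmin⟩ := exists_nearest hopen hne (mem_image_of_mem F hwb)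
  obtain ⟨L₁, hL₁, hL₁p, hL₁w, hL₁f⟩ := koebe_log hd hi hwb
    (fun v hv he => hζ ⟨v, hv, he⟩) hball
  obtain ⟨L₀, hL₀, hL₀e⟩ := exists_log (f := fun z => F z - a) (hd.sub_const a)
    (fun v hv => sub_ne_zero.2 (ha v hv))
  set D := ‖F w - a‖ with hD
  have hδD : ‖F w - ζ‖ ≤ D := hmin a haU
  have hD0 : 0 < D := hpos.trans_le hδD
  have hre : ∀ v ∈ ball (0:ℂ) 1, (L₀ v).re = Real.log ‖F v - a‖ := by
    intro v hv
    have := hL₀e v hv
    rw [← this, Complex.norm_exp, Real.log_exp]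
  rcases le_or_gt D V with h | h
  · calc D ≤ V := h
      _ = 1 * V := (one_mul _).symm
      _ ≤ _ := by gcongr; norm_num
  -- pointwise bound
  have hpt : ∀ θ : ℝ, (L₀ (circleMap 0 σ θ)).re ≤
      Real.log D + Real.log 6 + 2 * (L₁ (circleMap 0 σ θ)).re +
        A.indicator (fun _ => Real.log V - Real.log D) θ := by
    intro θ
    have hm := circleMap_mem hσ0 hσ θ
    have h0 := hL₁p _ hm
    by_cases hθ : θ ∈ A
    · rw [indicator_of_mem hθ, hre _ hm]
      have h1 : 0 < ‖F (circleMap 0 σ θ) - a‖ := norm_pos_iff.2 (sub_ne_zero.2 (ha _ hm))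
      have h2 := Real.log_le_log h1 (hAV θ hθ)
      have h3 : 0 ≤ Real.log 6 := Real.log_nonneg (by norm_num)
      linarith
    · rw [indicator_of_notMem hθ, hre _ hm, add_zero]
      have h1 : 0 < ‖F (circleMap 0 σ θ) - a‖ := norm_pos_iff.2 (sub_ne_zero.2 (ha _ hm))
      have h2 : ‖F (circleMap 0 σ θ) - a‖ ≤ D * 6 * Real.exp (2 * (L₁ (circleMap 0 σ θ)).re) := by
        have h3 := hL₁f _ hm
        have h4 : ‖F (circleMap 0 σ θ) - a‖ ≤ ‖F (circleMap 0 σ θ) - ζ‖ + ‖F w - ζ‖ + D := by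
          have : F (circleMap 0 σ θ) - a = (F (circleMap 0 σ θ) - ζ) - (F w - ζ) + (F w - a) := by
            ring
          rw [this]
          exact (norm_add_le _ _).trans (add_le_add_left (norm_sub_le _ _) _)
        have h5 : (2 * Real.exp (L₁ (circleMap 0 σ θ)).re)^2 =
            4 * Real.exp (2 * (L₁ (circleMap 0 σ θ)).re) := by
          rw [mul_pow, ← Real.exp_nat_mul]; norm_num
        rw [h5] at h3
        have h6 : 1 ≤ Real.exp (2 * (L₁ (circleMap 0 σ θ)).re) :=
          Real.one_le_exp (by positivity)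
        have h7 : ‖F w - ζ‖ * (4 * Real.exp (2 * (L₁ (circleMap 0 σ θ)).re)) ≤
            D * (4 * Real.exp (2 * (L₁ (circleMap 0 σ θ)).re)) :=
          mul_le_mul_of_nonneg_right hδD (by positivity)
        nlinarith
      have h3 := Real.log_le_log h1 h2
      rw [Real.log_mul (by positivity) (by positivity), Real.log_mul (by positivity) (by norm_num),
        Real.log_exp] at h3
      exact h3
  -- integrate
  have hPc := continuous_poissonKernel_circle hw
  have hPpos := fun θ => (poissonKernel_circle_pos hw θ).le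
  have hc0 : Continuous fun θ : ℝ => (L₀ (circleMap 0 σ θ)).re :=
    Complex.continuous_re.comp (continuousOn_circle hL₀.continuousOn hσ0 hσ)
  have hc1 : Continuous fun θ : ℝ => (L₁ (circleMap 0 σ θ)).re :=
    Complex.continuous_re.comp (continuousOn_circle hL₁.continuousOn hσ0 hσ)
  have i0 := poisson_re hL₀ hσ hw
  have i1 := poisson_re hL₁ hσ hw
  have i2 : ∫ θ in (0:ℝ)..2*π, poissonKernel 0 w (circleMap 0 σ θ) = 2 * π := by
    have := poisson_re (L := fun _ => 1) (differentiableOn_const _) hσ hw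
    simpa using this
  have hle : ∫ θ in (0:ℝ)..2*π, poissonKernel 0 w (circleMap 0 σ θ) * (L₀ (circleMap 0 σ θ)).re ≤
      ∫ θ in (0:ℝ)..2*π, ((Real.log D + Real.log 6) * poissonKernel 0 w (circleMap 0 σ θ) +
        2 * (poissonKernel 0 w (circleMap 0 σ θ) * (L₁ (circleMap 0 σ θ)).re) +
        (Real.log V - Real.log D) * A.indicator
          (fun θ => poissonKernel 0 w (circleMap 0 σ θ)) θ) := by
    refine intervalIntegral.integral_mono_on (by positivity)
      ((hPc.mul hc0).intervalIntegrable _ _) ?_ ?_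
    · refine IntervalIntegrable.add ?_ ?_
      · exact ((continuous_const.mul hPc).add
          (continuous_const.mul (hPc.mul hc1))).intervalIntegrable _ _
      · refine IntervalIntegrable.const_mul ?_ _
        have := (hPc.intervalIntegrable (μ := volume) 0 (2*π))
        rw [intervalIntegrable_iff] at this ⊢
        exact Integrable.indicator this hAm
    · intro θ _
      have h1 := mul_le_mul_of_nonneg_left (hpt θ) (hPpos θ)
      refine h1.trans (le_of_eq ?_)
      by_cases hθ : θ ∈ A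
      · rw [indicator_of_mem hθ, indicator_of_mem hθ]; ring
      · rw [indicator_of_notMem hθ, indicator_of_notMem hθ]; ring
  rw [i0, intervalIntegral.integral_add, intervalIntegral.integral_add,
    intervalIntegral.integral_const_mul, intervalIntegral.integral_const_mul,
    intervalIntegral.integral_const_mul, i1, i2, hL₁w] at hle
  rotate_left
  · exact (continuous_const.mul hPc).intervalIntegrable _ _
  · exact (continuous_const.mul (hPc.mul hc1)).intervalIntegrable _ _
  · exact ((continuous_const.mul hPc).add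
          (continuous_const.mul (hPc.mul hc1))).intervalIntegrable _ _
  · refine IntervalIntegrable.const_mul ?_ _
    have := (hPc.intervalIntegrable (μ := volume) 0 (2*π))
    rw [intervalIntegrable_iff] at this ⊢
    exact Integrable.indicator this hAm
  have hind : ∫ θ in (0:ℝ)..2*π, A.indicator
          (fun θ => poissonKernel 0 w (circleMap 0 σ θ)) θ =
        ∫ θ in A, poissonKernel 0 w (circleMap 0 σ θ) := by
    rw [intervalIntegral.integral_of_le (by positivity), integral_Ioc_eq_integral_Ioo,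
      ← integral_Ico_eq_integral_Ioo, integral_indicator hAm,
      Measure.restrict_restrict hAm, inter_eq_left.2 hA]
  rw [hind] at hle
  have h1 : (L₀ w).re = Real.log D := hre w hwb
  rw [h1] at hle
  have h2 : Real.log 384 = Real.log 6 + 2 * Real.log 8 := by
    rw [← Real.log_rpow (by norm_num), ← Real.log_mul (by norm_num) (by positivity)]
    norm_num
  have hlog : 0 < Real.log D - Real.log V := by
    have := Real.log_lt_log hV h; linarith
  have h3 : (Real.log D - Real.log V) * (2 * π / 200) ≤ 2 * π * Real.log 384 := by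
    have h4 := mul_le_mul_of_nonneg_left hP hlog.le
    rw [h2]
    nlinarith
  have h4 : Real.log D ≤ 200 * Real.log 384 + Real.log V := by
    have hp : 0 < 2 * π := by positivity
    have h5 : (2 * π) * ((Real.log D - Real.log V) / 200) ≤ 2 * π * Real.log 384 := by
      calc _ = (Real.log D - Real.log V) * (2 * π / 200) := by ring
        _ ≤ _ := h3
    have := le_of_mul_le_mul_left h5 hp
    linarith
  have h5 : 200 * Real.log 384 + Real.log V = Real.log (384^200 * V) := by
    rw [Real.log_mul (by positivity) hV.ne', Real.log_pow]; norm_num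
  rw [h5] at h4
  exact (Real.log_le_log_iff hD0 (by positivity)).1 h4

open Real in
/-- the closed middle half of a dyadic arc -/
def marc (n : ℕ) (j : ℤ) : Set ℝ := Icc (2 * π * (j + 1/4) / 2^n) (2 * π * (j + 3/4) / 2^n)

theorem measurableSet_marc (n : ℕ) (j : ℤ) : MeasurableSet (marc n j) := measurableSet_Icc

open Real in
theorem volume_marc (n : ℕ) (j : ℤ) : volume (marc n j) = ENNReal.ofReal (π / 2^n) := by
  unfold marc
  rw [Real.volume_Icc]
  congr 1
  ring

open Real in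
theorem marc_subset_arc (n : ℕ) (j : ℤ) : marc n j ⊆ arc n j := by
  intro θ hθ
  unfold marc at hθ
  unfold arc
  have h2 : (0:ℝ) < 2^n := by positivity
  have hp : (0:ℝ) < π := Real.pi_pos
  refine ⟨le_trans ?_ hθ.1, lt_of_le_of_lt hθ.2 ?_⟩
  · apply div_le_div_of_nonneg_right _ h2.le; linarith
  · apply div_lt_div_of_pos_right _ h2; linarith

open Real in
theorem ang_mem_marc (n : ℕ) (j : ℤ) : ang n j ∈ marc n j := by
  unfold ang marc
  have h2 : (0:ℝ) < 2^n := by positivity
  have hp : (0:ℝ) < π := Real.pi_pos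
  constructor
  · apply div_le_div_of_nonneg_right _ h2.le; linarith
  · apply div_le_div_of_nonneg_right _ h2.le; linarith

theorem poissonKernel_scale {w : ℂ} {ρ ρ' : ℝ} (h : 0 < ρ') (θ : ℝ) :
    poissonKernel 0 (w / ρ') (circleMap 0 (ρ / ρ') θ) = poissonKernel 0 w (circleMap 0 ρ θ) := by
  rw [poissonKernel_circle, poissonKernel_circle]
  have hρ' : (ρ' : ℂ) ≠ 0 := by exact_mod_cast h.ne'
  have e1 : circleMap 0 (ρ / ρ') θ - w / ρ' = (circleMap 0 ρ θ - w) / ρ' := by
    simp only [circleMap, zero_add]; push_cast; ring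
  have e2 : ‖(ρ' : ℂ)‖ = ρ' := by rw [Complex.norm_real, Real.norm_eq_abs, abs_of_pos h]
  rw [e1, norm_div, norm_div, e2, div_pow, div_pow, div_pow, ← sub_div,
    div_div_div_cancel_right₀ (by positivity)]

open Real in
/-- oscillation of `φ` over a dyadic arc -/
theorem osc_arc {φ : ℂ → ℂ} (hd : DifferentiableOn ℂ φ (ball 0 1)) (hi : InjOn φ (ball 0 1))
    {n : ℕ} {j : ℤ} (hj0 : 0 ≤ j) (hj1 : j < 2^n) {ρ : ℝ} (hρ : rad (n+1) ≤ ρ) (hρ1 : ρ < 1) :
    ∃ θ ∈ marc n j, ∃ θ' ∈ marc n j, ((2:ℝ)^n)⁻¹ * ‖deriv φ (wI n j)‖ / (400 * 384^200) ≤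
      ‖φ (circleMap 0 ρ θ) - φ (circleMap 0 ρ θ')‖ := by
  by_contra hcon
  push Not at hcon
  set d := ((2:ℝ)^n)⁻¹ * ‖deriv φ (wI n j)‖ / (400 * 384^200) with hd'
  have hder : 0 < ‖deriv φ (wI n j)‖ := norm_pos_iff.2 (deriv_ne_zero hd hi (wI_mem n j))
  have h2 : (0:ℝ) < (2^n)⁻¹ := by positivity
  have hdpos : 0 < d := by positivity
  have hr1 : rad (n+1) = rad n + ((2:ℝ)^n)⁻¹/2 := by
    unfold rad; rw [pow_succ, mul_inv]; ring
  have hrn := rad_nonneg n
  have hρ0 : 0 < ρ := by linarith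
  have hcont : ContinuousAt (fun x : ℝ => φ (circleMap 0 x (ang n j))) ρ := by
    have h1 : ContinuousAt φ (circleMap 0 ρ (ang n j)) :=
      (hd.differentiableAt (isOpen_ball.mem_nhds (circleMap_mem hρ0.le hρ1 _))).continuousAt
    have h3 : ContinuousAt (fun x : ℝ => circleMap 0 x (ang n j)) ρ := by
      unfold circleMap; fun_prop
    exact ContinuousAt.comp (f := fun x : ℝ => circleMap 0 x (ang n j)) h1 h3
  obtain ⟨ρ', ⟨hρ'1, hρ'2⟩, hρ'3⟩ : ∃ ρ' ∈ Ioo ρ 1,
      ‖φ (circleMap 0 ρ' (ang n j)) - φ (circleMap 0 ρ (ang n j))‖ < d := by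
    have h1 : ∀ᶠ x in 𝓝 ρ, dist (φ (circleMap 0 x (ang n j))) (φ (circleMap 0 ρ (ang n j))) < d :=
      hcont.eventually (ball_mem_nhds _ hdpos)
    have h3 : ∀ᶠ x in 𝓝[>] ρ, x ∈ Ioo ρ 1 := Ioo_mem_nhdsGT hρ1
    obtain ⟨x, hx1, hx2⟩ := ((h1.filter_mono nhdsWithin_le_nhds).and h3).exists
    exact ⟨x, hx2, by rw [← dist_eq_norm]; exact hx1⟩
  have hρ'0 : 0 < ρ' := by linarith
  have hρ'c : (ρ' : ℂ) ≠ 0 := by exact_mod_cast hρ'0.ne'
  have hρ'n : ‖(ρ' : ℂ)‖ = ρ' := by rw [Complex.norm_real, Real.norm_eq_abs, abs_of_pos hρ'0]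
  set F : ℂ → ℂ := fun z => φ (ρ' * z) with hF
  have hmap : ∀ z ∈ ball (0:ℂ) 1, ((ρ' : ℂ) * z) ∈ ball (0:ℂ) 1 := by
    intro z hz
    rw [mem_ball, dist_zero_right] at hz ⊢
    rw [norm_mul, hρ'n]
    nlinarith [norm_nonneg z]
  have hFd : DifferentiableOn ℂ F (ball 0 1) :=
    hd.comp (differentiableOn_id.const_mul _) hmap
  have hFi : InjOn F (ball 0 1) := by
    intro z hz z' hz' he
    exact mul_left_cancel₀ hρ'c (hi (hmap z hz) (hmap z' hz') he)
  set a := φ (circleMap 0 ρ' (ang n j)) with ha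
  have hcm : circleMap 0 ρ' (ang n j) ∈ ball (0:ℂ) 1 := circleMap_mem hρ'0.le hρ'2 _
  have haF : ∀ z ∈ ball (0:ℂ) 1, F z ≠ a := by
    intro z hz he
    have h1 := hi (hmap z hz) hcm he
    have h3 : ‖(ρ' : ℂ) * z‖ = ρ' := by rw [h1, norm_circleMap_zero, abs_of_pos hρ'0]
    rw [norm_mul, hρ'n] at h3
    rw [mem_ball, dist_zero_right] at hz
    nlinarith
  have hwn : ‖wI n j / (ρ' : ℂ)‖ < ρ / ρ' := by
    rw [norm_div, hρ'n, norm_wI]
    exact div_lt_div_of_pos_right (by linarith) hρ'0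
  have hσ1 : ρ / ρ' < 1 := (div_lt_one hρ'0).2 hρ'1
  have hmulc : ∀ θ, (ρ' : ℂ) * circleMap 0 (ρ / ρ') θ = circleMap 0 ρ θ := by
    intro θ
    simp only [circleMap, zero_add]
    push_cast
    field_simp
  have hmulw : (ρ' : ℂ) * (wI n j / ρ') = wI n j := by field_simp
  have hosc := osc_disc hFd hFi haF hwn hσ1 (measurableSet_marc n j)
    ((marc_subset_arc n j).trans (arc_subset hj0 hj1)) ?_
    (V := 2 * d) (by positivity) ?_
  rotate_left
  · have hsub : IntegrableOn (fun θ => poissonKernel 0 (wI n j / (ρ':ℂ)) (circleMap 0 (ρ / ρ') θ))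
        (marc n j) :=
      ((continuous_poissonKernel_circle hwn).integrableOn_Icc (a := 0) (b := 2*π)).mono_set
        (((marc_subset_arc n j).trans (arc_subset hj0 hj1)).trans Ico_subset_Icc_self)
    have h1 : ∫ θ in marc n j, ((2:ℝ)^n / 100) ≤
        ∫ θ in marc n j, poissonKernel 0 (wI n j / (ρ':ℂ)) (circleMap 0 (ρ / ρ') θ) := by
      refine setIntegral_mono_on ?_ hsub (measurableSet_marc n j) ?_
      · refine integrableOn_const ?_ ?_
        · rw [volume_marc]; exact ENNReal.ofReal_ne_top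
        · simp
      · intro θ hθ
        rw [poissonKernel_scale hρ'0]
        exact poissonKernel_lower (marc_subset_arc n j hθ) hρ hρ1
    refine le_trans (le_of_eq ?_) h1
    rw [setIntegral_const, Measure.real, volume_marc, ENNReal.toReal_ofReal (by positivity),
      smul_eq_mul]
    field_simp
    norm_num
  · intro θ hθ
    simp only [hF]
    rw [hmulc]
    have h1 := (hcon θ hθ (ang n j) (ang_mem_marc n j)).le
    have h3 : φ (circleMap 0 ρ θ) - a = (φ (circleMap 0 ρ θ) - φ (circleMap 0 ρ (ang n j))) -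
      (a - φ (circleMap 0 ρ (ang n j))) := by ring
    rw [h3]
    refine (norm_sub_le _ _).trans ?_
    linarith
  simp only [hF] at hosc
  rw [hmulw] at hosc
  -- Koebe
  have hsub : ball (wI n j) (((2:ℝ)^n)⁻¹/2) ⊆ ball (0:ℂ) 1 ∩ {z | ‖z‖ < ρ'} := by
    intro z hz
    rw [mem_ball, dist_eq_norm] at hz
    have h1 : ‖z‖ ≤ ‖z - wI n j‖ + ‖wI n j‖ := by
      have := norm_add_le (z - wI n j) (wI n j)
      simpa using this
    rw [norm_wI] at h1
    have h3 : ‖z‖ < ρ' := by linarith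
    exact ⟨by rw [mem_ball, dist_zero_right]; linarith, h3⟩
  have hnot : a ∉ φ '' ball (wI n j) (((2:ℝ)^n)⁻¹/2) := by
    rintro ⟨z, hz, he⟩
    obtain ⟨h1, h3⟩ := hsub hz
    have h4 := hi h1 hcm he
    have h5 : ‖z‖ = ρ' := by rw [h4, norm_circleMap_zero, abs_of_pos hρ'0]
    exact absurd h5 (ne_of_lt h3)
  have hk := radius_mul_deriv_le (by positivity) (hd.mono fun z hz => (hsub hz).1)
    (hi.mono fun z hz => (hsub hz).1) hnot
  have h5 : ((2:ℝ)^n)⁻¹/2 * ‖deriv φ (wI n j)‖ ≤ 36 * (384^200 * (2 * d)) :=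
    hk.trans (mul_le_mul_of_nonneg_left hosc (by norm_num))
  have h6 : 36 * (384^200 * (2 * d)) = (72/400) * (((2:ℝ)^n)⁻¹ * ‖deriv φ (wI n j)‖) := by
    rw [hd']; ring
  rw [h6] at h5
  have h7 : 0 < ((2:ℝ)^n)⁻¹ * ‖deriv φ (wI n j)‖ := by positivity
  nlinarith

end Pool.Agent.Helper32.CN
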