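import Pool.Agent.Helper32.CN.Layer
import Pool.Agent.Helper32.CN.Osc

open Complex Metric Set Filter Topology MeasureTheory

namespace Pool.Agent.Helper32.CN

open Real in
/-- The geometric input: a uniform bound for sums of oscillations over disjoint arcs. -/
def OscBound (φ : ℂ → ℂ) (C : ℝ) : Prop :=
  ∀ (S : Finset (ℕ × ℤ)) (a b d : ℕ × ℤ → ℝ),
    (∀ i ∈ S, 0 < a i ∧ a i ≤ b i ∧ b i < 2 * π) →
    (S : Set (ℕ × ℤ)).PairwiseDisjoint (fun i => Icc (a i) (b i)) →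
    (∀ i ∈ S, 0 < d i ∧ ∀ᶠ r in 𝓝[<] (1:ℝ),
      ∃ θ ∈ Icc (a i) (b i), ∃ θ' ∈ Icc (a i) (b i),
        d i ≤ ‖φ (circleMap 0 r θ) - φ (circleMap 0 r θ')‖) → ∑ i ∈ S, d i ≤ C

open Real in
theorem sum_deriv_le {φ : ℂ → ℂ} (hd : DifferentiableOn ℂ φ (ball 0 1))
    (hi : InjOn φ (ball 0 1)) {C : ℝ} (hC : OscBound φ C) (P : ℕ → ℤ → Prop) (N : ℕ) :
    ∑ I ∈ stop P N, ((2:ℝ)^I.1)⁻¹ * ‖deriv φ (wI I.1 I.2)‖ ≤ 400 * 384^200 * C := by
  have h := hC (stop P N) (fun i => 2 * π * (i.2 + 1/4) / 2^i.1)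
    (fun i => 2 * π * (i.2 + 3/4) / 2^i.1)
    (fun i => ((2:ℝ)^i.1)⁻¹ * ‖deriv φ (wI i.1 i.2)‖ / (400 * 384^200)) ?_
    ((stop_pairwise P N).mono fun i => marc_subset_arc i.1 i.2) ?_
  · rw [← Finset.sum_div, div_le_iff₀ (by positivity)] at h
    linarith
  · intro i hi'
    rw [mem_stop] at hi'
    obtain ⟨-, h0, h1, -⟩ := hi'
    have h2 : (0:ℝ) < 2^i.1 := by positivity
    have h3 : (0:ℝ) ≤ i.2 := by exact_mod_cast h0
    have h4 : ((i.2:ℝ) + 1) ≤ 2^i.1 := by exact_mod_cast h1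
    have hp := Real.pi_pos
    refine ⟨by positivity, ?_, ?_⟩
    · apply div_le_div_of_nonneg_right _ h2.le; linarith
    · rw [div_lt_iff₀ h2]
      exact mul_lt_mul_of_pos_left (by linarith) (by positivity)
  · intro i hi'
    rw [mem_stop] at hi'
    obtain ⟨-, h0, h1, -⟩ := hi'
    have hder : 0 < ‖deriv φ (wI i.1 i.2)‖ := norm_pos_iff.2 (deriv_ne_zero hd hi (wI_mem _ _))
    refine ⟨by positivity, ?_⟩
    filter_upwards [Ioo_mem_nhdsLT (rad_lt_one (i.1 + 1))] with r hr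
    exact osc_arc hd hi h0 h1 hr.1.le hr.2

theorem two_pow_mul_exp_le (k : ℕ) : (2:ℝ)^k * Real.exp (-(2:ℝ)^k) ≤ 2 * (1/2)^k := by
  have h1 : (0:ℝ) < 2^k := by positivity
  have h2 := Real.quadratic_le_exp_of_nonneg h1.le
  rw [Real.exp_neg, ← div_eq_mul_inv, div_le_iff₀ (Real.exp_pos _)]
  have h3 : (2:ℝ) * (1/2)^k * ((2^k)^2/2) = 2^k := by
    rw [one_div, inv_pow]
    field_simp
  calc (2:ℝ)^k = 2 * (1/2)^k * ((2^k)^2/2) := h3.symm
    _ ≤ 2 * (1/2)^k * Real.exp (2^k) := by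
      apply mul_le_mul_of_nonneg_left _ (by positivity)
      linarith

theorem sum_two_pow_mul_exp_le (K : ℕ) :
    ∑ k ∈ Finset.range K, (2:ℝ)^k * Real.exp (-(2:ℝ)^k) ≤ 4 := by
  calc _ ≤ ∑ k ∈ Finset.range K, 2 * (1/2:ℝ)^k := Finset.sum_le_sum fun k _ => two_pow_mul_exp_le k
    _ = 2 * ∑ k ∈ Finset.range K, (1/2:ℝ)^k := by rw [Finset.mul_sum]
    _ ≤ 2 * 2 := by
      apply mul_le_mul_of_nonneg_left _ (by norm_num)
      have h := sum_geometric_two_le K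
      exact h
    _ = 4 := by norm_num

open Real in
/-- the positive part of the maximal function -/
theorem mplus_le {φ : ℂ → ℂ} (hd : DifferentiableOn ℂ φ (ball 0 1))
    (hi : InjOn φ (ball 0 1)) {C : ℝ} (hC : OscBound φ C) :
    ∫⁻ θ in Ico 0 (2*π), ⨆ n, ENNReal.ofReal (Real.log ‖deriv φ (wI n (idx n θ))‖) ≤
      ENNReal.ofReal (2 * π + 2 * π * (400 * 384^200 * C) * 4) := by
  have hC0 : 0 ≤ C := by
    have := hC ∅ (fun _ => 0) (fun _ => 0) (fun _ => 0) (by simp) (by simp) (by simp)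
    simpa using this
  refine lintegral_iSup_le (fun n j => Real.log ‖deriv φ (wI n j)‖) fun K N => ?_
  have hk : ∀ k, ∑ I ∈ stop (fun n j => (2:ℝ)^k < Real.log ‖deriv φ (wI n j)‖) N,
      (2 * π / 2^I.1 : ℝ) ≤ 2 * π * (400 * 384^200 * C) * Real.exp (-(2:ℝ)^k) := by
    intro k
    have h1 := sum_deriv_le hd hi hC (fun n j => (2:ℝ)^k < Real.log ‖deriv φ (wI n j)‖) N
    calc _ ≤ ∑ I ∈ stop (fun n j => (2:ℝ)^k < Real.log ‖deriv φ (wI n j)‖) N,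
          (2 * π * Real.exp (-(2:ℝ)^k)) * (((2:ℝ)^I.1)⁻¹ * ‖deriv φ (wI I.1 I.2)‖) := by
          refine Finset.sum_le_sum fun I hI => ?_
          rw [mem_stop] at hI
          have h2 : (2:ℝ)^k < Real.log ‖deriv φ (wI I.1 I.2)‖ := hI.2.2.2.1
          have h3 : 0 < ‖deriv φ (wI I.1 I.2)‖ := norm_pos_iff.2 (deriv_ne_zero hd hi (wI_mem _ _))
          have h4 : Real.exp ((2:ℝ)^k) ≤ ‖deriv φ (wI I.1 I.2)‖ :=
            ((Real.lt_log_iff_exp_lt h3).1 h2).le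
          have h5 : 1 ≤ Real.exp (-(2:ℝ)^k) * ‖deriv φ (wI I.1 I.2)‖ := by
            calc (1:ℝ) = Real.exp (-(2:ℝ)^k) * Real.exp ((2:ℝ)^k) := by rw [← Real.exp_add]; simp
              _ ≤ _ := mul_le_mul_of_nonneg_left h4 (Real.exp_pos _).le
          have h6 : 0 ≤ 2 * π / 2^I.1 := by positivity
          calc 2 * π / 2^I.1 = (2 * π / 2^I.1) * 1 := (mul_one _).symm
            _ ≤ (2 * π / 2^I.1) * (Real.exp (-(2:ℝ)^k) * ‖deriv φ (wI I.1 I.2)‖) :=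
              mul_le_mul_of_nonneg_left h5 h6
            _ = _ := by rw [div_eq_mul_inv]; ring
      _ = (2 * π * Real.exp (-(2:ℝ)^k)) * ∑ I ∈ stop (fun n j => (2:ℝ)^k <
          Real.log ‖deriv φ (wI n j)‖) N, (((2:ℝ)^I.1)⁻¹ * ‖deriv φ (wI I.1 I.2)‖) := by
          rw [Finset.mul_sum]
      _ ≤ (2 * π * Real.exp (-(2:ℝ)^k)) * (400 * 384^200 * C) :=
          mul_le_mul_of_nonneg_left h1 (by positivity)
      _ = _ := by ring
  calc _ ≤ ∑ k ∈ Finset.range K, (2:ℝ)^k * (2 * π * (400 * 384^200 * C) * Real.exp (-(2:ℝ)^k)) :=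
        Finset.sum_le_sum fun k _ => mul_le_mul_of_nonneg_left (hk k) (by positivity)
    _ = 2 * π * (400 * 384^200 * C) * ∑ k ∈ Finset.range K, (2:ℝ)^k * Real.exp (-(2:ℝ)^k) := by
        rw [Finset.mul_sum]
        exact Finset.sum_congr rfl fun k _ => by ring
    _ ≤ _ := mul_le_mul_of_nonneg_left (sum_two_pow_mul_exp_le K) (by positivity)

open Real in
/-- the negative part of the maximal function -/
theorem mminus_le {φ : ℂ → ℂ} (hd : DifferentiableOn ℂ φ (ball 0 1))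
    (hi : InjOn φ (ball 0 1)) (hne : φ '' ball 0 1 ≠ univ) (θ : ℝ) :
    ⨆ n, ENNReal.ofReal (-Real.log ‖deriv φ (wI n (idx n θ))‖) ≤
      ENNReal.ofReal (log⁺ (distC 16)) +
        ⨆ r ∈ Ico (0:ℝ) 1, ENNReal.ofReal (Real.log (‖deriv φ (circleMap 0 r θ)‖⁻¹)) := by
  refine iSup_le fun n => ?_
  have hr : (2:ℝ)⁻¹ ^ n = ((2:ℝ)^n)⁻¹ := inv_pow _ _
  have h2 : (0:ℝ) < (2^n)⁻¹ := by positivity
  have h3 : ((2:ℝ)^(n+1))⁻¹ = (2^n)⁻¹/2 := by rw [pow_succ, mul_inv]; ring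
  have h0 : ((2:ℝ)^(n+1))⁻¹ < 1 - rad n := by rw [h3]; unfold rad; linarith
  have h1 : 1 - rad n ≤ ((2:ℝ)^n)⁻¹ := by unfold rad; linarith
  obtain ⟨-, hc⟩ := deriv_wI_comp (θ := θ) hd hi hne h0 h1 (rad_nonneg n) (rad_lt_one n)
  have hp1 : 0 < ‖deriv φ (wI n (idx n θ))‖ := norm_pos_iff.2 (deriv_ne_zero hd hi (wI_mem _ _))
  have hp2 : 0 < ‖deriv φ (circleMap 0 (rad n) θ)‖ :=
    norm_pos_iff.2 (deriv_ne_zero hd hi (circleMap_mem (rad_nonneg n) (rad_lt_one n) θ))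
  have hD : 0 < distC 16 := distC_pos (by norm_num)
  refine le_trans ?_ (add_le_add_right (le_iSup₂_of_le (rad n)
    ⟨rad_nonneg n, rad_lt_one n⟩ le_rfl) _)
  rw [Real.log_inv]
  have h4 : -Real.log ‖deriv φ (wI n (idx n θ))‖ ≤ log⁺ (distC 16) +
      -Real.log ‖deriv φ (circleMap 0 (rad n) θ)‖ := by
    have h5 := Real.log_le_log hp2 hc
    rw [Real.log_mul hD.ne' hp1.ne'] at h5
    have h6 : Real.log (distC 16) ≤ log⁺ (distC 16) := by rw [posLog_apply]; exact le_max_right _ _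
    linarith
  refine (ENNReal.ofReal_le_ofReal h4).trans ENNReal.ofReal_add_le

end Pool.Agent.Helper32.CN
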