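import Pool.Agent.Helper36.CauchyN.Univ
import Pool.Agent.Helper32.CN.UBaux

open Complex Metric Set Filter Topology MeasureTheory

namespace Pool.Agent.Helper32.CN

/-- the vertical line `Re = t` is met by the image of the arc `[a, b]` near the boundary -/
def Cross (φ : ℂ → ℂ) (a b t : ℝ) : Prop :=
  ∃ᶠ r in 𝓝[<] (1:ℝ), ∃ θ ∈ Icc a b, (φ (circleMap 0 r θ)).re = t

/-- ultrafilter from a frequent property -/
theorem exists_ultra {P : ℝ → Prop} {l : Filter ℝ} (h : ∃ᶠ r in l, P r) :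
    ∃ U : Ultrafilter ℝ, (U : Filter ℝ) ≤ l ∧ ∀ᶠ r in (U : Filter ℝ), P r := by
  have h1 : NeBot (l ⊓ 𝓟 {r | P r}) := frequently_mem_iff_neBot.1 h
  refine ⟨Ultrafilter.of (l ⊓ 𝓟 {r | P r}), (Ultrafilter.of_le _).trans inf_le_left, ?_⟩
  exact ((Ultrafilter.of_le _).trans inf_le_right) (mem_principal_self _)

theorem exists_lim {U : Ultrafilter ℝ} {x : ℝ → ℝ} {A B : ℝ}
    (h : ∀ᶠ r in (U : Filter ℝ), x r ∈ Icc A B) :
    ∃ α ∈ Icc A B, Tendsto x U (𝓝 α) := by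
  have h1 : (U.map x : Filter ℝ) ≤ 𝓟 (Icc A B) := by
    rw [le_principal_iff]
    exact h
  obtain ⟨α, hα, h2⟩ := isCompact_Icc.ultrafilter_le_nhds (U.map x) h1
  exact ⟨α, hα, h2⟩

theorem eventually_unit {l : Filter ℝ} (hl : l ≤ 𝓝[<] (1:ℝ)) : ∀ᶠ r in l, 0 < r ∧ r < 1 := by
  have : ∀ᶠ r in 𝓝[<] (1:ℝ), 0 < r ∧ r < 1 := by
    filter_upwards [Ioo_mem_nhdsLT (show (0:ℝ) < 1 by norm_num)] with r hr
    exact hr
  exact this.filter_mono hl

/-- a frequent oscillation of the real part gives an interval of crossed lines -/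
theorem exists_Ioo_cross {φ : ℂ → ℂ} (hd : DifferentiableOn ℂ φ (ball 0 1)) {R : ℝ}
    (hR : ∀ w ∈ ball (0:ℂ) 1, ‖φ w‖ ≤ R) {a b d : ℝ}
    (h : ∃ᶠ r in 𝓝[<] (1:ℝ), ∃ θ ∈ Icc a b, ∃ θ' ∈ Icc a b,
      d ≤ |(φ (circleMap 0 r θ)).re - (φ (circleMap 0 r θ')).re|) :
    ∃ x y : ℝ, x + d ≤ y ∧ ∀ t ∈ Ioo x y, Cross φ a b t := by
  have h' : ∃ᶠ r in 𝓝[<] (1:ℝ), ∃ θ ∈ Icc a b, ∃ θ' ∈ Icc a b,
      (φ (circleMap 0 r θ)).re + d ≤ (φ (circleMap 0 r θ')).re := by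
    refine h.mono ?_
    rintro r ⟨θ, hθ, θ', hθ', h1⟩
    rcases le_abs.1 h1 with h2 | h2
    · exact ⟨θ', hθ', θ, hθ, by linarith⟩
    · exact ⟨θ, hθ, θ', hθ', by linarith⟩
  obtain ⟨U, hU, hP⟩ := exists_ultra h'
  have hP' : ∀ r, ∃ p : ℝ × ℝ, (∃ θ ∈ Icc a b, ∃ θ' ∈ Icc a b,
      (φ (circleMap 0 r θ)).re + d ≤ (φ (circleMap 0 r θ')).re) →
      p.1 ∈ Icc a b ∧ p.2 ∈ Icc a b ∧
      (φ (circleMap 0 r p.1)).re + d ≤ (φ (circleMap 0 r p.2)).re := by
    intro r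
    by_cases hr : ∃ θ ∈ Icc a b, ∃ θ' ∈ Icc a b,
      (φ (circleMap 0 r θ)).re + d ≤ (φ (circleMap 0 r θ')).re
    · obtain ⟨θ, hθ, θ', hθ', h1⟩ := hr
      exact ⟨(θ, θ'), fun _ => ⟨hθ, hθ', h1⟩⟩
    · exact ⟨(0, 0), fun h => absurd h hr⟩
  choose p hp using hP'
  have hunit := eventually_unit hU
  have hx : ∀ᶠ r in (U : Filter ℝ), (φ (circleMap 0 r (p r).1)).re ∈ Icc (-R) R := by
    filter_upwards [hunit] with r hr
    have h1 := hR _ (circleMap_mem hr.1.le hr.2 (p r).1)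
    exact abs_le.1 ((abs_re_le_norm _).trans h1)
  have hy : ∀ᶠ r in (U : Filter ℝ), (φ (circleMap 0 r (p r).2)).re ∈ Icc (-R) R := by
    filter_upwards [hunit] with r hr
    have h1 := hR _ (circleMap_mem hr.1.le hr.2 (p r).2)
    exact abs_le.1 ((abs_re_le_norm _).trans h1)
  obtain ⟨x, -, hxl⟩ := exists_lim hx
  obtain ⟨y, -, hyl⟩ := exists_lim hy
  refine ⟨x, y, ?_, ?_⟩
  · refine le_of_tendsto_of_tendsto (hxl.add_const d) hyl ?_
    filter_upwards [hP] with r hr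
    exact (hp r hr).2.2
  · intro t ht
    have h1 : ∀ᶠ r in (U : Filter ℝ), (φ (circleMap 0 r (p r).1)).re < t :=
      hxl.eventually (gt_mem_nhds ht.1)
    have h2 : ∀ᶠ r in (U : Filter ℝ), t < (φ (circleMap 0 r (p r).2)).re :=
      hyl.eventually (lt_mem_nhds ht.2)
    have h3 : ∀ᶠ r in (U : Filter ℝ), ∃ θ ∈ Icc a b, (φ (circleMap 0 r θ)).re = t := by
      filter_upwards [h1, h2, hP, hunit] with r hr1 hr2 hr3 hr4
      obtain ⟨hp1, hp2, -⟩ := hp r hr3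
      have hc : ContinuousOn (fun θ : ℝ => (φ (circleMap 0 r θ)).re) (uIcc (p r).1 (p r).2) :=
        (Complex.continuous_re.comp
          (continuousOn_circle hd.continuousOn hr4.1.le hr4.2)).continuousOn
      have h4 := intermediate_value_uIcc hc
      have h5 : t ∈ uIcc (φ (circleMap 0 r (p r).1)).re (φ (circleMap 0 r (p r).2)).re := by
        rw [mem_uIcc]; left; exact ⟨hr1.le, hr2.le⟩
      obtain ⟨θ, hθ, he⟩ := h4 h5
      refine ⟨θ, ?_, he⟩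
      have hsub : uIcc (p r).1 (p r).2 ⊆ Icc a b := by
        intro z hz
        rcases mem_uIcc.1 hz with hz | hz
        · exact ⟨hp1.1.trans hz.1, hz.2.trans hp2.2⟩
        · exact ⟨hp2.1.trans hz.1, hz.2.trans hp1.2⟩
      exact hsub hθ
    exact h3.frequently.filter_mono hU

/-- one-sided limits of the inverse map along a vertical line -/
def SideLim (h : ℝ → ℂ) (α : ℝ) (s : Bool) (z : ℂ) : Prop :=
  if s then Tendsto h (𝓝[<] α) (𝓝 z) else Tendsto h (𝓝[>] α) (𝓝 z)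

theorem SideLim.unique {h : ℝ → ℂ} {α : ℝ} {s : Bool} {z z' : ℂ} (h1 : SideLim h α s z)
    (h2 : SideLim h α s z') : z = z' := by
  unfold SideLim at h1 h2
  cases s
  · simp only [Bool.false_eq_true, if_false] at h1 h2
    exact tendsto_nhds_unique h1 h2
  · simp only [if_true] at h1 h2
    exact tendsto_nhds_unique h1 h2

/-- existence of one-sided limits for functions with integrable derivative -/
theorem exists_left_lim {h g : ℝ → ℂ} {V : Set ℝ} (hg : Integrable g) {c α : ℝ} (hc : c < α)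
    (hsub : Ioo c α ⊆ V) (hder : ∀ y ∈ V, HasDerivAt h (g y) y) :
    ∃ z, Tendsto h (𝓝[<] α) (𝓝 z) := by
  obtain ⟨c', hc'⟩ : ∃ c', c' ∈ Ioo c α := ⟨(c + α)/2, by constructor <;> linarith⟩
  have hprim : Continuous fun y => ∫ u in c'..y, g u :=
    intervalIntegral.continuous_primitive (fun a b => hg.intervalIntegrable) c'
  refine ⟨h c' + ∫ u in c'..α, g u, ?_⟩
  have h1 : Tendsto (fun y => h c' + ∫ u in c'..y, g u) (𝓝[<] α) (𝓝 (h c' + ∫ u in c'..α, g u)) :=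
    (tendsto_const_nhds.add (hprim.tendsto α)).mono_left nhdsWithin_le_nhds
  refine h1.congr' ?_
  filter_upwards [Ioo_mem_nhdsLT hc] with y hy
  have h2 : ∫ u in c'..y, g u = h y - h c' := by
    refine intervalIntegral.integral_eq_sub_of_hasDerivAt ?_ hg.intervalIntegrable
    intro u hu
    refine hder u (hsub ?_)
    rcases mem_uIcc.1 hu with hu | hu
    · exact ⟨hc'.1.trans_le hu.1, hu.2.trans_lt hy.2⟩
    · exact ⟨hy.1.trans_le hu.1, hu.2.trans_lt hc'.2⟩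
  rw [h2]; ring

theorem exists_right_lim {h g : ℝ → ℂ} {V : Set ℝ} (hg : Integrable g) {c α : ℝ} (hc : α < c)
    (hsub : Ioo α c ⊆ V) (hder : ∀ y ∈ V, HasDerivAt h (g y) y) :
    ∃ z, Tendsto h (𝓝[>] α) (𝓝 z) := by
  obtain ⟨c', hc'⟩ : ∃ c', c' ∈ Ioo α c := ⟨(c + α)/2, by constructor <;> linarith⟩
  have hprim : Continuous fun y => ∫ u in c'..y, g u :=
    intervalIntegral.continuous_primitive (fun a b => hg.intervalIntegrable) c'
  refine ⟨h c' + ∫ u in c'..α, g u, ?_⟩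
  have h1 : Tendsto (fun y => h c' + ∫ u in c'..y, g u) (𝓝[>] α) (𝓝 (h c' + ∫ u in c'..α, g u)) :=
    (tendsto_const_nhds.add (hprim.tendsto α)).mono_left nhdsWithin_le_nhds
  refine h1.congr' ?_
  filter_upwards [Ioo_mem_nhdsGT hc] with y hy
  have h2 : ∫ u in c'..y, g u = h y - h c' := by
    refine intervalIntegral.integral_eq_sub_of_hasDerivAt ?_ hg.intervalIntegrable
    intro u hu
    refine hder u (hsub ?_)
    rcases mem_uIcc.1 hu with hu | hu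
    · exact ⟨hc'.1.trans_le hu.1, hu.2.trans_lt hy.2⟩
    · exact ⟨hy.1.trans_le hu.1, hu.2.trans_lt hc'.2⟩
  rw [h2]; ring

end Pool.Agent.Helper32.CN
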