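import Pool.Agent.Helper32.CN.Cross

open Complex Metric Set Filter Topology MeasureTheory

namespace Pool.Agent.Helper32.CN

open Pool.Agent.Helper36.CN (inv inv_apply inv_mem apply_inv differentiableOn_inv)

theorem exists_gap (E : Finset ℝ) (α : ℝ) :
    ∃ η > 0, ∀ y ∈ E, y ≠ α → η ≤ |y - α| := by
  have h1 : ((E.erase α : Finset ℝ) : Set ℝ)ᶜ ∈ 𝓝 α := by
    refine (Finset.finite_toSet _).isClosed.isOpen_compl.mem_nhds ?_
    simp
  obtain ⟨η, hη, hsub⟩ := Metric.mem_nhds_iff.1 h1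
  refine ⟨η, hη, fun y hy hne => ?_⟩
  by_contra hlt
  push Not at hlt
  have h2 : y ∈ ball α η := by rw [mem_ball, Real.dist_eq]; exact hlt
  have h3 := hsub h2
  rw [mem_compl_iff, Finset.mem_coe, Finset.mem_erase] at h3
  exact h3 ⟨hne, hy⟩

theorem cross_data {φ : ℂ → ℂ} (hd : DifferentiableOn ℂ φ (ball 0 1))
    (hi : InjOn φ (ball 0 1)) {R : ℝ} (hR : ∀ w ∈ ball (0:ℂ) 1, ‖φ w‖ ≤ R) {t : ℝ}
    (hint : IntegrableOn (fun y : ℝ => deriv (inv φ) ((t:ℂ) + y * I))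
      {y : ℝ | ((t:ℂ) + y * I) ∈ φ '' ball 0 1})
    {E : Finset ℝ} (hE : ∀ y : ℝ, ((t:ℂ) + y * I) ∈ frontier (φ '' ball 0 1) → y ∈ E)
    {a b : ℝ} (hc : Cross φ a b t) :
    ∃ α ∈ E, ∃ s : Bool, ∃ θ ∈ Icc a b,
      SideLim (fun y : ℝ => inv φ ((t:ℂ) + y * I)) α s (circleMap 0 1 θ) := by
  obtain ⟨U, hU, hP⟩ := exists_ultra hc
  have hP' : ∀ r, ∃ θ : ℝ, (∃ θ ∈ Icc a b, (φ (circleMap 0 r θ)).re = t) →
      θ ∈ Icc a b ∧ (φ (circleMap 0 r θ)).re = t := by
    intro r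
    by_cases hr : ∃ θ ∈ Icc a b, (φ (circleMap 0 r θ)).re = t
    · obtain ⟨θ, hθ, h1⟩ := hr
      exact ⟨θ, fun _ => ⟨hθ, h1⟩⟩
    · exact ⟨0, fun h => absurd h hr⟩
  choose p hp using hP'
  have hunit := eventually_unit hU
  have hopen : IsOpen (φ '' ball 0 1) := isOpen_image hd hi isOpen_ball subset_rfl
  have hx : ∀ᶠ r in (U : Filter ℝ), p r ∈ Icc a b := by
    filter_upwards [hP] with r hr
    exact (hp r hr).1
  have hy : ∀ᶠ r in (U : Filter ℝ), (φ (circleMap 0 r (p r))).im ∈ Icc (-R) R := by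
    filter_upwards [hunit] with r hr
    have h1 := hR _ (circleMap_mem hr.1.le hr.2 (p r))
    exact abs_le.1 ((abs_im_le_norm _).trans h1)
  obtain ⟨θ, hθ, hθl⟩ := exists_lim hx
  obtain ⟨α, -, hαl⟩ := exists_lim hy
  set Y : ℝ → ℝ := fun r => (φ (circleMap 0 r (p r))).im with hY
  set V : Set ℝ := {y : ℝ | ((t:ℂ) + y * I) ∈ φ '' ball 0 1} with hV
  set h : ℝ → ℂ := fun y => inv φ ((t:ℂ) + y * I) with hh
  have hcline : Continuous (fun y : ℝ => (t:ℂ) + y * I) := by fun_prop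
  have hVopen : IsOpen V := hopen.preimage hcline
  have heq : ∀ᶠ r in (U : Filter ℝ), (t:ℂ) + Y r * I = φ (circleMap 0 r (p r)) := by
    filter_upwards [hP] with r hr
    rw [← (hp r hr).2]
    exact re_add_im _
  have hYV : ∀ᶠ r in (U : Filter ℝ), Y r ∈ V := by
    filter_upwards [heq, hunit] with r hr hr1
    change (t:ℂ) + Y r * I ∈ φ '' ball 0 1
    rw [hr]
    exact mem_image_of_mem φ (circleMap_mem hr1.1.le hr1.2 _)
  have hhY : ∀ᶠ r in (U : Filter ℝ), circleMap 0 r (p r) = h (Y r) := by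
    filter_upwards [heq, hunit] with r hr hr1
    simp only [hh]
    rw [hr, inv_apply hi (circleMap_mem hr1.1.le hr1.2 _)]
  have hlimc : Tendsto (fun r => circleMap 0 r (p r)) U (𝓝 (circleMap 0 1 θ)) := by
    have h1 : Tendsto (fun r : ℝ => r) U (𝓝 1) := (hU.trans nhdsWithin_le_nhds)
    have h2 : Tendsto (fun r : ℝ => (0:ℂ) + (r:ℂ) * exp ((p r : ℂ) * I)) U
        (𝓝 ((0:ℂ) + ((1:ℝ):ℂ) * exp ((θ : ℂ) * I))) := by
      refine tendsto_const_nhds.add (Tendsto.mul ?_ ?_)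
      · exact (Complex.continuous_ofReal.tendsto 1).comp h1
      · exact (Continuous.tendsto (by fun_prop : Continuous fun x : ℝ => exp ((x : ℂ) * I)) θ).comp hθl
    exact h2
  have hlimh : Tendsto (fun r => h (Y r)) U (𝓝 (circleMap 0 1 θ)) := hlimc.congr' hhY
  have hder : ∀ y ∈ V, HasDerivAt h (I • deriv (inv φ) ((t:ℂ) + y * I)) y := by
    intro y hy
    have h1 : HasDerivAt (inv φ) (deriv (inv φ) ((t:ℂ) + y * I)) ((t:ℂ) + y * I) :=
      ((differentiableOn_inv hd hi).differentiableAt (hopen.mem_nhds hy)).hasDerivAt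
    have h2 : HasDerivAt (fun y : ℝ => (t:ℂ) + y * I) I y := by
      have := ((hasDerivAt_id y).ofReal_comp.mul_const I).const_add (t:ℂ)
      simpa using this
    exact h1.scomp y h2
  have hαV : α ∉ V := by
    intro hα
    have h1 : Tendsto (fun r => h (Y r)) U (𝓝 (h α)) := (hder α hα).continuousAt.tendsto.comp hαl
    have h2 := tendsto_nhds_unique hlimh h1
    have h3 : h α ∈ ball (0:ℂ) 1 := inv_mem hα
    rw [← h2, mem_ball, dist_zero_right, norm_circleMap_zero, abs_one] at h3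
    exact lt_irrefl _ h3
  have hclos : ((t:ℂ) + α * I) ∈ closure (φ '' ball 0 1) := by
    refine mem_closure_of_tendsto ((hcline.tendsto α).comp hαl) ?_
    exact hYV
  have hfr : ((t:ℂ) + α * I) ∈ frontier (φ '' ball 0 1) := by
    rw [frontier, hopen.interior_eq]
    exact ⟨hclos, hαV⟩
  have hαE := hE α hfr
  have hintg : Integrable (V.indicator fun y : ℝ => I • deriv (inv φ) ((t:ℂ) + y * I)) := by
    rw [integrable_indicator_iff hVopen.measurableSet]
    exact hint.smul I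
  have hderV : ∀ y ∈ V, HasDerivAt h (V.indicator (fun y : ℝ => I • deriv (inv φ) ((t:ℂ) + y * I)) y) y := by
    intro y hy
    rw [indicator_of_mem hy]
    exact hder y hy
  obtain ⟨η, hη, hgap⟩ := exists_gap E α
  have hcl : ∀ y ∈ closure V, y ∉ V → y ∈ E := by
    intro y hy hyV
    refine hE y ?_
    rw [frontier, hopen.interior_eq]
    refine ⟨?_, hyV⟩
    exact (hcline.closure_preimage_subset _) hy
  have hside : (∀ᶠ r in (U : Filter ℝ), Y r < α) ∨ (∀ᶠ r in (U : Filter ℝ), α < Y r) := by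
    rw [← Ultrafilter.eventually_or]
    filter_upwards [hYV] with r hr
    exact lt_or_gt_of_ne (fun he => hαV (he ▸ hr))
  rcases hside with hs | hs
  · refine ⟨α, hαE, true, θ, hθ, ?_⟩
    have hsub : Ioo (α - η) α ⊆ V := by
      refine isPreconnected_Ioo.subset_of_closure_inter_subset hVopen ?_ ?_
      · have h1 : ∀ᶠ r in (U : Filter ℝ), α - η < Y r := hαl.eventually (lt_mem_nhds (by linarith))
        obtain ⟨r, hr1, hr2, hr3⟩ := (h1.and (hs.and hYV)).exists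
        exact ⟨Y r, ⟨hr1, hr2⟩, hr3⟩
      · rintro y ⟨hy1, hy2⟩
        by_contra hyV
        have h1 := hgap y (hcl y hy1 hyV) hy2.2.ne
        rw [abs_of_neg (by linarith [hy2.2])] at h1
        linarith [hy2.1]
    obtain ⟨z, hz⟩ := exists_left_lim hintg (by linarith) hsub hderV
    have h1 : Tendsto Y U (𝓝[<] α) := tendsto_nhdsWithin_iff.2 ⟨hαl, hs⟩
    have h2 := tendsto_nhds_unique hlimh (hz.comp h1)
    rw [h2]
    exact hz
  · refine ⟨α, hαE, false, θ, hθ, ?_⟩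
    have hsub : Ioo α (α + η) ⊆ V := by
      refine isPreconnected_Ioo.subset_of_closure_inter_subset hVopen ?_ ?_
      · have h1 : ∀ᶠ r in (U : Filter ℝ), Y r < α + η := hαl.eventually (gt_mem_nhds (by linarith))
        obtain ⟨r, hr1, hr2, hr3⟩ := (h1.and (hs.and hYV)).exists
        exact ⟨Y r, ⟨hr2, hr1⟩, hr3⟩
      · rintro y ⟨hy1, hy2⟩
        by_contra hyV
        have h1 := hgap y (hcl y hy1 hyV) hy2.1.ne'
        rw [abs_of_pos (by linarith [hy2.1])] at h1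
        linarith [hy2.2]
    obtain ⟨z, hz⟩ := exists_right_lim hintg (by linarith) hsub hderV
    have h1 : Tendsto Y U (𝓝[>] α) := tendsto_nhdsWithin_iff.2 ⟨hαl, hs⟩
    have h2 := tendsto_nhds_unique hlimh (hz.comp h1)
    rw [h2]
    exact hz

open Real in
theorem circleMap_inj {θ θ' : ℝ} (h0 : 0 < θ) (h1 : θ < 2 * π) (h0' : 0 < θ') (h1' : θ' < 2 * π)
    (h : circleMap 0 1 θ = circleMap 0 1 θ') : θ = θ' := by
  have hinj := injOn_circleMap_of_abs_sub_le' (c := (0:ℂ)) (R := 1) (a := 0) (b := 2 * π)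
    one_ne_zero (by linarith)
  exact hinj ⟨h0.le, h1⟩ ⟨h0'.le, h1'⟩ h

theorem card_cross_le {φ : ℂ → ℂ} (hd : DifferentiableOn ℂ φ (ball 0 1))
    (hi : InjOn φ (ball 0 1)) {R : ℝ} (hR : ∀ w ∈ ball (0:ℂ) 1, ‖φ w‖ ≤ R) {t : ℝ}
    (hint : IntegrableOn (fun y : ℝ => deriv (inv φ) ((t:ℂ) + y * I))
      {y : ℝ | ((t:ℂ) + y * I) ∈ φ '' ball 0 1})
    {E : Finset ℝ} (hE : ∀ y : ℝ, ((t:ℂ) + y * I) ∈ frontier (φ '' ball 0 1) → y ∈ E)
    {ι : Type*} (S : Finset ι) (a b : ι → ℝ) (ha : ∀ i ∈ S, 0 < a i) (hb : ∀ i ∈ S, b i < 2 * Real.pi)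
    (hdisj : (S : Set ι).PairwiseDisjoint (fun i => Icc (a i) (b i)))
    (hc : ∀ i ∈ S, Cross φ (a i) (b i) t) : S.card ≤ E.card * 2 := by
  classical
  have h1 : ∀ i : ι, ∃ q : (ℝ × Bool) × ℝ, i ∈ S → q.1.1 ∈ E ∧ q.2 ∈ Icc (a i) (b i) ∧
      SideLim (fun y : ℝ => inv φ ((t:ℂ) + y * I)) q.1.1 q.1.2 (circleMap 0 1 q.2) := by
    intro i
    by_cases hi' : i ∈ S
    · obtain ⟨α, hα, s, θ, hθ, hl⟩ := cross_data hd hi hR hint hE (hc i hi')
      exact ⟨((α, s), θ), fun _ => ⟨hα, hθ, hl⟩⟩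
    · exact ⟨((0, true), 0), fun h => absurd h hi'⟩
  choose q hq using h1
  have h2 : S.card ≤ (E ×ˢ (Finset.univ : Finset Bool)).card := by
    refine Finset.card_le_card_of_injOn (fun i => (q i).1) ?_ ?_
    · intro i hi'
      exact Finset.mem_product.2 ⟨(hq i hi').1, Finset.mem_univ _⟩
    · intro i hi' j hj' he
      by_contra hne
      obtain ⟨-, h3, h4⟩ := hq i hi'
      obtain ⟨-, h5, h6⟩ := hq j hj'
      have he' : (q i).1 = (q j).1 := he
      rw [he'] at h4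
      have h7 := h4.unique h6
      have h8 := circleMap_inj ((ha i hi').trans_le h3.1) (h3.2.trans_lt (hb i hi'))
        ((ha j hj').trans_le h5.1) (h5.2.trans_lt (hb j hj')) h7
      have h9 := hdisj hi' hj' hne
      rw [Function.onFun, Set.disjoint_left] at h9
      exact h9 h3 (h8 ▸ h5)
  simpa using h2

end Pool.Agent.Helper32.CN
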