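import Pool.Agent.Helper32.CN.LtwoA

open Complex Metric Set Filter Topology MeasureTheory

namespace Pool.Agent.Helper32.CN

variable {α : Type*} [MeasurableSpace α] {ν : Measure α} {X : α → ℂ} {ε : ℝ}

theorem integrable_bdd [IsFiniteMeasure ν] {g : α → ℂ} (hg : Measurable g) {t : ℝ}
    (ht : ∀ a, ‖g a‖ ≤ t) : Integrable g ν :=
  Integrable.of_bound hg.aestronglyMeasurable t (Filter.Eventually.of_forall ht)

theorem integrable_CC_sq [IsFiniteMeasure ν] (hX : Measurable X) (hε : 0 < ε) {g : α → ℂ}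
    (hg : Measurable g) (hgi : Integrable g ν) : Integrable (fun a => ‖CC ε ν X g a‖^2) ν := by
  refine Integrable.of_bound ((measurable_CC hX hε hg).norm.pow_const 2).aestronglyMeasurable
    ((ε⁻¹ * ∫ b, ‖g b‖ ∂ν)^2) (Filter.Eventually.of_forall fun a => ?_)
  rw [Real.norm_eq_abs, abs_of_nonneg (by positivity)]
  exact pow_le_pow_left₀ (norm_nonneg _) (norm_CC_le hX hε hgi a) 2

/-- real unit-bounded case -/
theorem L2_real_one [IsFiniteMeasure ν] (hX : Measurable X) (hε : 0 < ε) {g : α → ℝ}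
    (hg : Measurable g) (hg1 : ∀ a, |g a| ≤ 1) :
    ∫ a, ‖CC ε ν X (fun b => (g b : ℂ)) a‖^2 ∂ν ≤ 62 * ∫ a, ‖CC ε ν X (fun _ => 1) a‖^2 ∂ν := by
  set A := ∫ a, ‖CC ε ν X (fun _ => 1) a‖^2 ∂ν with hA
  set h : α → ℝ := fun a => 1 + g a / 2 with hh
  have hhm : Measurable h := measurable_const.add (hg.div_const 2)
  have hh1 : ∀ a, 1/2 ≤ h a := fun a => by
    have := (abs_le.1 (hg1 a)).1; simp only [hh]; linarith
  have hh2 : ∀ a, h a ≤ 3/2 := fun a => by
    have := (abs_le.1 (hg1 a)).2; simp only [hh]; linarith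
  have hpos := triple_pos (ν := ν) hX hε hhm (t := 3/2) (fun a => by linarith [hh1 a]) hh2
  have hhc : Measurable (fun b => (h b : ℂ)) := Complex.measurable_ofReal.comp hhm
  have hhb : ∀ a, ‖(h a : ℂ)‖ ≤ 3/2 := fun a => by
    rw [Complex.norm_real, Real.norm_eq_abs, abs_of_nonneg (by linarith [hh1 a])]
    exact hh2 a
  have hhi : Integrable (fun b => (h b : ℂ)) ν := integrable_bdd hhc hhb
  have h1i : Integrable (fun _ : α => (1:ℂ)) ν := integrable_const _
  have iH := integrable_CC_sq hX hε hhc hhi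
  have i1 := integrable_CC_sq hX hε (ν := ν) (X := X) (g := fun _ => (1:ℂ)) measurable_const h1i
  have hsecond : ∫ a, ‖CC ε ν X (fun b => (h b : ℂ)) a‖^2 ∂ν ≤ 27/4 * A := by
    have hint : Integrable (fun a => ‖CC ε ν X (fun b => (h b : ℂ)) a‖^2 * h a) ν := by
      refine (iH.mul_bdd (c := 3/2) hhm.aestronglyMeasurable ?_)
      exact Filter.Eventually.of_forall fun a => by
        rw [Real.norm_eq_abs, abs_of_nonneg (by linarith [hh1 a])]; exact hh2 a
    have h3 : ∫ a, ‖CC ε ν X (fun b => (h b : ℂ)) a‖^2 ∂ν ≤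
        ∫ a, 2 * (‖CC ε ν X (fun b => (h b : ℂ)) a‖^2 * h a) ∂ν := by
      refine integral_mono iH (hint.const_mul 2) fun a => ?_
      have := hh1 a
      have h4 : 0 ≤ ‖CC ε ν X (fun b => (h b : ℂ)) a‖^2 := by positivity
      nlinarith
    rw [integral_const_mul] at h3
    have h5 : (3/2:ℝ)^3 = 27/8 := by norm_num
    rw [h5] at hpos
    linarith
  have hpt : ∀ a, ‖CC ε ν X (fun b => (g b : ℂ)) a‖^2 ≤
      8 * ‖CC ε ν X (fun b => (h b : ℂ)) a‖^2 + 8 * ‖CC ε ν X (fun _ => 1) a‖^2 := by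
    intro a
    have e : CC ε ν X (fun b => (g b : ℂ)) a =
        2 * (CC ε ν X (fun b => (h b : ℂ)) a - CC ε ν X (fun _ => 1) a) := by
      rw [← CC_sub hX hε hhi h1i, ← CC_const_mul]
      congr 1
      ext b
      simp only [hh]
      push_cast
      ring
    rw [e, norm_mul, Complex.norm_ofNat]
    have h6 := norm_sub_le (CC ε ν X (fun b => (h b : ℂ)) a) (CC ε ν X (fun _ => 1) a)
    have h7 : (2 * ‖CC ε ν X (fun b => (h b : ℂ)) a - CC ε ν X (fun _ => 1) a‖)^2 ≤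
        (2 * (‖CC ε ν X (fun b => (h b : ℂ)) a‖ + ‖CC ε ν X (fun _ => 1) a‖))^2 :=
      pow_le_pow_left₀ (by positivity) (by linarith) 2
    nlinarith [sq_nonneg (‖CC ε ν X (fun b => (h b : ℂ)) a‖ - ‖CC ε ν X (fun _ => 1) a‖)]
  have hgc : Measurable (fun b => (g b : ℂ)) := Complex.measurable_ofReal.comp hg
  have hgi : Integrable (fun b => (g b : ℂ)) ν := integrable_bdd hgc (t := 1) (fun a => by
    rw [Complex.norm_real]; exact hg1 a)
  calc ∫ a, ‖CC ε ν X (fun b => (g b : ℂ)) a‖^2 ∂ν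
      ≤ ∫ a, (8 * ‖CC ε ν X (fun b => (h b : ℂ)) a‖^2 + 8 * ‖CC ε ν X (fun _ => 1) a‖^2) ∂ν :=
        integral_mono (integrable_CC_sq hX hε hgc hgi) ((iH.const_mul 8).add (i1.const_mul 8)) hpt
    _ = 8 * ∫ a, ‖CC ε ν X (fun b => (h b : ℂ)) a‖^2 ∂ν + 8 * A := by
        rw [integral_add (iH.const_mul 8) (i1.const_mul 8), integral_const_mul, integral_const_mul]
    _ ≤ 62 * A := by linarith

theorem L2_real [IsFiniteMeasure ν] (hX : Measurable X) (hε : 0 < ε) {g : α → ℝ}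
    (hg : Measurable g) {t : ℝ} (ht : 0 < t) (hgt : ∀ a, |g a| ≤ t) :
    ∫ a, ‖CC ε ν X (fun b => (g b : ℂ)) a‖^2 ∂ν ≤
      62 * t^2 * ∫ a, ‖CC ε ν X (fun _ => 1) a‖^2 ∂ν := by
  have h1 := L2_real_one (ν := ν) hX hε (g := fun a => g a / t) (hg.div_const t) (fun a => by
    rw [abs_div, abs_of_pos ht, div_le_one ht]; exact hgt a)
  have e : ∀ a, ‖CC ε ν X (fun b => (g b : ℂ)) a‖^2 =
      t^2 * ‖CC ε ν X (fun b => ((g b / t : ℝ) : ℂ)) a‖^2 := by
    intro a
    have : CC ε ν X (fun b => (g b : ℂ)) a = t * CC ε ν X (fun b => ((g b / t : ℝ) : ℂ)) a := by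
      rw [← CC_const_mul]
      congr 1
      ext b
      have : (t:ℂ) ≠ 0 := by exact_mod_cast ht.ne'
      push_cast
      field_simp
    rw [this, norm_mul, mul_pow, Complex.norm_real, Real.norm_eq_abs, sq_abs]
  simp_rw [e]
  rw [integral_const_mul]
  calc t^2 * ∫ a, ‖CC ε ν X (fun b => ((g b / t : ℝ) : ℂ)) a‖^2 ∂ν
      ≤ t^2 * (62 * ∫ a, ‖CC ε ν X (fun _ => 1) a‖^2 ∂ν) :=
        mul_le_mul_of_nonneg_left h1 (by positivity)
    _ = _ := by ring

theorem L2_complex [IsFiniteMeasure ν] (hX : Measurable X) (hε : 0 < ε) {g : α → ℂ}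
    (hg : Measurable g) {t : ℝ} (ht : 0 < t) (hgt : ∀ a, ‖g a‖ ≤ t) :
    ∫ a, ‖CC ε ν X g a‖^2 ∂ν ≤ 248 * t^2 * ∫ a, ‖CC ε ν X (fun _ => 1) a‖^2 ∂ν := by
  have hre := L2_real (ν := ν) hX hε (g := fun a => (g a).re) (Complex.measurable_re.comp hg) ht
    (fun a => (Complex.abs_re_le_norm _).trans (hgt a))
  have him := L2_real (ν := ν) hX hε (g := fun a => (g a).im) (Complex.measurable_im.comp hg) ht
    (fun a => (Complex.abs_im_le_norm _).trans (hgt a))
  have mre : Measurable (fun b => ((g b).re : ℂ)) :=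
    Complex.measurable_ofReal.comp (Complex.measurable_re.comp hg)
  have mim : Measurable (fun b => ((g b).im : ℂ)) :=
    Complex.measurable_ofReal.comp (Complex.measurable_im.comp hg)
  have ire : Integrable (fun b => ((g b).re : ℂ)) ν := integrable_bdd mre (t := t) (fun a => by
    rw [Complex.norm_real]; exact (Complex.abs_re_le_norm _).trans (hgt a))
  have iim : Integrable (fun b => ((g b).im : ℂ)) ν := integrable_bdd mim (t := t) (fun a => by
    rw [Complex.norm_real]; exact (Complex.abs_im_le_norm _).trans (hgt a))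
  have hpt : ∀ a, ‖CC ε ν X g a‖^2 ≤
      2 * ‖CC ε ν X (fun b => ((g b).re : ℂ)) a‖^2 + 2 * ‖CC ε ν X (fun b => ((g b).im : ℂ)) a‖^2 := by
    intro a
    have e : CC ε ν X g a =
        CC ε ν X (fun b => ((g b).re : ℂ)) a + I * CC ε ν X (fun b => ((g b).im : ℂ)) a := by
      rw [← CC_const_mul, ← CC_add hX hε ire (iim.const_mul I)]
      congr 1
      ext b
      rw [mul_comm I]
      exact (Complex.re_add_im (g b)).symm
    rw [e]
    have h6 := norm_add_le (CC ε ν X (fun b => ((g b).re : ℂ)) a)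
      (I * CC ε ν X (fun b => ((g b).im : ℂ)) a)
    rw [norm_mul, Complex.norm_I, one_mul] at h6
    have h7 := pow_le_pow_left₀ (norm_nonneg _) h6 2
    nlinarith [sq_nonneg (‖CC ε ν X (fun b => ((g b).re : ℂ)) a‖ -
      ‖CC ε ν X (fun b => ((g b).im : ℂ)) a‖)]
  have i1 := integrable_CC_sq hX hε mre ire
  have i2 := integrable_CC_sq hX hε mim iim
  calc ∫ a, ‖CC ε ν X g a‖^2 ∂ν
      ≤ ∫ a, (2 * ‖CC ε ν X (fun b => ((g b).re : ℂ)) a‖^2 +
          2 * ‖CC ε ν X (fun b => ((g b).im : ℂ)) a‖^2) ∂ν :=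
        integral_mono (integrable_CC_sq hX hε hg (integrable_bdd hg hgt))
          ((i1.const_mul 2).add (i2.const_mul 2)) hpt
    _ = 2 * ∫ a, ‖CC ε ν X (fun b => ((g b).re : ℂ)) a‖^2 ∂ν +
        2 * ∫ a, ‖CC ε ν X (fun b => ((g b).im : ℂ)) a‖^2 ∂ν := by
        rw [integral_add (i1.const_mul 2) (i2.const_mul 2), integral_const_mul, integral_const_mul]
    _ ≤ _ := by linarith

end Pool.Agent.Helper32.CN
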