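import Pool.Agent.Helper32.CN.Residue

open Complex Metric Set Filter Topology MeasureTheory
open scoped NNReal

namespace Pool.Agent.Helper32.CN

namespace Saw

variable {φ : ℂ → ℂ} {F : Set ℝ} {s Λ : ℝ} (S : Saw φ F s Λ)
include S

theorem dslope_diff {w : ℂ} (hw : w ∈ ball (0:ℂ) 1) : DifferentiableOn ℂ (dslope φ w) (ball 0 1) :=
  (Complex.differentiableOn_dslope (isOpen_ball.mem_nhds hw)).2 S.hd

theorem dslope_ne {w η : ℂ} (hw : w ∈ ball (0:ℂ) 1) (hη : η ∈ ball (0:ℂ) 1) :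
    dslope φ w η ≠ 0 := by
  rcases eq_or_ne η w with h | h
  · rw [h, dslope_same]; exact deriv_ne_zero S.hd S.hi hw
  · rw [dslope_of_ne _ h, slope_def_field]
    refine div_ne_zero ?_ (sub_ne_zero.2 h)
    rw [sub_ne_zero]
    intro he
    exact h (S.hi hη hw he)

omit S in
theorem sub_eq_dslope (w η : ℂ) : φ η - φ w = (η - w) * dslope φ w η := by
  have := sub_smul_dslope φ w η
  rw [smul_eq_mul] at this
  exact this.symm

theorem deriv_eq_dslope {w η : ℂ} (hw : w ∈ ball (0:ℂ) 1) (hη : η ∈ ball (0:ℂ) 1) :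
    deriv φ η = dslope φ w η + (η - w) * deriv (dslope φ w) η := by
  have h1 : HasDerivAt (dslope φ w) (deriv (dslope φ w) η) η :=
    ((S.dslope_diff hw).differentiableAt (isOpen_ball.mem_nhds hη)).hasDerivAt
  have h2 : HasDerivAt (fun η => φ w + (η - w) * dslope φ w η)
      (1 * dslope φ w η + (η - w) * deriv (dslope φ w) η) η :=
    (((hasDerivAt_id η).sub_const w).mul h1).const_add (φ w)
  have h3 : φ = fun η => φ w + (η - w) * dslope φ w η := by
    ext η; rw [← sub_eq_dslope]; ring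
  rw [one_mul] at h2
  conv_lhs => rw [h3]
  exact h2.deriv

/-- winding integral around an interior point -/
theorem integral_winding {z₀ : ℂ} (hz : yy F s z₀.re < z₀.im) :
    IntervalIntegrable (fun θ => bb F θ *
      (PhiD φ (zz F s θ) / (XX φ F s θ - Phi φ z₀))) volume 0 (2 * Real.pi) ∧
    ∫ θ in (0:ℝ)..2 * Real.pi,
      bb F θ * (PhiD φ (zz F s θ) / (XX φ F s θ - Phi φ z₀)) = 2 * Real.pi * I := by
  have hz0 : 0 < z₀.im := by have := S.yy_pos z₀.re; linarith
  set w := exp (I * z₀) with hw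
  have hwb : w ∈ ball (0:ℂ) 1 := exp_I_mem hz0
  have hD := S.dslope_diff hwb
  have hq : DifferentiableOn ℂ (fun η => deriv (dslope φ w) η / dslope φ w η) (ball 0 1) :=
    (hD.deriv isOpen_ball).div hD (fun η hη => S.dslope_ne hwb hη)
  obtain ⟨i1, e1⟩ := S.integral_exact hq
  obtain ⟨i2, e2⟩ := S.integral_pole' hz
  have e : (fun θ => bb F θ * (PhiD φ (zz F s θ) / (XX φ F s θ - Phi φ z₀))) =
      fun θ => I * (bb F θ * (exp (I * zz F s θ) / (exp (I * zz F s θ) - exp (I * z₀)))) +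
        bb F θ * (I * exp (I * zz F s θ) *
          (deriv (dslope φ w) (exp (I * zz F s θ)) / dslope φ w (exp (I * zz F s θ)))) := by
    ext θ
    have hne := sub_ne_zero.2 (S.exp_ne hz θ)
    have hDne := S.dslope_ne hwb (S.mem_ball θ)
    unfold XX Phi PhiD
    rw [sub_eq_dslope (φ := φ), ← hw] at *
    rw [S.deriv_eq_dslope hwb (S.mem_ball θ)]
    field_simp
  rw [e]
  refine ⟨(i2.const_mul I).add i1, ?_⟩
  rw [intervalIntegral.integral_add (i2.const_mul I) i1, intervalIntegral.integral_const_mul, e1, e2]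
  ring

/-- winding integral around an omitted value -/
theorem integral_omitted {ζ : ℂ} (hζ : ∀ w ∈ ball (0:ℂ) 1, φ w ≠ ζ) :
    IntervalIntegrable (fun θ => bb F θ *
      (PhiD φ (zz F s θ) / (XX φ F s θ - ζ))) volume 0 (2 * Real.pi) ∧
    ∫ θ in (0:ℝ)..2 * Real.pi, bb F θ * (PhiD φ (zz F s θ) / (XX φ F s θ - ζ)) = 0 := by
  have hq : DifferentiableOn ℂ (fun η => deriv φ η / (φ η - ζ)) (ball 0 1) :=
    (S.hd.deriv isOpen_ball).div (S.hd.sub_const ζ) (fun η hη => sub_ne_zero.2 (hζ η hη))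
  obtain ⟨i1, e1⟩ := S.integral_exact hq
  have e : (fun θ => bb F θ * (PhiD φ (zz F s θ) / (XX φ F s θ - ζ))) =
      fun θ => bb F θ * (I * exp (I * zz F s θ) *
          (deriv φ (exp (I * zz F s θ)) / (φ (exp (I * zz F s θ)) - ζ))) := by
    ext θ
    unfold XX Phi PhiD
    ring
  rw [e]
  exact ⟨i1, e1⟩

/-- the basic residue formula -/
theorem integral_recip {z₀ : ℂ} (hz : yy F s z₀.re < z₀.im) :
    IntervalIntegrable (fun θ => bb F θ * (XX φ F s θ - Phi φ z₀)⁻¹) volume 0 (2 * Real.pi) ∧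
    ∫ θ in (0:ℝ)..2 * Real.pi, bb F θ * (XX φ F s θ - Phi φ z₀)⁻¹ =
      2 * Real.pi * ((φ 0 - Phi φ z₀)⁻¹ + (exp (I * z₀) * deriv φ (exp (I * z₀)))⁻¹) := by
  have hz0 : 0 < z₀.im := by have := S.yy_pos z₀.re; linarith
  set w := exp (I * z₀) with hw
  have hwb : w ∈ ball (0:ℂ) 1 := exp_I_mem hz0
  have hw0 : w ≠ 0 := Complex.exp_ne_zero _
  have h0b : (0:ℂ) ∈ ball (0:ℂ) 1 := by simp
  have hD := S.dslope_diff hwb
  have hE : DifferentiableOn ℂ (fun η => (dslope φ w η)⁻¹) (ball 0 1) :=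
    hD.inv (fun η hη => S.dslope_ne hwb hη)
  set E : ℂ → ℂ := fun η => (dslope φ w η)⁻¹ with hEdef
  have hE1 : DifferentiableOn ℂ (dslope E w) (ball 0 1) :=
    (Complex.differentiableOn_dslope (isOpen_ball.mem_nhds hwb)).2 hE
  have hE2 : DifferentiableOn ℂ (dslope E 0) (ball 0 1) :=
    (Complex.differentiableOn_dslope (isOpen_ball.mem_nhds h0b)).2 hE
  have hq : DifferentiableOn ℂ (fun η => -I * (w⁻¹ * (dslope E w η - dslope E 0 η))) (ball 0 1) :=
    ((hE1.sub hE2).const_mul _).const_mul _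
  obtain ⟨i1, e1⟩ := S.integral_exact hq
  obtain ⟨i2, e2⟩ := S.integral_pole' hz
  obtain ⟨i3, e3⟩ := S.integral_bb
  have hE0 : E 0 = - w * (φ 0 - φ w)⁻¹ := by
    simp only [hEdef]
    rw [sub_eq_dslope, zero_sub]
    have := S.dslope_ne hwb h0b
    field_simp
  have hEw : E w = (deriv φ w)⁻¹ := by simp only [hEdef]; rw [dslope_same]
  have e : (fun θ => bb F θ * (XX φ F s θ - Phi φ z₀)⁻¹) =
      fun θ => (bb F θ * (I * exp (I * zz F s θ) *
          (-I * (w⁻¹ * (dslope E w (exp (I * zz F s θ)) - dslope E 0 (exp (I * zz F s θ))))))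
        + (φ 0 - φ w)⁻¹ * bb F θ) + (w * deriv φ w)⁻¹ *
          (bb F θ * (exp (I * zz F s θ) / (exp (I * zz F s θ) - exp (I * z₀)))) := by
    ext θ
    have hne := sub_ne_zero.2 (S.exp_ne hz θ)
    have hne0 := Complex.exp_ne_zero (I * zz F s θ)
    unfold XX Phi
    rw [← hw] at *
    set η := exp (I * zz F s θ) with hη
    have h1 : (φ η - φ w)⁻¹ = E η / (η - w) := by
      rw [sub_eq_dslope]
      simp only [hEdef]
      rw [mul_inv, div_eq_mul_inv]
      ring
    have h2 : dslope E w η = (E η - E w) / (η - w) := by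
      rw [dslope_of_ne _ (sub_ne_zero.1 hne), slope_def_field]
    have h3 : dslope E 0 η = (E η - E 0) / η := by
      rw [dslope_of_ne _ hne0, slope_def_field, sub_zero]
    have h4 : (φ 0 - φ w)⁻¹ = - E 0 / w := by
      rw [hE0]; field_simp
    have h5 : (w * deriv φ w)⁻¹ = E w / w := by
      rw [hEw, mul_inv]; field_simp
    rw [h1, h2, h3, h4, h5]
    have hI : I * η * (-I * (w⁻¹ * ((E η - E w) / (η - w) - (E η - E 0) / η))) =
        η * (w⁻¹ * ((E η - E w) / (η - w) - (E η - E 0) / η)) := by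
      linear_combination (-(η * (w⁻¹ * ((E η - E w) / (η - w) - (E η - E 0) / η)))) * I_mul_I
    rw [hI]
    field_simp
    ring
  rw [e]
  have i4 := i1.add (i3.const_mul (φ 0 - φ w)⁻¹)
  have i5 := i2.const_mul (w * deriv φ w)⁻¹
  refine ⟨i4.add i5, ?_⟩
  rw [intervalIntegral.integral_add i4 i5,
    intervalIntegral.integral_add i1 (i3.const_mul _), intervalIntegral.integral_const_mul,
    intervalIntegral.integral_const_mul, e1, e2, e3]
  unfold Phi
  rw [← hw]
  ring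

/-- bound for the residue -/
theorem residue_bound {z₀ : ℂ} (hz : yy F s z₀.re < z₀.im) (hz1 : z₀.im ≤ 1) :
    ‖∫ θ in (0:ℝ)..2 * Real.pi, bb F θ * (XX φ F s θ - Phi φ z₀)⁻¹‖ ≤ 800 * Λ := by
  have hΛ := S.Λpos
  have hz0 : 0 < z₀.im := by have := S.yy_pos z₀.re; linarith
  rw [(S.integral_recip hz).2]
  set w := exp (I * z₀) with hw
  have hwb : w ∈ ball (0:ℂ) 1 := exp_I_mem hz0
  have hw0 : w ≠ 0 := Complex.exp_ne_zero _
  have hreg : yy F s z₀.re / 2 ≤ z₀.im := by have := S.yy_pos z₀.re; linarith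
  -- second term
  have h1 : ‖(w * deriv φ w)⁻¹‖ ≤ 3 * Λ := by
    have h2 := S.le_norm_PhiD hreg hz1
    have h3 : ‖w * deriv φ w‖ = ‖PhiD φ z₀‖ := by
      unfold PhiD; rw [norm_mul, norm_mul, norm_mul, Complex.norm_I, one_mul]
    rw [norm_inv, h3]
    rw [inv_le_comm₀ (lt_of_lt_of_le (by positivity) h2) (by positivity)]
    simpa using h2
  -- first term
  have hwn : 1/3 ≤ ‖w‖ := by
    rw [hw, norm_exp_I_mul]
    have h4 : Real.exp (-1) ≤ Real.exp (-z₀.im) := Real.exp_le_exp.2 (by linarith)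
    have h5 : (1/3:ℝ) ≤ Real.exp (-1) := by
      rw [Real.exp_neg, one_div]
      apply inv_anti₀ (Real.exp_pos 1)
      have := Real.exp_one_lt_d9
      linarith
    linarith
  have hwlt : ‖w‖ < 1 := by simpa using hwb
  have hsub : ball (0:ℂ) ‖w‖ ⊆ ball 0 1 := ball_subset_ball hwlt.le
  have hom : φ w ∉ φ '' ball 0 ‖w‖ := by
    rintro ⟨v, hv, he⟩
    have := S.hi (hsub hv) hwb he
    subst this
    simp at hv
  have h6 := radius_mul_deriv_le (lt_of_lt_of_le (by norm_num) hwn) (S.hd.mono hsub)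
    (S.hi.mono hsub) hom
  have h7 : Λ⁻¹ ≤ ‖deriv φ 0‖ := by
    -- limit from the region: the derivative at points of the form exp (I z), Im z → ∞
    have hcont : ContinuousAt (fun w => ‖deriv φ w‖) 0 :=
      (((S.hd.deriv isOpen_ball).differentiableAt
        (isOpen_ball.mem_nhds (by simp : (0:ℂ) ∈ ball (0:ℂ) 1))).continuousAt).norm
    have ht : Tendsto (fun t : ℝ => exp (I * (t * I))) atTop (𝓝 0) := by
      have : (fun t : ℝ => exp (I * (t * I))) = fun t : ℝ => ((Real.exp (-t) : ℝ) : ℂ) := by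
        ext t
        rw [Complex.ofReal_exp]
        congr 1
        push_cast
        linear_combination (t : ℂ) * I_mul_I
      rw [this]
      have h8 : Tendsto (fun t : ℝ => Real.exp (-t)) atTop (𝓝 0) := Real.tendsto_exp_neg_atTop_nhds_zero
      have h9 := (Complex.continuous_ofReal.tendsto 0).comp h8
      rw [Complex.ofReal_zero] at h9
      exact h9
    refine ge_of_tendsto (hcont.tendsto.comp ht) ?_
    filter_upwards [eventually_ge_atTop (1:ℝ)] with t ht
    refine S.hlow _ ?_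
    have := S.yy_le 0
    simp
    linarith
  have h8 : ‖(φ 0 - Phi φ z₀)⁻¹‖ ≤ 108 * Λ := by
    have h9 : (1/3) * Λ⁻¹ ≤ 36 * ‖φ 0 - φ w‖ :=
      (mul_le_mul hwn h7 (by positivity) (norm_nonneg _)).trans h6
    have h10 : Phi φ z₀ = φ w := rfl
    rw [h10, norm_inv]
    have h11 : (108 * Λ)⁻¹ ≤ ‖φ 0 - φ w‖ := by
      rw [mul_inv]; norm_num at h9 ⊢; linarith
    rw [inv_le_comm₀ (lt_of_lt_of_le (by positivity) h11) (by positivity)]
    exact h11
  rw [norm_mul]
  have h12 : ‖(2 * Real.pi : ℂ)‖ ≤ 7 := by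
    have : ‖(2 * Real.pi : ℂ)‖ = 2 * Real.pi := by
      rw [norm_mul, Complex.norm_real, Real.norm_eq_abs, abs_of_pos Real.pi_pos]; simp
    rw [this]
    have := Real.pi_lt_d2
    linarith
  calc ‖(2 * Real.pi : ℂ)‖ * ‖(φ 0 - Phi φ z₀)⁻¹ + (w * deriv φ w)⁻¹‖
      ≤ 7 * (108 * Λ + 3 * Λ) := by
        apply mul_le_mul h12 _ (norm_nonneg _) (by norm_num)
        exact (norm_add_le _ _).trans (add_le_add h8 h1)
    _ ≤ 800 * Λ := by nlinarith

end Saw

end Pool.Agent.Helper32.CN
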