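import Mathlib

open Complex Metric Set Filter Topology MeasureTheory
open scoped ENNReal

namespace Pool.Agent.Helper32.CN

variable {α : Type*} [MeasurableSpace α] {ν : Measure α} {X : α → ℂ}

theorem tail_lintegral (hX : Measurable X) {G : ℝ} (hG : 0 ≤ G) {x : ℂ}
    (hgrow : ∀ r : ℝ, 0 < r → ν {a | ‖X a - x‖ ≤ r} ≤ ENNReal.ofReal (G * r)) {ε : ℝ} (hε : 0 < ε) :
    ∫⁻ a, ENNReal.ofReal (ε / (ε + ‖X a - x‖)^2) ∂ν ≤ ENNReal.ofReal (8 * G) := by
  set A : ℕ → Set α := fun k => {a | ‖X a - x‖ ≤ 2^k * ε} with hA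
  have hAm : ∀ k, MeasurableSet (A k) := fun k =>
    measurableSet_le (hX.sub_const x).norm measurable_const
  set c : ℕ → ℝ := fun k => 4 * (1/4)^k / ε with hc
  have hc0 : ∀ k, 0 ≤ c k := fun k => by simp only [hc]; positivity
  have hpt : ∀ a, ENNReal.ofReal (ε / (ε + ‖X a - x‖)^2) ≤
      ∑' k, (A k).indicator (fun _ => ENNReal.ofReal (c k)) a := by
    intro a
    set d := ‖X a - x‖ with hd
    have hd0 : 0 ≤ d := norm_nonneg _
    have hex : ∃ k : ℕ, d ≤ 2^k * ε := by
      obtain ⟨k, hk⟩ := pow_unbounded_of_one_lt (d / ε) (show (1:ℝ) < 2 by norm_num)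
      refine ⟨k, ?_⟩
      rw [div_lt_iff₀ hε] at hk
      exact hk.le
    classical
    set k := Nat.find hex with hk
    have hk1 : d ≤ 2^k * ε := Nat.find_spec hex
    have hmem : a ∈ A k := hk1
    refine le_trans ?_ (ENNReal.le_tsum k)
    rw [indicator_of_mem hmem]
    apply ENNReal.ofReal_le_ofReal
    simp only [hc]
    rcases Nat.eq_zero_or_pos k with h0 | h0
    · rw [h0, pow_zero, mul_one, div_le_div_iff₀ (by positivity) hε]
      nlinarith [mul_nonneg hε.le hd0, sq_nonneg d]
    · have h1 := Nat.find_min hex (Nat.pred_lt h0.ne')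
      rw [not_le] at h1
      have e : Nat.pred (Nat.find hex) = k - 1 := rfl
      rw [e] at h1
      have h2 : (2:ℝ)^k = 2 * 2^(k-1) := by
        conv_lhs => rw [show k = (k - 1) + 1 by omega]
        rw [pow_succ]; ring
      have h3 : (1/4:ℝ)^k = 1 / (2^k * 2^k) := by
        rw [one_div_pow, ← mul_pow]; norm_num
      have h5 : 2^k * ε / 2 ≤ ε + d := by
        rw [h2]; linarith
      have h4 : (2^k * ε / 2)^2 ≤ (ε + d)^2 := pow_le_pow_left₀ (by positivity) h5 2
      calc ε / (ε + d)^2 ≤ ε / (2^k * ε / 2)^2 :=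
            div_le_div_of_nonneg_left hε.le (by positivity) h4
        _ = 4 * (1/4)^k / ε := by rw [h3]; field_simp; norm_num
  refine (lintegral_mono hpt).trans ?_
  rw [lintegral_tsum (fun k => (measurable_const.indicator (hAm k)).aemeasurable)]
  have h1 : ∀ k, ∫⁻ a, (A k).indicator (fun _ => ENNReal.ofReal (c k)) a ∂ν ≤
      ENNReal.ofReal ((4 * G) * (1/2)^k) := by
    intro k
    rw [lintegral_indicator_const (hAm k)]
    calc ENNReal.ofReal (c k) * ν (A k) ≤ ENNReal.ofReal (c k) * ENNReal.ofReal (G * (2^k * ε)) :=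
          mul_le_mul_right (hgrow _ (by positivity)) _
      _ = ENNReal.ofReal ((4 * G) * (1/2)^k) := by
          rw [← ENNReal.ofReal_mul (hc0 k)]
          congr 1
          simp only [hc]
          have : (1/4:ℝ)^k * 2^k = (1/2)^k := by rw [← mul_pow]; norm_num
          rw [← this]
          field_simp
  refine (ENNReal.tsum_le_tsum h1).trans (le_of_eq ?_)
  rw [← ENNReal.ofReal_tsum_of_nonneg (fun k => by positivity)
    ((summable_geometric_of_lt_one (by norm_num) (by norm_num)).mul_left _), tsum_mul_left,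
    tsum_geometric_of_lt_one (by norm_num) (by norm_num)]
  congr 1
  norm_num
  ring

theorem tail_integrable [IsFiniteMeasure ν] (hX : Measurable X) {x : ℂ} {ε : ℝ} (hε : 0 < ε) :
    Integrable (fun a => ε / (ε + ‖X a - x‖)^2) ν := by
  refine Integrable.of_bound (measurable_const.div
    ((measurable_const.add (hX.sub_const x).norm).pow_const 2)).aestronglyMeasurable ε⁻¹
    (Filter.Eventually.of_forall fun a => ?_)
  rw [Real.norm_eq_abs, abs_of_nonneg (by positivity), div_le_iff₀ (by positivity),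
    inv_mul_eq_div, le_div_iff₀ hε]
  nlinarith [norm_nonneg (X a - x), mul_nonneg hε.le (norm_nonneg (X a - x)),
    sq_nonneg (‖X a - x‖)]

theorem tail_integral [IsFiniteMeasure ν] (hX : Measurable X) {G : ℝ} (hG : 0 ≤ G) {x : ℂ}
    (hgrow : ∀ r : ℝ, 0 < r → ν {a | ‖X a - x‖ ≤ r} ≤ ENNReal.ofReal (G * r)) {ε : ℝ} (hε : 0 < ε) :
    ∫ a, ε / (ε + ‖X a - x‖)^2 ∂ν ≤ 8 * G := by
  rw [integral_eq_lintegral_of_nonneg_ae (Filter.Eventually.of_forall fun a => by positivity)
    (tail_integrable hX hε).aestronglyMeasurable]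
  have h := tail_lintegral hX hG hgrow hε
  exact ENNReal.toReal_le_of_le_ofReal (by positivity) h

end Pool.Agent.Helper32.CN
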