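import Pool.Agent.Helper32.CN.Growth
import Pool.Agent.Helper32.CN.Residue2
import Pool.Agent.Helper32.CN.LtwoB
import Pool.Agent.Helper32.CN.Tail

open Complex Metric Set Filter Topology MeasureTheory
open scoped ENNReal

namespace Pool.Agent.Helper32.CN

/-- Lebesgue measure on one period -/
noncomputable def ν0 : Measure ℝ := volume.restrict (Ico 0 (2 * Real.pi))

instance : IsFiniteMeasure ν0 := by
  unfold ν0
  infer_instance

theorem ν0_univ : ν0 univ = ENNReal.ofReal (2 * Real.pi) := by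
  unfold ν0
  rw [Measure.restrict_apply_univ, Real.volume_Ico, sub_zero]

theorem integral_ν0 {E : Type*} [NormedAddCommGroup E] [NormedSpace ℝ E] (f : ℝ → E) :
    ∫ θ, f θ ∂ν0 = ∫ θ in (0:ℝ)..2 * Real.pi, f θ := by
  unfold ν0
  rw [intervalIntegral.integral_of_le (by positivity), integral_Ico_eq_integral_Ioc]

theorem integrable_ν0 {E : Type*} [NormedAddCommGroup E] (f : ℝ → E) :
    Integrable f ν0 ↔ IntervalIntegrable f volume 0 (2 * Real.pi) := by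
  unfold ν0
  rw [intervalIntegrable_iff_integrableOn_Ico_of_le (by positivity)]
  rfl

theorem integral_const_ν0 (c : ℝ) : ∫ _θ, c ∂ν0 = 2 * Real.pi * c := by
  rw [integral_ν0, intervalIntegral.integral_const, sub_zero, smul_eq_mul]

namespace Saw

variable {φ : ℂ → ℂ} {F : Set ℝ} {s Λ : ℝ} (S : Saw φ F s Λ)
include S

theorem growth_ν0 (x : ℂ) {r : ℝ} (hr : 0 < r) :
    ν0 {θ | ‖XX φ F s θ - x‖ ≤ r} ≤ ENNReal.ofReal (120 * Λ^4 * r) := by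
  unfold ν0
  have hm : MeasurableSet {θ | ‖XX φ F s θ - x‖ ≤ r} :=
    (isClosed_le (S.continuous_XX.sub continuous_const).norm continuous_const).measurableSet
  rw [Measure.restrict_apply hm]
  refine (measure_mono ?_).trans (S.growth x hr)
  intro θ hθ
  exact ⟨hθ.2, hθ.1⟩

/-- comparability of distances to a point at height `τ` above the curve -/
theorem sep_add {θ₀ τ : ℝ} (hτ0 : 0 < τ) (hτ1 : τ ≤ 2/5) (θ : ℝ) :
    (433 * Λ^2)⁻¹ * (‖XX φ F s θ - XX φ F s θ₀‖ + τ) ≤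
      ‖XX φ F s θ - Phi φ (zz F s θ₀ + τ * I)‖ := by
  have hΛ := S.hΛ
  have hΛ0 := S.Λpos
  set p := Phi φ (zz F s θ₀ + τ * I) with hp
  have h1 : τ / (216 * Λ) ≤ ‖XX φ F s θ - p‖ :=
    S.separation (z₀ := zz F s θ₀ + τ * I) (by simp) hτ0 hτ1 θ
  have h2 : ‖p - XX φ F s θ₀‖ ≤ Λ * τ := S.vertical_XX θ₀ hτ0.le
  have h3 : τ ≤ 216 * Λ * ‖XX φ F s θ - p‖ := by
    rw [div_le_iff₀ (by positivity)] at h1; linarith
  have h4 : ‖XX φ F s θ - XX φ F s θ₀‖ ≤ ‖XX φ F s θ - p‖ + ‖p - XX φ F s θ₀‖ := by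
    have := norm_add_le (XX φ F s θ - p) (p - XX φ F s θ₀)
    simpa using this
  rw [inv_mul_le_iff₀ (by positivity)]
  have h5 : Λ * τ ≤ 216 * Λ^2 * ‖XX φ F s θ - p‖ := by
    calc Λ * τ ≤ Λ * (216 * Λ * ‖XX φ F s θ - p‖) := mul_le_mul_of_nonneg_left h3 hΛ0.le
      _ = _ := by ring
  have h6 : Λ ≤ Λ^2 := by nlinarith
  have h7 : (1:ℝ) ≤ Λ^2 := by nlinarith
  have h8 : 0 ≤ ‖XX φ F s θ - p‖ := norm_nonneg _
  nlinarith [mul_le_mul_of_nonneg_right h6 h8, mul_le_mul_of_nonneg_right h7 h8]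

/-- kernel comparison on the curve -/
theorem kernel_comp {θ₀ τ : ℝ} (hτ0 : 0 < τ) (hτ1 : τ ≤ 2/5) (θ : ℝ) :
    ‖kk τ (XX φ F s θ) (XX φ F s θ₀) - (XX φ F s θ - Phi φ (zz F s θ₀ + τ * I))⁻¹‖ ≤
      (866 * Λ^3) * (τ / (τ + ‖XX φ F s θ - XX φ F s θ₀‖)^2) := by
  have hΛ0 := S.Λpos
  have h := kk_sub_inv_le (ε := τ) (c := (433 * Λ^2)⁻¹) (L := Λ) hτ0 S.hΛ (by positivity)
    (x := XX φ F s θ) (x₀ := XX φ F s θ₀) (p := Phi φ (zz F s θ₀ + τ * I))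
    (by rw [norm_sub_rev]; exact S.vertical_XX θ₀ hτ0.le) (S.sep_add hτ0 hτ1 θ)
  refine h.trans (le_of_eq ?_)
  congr 1
  field_simp
  ring

theorem CC_bb_le {ε : ℝ} (hε : 0 < ε) (hε1 : ε ≤ 2/5) (θ₀ : ℝ) :
    ‖CC ε ν0 (XX φ F s) (bb F) θ₀‖ ≤ 2000000 * Λ^7 := by
  have hΛ0 := S.Λpos
  have hΛ := S.hΛ
  have hXm : Measurable (XX φ F s) := S.continuous_XX.measurable
  set z₀ : ℂ := zz F s θ₀ + ε * I with hz₀
  set p := Phi φ z₀ with hp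
  have hre : z₀.re = θ₀ := by simp [hz₀]
  have him : z₀.im = yy F s θ₀ + ε := by simp [hz₀]
  have hlt : yy F s z₀.re < z₀.im := by rw [hre, him]; linarith
  have hz1 : z₀.im ≤ 1 := by rw [him]; have := S.yy_le θ₀; linarith
  obtain ⟨i1, -⟩ := S.integral_recip hlt
  have hres := S.residue_bound hlt hz1
  rw [← integral_ν0] at hres
  have i1' := (integrable_ν0 _).2 i1
  have hbi : Integrable (bb F) ν0 := integrable_bdd (measurable_bb F) (norm_bb_le F)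
  have i2 : Integrable (fun θ => kk ε (XX φ F s θ) (XX φ F s θ₀) * bb F θ) ν0 :=
    integrable_kk_mul hXm hε hbi _
  have htail := tail_integral (ν := ν0) hXm (G := 120 * Λ^4) (by positivity)
    (x := XX φ F s θ₀) (fun r hr => S.growth_ν0 _ hr) hε
  have htaili := tail_integrable (ν := ν0) hXm (x := XX φ F s θ₀) hε
  have hdiff : ‖(∫ θ, kk ε (XX φ F s θ) (XX φ F s θ₀) * bb F θ ∂ν0) -
      ∫ θ, bb F θ * (XX φ F s θ - p)⁻¹ ∂ν0‖ ≤ (1732 * Λ^3) * (8 * (120 * Λ^4)) := by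
    rw [← integral_sub i2 i1']
    calc _ ≤ ∫ θ, ‖kk ε (XX φ F s θ) (XX φ F s θ₀) * bb F θ -
            bb F θ * (XX φ F s θ - p)⁻¹‖ ∂ν0 := norm_integral_le_integral_norm _
      _ ≤ ∫ θ, (1732 * Λ^3) * (ε / (ε + ‖XX φ F s θ - XX φ F s θ₀‖)^2) ∂ν0 := by
          refine integral_mono (i2.sub i1').norm (htaili.const_mul _) fun θ => ?_
          have e : kk ε (XX φ F s θ) (XX φ F s θ₀) * bb F θ - bb F θ * (XX φ F s θ - p)⁻¹ =
              bb F θ * (kk ε (XX φ F s θ) (XX φ F s θ₀) - (XX φ F s θ - p)⁻¹) := by ring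
          simp only [e, norm_mul]
          calc ‖bb F θ‖ * ‖kk ε (XX φ F s θ) (XX φ F s θ₀) - (XX φ F s θ - p)⁻¹‖
              ≤ 2 * ((866 * Λ^3) * (ε / (ε + ‖XX φ F s θ - XX φ F s θ₀‖)^2)) :=
                mul_le_mul (norm_bb_le F θ) (S.kernel_comp hε hε1 θ) (norm_nonneg _) (by norm_num)
            _ = _ := by ring
      _ = (1732 * Λ^3) * ∫ θ, (ε / (ε + ‖XX φ F s θ - XX φ F s θ₀‖)^2) ∂ν0 :=
          integral_const_mul _ _
      _ ≤ (1732 * Λ^3) * (8 * (120 * Λ^4)) := by gcongr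
  have h1 : Λ ≤ Λ^7 := le_self_pow₀ hΛ (by norm_num)
  unfold CC
  have h2 : ‖∫ θ, kk ε (XX φ F s θ) (XX φ F s θ₀) * bb F θ ∂ν0‖ ≤
      ‖(∫ θ, kk ε (XX φ F s θ) (XX φ F s θ₀) * bb F θ ∂ν0) -
        ∫ θ, bb F θ * (XX φ F s θ - p)⁻¹ ∂ν0‖ + ‖∫ θ, bb F θ * (XX φ F s θ - p)⁻¹ ∂ν0‖ := by
    have := norm_add_le ((∫ θ, kk ε (XX φ F s θ) (XX φ F s θ₀) * bb F θ ∂ν0) -
        ∫ θ, bb F θ * (XX φ F s θ - p)⁻¹ ∂ν0) (∫ θ, bb F θ * (XX φ F s θ - p)⁻¹ ∂ν0)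
    rwa [sub_add_cancel] at this
  have h3 : (1732 * Λ^3) * (8 * (120 * Λ^4)) = 1662720 * Λ^7 := by ring
  rw [h3] at hdiff
  linarith

theorem CC_one_le {ε : ℝ} (hε : 0 < ε) (hε1 : ε ≤ 2/5) :
    ∫ θ, ‖CC ε ν0 (XX φ F s) (fun _ => 1) θ‖^2 ∂ν0 ≤ 2 * 10^14 * Λ^14 := by
  have hΛ0 := S.Λpos
  have hXm : Measurable (XX φ F s) := S.continuous_XX.measurable
  set A := ∫ θ, ‖CC ε ν0 (XX φ F s) (fun _ => 1) θ‖^2 ∂ν0 with hA
  have hdm : Measurable (deriv (kap F)) := measurable_deriv _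
  have hk := L2_real (ν := ν0) hXm hε hdm (t := 1/16) (by norm_num) (abs_deriv_kap_le F)
  have hbi : Integrable (bb F) ν0 := integrable_bdd (measurable_bb F) (norm_bb_le F)
  have mk : Measurable (fun θ => ((deriv (kap F) θ : ℝ) : ℂ)) := Complex.measurable_ofReal.comp hdm
  have ik : Integrable (fun θ => ((deriv (kap F) θ : ℝ) : ℂ)) ν0 :=
    integrable_bdd mk (t := 1/16) (fun a => by rw [Complex.norm_real]; exact abs_deriv_kap_le F a)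
  have hpt : ∀ θ, ‖CC ε ν0 (XX φ F s) (fun _ => 1) θ‖^2 ≤
      2 * ‖CC ε ν0 (XX φ F s) (bb F) θ‖^2 +
      2 * ‖CC ε ν0 (XX φ F s) (fun θ => ((deriv (kap F) θ : ℝ) : ℂ)) θ‖^2 := by
    intro θ
    have e : CC ε ν0 (XX φ F s) (fun _ => 1) θ = CC ε ν0 (XX φ F s) (bb F) θ -
        I * CC ε ν0 (XX φ F s) (fun θ => ((deriv (kap F) θ : ℝ) : ℂ)) θ := by
      rw [← CC_const_mul, ← CC_sub hXm hε hbi (ik.const_mul I)]
      congr 1
      ext b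
      unfold bb
      ring
    rw [e]
    have h6 := norm_sub_le (CC ε ν0 (XX φ F s) (bb F) θ)
      (I * CC ε ν0 (XX φ F s) (fun θ => ((deriv (kap F) θ : ℝ) : ℂ)) θ)
    rw [norm_mul, Complex.norm_I, one_mul] at h6
    have h7 := pow_le_pow_left₀ (norm_nonneg _) h6 2
    nlinarith [sq_nonneg (‖CC ε ν0 (XX φ F s) (bb F) θ‖ -
      ‖CC ε ν0 (XX φ F s) (fun θ => ((deriv (kap F) θ : ℝ) : ℂ)) θ‖)]
  have i1 := integrable_CC_sq hXm hε (measurable_bb F) hbi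
  have i2 := integrable_CC_sq hXm hε mk ik
  have i0 := integrable_CC_sq (ν := ν0) hXm hε (g := fun _ => (1:ℂ)) measurable_const
    (integrable_const _)
  have hB : ∫ θ, ‖CC ε ν0 (XX φ F s) (bb F) θ‖^2 ∂ν0 ≤ 2 * Real.pi * (2000000 * Λ^7)^2 := by
    rw [← integral_const_ν0]
    refine integral_mono i1 (integrable_const _) fun θ => ?_
    exact pow_le_pow_left₀ (norm_nonneg _) (S.CC_bb_le hε hε1 θ) 2
  have h1 : A ≤ 2 * ∫ θ, ‖CC ε ν0 (XX φ F s) (bb F) θ‖^2 ∂ν0 +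
      2 * ∫ θ, ‖CC ε ν0 (XX φ F s) (fun θ => ((deriv (kap F) θ : ℝ) : ℂ)) θ‖^2 ∂ν0 := by
    calc A ≤ ∫ θ, (2 * ‖CC ε ν0 (XX φ F s) (bb F) θ‖^2 +
          2 * ‖CC ε ν0 (XX φ F s) (fun θ => ((deriv (kap F) θ : ℝ) : ℂ)) θ‖^2) ∂ν0 :=
          integral_mono i0 ((i1.const_mul 2).add (i2.const_mul 2)) hpt
      _ = _ := by
          rw [integral_add (i1.const_mul 2) (i2.const_mul 2), integral_const_mul,
            integral_const_mul]
  have h2 : 2 * Real.pi * (2000000 * Λ^7)^2 ≤ 7 * (4 * 10^12) * Λ^14 := by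
    have h3 : 2 * Real.pi ≤ 7 := by have := Real.pi_lt_d2; linarith
    calc 2 * Real.pi * (2000000 * Λ^7)^2 ≤ 7 * (2000000 * Λ^7)^2 := by gcongr
      _ = 7 * (4 * 10^12) * Λ^14 := by ring
  have hA0 : 0 ≤ A := integral_nonneg fun θ => by positivity
  have h4 : (62:ℝ) * (1/16)^2 = 31/128 := by norm_num
  rw [h4] at hk
  have h5 : 0 ≤ Λ^14 := by positivity
  linarith

/-- the `L^∞ → L²` bound on the sawtooth curve -/
theorem L2_bound {ε : ℝ} (hε : 0 < ε) (hε1 : ε ≤ 2/5) {g : ℝ → ℂ} (hg : Measurable g) {t : ℝ}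
    (ht : 0 < t) (hgt : ∀ θ, ‖g θ‖ ≤ t) :
    ∫ θ, ‖CC ε ν0 (XX φ F s) g θ‖^2 ∂ν0 ≤ 5 * 10^16 * Λ^14 * t^2 := by
  have hΛ0 := S.Λpos
  have h1 := L2_complex (ν := ν0) S.continuous_XX.measurable hε hg ht hgt
  have h2 := S.CC_one_le hε hε1
  refine h1.trans ?_
  calc 248 * t^2 * ∫ θ, ‖CC ε ν0 (XX φ F s) (fun _ => 1) θ‖^2 ∂ν0
      ≤ 248 * t^2 * (2 * 10^14 * Λ^14) := by gcongr
    _ ≤ 5 * 10^16 * Λ^14 * t^2 := by
        have : 0 ≤ Λ^14 * t^2 := by positivity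
        nlinarith

end Saw

end Pool.Agent.Helper32.CN
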