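import Pool.Agent.Helper32.CN.Koebe

open Complex Metric Set Filter Topology MeasureTheory InnerProductSpace

namespace Pool.Agent.Helper32.CN

/-- Möbius norm inequality -/
theorem norm_sub_lt_norm_one_sub {a w : ℂ} (ha : ‖a‖ < 1) (hw : ‖w‖ < 1) :
    ‖w - a‖ < ‖1 - (starRingEnd ℂ) a * w‖ := by
  have key : ‖1 - (starRingEnd ℂ) a * w‖^2 - ‖w - a‖^2 = (1 - ‖a‖^2) * (1 - ‖w‖^2) := by
    rw [← Complex.normSq_eq_norm_sq, ← Complex.normSq_eq_norm_sq, ← Complex.normSq_eq_norm_sq,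
      ← Complex.normSq_eq_norm_sq]
    simp only [Complex.normSq_apply, sub_re, one_re, mul_re, conj_re, conj_im, sub_im, one_im,
      mul_im]
    ring
  have h1 : 0 < (1 - ‖a‖^2) * (1 - ‖w‖^2) := by
    apply mul_pos <;> nlinarith [norm_nonneg a, norm_nonneg w]
  nlinarith [norm_nonneg (w - a), norm_nonneg (1 - (starRingEnd ℂ) a * w)]

theorem dist_le_deriv {φ : ℂ → ℂ} (hd : DifferentiableOn ℂ φ (ball 0 1))
    (hi : InjOn φ (ball 0 1)) {w₀ : ℂ} (hw₀ : w₀ ∈ ball (0:ℂ) 1) {δ : ℝ} (hδ : 0 < δ)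
    (hb : ball (φ w₀) δ ⊆ φ '' ball 0 1) :
    δ ≤ (1 - ‖w₀‖^2) * ‖deriv φ w₀‖ := by
  obtain ⟨ψ, hψ, hψφ, hne⟩ := exists_inverse hd hi
  have hw1 : ‖w₀‖ < 1 := by simpa using hw₀
  have hden : ∀ η ∈ ball (0:ℂ) 1, 1 - (starRingEnd ℂ) w₀ * η ≠ 0 := by
    intro η hη h0
    have h1 := norm_sub_lt_norm_one_sub hw1 (show ‖η‖ < 1 by simpa using hη)
    rw [h0, norm_zero] at h1
    exact absurd h1 (not_lt.2 (norm_nonneg _))
  have hmapψ : MapsTo ψ (ball (φ w₀) δ) (ball 0 1) := by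
    intro z hz
    obtain ⟨w, hw, rfl⟩ := hb hz
    rw [hψφ w hw]; exact hw
  set f : ℂ → ℂ := fun z => (ψ z - w₀) / (1 - (starRingEnd ℂ) w₀ * ψ z) with hf
  have hψd : DifferentiableOn ℂ ψ (ball (φ w₀) δ) := hψ.mono hb
  have hfd : DifferentiableOn ℂ f (ball (φ w₀) δ) := by
    refine (hψd.sub_const w₀).div ((differentiableOn_const 1).sub (hψd.const_mul _)) ?_
    intro z hz
    exact hden _ (hmapψ hz)
  have hψ0 : ψ (φ w₀) = w₀ := hψφ w₀ hw₀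
  have hf0 : f (φ w₀) = 0 := by simp [hf, hψ0]
  have hmaps : MapsTo f (ball (φ w₀) δ) (closedBall (f (φ w₀)) 1) := by
    intro z hz
    rw [hf0, mem_closedBall, dist_zero_right]
    have h1 := norm_sub_lt_norm_one_sub hw1 (show ‖ψ z‖ < 1 by simpa using hmapψ hz)
    simp only [hf, norm_div]
    rw [div_le_one (lt_of_le_of_lt (norm_nonneg _) h1)]
    exact h1.le
  have h2 := Complex.norm_deriv_le_div_of_mapsTo_ball hfd hmaps hδ
  have hψ' : HasDerivAt ψ (deriv ψ (φ w₀)) (φ w₀) :=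
    (hψd.differentiableAt (isOpen_ball.mem_nhds (mem_ball_self hδ))).hasDerivAt
  have hφ' : HasDerivAt φ (deriv φ w₀) w₀ :=
    (hd.differentiableAt (isOpen_ball.mem_nhds hw₀)).hasDerivAt
  have hprod : deriv ψ (φ w₀) * deriv φ w₀ = 1 := by
    have h3 := hψ'.comp w₀ hφ'
    refine h3.unique ((hasDerivAt_id w₀).congr_of_eventuallyEq ?_)
    filter_upwards [isOpen_ball.mem_nhds hw₀] with x hx
    exact hψφ x hx
  have h0 : (1 - (starRingEnd ℂ) w₀ * w₀) ≠ 0 := hden w₀ hw₀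
  have hf' : HasDerivAt f (deriv ψ (φ w₀) / (1 - (starRingEnd ℂ) w₀ * w₀)) (φ w₀) := by
    have h3 := (hψ'.sub_const w₀).div ((hasDerivAt_const (φ w₀) (1:ℂ)).sub
      (hψ'.const_mul ((starRingEnd ℂ) w₀))) (by rw [Pi.sub_apply, hψ0]; exact h0)
    convert! h3 using 1
    rw [Pi.sub_apply, hψ0]
    field_simp
    ring
  rw [hf'.deriv] at h2
  have hnorm : ‖(1 - (starRingEnd ℂ) w₀ * w₀)‖ = 1 - ‖w₀‖^2 := by
    have : (1 - (starRingEnd ℂ) w₀ * w₀) = ((1 - ‖w₀‖^2 : ℝ) : ℂ) := by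
      rw [← Complex.normSq_eq_conj_mul_self, Complex.normSq_eq_norm_sq]
      push_cast; ring
    rw [this, Complex.norm_real, Real.norm_eq_abs, abs_of_pos (by nlinarith [norm_nonneg w₀])]
  rw [norm_div, hnorm] at h2
  have h4 : ‖deriv ψ (φ w₀)‖ * ‖deriv φ w₀‖ = 1 := by rw [← norm_mul, hprod, norm_one]
  have h5 : 0 < 1 - ‖w₀‖^2 := by nlinarith [norm_nonneg w₀]
  have h6 : 0 < ‖deriv φ w₀‖ := norm_pos_iff.2 (hne w₀ hw₀)
  rw [div_le_div_iff₀ h5 hδ] at h2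
  nlinarith

open Real in
theorem continuousOn_circle {L : ℂ → ℂ} (hL : ContinuousOn L (ball 0 1)) {ρ : ℝ}
    (hρ0 : 0 ≤ ρ) (hρ : ρ < 1) : Continuous fun θ : ℝ => L (circleMap 0 ρ θ) := by
  refine hL.comp_continuous (continuous_circleMap 0 ρ) fun θ => ?_
  rw [mem_ball, dist_zero_right, norm_circleMap_zero, abs_of_nonneg hρ0]
  exact hρ

theorem circleMap_sub_ne {ρ : ℝ} {w : ℂ} (hw : ‖w‖ < ρ) (θ : ℝ) : circleMap 0 ρ θ - w ≠ 0 := by
  intro h0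
  have h1 : ‖circleMap 0 ρ θ‖ = ‖w‖ := by rw [sub_eq_zero.1 h0]
  rw [norm_circleMap_zero] at h1
  have h2 := le_abs_self ρ
  linarith

theorem poissonKernel_circle {ρ : ℝ} {w : ℂ} (θ : ℝ) :
    poissonKernel 0 w (circleMap 0 ρ θ) = (ρ^2 - ‖w‖^2) / ‖circleMap 0 ρ θ - w‖^2 := by
  rw [poissonKernel_def]
  simp [norm_circleMap_zero]

theorem poissonKernel_circle_pos {ρ : ℝ} {w : ℂ} (hw : ‖w‖ < ρ) (θ : ℝ) :
    0 < poissonKernel 0 w (circleMap 0 ρ θ) := by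
  rw [poissonKernel_circle]
  have h1 := norm_pos_iff.2 (circleMap_sub_ne hw θ)
  have h2 : 0 < ρ^2 - ‖w‖^2 := by nlinarith [norm_nonneg w]
  positivity

theorem continuous_poissonKernel_circle {ρ : ℝ} {w : ℂ} (hw : ‖w‖ < ρ) :
    Continuous fun θ : ℝ => poissonKernel 0 w (circleMap 0 ρ θ) := by
  simp_rw [poissonKernel_circle]
  refine Continuous.div continuous_const ?_ ?_
  · exact (((continuous_circleMap 0 ρ).sub continuous_const).norm).pow 2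
  · intro θ
    exact pow_ne_zero 2 (norm_ne_zero_iff.2 (circleMap_sub_ne hw θ))

open Real in
theorem poisson_re {L : ℂ → ℂ} (hL : DifferentiableOn ℂ L (ball 0 1)) {ρ : ℝ} (hρ : ρ < 1)
    {w : ℂ} (hw : ‖w‖ < ρ) :
    ∫ θ in (0:ℝ)..2*π, poissonKernel 0 w (circleMap 0 ρ θ) * (L (circleMap 0 ρ θ)).re
      = 2 * π * (L w).re := by
  have hρ0 : 0 ≤ ρ := (norm_nonneg w).trans hw.le
  have hcl : DiffContOnCl ℂ L (ball 0 ρ) := by
    refine (hL.mono ?_).diffContOnCl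
    exact closure_ball_subset_closedBall.trans (closedBall_subset_ball hρ)
  have h1 := hcl.circleAverage_poissonKernel_smul (w := w) (by simpa using hw)
  rw [Real.circleAverage_def] at h1
  have h2 : ∫ θ in (0:ℝ)..2*π, (poissonKernel 0 w • L) (circleMap 0 ρ θ) = (2 * π : ℝ) • L w := by
    rw [← h1, smul_smul, mul_inv_cancel₀ (by positivity), one_smul]
  have hcont : Continuous fun θ : ℝ => (poissonKernel 0 w • L) (circleMap 0 ρ θ) := by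
    simp only [Pi.smul_apply']
    exact (continuous_poissonKernel_circle hw).smul (continuousOn_circle hL.continuousOn hρ0 hρ)
  have h3 := Complex.reCLM.intervalIntegral_comp_comm (hcont.intervalIntegrable 0 (2*π))
    (μ := volume)
  rw [h2] at h3
  simp only [Complex.reCLM_apply, Pi.smul_apply', Complex.smul_re, smul_eq_mul] at h3
  exact h3

open Real in
/-- Harnack's inequality, from the Poisson formula. -/
theorem harnack {L : ℂ → ℂ} (hL : DifferentiableOn ℂ L (ball 0 1))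
    (hpos : ∀ w ∈ ball (0:ℂ) 1, 0 ≤ (L w).re) {w w' : ℂ} {A : ℝ} (hw : ‖w‖ < 1) (hw' : ‖w'‖ < 1)
    (hA : 0 < A) (h1 : 1 - ‖w'‖ ≤ A * (1 - ‖w‖)) (h2 : ‖w - w'‖ ≤ A * (1 - ‖w'‖)) :
    (L w').re ≤ 2 * (4 * A) * (1 + 2 * A)^2 * (L w).re := by
  -- choose ρ close to 1
  set ρ := 1 - (min (1 - ‖w‖) (1 - ‖w'‖))/2 with hρ
  have hm : 0 < min (1 - ‖w‖) (1 - ‖w'‖) := lt_min (by linarith) (by linarith)
  have hm1 := min_le_left (1 - ‖w‖) (1 - ‖w'‖)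
  have hm2 := min_le_right (1 - ‖w‖) (1 - ‖w'‖)
  have hρ1 : ρ < 1 := by linarith
  have hwρ : ‖w‖ < ρ := by linarith
  have hwρ' : ‖w'‖ < ρ := by linarith
  have hnw := norm_nonneg w
  have hnw' := norm_nonneg w'
  have hρ0 : 0 ≤ ρ := hnw.trans hwρ.le
  have e1 := poisson_re hL hρ1 hwρ
  have e2 := poisson_re hL hρ1 hwρ'
  -- comparison of kernels
  have key : ∀ θ : ℝ, poissonKernel 0 w' (circleMap 0 ρ θ) ≤
      (2 * (4 * A) * (1 + 2 * A)^2) * poissonKernel 0 w (circleMap 0 ρ θ) := by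
    intro θ
    rw [poissonKernel_circle, poissonKernel_circle]
    set ζ := circleMap 0 ρ θ
    have hζ : ‖ζ‖ = ρ := by rw [norm_circleMap_zero, abs_of_nonneg hρ0]
    have n1 : 0 < ‖ζ - w‖ := norm_pos_iff.2 (circleMap_sub_ne hwρ θ)
    have n2 : 0 < ‖ζ - w'‖ := norm_pos_iff.2 (circleMap_sub_ne hwρ' θ)
    have n3 : (1 - ‖w'‖)/2 ≤ ‖ζ - w'‖ := by
      have : ‖ζ‖ - ‖w'‖ ≤ ‖ζ - w'‖ := norm_sub_norm_le _ _
      linarith
    have n4 : ‖ζ - w‖ ≤ (1 + 2*A) * ‖ζ - w'‖ := by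
      have : ‖ζ - w‖ ≤ ‖ζ - w'‖ + ‖w - w'‖ := by
        have := norm_sub_le (ζ - w') (w - w')
        simpa using this
      nlinarith
    have n5 : ρ^2 - ‖w'‖^2 ≤ 2 * (4*A) * (ρ^2 - ‖w‖^2) := by
      have a1 : ρ - ‖w'‖ ≤ 1 - ‖w'‖ := by linarith
      have a2 : (1 - ‖w‖)/2 ≤ ρ - ‖w‖ := by linarith
      have a3 : (ρ - ‖w'‖) ≤ 2 * A * (ρ - ‖w‖) := by nlinarith
      have a4 : 1/2 ≤ ρ := by
        have : min (1 - ‖w‖) (1 - ‖w'‖) ≤ 1 := by linarith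
        linarith
      have a5 : ρ + ‖w'‖ ≤ 4 * (ρ + ‖w‖) := by linarith
      have a6 : 0 ≤ ρ - ‖w'‖ := by linarith
      have a7 : 0 ≤ ρ + ‖w'‖ := by linarith
      calc ρ^2 - ‖w'‖^2 = (ρ - ‖w'‖) * (ρ + ‖w'‖) := by ring
        _ ≤ (2 * A * (ρ - ‖w‖)) * (4 * (ρ + ‖w‖)) := by
            apply mul_le_mul a3 a5 a7
            have : 0 ≤ ρ - ‖w‖ := by linarith
            positivity
        _ = 2 * (4*A) * (ρ^2 - ‖w‖^2) := by ring
    have n6 : 0 ≤ ρ^2 - ‖w‖^2 := by nlinarith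
    rw [mul_div_assoc', div_le_div_iff₀ (by positivity) (by positivity)]
    have n7 : ‖ζ - w‖^2 ≤ (1 + 2*A)^2 * ‖ζ - w'‖^2 := by
      rw [← mul_pow]
      exact pow_le_pow_left₀ n1.le n4 2
    calc (ρ^2 - ‖w'‖^2) * ‖ζ - w‖^2 ≤ (2 * (4*A) * (ρ^2 - ‖w‖^2)) * ((1 + 2*A)^2 * ‖ζ - w'‖^2) := by
          apply mul_le_mul n5 n7 (by positivity) (by positivity)
      _ = _ := by ring
  have hint : ∀ v : ℂ, ‖v‖ < ρ → IntervalIntegrable (fun θ : ℝ =>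
      poissonKernel 0 v (circleMap 0 ρ θ) * (L (circleMap 0 ρ θ)).re) volume 0 (2*π) := by
    intro v hv
    refine Continuous.intervalIntegrable ?_ _ _
    exact (continuous_poissonKernel_circle hv).mul
      (Complex.continuous_re.comp (continuousOn_circle hL.continuousOn hρ0 hρ1))
  have h3 : 2 * π * (L w').re ≤ (2 * (4 * A) * (1 + 2 * A)^2) * (2 * π * (L w).re) := by
    rw [← e1, ← e2, ← intervalIntegral.integral_const_mul]
    refine intervalIntegral.integral_mono_on (by positivity) (hint w' hwρ')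
      ((hint w hwρ).const_mul _) ?_
    intro θ _
    have hp : 0 ≤ (L (circleMap 0 ρ θ)).re := by
      apply hpos
      rw [mem_ball, dist_zero_right, norm_circleMap_zero, abs_of_nonneg hρ0]
      exact hρ1
    calc _ ≤ (2 * (4 * A) * (1 + 2 * A)^2 * poissonKernel 0 w (circleMap 0 ρ θ)) *
          (L (circleMap 0 ρ θ)).re := mul_le_mul_of_nonneg_right (key θ) hp
      _ = _ := by ring
  have h4 : (0:ℝ) < 2 * π := by positivity
  have h5 : 2 * π * (L w').re ≤ 2 * π * ((2 * (4 * A) * (1 + 2 * A)^2) * (L w).re) := by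
    linarith
  exact le_of_mul_le_mul_left h5 h4

/-- The growth constant. -/
noncomputable def growC (A : ℝ) : ℝ := (2 * Real.exp (2 * (4 * A) * (1 + 2 * A)^2 * Real.log 8))^2

theorem growC_pos (A : ℝ) : 0 < growC A := by unfold growC; positivity

/-- Package: the function `k` of `koebe_lite` together with its logarithm. -/
theorem koebe_log {φ : ℂ → ℂ} (hd : DifferentiableOn ℂ φ (ball 0 1))
    (hi : InjOn φ (ball 0 1)) {w₀ ζ : ℂ} (hw₀ : w₀ ∈ ball (0:ℂ) 1)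
    (hζ : ∀ w ∈ ball (0:ℂ) 1, φ w ≠ ζ)
    (hb : ball (φ w₀) ‖φ w₀ - ζ‖ ⊆ φ '' ball 0 1) :
    ∃ L : ℂ → ℂ, DifferentiableOn ℂ L (ball 0 1) ∧ (∀ w ∈ ball (0:ℂ) 1, 0 ≤ (L w).re) ∧
      (L w₀).re = Real.log 8 ∧
      ∀ w ∈ ball (0:ℂ) 1, ‖φ w - ζ‖ ≤ ‖φ w₀ - ζ‖ * (2 * Real.exp (L w).re)^2 := by
  obtain ⟨k, hk, hk1, hk0, hform⟩ := koebe_lite hd hi hw₀ hζ hb
  obtain ⟨L, hL, he⟩ := exists_log hk (fun w hw => (hk1 w hw).1)
  have hnorm : ∀ w ∈ ball (0:ℂ) 1, Real.exp (L w).re = ‖k w‖ := by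
    intro w hw
    rw [← he w hw, Complex.norm_exp]
  have hlog : ∀ w ∈ ball (0:ℂ) 1, (L w).re = Real.log ‖k w‖ := by
    intro w hw
    rw [← hnorm w hw, Real.log_exp]
  refine ⟨fun w => - L w, hL.neg, ?_, ?_, ?_⟩
  · intro w hw
    rw [Complex.neg_re, hlog w hw]
    have := Real.log_nonpos (norm_nonneg (k w)) (hk1 w hw).2
    linarith
  · rw [Complex.neg_re, hlog w₀ hw₀, hk0]
    have : ‖(1/8 : ℂ)‖ = (8:ℝ)⁻¹ := by norm_num
    rw [this, Real.log_inv, neg_neg]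
  · intro w hw
    refine (norm_le_of_formula (hk1 w hw).2 (hk1 w hw).1 (hform w hw)).trans (le_of_eq ?_)
    rw [Complex.neg_re, Real.exp_neg, hnorm w hw]
    ring

theorem growth {φ : ℂ → ℂ} (hd : DifferentiableOn ℂ φ (ball 0 1))
    (hi : InjOn φ (ball 0 1)) {w₀ ζ : ℂ} (hw₀ : w₀ ∈ ball (0:ℂ) 1)
    (hζ : ∀ w ∈ ball (0:ℂ) 1, φ w ≠ ζ)
    (hb : ball (φ w₀) ‖φ w₀ - ζ‖ ⊆ φ '' ball 0 1) {w : ℂ} (hw : w ∈ ball (0:ℂ) 1) {A : ℝ}
    (hA : 0 < A) (h1 : 1 - ‖w‖ ≤ A * (1 - ‖w₀‖)) (h2 : ‖w₀ - w‖ ≤ A * (1 - ‖w‖)) :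
    ‖φ w - ζ‖ ≤ ‖φ w₀ - ζ‖ * growC A := by
  obtain ⟨L, hL, hpos, h0, hform⟩ := koebe_log hd hi hw₀ hζ hb
  refine (hform w hw).trans (mul_le_mul_of_nonneg_left ?_ (norm_nonneg _))
  have h3 := harnack hL hpos (by simpa using hw₀) (by simpa using hw) hA h1 h2
  rw [h0] at h3
  unfold growC
  have h4 := Real.exp_le_exp.2 h3
  have h5 : 0 < Real.exp (L w).re := Real.exp_pos _
  exact pow_le_pow_left₀ (by positivity) (by linarith) 2

/-- The distortion constant. -/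
noncomputable def distC (A : ℝ) : ℝ := 8 * growC (2 * A + 1) * A

theorem distC_pos {A : ℝ} (hA : 0 < A) : 0 < distC A := by
  unfold distC; have := growC_pos (2*A+1); positivity

theorem distortion {φ : ℂ → ℂ} (hd : DifferentiableOn ℂ φ (ball 0 1))
    (hi : InjOn φ (ball 0 1)) (hne : φ '' ball 0 1 ≠ univ) {w w' : ℂ} {A : ℝ} (hA : 0 < A)
    (hw : ‖w‖ < 1) (hw' : ‖w'‖ < 1)
    (h1 : 1 - ‖w'‖ ≤ A * (1 - ‖w‖)) (h2 : 1 - ‖w‖ ≤ A * (1 - ‖w'‖))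
    (h3 : ‖w - w'‖ ≤ A * (1 - ‖w'‖)) :
    ‖deriv φ w'‖ ≤ distC A * ‖deriv φ w‖ := by
  have hwb : w ∈ ball (0:ℂ) 1 := by simpa using hw
  have hwb' : w' ∈ ball (0:ℂ) 1 := by simpa using hw'
  have hopen : IsOpen (φ '' ball 0 1) := isOpen_image hd hi isOpen_ball subset_rfl
  obtain ⟨ζ, hζ, hball, hpos, hmin⟩ := exists_nearest hopen hne (mem_image_of_mem φ hwb)
  have hζ' : ∀ w ∈ ball (0:ℂ) 1, φ w ≠ ζ := fun w hw he => hζ ⟨w, hw, he⟩
  set r := (1 - ‖w'‖)/2 with hr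
  have hr0 : 0 < r := by linarith
  have hsub : ∀ η ∈ ball w' r, ‖η‖ < 1 ∧ r ≤ 1 - ‖η‖ ∧ 1 - ‖η‖ ≤ 3 * r ∧ ‖w - η‖ ≤ A * (2*r) + r := by
    intro η hη
    rw [mem_ball, dist_eq_norm] at hη
    have a1 : ‖η‖ ≤ ‖w'‖ + ‖η - w'‖ := by
      have := norm_add_le w' (η - w'); simpa using this
    have a2 : ‖w'‖ ≤ ‖η‖ + ‖η - w'‖ := by
      have := norm_sub_le η (η - w'); simpa using this
    have a3 : ‖w - η‖ ≤ ‖w - w'‖ + ‖η - w'‖ := by
      have := norm_sub_le (w - w') (η - w'); simpa using this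
    refine ⟨by linarith, by linarith, by linarith, ?_⟩
    have : A * (1 - ‖w'‖) = A * (2 * r) := by rw [hr]; ring
    linarith
  have hgrow : ∀ η ∈ ball w' r, ‖φ η - ζ‖ ≤ ‖φ w - ζ‖ * growC (2*A+1) := by
    intro η hη
    obtain ⟨b1, b2, b3, b4⟩ := hsub η hη
    refine growth hd hi hwb hζ' hball (by simpa using b1) (by linarith) ?_ ?_
    · have : 2 * r ≤ A * (1 - ‖w‖) := by rw [hr]; linarith
      have h0 : 0 < 1 - ‖w‖ := by linarith
      nlinarith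
    · nlinarith
  set δ := ‖φ w - ζ‖ with hδ
  have hM := growC_pos (2*A+1)
  have hsubset : ball w' r ⊆ ball (0:ℂ) 1 := by
    intro η hη
    simpa using (hsub η hη).1
  have hmaps : MapsTo φ (ball w' r) (closedBall (φ w') (2 * (δ * growC (2*A+1)))) := by
    intro η hη
    rw [mem_closedBall, dist_eq_norm]
    have a1 := hgrow η hη
    have a2 := hgrow w' (mem_ball_self hr0)
    have a3 : ‖φ η - φ w'‖ ≤ ‖φ η - ζ‖ + ‖φ w' - ζ‖ := by
      have := norm_sub_le (φ η - ζ) (φ w' - ζ); simpa using this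
    linarith
  have h4 := Complex.norm_deriv_le_div_of_mapsTo_ball (hd.mono hsubset) hmaps hr0
  have h5 := dist_le_deriv hd hi hwb hpos hball
  refine h4.trans ?_
  rw [div_le_iff₀ hr0]
  have h6 : δ ≤ 2 * (1 - ‖w‖) * ‖deriv φ w‖ := by
    refine h5.trans (mul_le_mul_of_nonneg_right ?_ (norm_nonneg _))
    nlinarith [norm_nonneg w]
  have h7 : δ ≤ 2 * (A * (2 * r)) * ‖deriv φ w‖ := by
    refine h6.trans (mul_le_mul_of_nonneg_right ?_ (norm_nonneg _))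
    have : A * (1 - ‖w'‖) = A * (2 * r) := by rw [hr]; ring
    linarith
  unfold distC
  calc 2 * (δ * growC (2*A+1)) ≤ 2 * ((2 * (A * (2 * r)) * ‖deriv φ w‖) * growC (2*A+1)) := by
        gcongr
    _ = 8 * growC (2 * A + 1) * A * ‖deriv φ w‖ * r := by ring

end Pool.Agent.Helper32.CN
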