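import Mathlib

open Metric Set Filter Topology MeasureTheory
open scoped NNReal

namespace Pool.Agent.Helper32.CN

theorem norm_le_of_hasDerivAt_of_lip {f : ℝ → ℂ} {K : ℝ≥0} {a b : ℝ} (hab : a < b)
    (hf : LipschitzOnWith K f (Icc a b)) {θ : ℝ} (hθ : θ ∈ Ioo a b) {f' : ℂ}
    (h : HasDerivAt f f' θ) : ‖f'‖ ≤ K := by
  have h1 : HasDerivWithinAt f f' (Icc a b) θ := h.hasDerivWithinAt
  have h2 : Icc a b ∈ 𝓝 θ := Icc_mem_nhds hθ.1 hθ.2
  exact h.le_of_lipschitzOn h2 hf

/-- The fundamental theorem of calculus for Lipschitz complex valued functions. -/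
theorem ftc_lip {f f' : ℝ → ℂ} {K : ℝ≥0} {a b : ℝ} (hab : a < b)
    (hf : LipschitzOnWith K f (Icc a b))
    (hf' : ∀ᵐ θ, θ ∈ Ioo a b → HasDerivAt f (f' θ) θ) :
    IntervalIntegrable f' volume a b ∧ ∫ θ in a..b, f' θ = f b - f a := by
  have hae : ∀ᵐ θ ∂(volume.restrict (Ioc a b)), HasDerivAt f (f' θ) θ := by
    have h1 : ∀ᵐ θ : ℝ, θ ≠ b := by
      rw [ae_iff]; simp
    rw [ae_restrict_iff' measurableSet_Ioc]
    filter_upwards [hf', h1] with θ h2 h3 h4
    exact h2 ⟨h4.1, lt_of_le_of_ne h4.2 h3⟩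
  have haeI : ∀ᵐ θ ∂(volume.restrict (Ioc a b)), θ ∈ Ioo a b := by
    have h1 : ∀ᵐ θ : ℝ, θ ≠ b := by
      rw [ae_iff]; simp
    rw [ae_restrict_iff' measurableSet_Ioc]
    filter_upwards [h1] with θ h3 h4
    exact ⟨h4.1, lt_of_le_of_ne h4.2 h3⟩
  -- integrability
  have hint : IntegrableOn f' (Ioc a b) := by
    have hm : AEStronglyMeasurable f' (volume.restrict (Ioc a b)) := by
      have h1 : AEStronglyMeasurable (deriv f) (volume.restrict (Ioc a b)) :=
        (measurable_deriv f).aestronglyMeasurable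
      refine h1.congr ?_
      filter_upwards [hae] with θ h2
      exact h2.deriv
    refine Integrable.of_bound hm K ?_
    filter_upwards [hae, haeI] with θ h2 h3
    exact norm_le_of_hasDerivAt_of_lip hab hf h3 h2
  have hII : IntervalIntegrable f' volume a b :=
    (intervalIntegrable_iff_integrableOn_Ioc_of_le hab.le).2 hint
  refine ⟨hII, ?_⟩
  have hre : LipschitzOnWith K (fun θ => (f θ).re) (uIcc a b) := by
    rw [uIcc_of_le hab.le]
    intro x hx y hy
    refine le_trans ?_ (hf hx hy)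
    rw [edist_dist, edist_dist]
    apply ENNReal.ofReal_le_ofReal
    rw [dist_eq_norm, dist_eq_norm, ← Complex.sub_re]
    exact Complex.abs_re_le_norm _
  have him : LipschitzOnWith K (fun θ => (f θ).im) (uIcc a b) := by
    rw [uIcc_of_le hab.le]
    intro x hx y hy
    refine le_trans ?_ (hf hx hy)
    rw [edist_dist, edist_dist]
    apply ENNReal.ofReal_le_ofReal
    rw [dist_eq_norm, dist_eq_norm, ← Complex.sub_im]
    exact Complex.abs_im_le_norm _
  have e1 := hre.absolutelyContinuousOnInterval.integral_deriv_eq_sub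
  have e2 := him.absolutelyContinuousOnInterval.integral_deriv_eq_sub
  have d1 : ∫ θ in a..b, deriv (fun θ => (f θ).re) θ = ∫ θ in a..b, (f' θ).re := by
    rw [intervalIntegral.integral_of_le hab.le, intervalIntegral.integral_of_le hab.le]
    apply integral_congr_ae
    filter_upwards [hae] with θ h2
    exact (Complex.reCLM.hasFDerivAt.comp_hasDerivAt θ h2).deriv
  have d2 : ∫ θ in a..b, deriv (fun θ => (f θ).im) θ = ∫ θ in a..b, (f' θ).im := by
    rw [intervalIntegral.integral_of_le hab.le, intervalIntegral.integral_of_le hab.le]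
    apply integral_congr_ae
    filter_upwards [hae] with θ h2
    exact (Complex.imCLM.hasFDerivAt.comp_hasDerivAt θ h2).deriv
  have r1 := Complex.reCLM.intervalIntegral_comp_comm hII
  have r2 := Complex.imCLM.intervalIntegral_comp_comm hII
  apply Complex.ext
  · rw [Complex.sub_re, ← e1, d1]
    exact r1.symm
  · rw [Complex.sub_im, ← e2, d2]
    exact r2.symm

end Pool.Agent.Helper32.CN
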