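import Pool.Agent.Helper28.CauchyN.Indic
import Pool.Agent.Helper32.CN.Cross2

open Complex Metric Set Filter Topology MeasureTheory

namespace Pool.Agent.Helper32.CN

open Pool.Agent.Helper36.CN (inv inv_apply inv_mem apply_inv differentiableOn_inv)

/-- Sum of the oscillations of the real part. -/
theorem sum_re_le {φ : ℂ → ℂ} (hd : DifferentiableOn ℂ φ (ball 0 1))
    (hi : InjOn φ (ball 0 1)) {R : ℝ} (hR : ∀ w ∈ ball (0:ℂ) 1, ‖φ w‖ ≤ R)
    (hae : ∀ᵐ t : ℝ, IntegrableOn (fun y : ℝ => deriv (inv φ) ((t:ℂ) + y * I))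
      {y : ℝ | ((t:ℂ) + y * I) ∈ φ '' ball 0 1})
    {γ : ℝ → ℂ} (hγ : ContinuousOn γ (Icc 0 1)) (hlen : eVariationOn γ (Icc 0 1) ≠ ⊤)
    (hfr : frontier (φ '' ball 0 1) ⊆ γ '' Icc 0 1) :
    ∃ C : ℝ, ∀ (ι : Type) (S : Finset ι) (a b d : ι → ℝ),
      (∀ i ∈ S, 0 < a i) → (∀ i ∈ S, b i < 2 * Real.pi) →
      (S : Set ι).PairwiseDisjoint (fun i => Icc (a i) (b i)) →
      (∀ i ∈ S, 0 < d i) → (∀ i ∈ S, ∃ᶠ r in 𝓝[<] (1:ℝ), ∃ θ ∈ Icc (a i) (b i),
        ∃ θ' ∈ Icc (a i) (b i),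
          d i ≤ |(φ (circleMap 0 r θ)).re - (φ (circleMap 0 r θ')).re|) →
      ∑ i ∈ S, d i ≤ C := by
  classical
  have hu : ContinuousOn (fun s => (γ s).re) (Icc 0 1) := Complex.continuous_re.comp_continuousOn hγ
  have hv : eVariationOn (fun s => (γ s).re) (Icc 0 1) ≠ ⊤ := by
    have h1 : LipschitzWith 1 (fun z : ℂ => z.re) := by
      refine LipschitzWith.of_dist_le_mul fun z w => ?_
      rw [NNReal.coe_one, one_mul, Real.dist_eq, dist_eq_norm, ← Complex.sub_re]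
      exact abs_re_le_norm _
    exact h1.comp_boundedVariationOn (g := γ) (s := Icc 0 1) hlen
  obtain ⟨N, hNm, hNi, hN⟩ := Pool.Agent.Helper28.CN.exists_indicatrix hu hv
  have hfin2 : 2 * ∫⁻ t, N t ≠ ⊤ := ENNReal.mul_ne_top (by simp) hNi
  refine ⟨(2 * ∫⁻ t, N t).toReal, fun ι S a b d ha hb hdisj hd0 hosc => ?_⟩
  have h1 : ∀ i, ∃ q : ℝ × ℝ, i ∈ S → q.1 + d i ≤ q.2 ∧ ∀ t ∈ Ioo q.1 q.2, Cross φ (a i) (b i) t := by
    intro i
    by_cases hi' : i ∈ S
    · obtain ⟨x, y, h1, h2⟩ := exists_Ioo_cross hd hR (hosc i hi')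
      exact ⟨(x, y), fun _ => ⟨h1, h2⟩⟩
    · exact ⟨(0, 0), fun h => absurd h hi'⟩
  choose q hq using h1
  have hpt : ∀ᵐ t : ℝ, ∑ i ∈ S, (Ioo (q i).1 (q i).2).indicator (fun _ => (1:ENNReal)) t ≤ 2 * N t := by
    filter_upwards [hae] with t ht
    by_cases hNt : N t = ⊤
    · rw [hNt]; simp
    set A : Set ℝ := {y : ℝ | ((t:ℂ) + y * I) ∈ frontier (φ '' ball 0 1)} with hA
    have hAc : ∀ Y : Finset ℝ, (∀ y ∈ Y, y ∈ A) → (Y.card : ENNReal) ≤ N t := by
      intro Y hY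
      have h2 : ∀ y : ℝ, ∃ s : ℝ, y ∈ Y → s ∈ Icc (0:ℝ) 1 ∧ γ s = (t:ℂ) + y * I := by
        intro y
        by_cases hy : y ∈ Y
        · obtain ⟨s, hs, he⟩ := hfr (hY y hy)
          exact ⟨s, fun _ => ⟨hs, he⟩⟩
        · exact ⟨0, fun h => absurd h hy⟩
      choose s hs using h2
      have hinj : InjOn s Y := by
        intro y hy y' hy' he
        have h3 := (hs y hy).2
        have h4 := (hs y' hy').2
        rw [he, h4] at h3
        have h5 := congrArg Complex.im h3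
        simpa using h5.symm
      have h3 := hN t (Y.image s) ?_
      · rwa [Finset.card_image_of_injOn hinj] at h3
      · intro s' hs'
        obtain ⟨y, hy, rfl⟩ := Finset.mem_image.1 hs'
        obtain ⟨h4, h5⟩ := hs y hy
        refine ⟨h4, ?_⟩
        rw [h5]; simp
    have hAfin : A.Finite := by
      by_contra hinf
      obtain ⟨n, hn⟩ := ENNReal.exists_nat_gt hNt
      obtain ⟨Y, hY, hcard⟩ := Set.Infinite.exists_subset_card_eq hinf n
      have h2 := hAc Y hY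
      rw [hcard] at h2
      exact absurd h2 (not_le.2 hn)
    set E := hAfin.toFinset with hE
    have hEc : (E.card : ENNReal) ≤ N t := hAc E (fun y hy => hAfin.mem_toFinset.1 hy)
    set T := S.filter (fun i => t ∈ Ioo (q i).1 (q i).2) with hT
    have hTc : T.card ≤ E.card * 2 := by
      refine card_cross_le hd hi hR ht (E := E) (fun y hy => hAfin.mem_toFinset.2 hy) T a b ?_ ?_ ?_ ?_
      · exact fun i hi' => ha i (Finset.mem_filter.1 hi').1
      · exact fun i hi' => hb i (Finset.mem_filter.1 hi').1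
      · exact hdisj.subset (fun i hi' => (Finset.mem_filter.1 hi').1)
      · intro i hi'
        obtain ⟨h2, h3⟩ := Finset.mem_filter.1 hi'
        exact (hq i h2).2 t h3
    have hsum : ∑ i ∈ S, (Ioo (q i).1 (q i).2).indicator (fun _ => (1:ENNReal)) t = T.card := by
      simp only [indicator_apply]
      rw [Finset.sum_ite, Finset.sum_const_zero, add_zero, Finset.sum_const, nsmul_eq_mul, mul_one]
    rw [hsum]
    calc (T.card : ENNReal) ≤ ((E.card * 2 : ℕ) : ENNReal) := by exact_mod_cast hTc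
      _ = 2 * (E.card : ENNReal) := by push_cast; ring
      _ ≤ 2 * N t := by gcongr
  have h2 := lintegral_mono_ae hpt
  rw [lintegral_const_mul _ hNm, lintegral_finsetSum _ (fun i _ =>
    measurable_const.indicator measurableSet_Ioo)] at h2
  have h3 : ∀ i ∈ S, ENNReal.ofReal (d i) ≤
      ∫⁻ t, (Ioo (q i).1 (q i).2).indicator (fun _ => (1:ENNReal)) t := by
    intro i hi'
    rw [lintegral_indicator measurableSet_Ioo, setLIntegral_const, one_mul, Real.volume_Ioo]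
    exact ENNReal.ofReal_le_ofReal (by have := (hq i hi').1; linarith)
  have h4 : ENNReal.ofReal (∑ i ∈ S, d i) ≤ 2 * ∫⁻ t, N t := by
    rw [ENNReal.ofReal_sum_of_nonneg (fun i hi' => (hd0 i hi').le)]
    exact (Finset.sum_le_sum h3).trans h2
  rw [← ENNReal.ofReal_toReal hfin2] at h4
  exact (ENNReal.ofReal_le_ofReal_iff ENNReal.toReal_nonneg).1 h4

/-- rotation of the set-up by `-i` -/
theorem frontier_rot {γ : ℝ → ℂ} {Ω : Set ℂ} {φ' : ℂ → ℂ} (hΩ : Ω = φ' '' ball 0 1)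
    (hfr : frontier Ω ⊆ γ '' Icc 0 1) :
    frontier ((fun z => -I * φ' z) '' ball 0 1) ⊆ (fun s => -I * γ s) '' Icc 0 1 := by
  have hI : (-I : ℂ) ≠ 0 := neg_ne_zero.2 I_ne_zero
  have e1 : (fun z => -I * φ' z) '' ball 0 1 = Homeomorph.mulLeft₀ (-I) hI '' Ω := by
    rw [hΩ, image_image]; rfl
  rw [e1, ← Homeomorph.image_frontier]
  rintro _ ⟨z, hz, rfl⟩
  obtain ⟨s, hs, rfl⟩ := hfr hz
  exact ⟨s, hs, rfl⟩

open Real in
/-- The geometric input. -/
theorem exists_oscBound (hline : ∀ φ : ℂ → ℂ, DifferentiableOn ℂ φ (ball 0 1) →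
      InjOn φ (ball 0 1) → Bornology.IsBounded (φ '' ball 0 1) →
      ∀ᵐ t : ℝ, IntegrableOn (fun y : ℝ => deriv (inv φ) ((t:ℂ) + y * I))
      {y : ℝ | ((t:ℂ) + y * I) ∈ φ '' ball 0 1})
    {φ : ℂ → ℂ} (hd : DifferentiableOn ℂ φ (ball 0 1))
    (hi : InjOn φ (ball 0 1)) (hb : Bornology.IsBounded (φ '' ball 0 1))
    {γ : ℝ → ℂ} (hγ : ContinuousOn γ (Icc 0 1)) (hlen : eVariationOn γ (Icc 0 1) ≠ ⊤)
    (hfr : frontier (φ '' ball 0 1) ⊆ γ '' Icc 0 1) : ∃ C, OscBound φ C := by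
  classical
  obtain ⟨R, hR'⟩ := hb.exists_norm_le
  have hR : ∀ w ∈ ball (0:ℂ) 1, ‖φ w‖ ≤ R := fun w hw => hR' _ (mem_image_of_mem φ hw)
  set ψ : ℂ → ℂ := fun z => -I * φ z with hψ
  have hI : (-I : ℂ) ≠ 0 := neg_ne_zero.2 I_ne_zero
  have hψd : DifferentiableOn ℂ ψ (ball 0 1) := hd.const_mul _
  have hψi : InjOn ψ (ball 0 1) := fun z hz w hw he => hi hz hw (mul_left_cancel₀ hI he)
  have hψR : ∀ w ∈ ball (0:ℂ) 1, ‖ψ w‖ ≤ R := by
    intro w hw
    simp only [hψ, norm_mul, norm_neg, Complex.norm_I, one_mul]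
    exact hR w hw
  have hψb : Bornology.IsBounded (ψ '' ball 0 1) := by
    rw [isBounded_iff_forall_norm_le]
    exact ⟨R, by rintro _ ⟨w, hw, rfl⟩; exact hψR w hw⟩
  obtain ⟨C₁, hC₁⟩ := sum_re_le hd hi hR (hline φ hd hi hb) hγ hlen hfr
  have hlen' : eVariationOn (fun s => -I * γ s) (Icc 0 1) ≠ ⊤ := by
    have h1 : LipschitzWith 1 (fun z : ℂ => -I * z) := by
      refine LipschitzWith.of_dist_le_mul fun z w => ?_
      rw [NNReal.coe_one, one_mul, dist_eq_norm, dist_eq_norm, ← mul_sub, norm_mul, norm_neg,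
        Complex.norm_I, one_mul]
    exact h1.comp_boundedVariationOn (g := γ) (s := Icc 0 1) hlen
  obtain ⟨C₂, hC₂⟩ := sum_re_le hψd hψi hψR (hline ψ hψd hψi hψb)
    (γ := fun s => -I * γ s) (continuousOn_const.mul hγ) hlen' (frontier_rot rfl hfr)
  refine ⟨2 * (C₁ + C₂), fun S a b d hab hdisj hosc => ?_⟩
  set P : ℕ × ℤ → Prop := fun i => ∃ᶠ r in 𝓝[<] (1:ℝ), ∃ θ ∈ Icc (a i) (b i),
        ∃ θ' ∈ Icc (a i) (b i),
          d i / 2 ≤ |(φ (circleMap 0 r θ)).re - (φ (circleMap 0 r θ')).re| with hP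
  have h1 := hC₁ (ℕ × ℤ) (S.filter P) a b (fun i => d i / 2)
    (fun i hi' => (hab i (Finset.mem_filter.1 hi').1).1)
    (fun i hi' => (hab i (Finset.mem_filter.1 hi').1).2.2)
    (hdisj.subset (fun i hi' => (Finset.mem_filter.1 hi').1))
    (fun i hi' => half_pos (hosc i (Finset.mem_filter.1 hi').1).1)
    (fun i hi' => (Finset.mem_filter.1 hi').2)
  have h2 := hC₂ (ℕ × ℤ) (S.filter (fun i => ¬ P i)) a b (fun i => d i / 2)
    (fun i hi' => (hab i (Finset.mem_filter.1 hi').1).1)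
    (fun i hi' => (hab i (Finset.mem_filter.1 hi').1).2.2)
    (hdisj.subset (fun i hi' => (Finset.mem_filter.1 hi').1))
    (fun i hi' => half_pos (hosc i (Finset.mem_filter.1 hi').1).1) ?_
  · have h3 := Finset.sum_filter_add_sum_filter_not S P (fun i => d i / 2)
    have h4 : ∑ i ∈ S, d i / 2 = (∑ i ∈ S, d i) / 2 := by rw [Finset.sum_div]
    rw [h4] at h3
    linarith
  · intro i hi'
    obtain ⟨hiS, hiP⟩ := Finset.mem_filter.1 hi'
    rw [hP, not_frequently] at hiP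
    have h5 := (hosc i hiS).2
    refine Eventually.frequently ?_
    filter_upwards [hiP, h5] with r hr1 hr2
    obtain ⟨θ, hθ, θ', hθ', h6⟩ := hr2
    refine ⟨θ, hθ, θ', hθ', ?_⟩
    have h7 : ¬ (d i / 2 ≤ |(φ (circleMap 0 r θ)).re - (φ (circleMap 0 r θ')).re|) :=
      fun h => hr1 ⟨θ, hθ, θ', hθ', h⟩
    push Not at h7
    have h8 := Complex.norm_le_abs_re_add_abs_im (φ (circleMap 0 r θ) - φ (circleMap 0 r θ'))
    rw [Complex.sub_re, Complex.sub_im] at h8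
    simp only [hψ, neg_mul, Complex.neg_re, Complex.mul_re, I_re, zero_mul, I_im, one_mul, zero_sub,
      neg_neg]
    linarith

end Pool.Agent.Helper32.CN
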