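import Pool.Agent.Helper32.CN.Saw

open Complex Metric Set Filter Topology MeasureTheory
open scoped NNReal ENNReal

namespace Pool.Agent.Helper32.CN

namespace Saw

variable {φ : ℂ → ℂ} {F : Set ℝ} {s Λ : ℝ} (S : Saw φ F s Λ)
include S

theorem continuous_XX : Continuous (XX φ F s) := by
  rw [Metric.continuous_iff]
  intro b ε hε
  have hΛ := S.Λpos
  refine ⟨ε / (2 * Λ), by positivity, fun a ha => ?_⟩
  rw [dist_eq_norm]
  refine (S.XX_lip a b).trans_lt ?_
  rw [Real.dist_eq, lt_div_iff₀ (by positivity)] at ha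
  linarith

omit S in
theorem det_PhiD (c : ℂ) :
    ((ContinuousLinearMap.toSpanSingleton ℂ c : ℂ →L[ℂ] ℂ).restrictScalars ℝ).det = ‖c‖^2 := by
  simp [ContinuousLinearMap.det, LinearMap.det_restrictScalars,
      Algebra.norm_complex_eq, Complex.normSq_eq_norm_sq]

/-- growth condition, small radii -/
theorem growth_small (x : ℂ) {r : ℝ} (hr : 0 < r) (hr1 : r ≤ 2/5) :
    volume {θ ∈ Ico 0 (2 * Real.pi) | ‖XX φ F s θ - x‖ ≤ r} ≤ ENNReal.ofReal (120 * Λ^4 * r) := by
  have hΛ := S.Λpos
  set E := {θ ∈ Ico 0 (2 * Real.pi) | ‖XX φ F s θ - x‖ ≤ r} with hE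
  have hEm : MeasurableSet E := measurableSet_Ico.inter
    (isClosed_le (S.continuous_XX.sub continuous_const).norm continuous_const).measurableSet
  have hEfin : volume E ≠ ⊤ := by
    refine ne_top_of_le_ne_top ?_ (measure_mono (fun θ hθ => hθ.1 : E ⊆ Ico 0 (2 * Real.pi)))
    exact measure_Ico_lt_top.ne
  have hycont : Continuous (yy F s) := by
    unfold yy kap
    exact continuous_const.add ((continuous_infDist_pt F).div_const _)
  set T := regionBetween (yy F s) (fun θ => yy F s θ + r) E with hT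
  have hTm : MeasurableSet T :=
    measurableSet_regionBetween hycont.measurable (hycont.add continuous_const).measurable hEm
  set R : Set ℂ := Complex.measurableEquivRealProd ⁻¹' T with hR
  have hRm : MeasurableSet R := Complex.measurableEquivRealProd.measurable hTm
  have hRmem : ∀ z ∈ R, z.re ∈ E ∧ yy F s z.re < z.im ∧ z.im < yy F s z.re + r := by
    intro z hz
    exact ⟨hz.1, hz.2.1, hz.2.2⟩
  have hRvol : volume R = volume E * ENNReal.ofReal r := by
    rw [hR, Complex.volume_preserving_equiv_real_prod.measure_preimage hTm.nullMeasurableSet, hT]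
    have hgm : Measurable (fun θ => yy F s θ + r) := (hycont.add continuous_const).measurable
    rw [Measure.volume_eq_prod, volume_regionBetween_eq_lintegral' hycont.measurable hgm hEm]
    simp only [Pi.sub_apply, add_sub_cancel_left]
    rw [setLIntegral_const, mul_comm]
  have hinj : InjOn (Phi φ) R := by
    intro z hz z' hz' he
    obtain ⟨a1, a2, a3⟩ := hRmem z hz
    obtain ⟨b1, b2, b3⟩ := hRmem z' hz'
    have h2 := S.yy_pos z.re
    have h2' := S.yy_pos z'.re
    have h3 := S.hi (exp_I_mem (show 0 < z.im by linarith)) (exp_I_mem (show 0 < z'.im by linarith)) he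
    obtain ⟨k, hk⟩ := exp_I_eq h3
    have h4 : z.re - z'.re = k * (2 * Real.pi) := by
      rw [hk]
      have : z' + k * (2 * Real.pi) = z' + ((k * (2 * Real.pi) : ℝ) : ℂ) := by push_cast; ring
      rw [this, add_re, ofReal_re]; ring
    have h5 : |z.re - z'.re| < 2 * Real.pi := by
      rw [abs_lt]
      have c1 := a1.1
      have c2 := b1.1
      rw [mem_Ico] at c1 c2
      constructor <;> linarith
    rw [h4, abs_mul, abs_of_pos (by positivity : (0:ℝ) < 2 * Real.pi)] at h5
    have hk0 : k = 0 := by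
      by_contra hne
      have h6 : (1:ℝ) ≤ |(k:ℝ)| := by
        rw [← Int.cast_abs]; exact_mod_cast Int.one_le_abs hne
      have := Real.pi_gt_three
      nlinarith
    rw [hk, hk0]; simp
  have hderiv : ∀ z ∈ R, HasFDerivWithinAt (Phi φ)
      ((ContinuousLinearMap.toSpanSingleton ℂ (PhiD φ z) : ℂ →L[ℂ] ℂ).restrictScalars ℝ) R z := by
    intro z hz
    obtain ⟨a1, a2, a3⟩ := hRmem z hz
    have h2 := S.yy_pos z.re
    have h := (S.hasDerivAt_Phi (z := z) (by linarith)).hasFDerivAt.restrictScalars ℝ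
    exact h.hasFDerivWithinAt
  have harea := lintegral_abs_det_fderiv_eq_addHaar_image volume hRm hderiv hinj
  -- lower bound of the integral
  have hlow : ENNReal.ofReal ((1/(3*Λ))^2) * volume R ≤
      ∫⁻ z in R, ENNReal.ofReal |((ContinuousLinearMap.toSpanSingleton ℂ (PhiD φ z) :
        ℂ →L[ℂ] ℂ).restrictScalars ℝ).det| := by
    rw [← setLIntegral_const]
    refine setLIntegral_mono' hRm fun z hz => ?_
    obtain ⟨a1, a2, a3⟩ := hRmem z hz
    have h2 := S.yy_pos z.re
    have h3 := S.yy_le z.re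
    rw [det_PhiD]
    apply ENNReal.ofReal_le_ofReal
    rw [abs_of_nonneg (by positivity)]
    exact pow_le_pow_left₀ (by positivity) (S.le_norm_PhiD (by linarith) (by linarith)) 2
  have hsub : Phi φ '' R ⊆ closedBall x ((1 + Λ) * r) := by
    rintro _ ⟨z, hz, rfl⟩
    obtain ⟨a1, a2, a3⟩ := hRmem z hz
    have h1 := S.vertical_le (θ := z.re) (v := z.im) (v' := yy F s z.re) a2.le le_rfl
    rw [Complex.re_add_im z, abs_of_nonneg (by linarith)] at h1
    have h2 : ‖XX φ F s z.re - x‖ ≤ r := a1.2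
    rw [mem_closedBall, dist_eq_norm]
    have h3 : Phi φ z - x = (Phi φ z - XX φ F s z.re) + (XX φ F s z.re - x) := by ring
    rw [h3]
    refine (norm_add_le _ _).trans ?_
    have h4 : ‖Phi φ z - XX φ F s z.re‖ ≤ Λ * r := by
      unfold XX zz
      exact h1.trans (mul_le_mul_of_nonneg_left (by linarith) hΛ.le)
    linarith
  have hup : volume (Phi φ '' R) ≤ ENNReal.ofReal (((1 + Λ) * r)^2 * Real.pi) := by
    refine (measure_mono hsub).trans (le_of_eq ?_)
    have hpi : ENNReal.ofReal Real.pi = NNReal.pi := by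
      rw [ENNReal.ofReal, ← NNReal.coe_real_pi, Real.toNNReal_coe]
    rw [Complex.volume_closedBall, ENNReal.ofReal_mul (p := ((1 + Λ) * r)^2) (by positivity),
      ENNReal.ofReal_pow (by positivity), hpi]
  rw [harea, hRvol] at hlow
  have hfinal := hlow.trans hup
  rw [← ENNReal.ofReal_toReal hEfin, ← ENNReal.ofReal_mul ENNReal.toReal_nonneg,
    ← ENNReal.ofReal_mul (by positivity), ENNReal.ofReal_le_ofReal_iff (by positivity)] at hfinal
  rw [← ENNReal.ofReal_toReal hEfin]
  apply ENNReal.ofReal_le_ofReal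
  set v := (volume E).toReal
  have h5 : v * r ≤ 9 * Λ^2 * (((1 + Λ) * r)^2 * Real.pi) := by
    have : (1/(3*Λ))^2 * (v * r) = v * r / (9 * Λ^2) := by field_simp; ring
    rw [this, div_le_iff₀ (by positivity)] at hfinal
    linarith
  have h6 : (1 + Λ)^2 ≤ 4 * Λ^2 := by nlinarith [S.hΛ]
  have h7 : v * r ≤ (120 * Λ^4 * r) * r := by
    have hpi : Real.pi ≤ 10/3 := by have := Real.pi_lt_d2; linarith
    calc v * r ≤ 9 * Λ^2 * (((1 + Λ) * r)^2 * Real.pi) := h5
      _ = 9 * Λ^2 * r^2 * ((1 + Λ)^2 * Real.pi) := by ring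
      _ ≤ 9 * Λ^2 * r^2 * ((4 * Λ^2) * (10/3)) := by gcongr
      _ = (120 * Λ^4 * r) * r := by ring
  exact le_of_mul_le_mul_right h7 hr

/-- growth condition -/
theorem growth (x : ℂ) {r : ℝ} (hr : 0 < r) :
    volume {θ ∈ Ico 0 (2 * Real.pi) | ‖XX φ F s θ - x‖ ≤ r} ≤ ENNReal.ofReal (120 * Λ^4 * r) := by
  rcases le_or_gt r (2/5) with h | h
  · exact S.growth_small x hr h
  · refine (measure_mono (fun θ hθ => hθ.1 : _ ⊆ Ico 0 (2 * Real.pi))).trans ?_
    rw [Real.volume_Ico, sub_zero]
    apply ENNReal.ofReal_le_ofReal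
    have h1 : 1 ≤ Λ^4 := one_le_pow₀ S.hΛ
    have h2 := Real.pi_lt_d2
    nlinarith

end Saw

end Pool.Agent.Helper32.CN
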