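import Mathlib

open Complex Metric Set Filter Topology MeasureTheory

namespace Pool.Agent.Helper32.CN

/-- regularized Cauchy kernel -/
noncomputable def kk (ε : ℝ) (x y : ℂ) : ℂ :=
  (starRingEnd ℂ) (x - y) / ((‖x - y‖^2 + ε^2 : ℝ) : ℂ)

theorem kk_den_pos {ε : ℝ} (hε : 0 < ε) (x y : ℂ) : 0 < ‖x - y‖^2 + ε^2 := by positivity

theorem norm_kk {ε : ℝ} (hε : 0 < ε) (x y : ℂ) : ‖kk ε x y‖ = ‖x - y‖ / (‖x - y‖^2 + ε^2) := by
  unfold kk
  rw [norm_div, RCLike.norm_conj, Complex.norm_real, Real.norm_eq_abs,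
    abs_of_pos (kk_den_pos hε x y)]

theorem norm_kk_le {ε : ℝ} (hε : 0 < ε) (x y : ℂ) : ‖kk ε x y‖ ≤ ε⁻¹ := by
  rw [norm_kk hε, div_le_iff₀ (kk_den_pos hε x y), inv_mul_eq_div, le_div_iff₀ hε]
  nlinarith [sq_nonneg (‖x - y‖ - ε), norm_nonneg (x - y)]

theorem continuous_kk {ε : ℝ} (hε : 0 < ε) : Continuous fun p : ℂ × ℂ => kk ε p.1 p.2 := by
  unfold kk
  refine Continuous.div ?_ ?_ ?_
  · exact Complex.continuous_conj.comp (continuous_fst.sub continuous_snd)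
  · exact Complex.continuous_ofReal.comp
      (((continuous_fst.sub continuous_snd).norm.pow 2).add continuous_const)
  · intro p
    exact_mod_cast (kk_den_pos hε p.1 p.2).ne'

theorem kk_swap (ε : ℝ) (x y : ℂ) : kk ε y x = - kk ε x y := by
  unfold kk
  rw [norm_sub_rev y x]
  have : y - x = -(x - y) := by ring
  rw [this, map_neg, neg_div]

/-- the symmetrization integrand -/
noncomputable def Qk (ε : ℝ) (x y z : ℂ) : ℝ := (kk ε y x * (starRingEnd ℂ) (kk ε z x)).re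

theorem Qk_eq (ε : ℝ) (x y z : ℂ) : Qk ε x y z =
    ((y.re - x.re) * (z.re - x.re) + (y.im - x.im) * (z.im - x.im)) /
      ((((x.re - y.re)^2 + (x.im - y.im)^2) + ε^2) * (((z.re - x.re)^2 + (z.im - x.im)^2) + ε^2)) := by
  unfold Qk kk
  have e1 : ‖y - x‖^2 = (x.re - y.re)^2 + (x.im - y.im)^2 := by
    rw [← Complex.normSq_eq_norm_sq, Complex.normSq_apply, sub_re, sub_im]; ring
  have e2 : ‖z - x‖^2 = (z.re - x.re)^2 + (z.im - x.im)^2 := by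
    rw [← Complex.normSq_eq_norm_sq, Complex.normSq_apply, sub_re, sub_im]; ring
  rw [e1, e2, map_div₀, Complex.conj_conj, Complex.conj_ofReal, div_mul_div_comm,
    ← Complex.ofReal_mul, Complex.div_ofReal_re]
  congr 1
  simp [Complex.mul_re, Complex.conj_re, Complex.conj_im]
  ring

theorem Qk_sym_nonneg {ε : ℝ} (hε : 0 < ε) (x y z : ℂ) :
    0 ≤ Qk ε x y z + Qk ε y z x + Qk ε z x y := by
  rw [Qk_eq, Qk_eq, Qk_eq]
  set x1 := x.re
  set x2 := x.im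
  set y1 := y.re
  set y2 := y.im
  set z1 := z.re
  set z2 := z.im
  have hA : 0 < ((x1 - y1)^2 + (x2 - y2)^2) + ε^2 := by positivity
  have hB : 0 < ((y1 - z1)^2 + (y2 - z2)^2) + ε^2 := by positivity
  have hC : 0 < ((z1 - x1)^2 + (z2 - x2)^2) + ε^2 := by positivity
  set A := ((x1 - y1)^2 + (x2 - y2)^2) + ε^2 with hAdef
  set B := ((y1 - z1)^2 + (y2 - z2)^2) + ε^2 with hBdef
  set C := ((z1 - x1)^2 + (z2 - x2)^2) + ε^2 with hCdef
  have key : ((y1 - x1) * (z1 - x1) + (y2 - x2) * (z2 - x2)) / (A * C) +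
      ((z1 - y1) * (x1 - y1) + (z2 - y2) * (x2 - y2)) / (B * A) +
      ((x1 - z1) * (y1 - z1) + (x2 - z2) * (y2 - z2)) / (C * B) =
      (2 * ((x1 - z1) * (y2 - z2) - (x2 - z2) * (y1 - z1))^2 +
        ε^2 * (((x1 - y1)^2 + (x2 - y2)^2) + ((y1 - z1)^2 + (y2 - z2)^2) +
          ((z1 - x1)^2 + (z2 - x2)^2)) / 2) / (A * B * C) := by
    have : ((y1 - x1) * (z1 - x1) + (y2 - x2) * (z2 - x2)) * B +
      ((z1 - y1) * (x1 - y1) + (z2 - y2) * (x2 - y2)) * C +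
      ((x1 - z1) * (y1 - z1) + (x2 - z2) * (y2 - z2)) * A =
      (2 * ((x1 - z1) * (y2 - z2) - (x2 - z2) * (y1 - z1))^2 +
        ε^2 * (((x1 - y1)^2 + (x2 - y2)^2) + ((y1 - z1)^2 + (y2 - z2)^2) +
          ((z1 - x1)^2 + (z2 - x2)^2)) / 2) := by
      rw [hAdef, hBdef, hCdef]; ring
    rw [← this]
    field_simp
  have hA' : (x1 - y1)^2 + (x2 - y2)^2 + ε^2 = A := rfl
  have : 0 ≤ (2 * ((x1 - z1) * (y2 - z2) - (x2 - z2) * (y1 - z1))^2 +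
        ε^2 * (((x1 - y1)^2 + (x2 - y2)^2) + ((y1 - z1)^2 + (y2 - z2)^2) +
          ((z1 - x1)^2 + (z2 - x2)^2)) / 2) / (A * B * C) := by positivity
  rw [← key] at this
  exact this

/-- difference estimate -/
theorem kk_sub_le {ε : ℝ} (hε : 0 < ε) (x x' y : ℂ) :
    ‖kk ε x y - kk ε x' y‖ ≤
      ‖x - x'‖ / (Real.sqrt (‖x - y‖^2 + ε^2) * Real.sqrt (‖x' - y‖^2 + ε^2)) := by
  have h1 := kk_den_pos hε x y
  have h2 := kk_den_pos hε x' y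
  set A := ‖x - y‖^2 + ε^2 with hA
  set B := ‖x' - y‖^2 + ε^2 with hB
  set u := x - y with hu
  set u' := x' - y with hu'
  have hAc : (A : ℂ) ≠ 0 := by exact_mod_cast h1.ne'
  have hBc : (B : ℂ) ≠ 0 := by exact_mod_cast h2.ne'
  have e : kk ε x y - kk ε x' y = ((starRingEnd ℂ) u * B - (starRingEnd ℂ) u' * A) / (A * B) := by
    unfold kk
    rw [← hu, ← hu', ← hA, ← hB]
    field_simp
  have huu : (starRingEnd ℂ) u * u = ((‖u‖^2 : ℝ) : ℂ) := by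
    rw [← Complex.normSq_eq_norm_sq, Complex.normSq_eq_conj_mul_self]
  have huu' : (starRingEnd ℂ) u' * u' = ((‖u'‖^2 : ℝ) : ℂ) := by
    rw [← Complex.normSq_eq_norm_sq, Complex.normSq_eq_conj_mul_self]
  have e2 : (starRingEnd ℂ) u * B - (starRingEnd ℂ) u' * A =
      (ε^2 : ℝ) * (starRingEnd ℂ) (u - u') + (starRingEnd ℂ) u * (starRingEnd ℂ) u' * (u' - u) := by
    have hsub : (starRingEnd ℂ) (u - u') = (starRingEnd ℂ) u - (starRingEnd ℂ) u' := map_sub _ _ _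
    rw [hA, hB, hsub]
    push_cast
    push_cast at huu huu'
    linear_combination (starRingEnd ℂ) u' * huu - (starRingEnd ℂ) u * huu'
  rw [e, norm_div, e2]
  have hAB : ‖(A : ℂ) * B‖ = A * B := by
    rw [← Complex.ofReal_mul, Complex.norm_real, Real.norm_eq_abs, abs_of_pos (by positivity)]
  rw [hAB]
  have hxx : ‖u - u'‖ = ‖x - x'‖ := by rw [hu, hu']; congr 1; ring
  have e3 : ‖(ε^2 : ℝ) * (starRingEnd ℂ) (u - u') +
      (starRingEnd ℂ) u * (starRingEnd ℂ) u' * (u' - u)‖ ≤ (ε^2 + ‖u‖ * ‖u'‖) * ‖x - x'‖ := by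
    refine (norm_add_le _ _).trans (le_of_eq ?_)
    rw [norm_mul, norm_mul, norm_mul, RCLike.norm_conj, RCLike.norm_conj, RCLike.norm_conj,
      norm_sub_rev u' u, hxx, Complex.norm_real, Real.norm_eq_abs, abs_of_nonneg (sq_nonneg _)]
    ring
  have e4 : ε^2 + ‖u‖ * ‖u'‖ ≤ Real.sqrt A * Real.sqrt B := by
    rw [← Real.sqrt_mul h1.le]
    apply Real.le_sqrt_of_sq_le
    rw [hA, hB]
    nlinarith [sq_nonneg (‖u‖ - ‖u'‖), sq_nonneg (ε * (‖u‖ - ‖u'‖))]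
  have hsA : 0 < Real.sqrt A := Real.sqrt_pos.2 h1
  have hsB : 0 < Real.sqrt B := Real.sqrt_pos.2 h2
  have e5 : A * B = (Real.sqrt A * Real.sqrt B) * (Real.sqrt A * Real.sqrt B) := by
    nlinarith [Real.mul_self_sqrt h1.le, Real.mul_self_sqrt h2.le,
      mul_mul_mul_comm (Real.sqrt A) (Real.sqrt B) (Real.sqrt A) (Real.sqrt B)]
  rw [div_le_div_iff₀ (by positivity) (by positivity)]
  calc _ ≤ ((ε^2 + ‖u‖ * ‖u'‖) * ‖x - x'‖) * (Real.sqrt A * Real.sqrt B) :=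
        mul_le_mul_of_nonneg_right e3 (by positivity)
    _ ≤ ((Real.sqrt A * Real.sqrt B) * ‖x - x'‖) * (Real.sqrt A * Real.sqrt B) := by gcongr
    _ = ‖x - x'‖ * (A * B) := by rw [e5]; ring

theorem kk_sub_le' {ε : ℝ} (hε : 0 < ε) (x x' y : ℂ) :
    ‖kk ε x y - kk ε x' y‖ ≤ ‖x - x'‖ / ε^2 := by
  refine (kk_sub_le hε x x' y).trans ?_
  have h1 : ε ≤ Real.sqrt (‖x - y‖^2 + ε^2) := by
    apply Real.le_sqrt_of_sq_le; nlinarith [sq_nonneg ‖x - y‖]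
  have h2 : ε ≤ Real.sqrt (‖x' - y‖^2 + ε^2) := by
    apply Real.le_sqrt_of_sq_le; nlinarith [sq_nonneg ‖x' - y‖]
  apply div_le_div_of_nonneg_left (norm_nonneg _) (by positivity)
  nlinarith

theorem kk_sub_le_far {ε : ℝ} (hε : 0 < ε) {x x' y : ℂ} (h : 2 * ‖x - x'‖ ≤ ‖x' - y‖)
    (h0 : 0 < ‖x' - y‖) :
    ‖kk ε x y - kk ε x' y‖ ≤ 2 * ‖x - x'‖ / ‖x' - y‖^2 := by
  refine (kk_sub_le hε x x' y).trans ?_
  have h1 : ‖x' - y‖/2 ≤ Real.sqrt (‖x - y‖^2 + ε^2) := by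
    have h3 : ‖x' - y‖ ≤ ‖x - x'‖ + ‖x - y‖ := by
      have := norm_sub_le (x - y) (x - x')
      have e : x - y - (x - x') = x' - y := by ring
      rw [e] at this; linarith
    apply Real.le_sqrt_of_sq_le
    nlinarith [sq_nonneg ε, norm_nonneg (x - y), norm_nonneg (x - x')]
  have h2 : ‖x' - y‖ ≤ Real.sqrt (‖x' - y‖^2 + ε^2) := by
    apply Real.le_sqrt_of_sq_le; nlinarith [sq_nonneg ε]
  have h4 : ‖x' - y‖/2 * ‖x' - y‖ ≤
      Real.sqrt (‖x - y‖^2 + ε^2) * Real.sqrt (‖x' - y‖^2 + ε^2) :=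
    mul_le_mul h1 h2 (norm_nonneg _) (Real.sqrt_nonneg _)
  calc ‖x - x'‖ / (Real.sqrt (‖x - y‖^2 + ε^2) * Real.sqrt (‖x' - y‖^2 + ε^2))
      ≤ ‖x - x'‖ / (‖x' - y‖/2 * ‖x' - y‖) :=
        div_le_div_of_nonneg_left (norm_nonneg _) (by positivity) h4
    _ = 2 * ‖x - x'‖ / ‖x' - y‖^2 := by field_simp

/-- comparison with the Cauchy kernel at a nearby point -/
theorem kk_sub_inv_le {ε c L : ℝ} (hε : 0 < ε) (hL : 1 ≤ L) (hc : 0 < c) {x x₀ p : ℂ}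
    (h1 : ‖x₀ - p‖ ≤ L * ε) (h2 : c * (‖x - x₀‖ + ε) ≤ ‖x - p‖) :
    ‖kk ε x x₀ - (x - p)⁻¹‖ ≤ (2 * L / c) * (ε / (ε + ‖x - x₀‖)^2) := by
  have h3 := kk_den_pos hε x x₀
  set A := ‖x - x₀‖^2 + ε^2 with hA
  have hn : 0 ≤ ‖x - x₀‖ := norm_nonneg _
  have hp : 0 < ‖x - p‖ := lt_of_lt_of_le (by positivity) h2
  have hpne : x - p ≠ 0 := norm_pos_iff.1 hp
  have hAc : (A : ℂ) ≠ 0 := by exact_mod_cast h3.ne'
  have hxx : (starRingEnd ℂ) (x - x₀) * (x - x₀) = ((‖x - x₀‖^2 : ℝ) : ℂ) := by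
    rw [← Complex.normSq_eq_norm_sq, Complex.normSq_eq_conj_mul_self]
  have e : kk ε x x₀ - (x - p)⁻¹ =
      ((starRingEnd ℂ) (x - x₀) * (x₀ - p) - (ε^2 : ℝ)) / (A * (x - p)) := by
    unfold kk
    rw [← hA]
    have e1 : (starRingEnd ℂ) (x - x₀) * (x - p) - A =
        (starRingEnd ℂ) (x - x₀) * (x₀ - p) - (ε^2 : ℝ) := by
      rw [hA]; push_cast; push_cast at hxx
      linear_combination hxx
    rw [← e1]
    field_simp
  rw [e, norm_div, norm_mul]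
  have hAn : ‖(A : ℂ)‖ = A := by
    rw [Complex.norm_real, Real.norm_eq_abs, abs_of_pos h3]
  rw [hAn]
  have e2 : ‖(starRingEnd ℂ) (x - x₀) * (x₀ - p) - (ε^2 : ℝ)‖ ≤ L * ε * (‖x - x₀‖ + ε) := by
    refine (norm_sub_le _ _).trans ?_
    rw [norm_mul, RCLike.norm_conj, Complex.norm_real, Real.norm_eq_abs, abs_of_nonneg (sq_nonneg _)]
    have : ‖x - x₀‖ * ‖x₀ - p‖ ≤ ‖x - x₀‖ * (L * ε) := mul_le_mul_of_nonneg_left h1 hn
    nlinarith
  have e3 : (ε + ‖x - x₀‖)^2 ≤ 2 * A := by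
    rw [hA]; nlinarith [sq_nonneg (ε - ‖x - x₀‖)]
  calc ‖(starRingEnd ℂ) (x - x₀) * (x₀ - p) - (ε^2 : ℝ)‖ / (A * ‖x - p‖)
      ≤ (L * ε * (‖x - x₀‖ + ε)) / (((ε + ‖x - x₀‖)^2/2) * (c * (‖x - x₀‖ + ε))) := by
        apply div_le_div₀ (by positivity) e2 (by positivity)
        apply mul_le_mul (by linarith) h2 (by positivity) h3.le
    _ = (2 * L / c) * (ε / (ε + ‖x - x₀‖)^2) := by
        have : 0 < ‖x - x₀‖ + ε := by positivity
        have h5 : ε + ‖x - x₀‖ = ‖x - x₀‖ + ε := by ring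
        rw [h5]
        field_simp

end Pool.Agent.Helper32.CN
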