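import Pool.Agent.Helper32.CN.Univalent

open Complex Metric Set Filter Topology

namespace Pool.Agent.Helper32.CN

theorem koebe_lite {φ : ℂ → ℂ} (hd : DifferentiableOn ℂ φ (ball 0 1))
    (hi : InjOn φ (ball 0 1)) {w₀ ζ : ℂ} (hw₀ : w₀ ∈ ball (0:ℂ) 1)
    (hζ : ∀ w ∈ ball (0:ℂ) 1, φ w ≠ ζ)
    (hb : ball (φ w₀) ‖φ w₀ - ζ‖ ⊆ φ '' ball 0 1) :
    ∃ k : ℂ → ℂ, DifferentiableOn ℂ k (ball 0 1) ∧
      (∀ w ∈ ball (0:ℂ) 1, k w ≠ 0 ∧ ‖k w‖ ≤ 1) ∧ k w₀ = 1/8 ∧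
      ∀ w ∈ ball (0:ℂ) 1, φ w - ζ = (φ w₀ - ζ) * (1/(4 * k w) - 1)^2 := by
  obtain ⟨h, hh, hsq⟩ := exists_sqrt (f := fun w => φ w - ζ) (hd.sub_const ζ)
    (fun w hw => sub_ne_zero.2 (hζ w hw))
  have hne : ∀ w ∈ ball (0:ℂ) 1, h w ≠ 0 := by
    intro w hw h0
    have := hsq w hw
    rw [h0] at this
    exact hζ w hw (sub_eq_zero.1 (by simpa using this.symm))
  have hinj : ∀ w₁ ∈ ball (0:ℂ) 1, ∀ w₂ ∈ ball (0:ℂ) 1, h w₁ ^ 2 = h w₂ ^ 2 → w₁ = w₂ := by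
    intro w₁ h₁ w₂ h₂ he
    rw [hsq w₁ h₁, hsq w₂ h₂] at he
    exact hi h₁ h₂ (by linear_combination he)
  have hhi : InjOn h (ball 0 1) := fun w₁ h₁ w₂ h₂ he => hinj w₁ h₁ w₂ h₂ (by rw [he])
  have hopen : IsOpen (h '' ball 0 1) := isOpen_image hh hhi isOpen_ball subset_rfl
  have h₀pos : 0 < ‖h w₀‖ := norm_pos_iff.2 (hne w₀ hw₀)
  have hnorm : ‖φ w₀ - ζ‖ = ‖h w₀‖^2 := by rw [← hsq w₀ hw₀, norm_pow]
  -- the ball
  have hcover : ball (h w₀) (‖h w₀‖/4) ⊆ h '' ball 0 1 ∪ (fun v => -v) ⁻¹' (h '' ball 0 1) := by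
    intro v hv
    have hv' : ‖v - h w₀‖ < ‖h w₀‖/4 := by simpa [dist_eq_norm] using hv
    have h1 : v^2 + ζ ∈ ball (φ w₀) ‖φ w₀ - ζ‖ := by
      rw [mem_ball, dist_eq_norm, hnorm]
      have e : v^2 + ζ - φ w₀ = (v - h w₀) * (v + h w₀) := by
        linear_combination (hsq w₀ hw₀)
      rw [e, norm_mul]
      have h2 : ‖v + h w₀‖ ≤ ‖h w₀‖/4 + 2 * ‖h w₀‖ := by
        calc ‖v + h w₀‖ = ‖(v - h w₀) + 2 * h w₀‖ := by congr 1; ring
          _ ≤ ‖v - h w₀‖ + ‖2 * h w₀‖ := norm_add_le _ _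
          _ ≤ ‖h w₀‖/4 + 2 * ‖h w₀‖ := by
            rw [norm_mul]; simp only [Complex.norm_ofNat]; linarith
      nlinarith [norm_nonneg (v - h w₀), norm_nonneg (v + h w₀)]
    obtain ⟨w, hw, hwe⟩ := hb h1
    have h3 : h w ^ 2 = v ^ 2 := by rw [hsq w hw, hwe]; ring
    rcases sq_eq_sq_iff_eq_or_eq_neg.1 h3 with h4 | h4
    · left; exact ⟨w, hw, h4⟩
    · right; exact ⟨w, hw, h4⟩
  have hdisj : ∀ w ∈ ball (0:ℂ) 1, ‖h w₀‖/4 ≤ ‖h w + h w₀‖ := by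
    intro w hw
    by_contra hlt
    push Not at hlt
    have hopen2 : IsOpen ((fun v : ℂ => -v) ⁻¹' (h '' ball 0 1)) := hopen.preimage continuous_neg
    have hne1 : (ball (h w₀) (‖h w₀‖/4) ∩ h '' ball 0 1).Nonempty :=
      ⟨h w₀, mem_ball_self (by linarith), mem_image_of_mem h hw₀⟩
    have hne2 : (ball (h w₀) (‖h w₀‖/4) ∩ (fun v : ℂ => -v) ⁻¹' (h '' ball 0 1)).Nonempty := by
      refine ⟨-h w, ?_, ?_⟩
      · rw [mem_ball, dist_eq_norm]
        have : -h w - h w₀ = -(h w + h w₀) := by ring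
        rw [this, norm_neg]; exact hlt
      · simpa using ⟨w, by simpa using hw, rfl⟩
    obtain ⟨v, hvB, ⟨w₁, h₁, e₁⟩, ⟨w₂, h₂, e₂⟩⟩ :=
      (convex_ball (h w₀) (‖h w₀‖/4)).isPreconnected _ _ hopen hopen2 hcover hne1 hne2
    have e12 : w₁ = w₂ := hinj w₁ h₁ w₂ h₂ (by rw [e₁, e₂]; ring)
    subst e12
    rw [e₁] at e₂
    have hv0 : v = 0 := by
      have : (2:ℂ) * v = 0 := by linear_combination e₂
      simpa using this
    rw [hv0, mem_ball, dist_eq_norm, zero_sub, norm_neg] at hvB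
    linarith
  have hden : ∀ w ∈ ball (0:ℂ) 1, h w + h w₀ ≠ 0 := by
    intro w hw h0
    have := hdisj w hw
    rw [h0, norm_zero] at this
    linarith
  refine ⟨fun w => h w₀ / (4 * (h w + h w₀)), ?_, ?_, ?_, ?_⟩
  · refine DifferentiableOn.div (differentiableOn_const _) ((hh.add_const _).const_mul 4) ?_
    intro w hw
    exact mul_ne_zero (by norm_num) (hden w hw)
  · intro w hw
    refine ⟨div_ne_zero (hne w₀ hw₀) (mul_ne_zero (by norm_num) (hden w hw)), ?_⟩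
    rw [norm_div, norm_mul]
    simp only [Complex.norm_ofNat]
    rw [div_le_one (by have := norm_pos_iff.2 (hden w hw); positivity)]
    linarith [hdisj w hw]
  · have := hne w₀ hw₀
    field_simp
    ring
  · intro w hw
    have h1 := hne w₀ hw₀
    have h2 := hden w hw
    have h3 : (1/(4 * (h w₀ / (4 * (h w + h w₀)))) - 1) = h w / h w₀ := by
      field_simp
      ring
    rw [h3]
    have e1 := hsq w hw
    have e2 := hsq w₀ hw₀
    rw [← e1, ← e2]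
    field_simp

/-- growth form -/
theorem norm_le_of_formula {a b k : ℂ} (hk : ‖k‖ ≤ 1) (hk0 : k ≠ 0)
    (h : a = b * (1/(4 * k) - 1)^2) : ‖a‖ ≤ ‖b‖ * (2/‖k‖)^2 := by
  rw [h, norm_mul, norm_pow]
  have hkp : 0 < ‖k‖ := norm_pos_iff.2 hk0
  have h1 : ‖1/(4 * k) - 1‖ ≤ 2/‖k‖ := by
    calc ‖1/(4 * k) - 1‖ ≤ ‖1/(4*k)‖ + ‖(1:ℂ)‖ := norm_sub_le _ _
      _ = 1/(4*‖k‖) + 1 := by simp
      _ ≤ 1/(4*‖k‖) + 1/‖k‖ := by
        have : 1 ≤ 1/‖k‖ := by rw [le_div_iff₀ hkp]; linarith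
        linarith
      _ ≤ 2/‖k‖ := by
        have : 1/(4*‖k‖) = (1/4) * (1/‖k‖) := by field_simp
        rw [this]
        have h2 : 0 < 1/‖k‖ := by positivity
        have h3 : 2/‖k‖ = 2 * (1/‖k‖) := by ring
        rw [h3]; linarith
  exact mul_le_mul_of_nonneg_left (pow_le_pow_left₀ (norm_nonneg _) h1 2) (norm_nonneg _)

/-- the nearest omitted point -/
theorem exists_nearest {U : Set ℂ} (hU : IsOpen U) (hne : U ≠ univ) {z : ℂ} (hz : z ∈ U) :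
    ∃ ζ, ζ ∉ U ∧ ball z ‖z - ζ‖ ⊆ U ∧ 0 < ‖z - ζ‖ ∧ ∀ ζ' ∉ U, ‖z - ζ‖ ≤ ‖z - ζ'‖ := by
  have hc : IsClosed Uᶜ := hU.isClosed_compl
  have hne' : (Uᶜ).Nonempty := nonempty_compl.2 hne
  obtain ⟨ζ, hζ, hd⟩ := hc.exists_infDist_eq_dist hne' z
  have hmin : ∀ ζ' ∉ U, ‖z - ζ‖ ≤ ‖z - ζ'‖ := by
    intro ζ' hζ'
    rw [← dist_eq_norm, ← dist_eq_norm, ← hd]
    exact infDist_le_dist_of_mem hζ'
  refine ⟨ζ, hζ, ?_, ?_, hmin⟩
  · intro x hx
    by_contra hxU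
    have := hmin x hxU
    rw [mem_ball, dist_comm, dist_eq_norm] at hx
    linarith
  · rw [norm_pos_iff, sub_ne_zero]
    rintro rfl
    exact hζ hz

theorem deriv_zero_le {F : ℂ → ℂ} (hd : DifferentiableOn ℂ F (ball 0 1))
    (hi : InjOn F (ball 0 1)) {ζ : ℂ} (hζ : ζ ∉ F '' ball 0 1) :
    ‖deriv F 0‖ ≤ 36 * ‖F 0 - ζ‖ := by
  have h0 : (0:ℂ) ∈ ball (0:ℂ) 1 := by simp
  have hopen : IsOpen (F '' ball 0 1) := isOpen_image hd hi isOpen_ball subset_rfl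
  have hne : F '' ball 0 1 ≠ univ := fun h => hζ (h ▸ mem_univ ζ)
  obtain ⟨ζ₀, hζ₀, hball, hpos, hmin⟩ := exists_nearest hopen hne (mem_image_of_mem F h0)
  refine le_trans ?_ (mul_le_mul_of_nonneg_left (hmin ζ hζ) (by norm_num))
  obtain ⟨k, hk, hk1, hk0, hform⟩ := koebe_lite hd hi h0
    (fun w hw he => hζ₀ ⟨w, hw, he⟩) hball
  have hk' : ‖deriv k 0‖ ≤ 9/8 := by
    have hm : MapsTo k (ball 0 1) (closedBall (k 0) (9/8)) := by
      intro w hw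
      rw [mem_closedBall, dist_eq_norm]
      calc ‖k w - k 0‖ ≤ ‖k w‖ + ‖k 0‖ := norm_sub_le _ _
        _ ≤ 1 + 1/8 := by
          have := (hk1 w hw).2
          rw [hk0]; norm_num; linarith
        _ = 9/8 := by norm_num
    have := Complex.norm_deriv_le_div_of_mapsTo_ball hk hm (by norm_num)
    simpa using this
  have hkd : HasDerivAt k (deriv k 0) 0 :=
    (hk.differentiableAt (isOpen_ball.mem_nhds h0)).hasDerivAt
  have hkne : (4:ℂ) * k 0 ≠ 0 := by rw [hk0]; norm_num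
  have h1 : HasDerivAt (fun w => (F 0 - ζ₀) * (1/(4 * k w) - 1)^2)
      ((F 0 - ζ₀) * (-32 * deriv k 0)) 0 := by
    have e1 : HasDerivAt (fun w => 4 * k w) (4 * deriv k 0) 0 := hkd.const_mul 4
    have e2 := (e1.inv hkne).sub_const 1
    have e3 := (e2.pow 2).const_mul (F 0 - ζ₀)
    convert! e3 using 1
    · ext w
      simp [one_div]
    · simp only [Pi.inv_apply, hk0]
      norm_num
      ring
  have h2 : HasDerivAt (fun w => F w - ζ₀) (deriv F 0) 0 :=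
    ((hd.differentiableAt (isOpen_ball.mem_nhds h0)).hasDerivAt).sub_const ζ₀
  have h3 : HasDerivAt (fun w => F w - ζ₀) ((F 0 - ζ₀) * (-32 * deriv k 0)) 0 := by
    refine h1.congr_of_eventuallyEq ?_
    filter_upwards [isOpen_ball.mem_nhds h0] with w hw
    exact hform w hw
  rw [h2.unique h3, norm_mul, norm_mul]
  simp only [norm_neg, Complex.norm_ofNat]
  nlinarith [norm_nonneg (F 0 - ζ₀)]

/-- Koebe-lite for a general disc -/
theorem radius_mul_deriv_le {F : ℂ → ℂ} {c : ℂ} {r : ℝ} (hr : 0 < r)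
    (hd : DifferentiableOn ℂ F (ball c r)) (hi : InjOn F (ball c r)) {ζ : ℂ}
    (hζ : ζ ∉ F '' ball c r) :
    r * ‖deriv F c‖ ≤ 36 * ‖F c - ζ‖ := by
  have hmap : ∀ η ∈ ball (0:ℂ) 1, c + r * η ∈ ball c r := by
    intro η hη
    rw [mem_ball, dist_eq_norm] at hη ⊢
    have : c + r * η - c = r * η := by ring
    rw [this, norm_mul, Complex.norm_real, Real.norm_eq_abs, abs_of_pos hr]
    have h1 : ‖η‖ < 1 := by simpa using hη
    nlinarith
  have hd' : DifferentiableOn ℂ (fun η : ℂ => F (c + r * η)) (ball 0 1) := by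
    refine hd.comp (t := ball c r) (f := fun η : ℂ => c + r * η) ?_ hmap
    fun_prop
  have hrc : (r:ℂ) ≠ 0 := by exact_mod_cast hr.ne'
  have hi' : InjOn (fun η : ℂ => F (c + r * η)) (ball 0 1) := by
    intro a ha b hb hab
    have := hi (hmap a ha) (hmap b hb) hab
    have h2 : (r:ℂ) * a = r * b := by linear_combination this
    exact mul_left_cancel₀ hrc h2
  have hζ' : ζ ∉ (fun η : ℂ => F (c + r * η)) '' ball 0 1 := by
    rintro ⟨η, hη, rfl⟩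
    exact hζ ⟨_, hmap η hη, rfl⟩
  have h := deriv_zero_le hd' hi' hζ'
  have hc : c ∈ ball c r := mem_ball_self hr
  have h1 : HasDerivAt (fun η : ℂ => F (c + r * η)) (deriv F c * r) 0 := by
    have e1 : HasDerivAt (fun η : ℂ => c + r * η) (r:ℂ) 0 := by
      simpa using ((hasDerivAt_id (0:ℂ)).const_mul (r:ℂ)).const_add c
    have e2 : HasDerivAt F (deriv F c) (c + r * 0) := by
      simpa using (hd.differentiableAt (isOpen_ball.mem_nhds hc)).hasDerivAt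
    exact e2.comp (0:ℂ) e1
  rw [h1.deriv, norm_mul, Complex.norm_real, Real.norm_eq_abs, abs_of_pos hr] at h
  simp only [mul_zero, add_zero] at h
  linarith

end Pool.Agent.Helper32.CN
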