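import Pool.Agent.Helper32.CN.Atoms

open Complex Metric Set Filter Topology MeasureTheory
open scoped ENNReal

namespace Pool.Agent.Helper32.CN

namespace Saw

variable {φ : ℂ → ℂ} {F : Set ℝ} {s Λ : ℝ} (S : Saw φ F s Λ)
include S

/-- remainder of the kernel comparison, integrated -/
theorem remainder_bound {ε : ℝ} (hε : 0 < ε) {g : ℝ → ℂ} (hgi : Integrable g ν0) :
    Integrable (fun θ₀ => ∫ θ, (ε / (ε + ‖XX φ F s θ - XX φ F s θ₀‖)^2) * ‖g θ‖ ∂ν0) ν0 ∧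
    ∫ θ₀, ∫ θ, (ε / (ε + ‖XX φ F s θ - XX φ F s θ₀‖)^2) * ‖g θ‖ ∂ν0 ∂ν0 ≤
      960 * Λ^4 * ∫ θ, ‖g θ‖ ∂ν0 := by
  have hX := S.continuous_XX.measurable
  have hΛ0 := S.Λpos
  have hprod : Integrable (fun p : ℝ × ℝ =>
      (ε / (ε + ‖XX φ F s p.2 - XX φ F s p.1‖)^2) * ‖g p.2‖) (ν0.prod ν0) := by
    refine Integrable.bdd_mul (c := ε⁻¹) (hgi.norm.comp_snd ν0) ?_ ?_
    · exact (measurable_const.div ((measurable_const.add
        ((hX.comp measurable_snd).sub (hX.comp measurable_fst)).norm).pow_const 2)).aestronglyMeasurable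
    · refine Filter.Eventually.of_forall fun p => ?_
      rw [Real.norm_eq_abs, abs_of_nonneg (by positivity), div_le_iff₀ (by positivity),
        inv_mul_eq_div, le_div_iff₀ hε]
      nlinarith [norm_nonneg (XX φ F s p.2 - XX φ F s p.1),
        mul_nonneg hε.le (norm_nonneg (XX φ F s p.2 - XX φ F s p.1)),
        sq_nonneg (‖XX φ F s p.2 - XX φ F s p.1‖)]
  refine ⟨hprod.integral_prod_left, ?_⟩
  rw [integral_integral_swap hprod]
  rw [← integral_const_mul]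
  have hswap := hprod.integral_prod_right
  refine integral_mono hswap (hgi.norm.const_mul _) fun θ => ?_
  simp only
  rw [integral_mul_const]
  refine mul_le_mul_of_nonneg_right ?_ (norm_nonneg _)
  have h := tail_integral (ν := ν0) hX (G := 120 * Λ^4) (by positivity)
    (x := XX φ F s θ) (fun r hr => S.growth_ν0 _ hr) hε
  calc ∫ θ₀, ε / (ε + ‖XX φ F s θ - XX φ F s θ₀‖)^2 ∂ν0
      = ∫ θ₀, ε / (ε + ‖XX φ F s θ₀ - XX φ F s θ‖)^2 ∂ν0 := by
        congr 1; ext θ₀; rw [norm_sub_rev]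
    _ ≤ 8 * (120 * Λ^4) := h
    _ = 960 * Λ^4 := by ring

/-- weak type estimate for Cauchy sums, first form -/
theorem weak_one {D : ℝ} (hD : 1 ≤ D) {ι : Type*} (J : Finset ι) (ζ : ι → ℂ) (c : ι → ℂ)
    (hc : ∑ j ∈ J, ‖c j‖ ≤ 1) (hζ : ∀ j ∈ J, ∀ w ∈ ball (0:ℂ) 1, φ w ≠ ζ j)
    (hζD : ∀ j ∈ J, ∀ w ∈ ball (0:ℂ) 1, ‖φ w - ζ j‖ ≤ D) {ε : ℝ} (hε : 0 < ε) (hε1 : ε ≤ 2/5)
    {lam : ℝ} (hlam : 1 ≤ lam) :
    ν0 {θ | 4 * (4 * 10^6 * D * Λ^8) * lam <
      ‖∑ j ∈ J, c j * (ζ j - Phi φ (zz F s θ + ε * I))⁻¹‖} ≤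
      ENNReal.ofReal (4 * 10^17 * Λ^14 / Real.sqrt lam) := by
  classical
  have hΛ := S.hΛ
  have hΛ0 := S.Λpos
  have hX := S.continuous_XX.measurable
  set M := 4 * 10^6 * D * Λ^8 with hM
  have hM0 : 0 < M := by positivity
  -- the densities
  have hex : ∀ j : ι, ∃ z₁ : ℂ, j ∈ J → (yy F s z₁.re < z₁.im ∧
      Integrable (Gat φ F s (ζ j) (Phi φ z₁)) ν0 ∧
      ∫ θ, ‖Gat φ F s (ζ j) (Phi φ z₁) θ‖ ∂ν0 ≤ M) := by
    intro j
    by_cases hj : j ∈ J
    · obtain ⟨z₁, h1⟩ := S.exists_Gat hD (hζ j hj) (hζD j hj)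
      exact ⟨z₁, fun _ => h1⟩
    · exact ⟨0, fun h => absurd h hj⟩
  choose z₁ hz₁ using hex
  set g : ℝ → ℂ := fun θ => ∑ j ∈ J, c j * Gat φ F s (ζ j) (Phi φ (z₁ j)) θ with hg
  have hgi : Integrable g ν0 := integrable_finsetSum J fun j hj => (hz₁ j hj).2.1.const_mul _
  have hgM : ∫ θ, ‖g θ‖ ∂ν0 ≤ M := by
    calc ∫ θ, ‖g θ‖ ∂ν0 ≤ ∫ θ, ∑ j ∈ J, ‖c j‖ * ‖Gat φ F s (ζ j) (Phi φ (z₁ j)) θ‖ ∂ν0 := by
          refine integral_mono hgi.norm
            (integrable_finsetSum J fun j hj => (hz₁ j hj).2.1.norm.const_mul _) fun θ => ?_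
          refine (norm_sum_le _ _).trans (le_of_eq ?_)
          exact Finset.sum_congr rfl fun j _ => norm_mul _ _
      _ = ∑ j ∈ J, ‖c j‖ * ∫ θ, ‖Gat φ F s (ζ j) (Phi φ (z₁ j)) θ‖ ∂ν0 := by
          rw [integral_finsetSum J fun j hj => (hz₁ j hj).2.1.norm.const_mul _]
          exact Finset.sum_congr rfl fun j _ => integral_const_mul _ _
      _ ≤ ∑ j ∈ J, ‖c j‖ * M :=
          Finset.sum_le_sum fun j hj => mul_le_mul_of_nonneg_left (hz₁ j hj).2.2 (norm_nonneg _)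
      _ = (∑ j ∈ J, ‖c j‖) * M := by rw [Finset.sum_mul]
      _ ≤ 1 * M := mul_le_mul_of_nonneg_right hc hM0.le
      _ = M := one_mul _
  -- normalized density
  set g' : ℝ → ℂ := fun θ => (M⁻¹ : ℂ) * g θ with hg'
  have hg'i : Integrable g' ν0 := hgi.const_mul _
  have hg'1 : ∫ θ, ‖g' θ‖ ∂ν0 ≤ 1 := by
    have e : ∀ θ, ‖g' θ‖ = M⁻¹ * ‖g θ‖ := by
      intro θ
      simp only [hg', norm_mul, norm_inv, Complex.norm_real, Real.norm_eq_abs, abs_of_pos hM0]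
    simp_rw [e]
    rw [integral_const_mul, inv_mul_le_iff₀ hM0, mul_one]
    exact hgM
  set t := Real.sqrt lam with ht
  have ht1 : 1 ≤ t := by rw [ht]; exact Real.one_le_sqrt.2 hlam
  have htt : t * t = lam := Real.mul_self_sqrt (by linarith)
  have hlam0 : 0 < lam := by linarith
  have ht0 : 0 < t := by linarith
  have hCZ := CZ (X := XX φ F s) (L := 2 * Λ) (G := 120 * Λ^4) (K := 5 * 10^16 * Λ^14) (ε := ε)
    (by positivity) (by positivity) hε (fun θ θ' => S.XX_lip θ θ')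
    (fun x r hr => S.growth_ν0 x hr) (fun g hg t ht hgt => S.L2_bound hε hε1 hg ht hgt)
    hg'i hg'1 ht1 hlam
  -- remainder
  obtain ⟨hRi, hRb⟩ := S.remainder_bound hε hgi
  set R : ℝ → ℝ := fun θ₀ => (866 * Λ^3) * ∫ θ, (ε / (ε + ‖XX φ F s θ - XX φ F s θ₀‖)^2) * ‖g θ‖ ∂ν0
    with hR
  have hRi' : Integrable R ν0 := hRi.const_mul _
  have hR0 : ∀ θ, 0 ≤ R θ := fun θ₀ => mul_nonneg (by positivity)
    (integral_nonneg fun θ => by positivity)
  have hRint : ∫ θ, R θ ∂ν0 ≤ 831360 * Λ^7 * M := by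
    simp only [hR]
    rw [integral_const_mul]
    calc (866 * Λ^3) * ∫ θ₀, ∫ θ, (ε / (ε + ‖XX φ F s θ - XX φ F s θ₀‖)^2) * ‖g θ‖ ∂ν0 ∂ν0
        ≤ (866 * Λ^3) * (960 * Λ^4 * M) := by
          refine mul_le_mul_of_nonneg_left (hRb.trans ?_) (by positivity)
          exact mul_le_mul_of_nonneg_left hgM (by positivity)
      _ = 831360 * Λ^7 * M := by ring
  have hpt : ∀ θ₀, ‖∑ j ∈ J, c j * (ζ j - Phi φ (zz F s θ₀ + ε * I))⁻¹‖ ≤
      M * ‖CC ε ν0 (XX φ F s) g' θ₀‖ + R θ₀ := by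
    intro θ₀
    set z₀ : ℂ := zz F s θ₀ + ε * I with hz₀
    have hlt : yy F s z₀.re < z₀.im := by simp [hz₀, hε]
    have hrep : ∑ j ∈ J, c j * (ζ j - Phi φ z₀)⁻¹ =
        ∫ θ, g θ * (XX φ F s θ - Phi φ z₀)⁻¹ ∂ν0 := by
      have e1 : ∀ θ, g θ * (XX φ F s θ - Phi φ z₀)⁻¹ =
          ∑ j ∈ J, c j * (Gat φ F s (ζ j) (Phi φ (z₁ j)) θ * (XX φ F s θ - Phi φ z₀)⁻¹) := by
        intro θ
        simp only [hg]
        rw [Finset.sum_mul]
        exact Finset.sum_congr rfl fun j _ => by ring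
      simp_rw [e1]
      rw [integral_finsetSum J fun j hj =>
        (S.representation (hζ j hj) hlt (hz₁ j hj).1).1.const_mul _]
      refine Finset.sum_congr rfl fun j hj => ?_
      rw [integral_const_mul, (S.representation (hζ j hj) hlt (hz₁ j hj).1).2]
    have hi1 : Integrable (fun θ => g θ * (XX φ F s θ - Phi φ z₀)⁻¹) ν0 := by
      have e1 : (fun θ => g θ * (XX φ F s θ - Phi φ z₀)⁻¹) = fun θ =>
          ∑ j ∈ J, c j * (Gat φ F s (ζ j) (Phi φ (z₁ j)) θ * (XX φ F s θ - Phi φ z₀)⁻¹) := by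
        ext θ
        simp only [hg]
        rw [Finset.sum_mul]
        exact Finset.sum_congr rfl fun j _ => by ring
      rw [e1]
      exact integrable_finsetSum J fun j hj =>
        (S.representation (hζ j hj) hlt (hz₁ j hj).1).1.const_mul _
    have hi2 := integrable_kk_mul (ν := ν0) hX hε hgi (XX φ F s θ₀)
    have hMC : (M : ℂ) * CC ε ν0 (XX φ F s) g' θ₀ = CC ε ν0 (XX φ F s) g θ₀ := by
      simp only [hg']
      rw [CC_const_mul, mul_inv_cancel_left₀]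
      exact_mod_cast hM0.ne'
    have hMn : M * ‖CC ε ν0 (XX φ F s) g' θ₀‖ = ‖CC ε ν0 (XX φ F s) g θ₀‖ := by
      rw [← hMC, norm_mul, Complex.norm_real, Real.norm_eq_abs, abs_of_pos hM0]
    rw [hrep, hMn]
    have hdiff : ‖(∫ θ, g θ * (XX φ F s θ - Phi φ z₀)⁻¹ ∂ν0) - CC ε ν0 (XX φ F s) g θ₀‖ ≤ R θ₀ := by
      unfold CC
      rw [← integral_sub hi1 hi2]
      simp only [hR]
      rw [← integral_const_mul]
      refine (norm_integral_le_integral_norm _).trans ?_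
      refine integral_mono_of_nonneg (Filter.Eventually.of_forall fun θ => norm_nonneg _) ?_
        (Filter.Eventually.of_forall fun θ => ?_)
      · refine Integrable.const_mul ?_ _
        refine Integrable.bdd_mul (c := ε⁻¹) hgi.norm
          (tail_integrable hX hε).aestronglyMeasurable ?_
        refine Filter.Eventually.of_forall fun θ => ?_
        rw [Real.norm_eq_abs, abs_of_nonneg (by positivity), div_le_iff₀ (by positivity),
          inv_mul_eq_div, le_div_iff₀ hε]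
        nlinarith [norm_nonneg (XX φ F s θ - XX φ F s θ₀),
          mul_nonneg hε.le (norm_nonneg (XX φ F s θ - XX φ F s θ₀)),
          sq_nonneg (‖XX φ F s θ - XX φ F s θ₀‖)]
      · simp only
        have e1 : g θ * (XX φ F s θ - Phi φ z₀)⁻¹ - kk ε (XX φ F s θ) (XX φ F s θ₀) * g θ =
            g θ * -(kk ε (XX φ F s θ) (XX φ F s θ₀) - (XX φ F s θ - Phi φ z₀)⁻¹) := by ring
        rw [e1, norm_mul, norm_neg]
        have h1 := S.kernel_comp hε hε1 (θ₀ := θ₀) θ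
        calc ‖g θ‖ * ‖kk ε (XX φ F s θ) (XX φ F s θ₀) - (XX φ F s θ - Phi φ z₀)⁻¹‖
            ≤ ‖g θ‖ * ((866 * Λ^3) * (ε / (ε + ‖XX φ F s θ - XX φ F s θ₀‖)^2)) :=
              mul_le_mul_of_nonneg_left h1 (norm_nonneg _)
          _ = _ := by ring
    have h2 := norm_add_le ((∫ θ, g θ * (XX φ F s θ - Phi φ z₀)⁻¹ ∂ν0) - CC ε ν0 (XX φ F s) g θ₀)
      (CC ε ν0 (XX φ F s) g θ₀)
    rw [sub_add_cancel] at h2
    linarith
  have hsub : {θ | 4 * M * lam < ‖∑ j ∈ J, c j * (ζ j - Phi φ (zz F s θ + ε * I))⁻¹‖} ⊆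
      {θ | 3 * lam < ‖CC ε ν0 (XX φ F s) g' θ‖} ∪ {θ | M * lam < R θ} := by
    intro θ hθ
    rw [mem_ofPred_eq] at hθ
    by_cases h1 : M * lam < R θ
    · right; exact h1
    left
    rw [mem_ofPred_eq]
    by_contra hcon
    push Not at hcon
    have h2 := hpt θ
    have h3 := mul_le_mul_of_nonneg_left hcon hM0.le
    nlinarith
  have hch := cheb hRi' hR0 (show 0 < M * lam by positivity)
  have hch' : ν0 {θ | M * lam < R θ} ≤ ENNReal.ofReal (831360 * Λ^7 / lam) := by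
    refine hch.trans (ENNReal.ofReal_le_ofReal ?_)
    rw [div_le_div_iff₀ (by positivity) hlam0]
    calc (∫ θ, R θ ∂ν0) * lam ≤ (831360 * Λ^7 * M) * lam := by gcongr
      _ = 831360 * Λ^7 * (M * lam) := by ring
  refine (measure_mono hsub).trans ((measure_union_le _ _).trans ((add_le_add hCZ hch').trans ?_))
  rw [← ENNReal.ofReal_add (by positivity) (by positivity)]
  apply ENNReal.ofReal_le_ofReal
  rw [← htt]
  have p14 : 0 < Λ^14 := by positivity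
  have q1 : 2 * (2 * Λ) * (120 * Λ^4) / t ≤ 480 * Λ^14 / t := by
    have : Λ^5 ≤ Λ^14 := pow_le_pow_right₀ hΛ (by norm_num)
    apply div_le_div_of_nonneg_right _ ht0.le
    calc 2 * (2 * Λ) * (120 * Λ^4) = 480 * Λ^5 := by ring
      _ ≤ 480 * Λ^14 := by linarith
  have q2 : 5 * 10^16 * Λ^14 * (2 * t)^2 / (t * t)^2 ≤ 2 * 10^17 * Λ^14 / t := by
    have e : 5 * 10^16 * Λ^14 * (2 * t)^2 / (t * t)^2 = (2 * 10^17 * Λ^14 / t) * (1 / t) := by
      field_simp; ring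
    rw [e]
    apply mul_le_of_le_one_right (by positivity)
    rw [div_le_one ht0]; exact ht1
  have q3 : 64 * (120 * Λ^4) / (t * t) ≤ 7680 * Λ^14 / t := by
    have : Λ^4 ≤ Λ^14 := pow_le_pow_right₀ hΛ (by norm_num)
    have e : 64 * (120 * Λ^4) / (t * t) = (7680 * Λ^4 / t) * (1 / t) := by field_simp; ring
    rw [e]
    calc (7680 * Λ^4 / t) * (1 / t) ≤ (7680 * Λ^4 / t) * 1 := by
          apply mul_le_mul_of_nonneg_left _ (by positivity)
          rw [div_le_one ht0]; exact ht1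
      _ ≤ 7680 * Λ^14 / t := by rw [mul_one]; gcongr
  have q4 : 831360 * Λ^7 / (t * t) ≤ 831360 * Λ^14 / t := by
    have : Λ^7 ≤ Λ^14 := pow_le_pow_right₀ hΛ (by norm_num)
    have e : 831360 * Λ^7 / (t * t) = (831360 * Λ^7 / t) * (1 / t) := by field_simp
    rw [e]
    calc (831360 * Λ^7 / t) * (1 / t) ≤ (831360 * Λ^7 / t) * 1 := by
          apply mul_le_mul_of_nonneg_left _ (by positivity)
          rw [div_le_one ht0]; exact ht1
      _ ≤ 831360 * Λ^14 / t := by rw [mul_one]; gcongr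
  have q5 : 480 * Λ^14 / t + 2 * 10^17 * Λ^14 / t + 7680 * Λ^14 / t + 831360 * Λ^14 / t ≤
      4 * 10^17 * Λ^14 / t := by
    rw [← add_div, ← add_div, ← add_div]
    apply div_le_div_of_nonneg_right _ ht0.le
    nlinarith
  linarith

/-- weak type estimate for Cauchy sums -/
theorem weak_type {D : ℝ} (hD : 1 ≤ D) {ι : Type*} (J : Finset ι) (ζ : ι → ℂ) (c : ι → ℂ)
    (hc : ∑ j ∈ J, ‖c j‖ ≤ 1) (hζ : ∀ j ∈ J, ∀ w ∈ ball (0:ℂ) 1, φ w ≠ ζ j)
    (hζD : ∀ j ∈ J, ∀ w ∈ ball (0:ℂ) 1, ‖φ w - ζ j‖ ≤ D) {ε : ℝ} (hε : 0 < ε) (hε1 : ε ≤ 2/5)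
    {u : ℝ} (hu : 0 < u) :
    ν0 {θ | u < ‖∑ j ∈ J, c j * (ζ j - Phi φ (zz F s θ + ε * I))⁻¹‖} ≤
      ENNReal.ofReal (10^25 * D * Λ^22 / Real.sqrt u) := by
  have hΛ := S.hΛ
  have hΛ0 := S.Λpos
  have hD0 : 0 < D := by linarith
  set M := 4 * 10^6 * D * Λ^8 with hM
  have hM1 : 1 ≤ M := by
    have h1 : 1 ≤ Λ^8 := one_le_pow₀ hΛ
    have h2 : 1 ≤ D * Λ^8 := by nlinarith
    rw [hM]; nlinarith
  have hM0 : 0 < M := by linarith
  have hsu : 0 < Real.sqrt u := Real.sqrt_pos.2 hu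
  rcases le_or_gt (4 * M) u with h | h
  · have hlam : 1 ≤ u / (4 * M) := by rw [le_div_iff₀ (by positivity)]; linarith
    have h1 := S.weak_one hD J ζ c hc hζ hζD hε hε1 hlam
    have e : 4 * (4 * 10^6 * D * Λ^8) * (u / (4 * M)) = u := by
      rw [← hM]; field_simp
    rw [e] at h1
    refine h1.trans (ENNReal.ofReal_le_ofReal ?_)
    rw [Real.sqrt_div hu.le, div_div_eq_mul_div]
    apply div_le_div_of_nonneg_right _ hsu.le
    have h2 : Real.sqrt (4 * M) ≤ 4 * M := by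
      rw [Real.sqrt_le_left (by positivity)]; nlinarith
    calc 4 * 10^17 * Λ^14 * Real.sqrt (4 * M) ≤ 4 * 10^17 * Λ^14 * (4 * M) := by gcongr
      _ = 64 * 10^23 * D * Λ^22 := by rw [hM]; ring
      _ ≤ 10^25 * D * Λ^22 := by
          have : 0 ≤ D * Λ^22 := by positivity
          nlinarith
  · refine (measure_mono (subset_univ _)).trans ?_
    rw [ν0_univ]
    apply ENNReal.ofReal_le_ofReal
    rw [le_div_iff₀ hsu]
    have h2 : Real.sqrt u ≤ 4 * M := by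
      have h3 : Real.sqrt u ≤ Real.sqrt (4 * M) := Real.sqrt_le_sqrt h.le
      have h4 : Real.sqrt (4 * M) ≤ 4 * M := by
        rw [Real.sqrt_le_left (by positivity)]; nlinarith
      linarith
    have h5 : 2 * Real.pi ≤ 7 := by have := Real.pi_lt_d2; linarith
    have h6 : Λ^8 ≤ Λ^22 := pow_le_pow_right₀ hΛ (by norm_num)
    calc 2 * Real.pi * Real.sqrt u ≤ 7 * (4 * M) := by
          apply mul_le_mul h5 h2 hsu.le (by norm_num)
      _ = 112 * 10^6 * D * Λ^8 := by rw [hM]; ring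
      _ ≤ 112 * 10^6 * D * Λ^22 := by gcongr
      _ ≤ 10^25 * D * Λ^22 := by
          have : 0 ≤ D * Λ^22 := by positivity
          nlinarith

end Saw

end Pool.Agent.Helper32.CN
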