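import Pool.Agent.Helper32.CN.SawCon
import Pool.Agent.Helper32.CN.Weak

open Complex Metric Set Filter Topology MeasureTheory

namespace Pool.Agent.Helper32.CN

open Real in
/-- dyadic maximal function of `|log |φ'||` -/
noncomputable def mx (φ : ℂ → ℂ) (θ : ℝ) : ENNReal :=
  ⨆ n, ENNReal.ofReal |Real.log ‖deriv φ (wI n (idx n θ))‖|

theorem measurable_idx (n : ℕ) : Measurable (idx n) := by
  unfold idx
  exact Int.measurable_floor.comp ((measurable_id.div_const _).mul_const _)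

theorem measurable_mx (φ : ℂ → ℂ) : Measurable (mx φ) := by
  unfold mx
  refine Measurable.iSup fun n => ?_
  have h : Measurable (fun j : ℤ => ENNReal.ofReal |Real.log ‖deriv φ (wI n j)‖|) :=
    measurable_from_top
  exact h.comp (measurable_idx n)

theorem not_mem_goodF {φ : ℂ → ℂ} {K : ℝ} (hK : 0 ≤ K) {N : ℕ} {θ : ℝ} (h : θ ∉ goodF φ K N) :
    ENNReal.ofReal K < mx φ θ := by
  unfold goodF at h
  simp only [Set.mem_ofPred_eq, not_forall, not_le] at h
  obtain ⟨n, -, hn⟩ := h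
  unfold mx
  exact lt_of_lt_of_le ((ENNReal.ofReal_lt_ofReal_iff_of_nonneg hK).2 hn) (le_iSup (fun n => ENNReal.ofReal |Real.log ‖deriv φ (wI n (idx n θ))‖|) n)

/-- distribution estimate -/
theorem distr {φ : ℂ → ℂ} (hd : DifferentiableOn ℂ φ (ball 0 1))
    (hi : InjOn φ (ball 0 1)) (hne : φ '' ball 0 1 ≠ univ)
    {D : ℝ} (hD : 1 ≤ D) {ι : Type*} (J : Finset ι) (ζ : ι → ℂ) (c : ι → ℂ)
    (hc : ∑ j ∈ J, ‖c j‖ ≤ 1) (hζ : ∀ j ∈ J, ∀ w ∈ ball (0:ℂ) 1, φ w ≠ ζ j)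
    (hζD : ∀ j ∈ J, ∀ w ∈ ball (0:ℂ) 1, ‖φ w - ζ j‖ ≤ D) {ρ : ℝ} (hρ : 1/2 ≤ ρ) (hρ1 : ρ < 1)
    {K : ℝ} (hK : 0 ≤ K) {u : ℝ} (hu : 0 < u) :
    ν0 {θ | u < ‖∑ j ∈ J, c j * (ζ j - φ (circleMap 0 ρ θ))⁻¹‖} ≤
      ν0 {θ | ENNReal.ofReal K < mx φ θ} +
      ENNReal.ofReal (10^25 * D * (sawC * Real.exp K)^22 / Real.sqrt u) := by
  have hρ0 : 0 < ρ := by linarith
  set s := -Real.log ρ / 2 with hs
  have hs0 : 0 < s := by have := Real.log_neg hρ0 hρ1; rw [hs]; linarith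
  have hs1 : s ≤ 7/20 := by
    have h1 : Real.log (1/2) ≤ Real.log ρ := Real.log_le_log (by norm_num) hρ
    rw [one_div, Real.log_inv] at h1
    have h2 := Real.log_two_lt_d9
    rw [hs]; linarith
  have hexp : Real.exp (-(2 * s)) = ρ := by
    rw [hs, show -(2 * (-Real.log ρ / 2)) = Real.log ρ by ring, Real.exp_log hρ0]
  have hpos : 0 < 1 - Real.exp (-(s/2)) := by
    have : Real.exp (-(s/2)) < 1 := by rw [Real.exp_lt_one_iff]; linarith
    linarith
  obtain ⟨N, hN⟩ := exists_pow_lt_of_lt_one hpos (show (1/2:ℝ) < 1 by norm_num)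
  rw [one_div, inv_pow] at hN
  by_cases hF : (goodF φ K N).Nonempty
  · have S := saw_goodF hd hi hne hK hs0 hs1 hN.le hF
    have h1 := S.weak_type hD J ζ c hc hζ hζD (ε := s) hs0 (by linarith) hu
    refine le_trans (measure_mono ?_) ((measure_union_le _ _).trans (add_le_add_right h1 _))
    intro θ hθ
    by_cases hθF : θ ∈ goodF φ K N
    · right
      have h2 : zz (goodF φ K N) s θ + s * I = θ + ((2 * s : ℝ) : ℂ) * I := by
        unfold zz yy kap
        rw [infDist_zero_of_mem hθF]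
        push_cast; ring
      have h3 : Phi φ (zz (goodF φ K N) s θ + s * I) = φ (circleMap 0 ρ θ) := by
        unfold Phi
        rw [h2, exp_I_circleMap, hexp]
      simp only [Set.mem_ofPred_eq] at hθ ⊢
      rw [h3]
      exact hθ
    · left
      exact not_mem_goodF hK hθF
  · rw [not_nonempty_iff_eq_empty] at hF
    refine le_add_right (measure_mono ?_)
    intro θ _
    refine not_mem_goodF (N := N) hK ?_
    rw [hF]
    exact notMem_empty θ

/-- layer cake summation -/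
theorem layer {f : ℝ → ℝ} (hf0 : ∀ θ, 0 ≤ f θ) (hfm : Measurable f) {m : ℝ → ENNReal}
    (hm : Measurable m) {A : ℝ} (hA : 0 ≤ A)
    (h : ∀ t : ℝ, 0 < t → ν0 {θ | t < f θ} ≤
      ν0 {θ | ENNReal.ofReal (t/88) < m θ} + ENNReal.ofReal (A * Real.exp (-(1/4) * t))) :
    ∫⁻ θ, ENNReal.ofReal (f θ) ∂ν0 ≤ 88 * ∫⁻ θ, m θ ∂ν0 + ENNReal.ofReal (4 * A) := by
  by_cases hmt : ∫⁻ θ, m θ ∂ν0 = ⊤
  · rw [hmt]; simp
  have hfin := ae_lt_top hm hmt
  set g : ℝ → ℝ := fun θ => 88 * (m θ).toReal with hg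
  have hgm : Measurable g := measurable_const.mul hm.ennreal_toReal
  have hg0 : ∀ θ, 0 ≤ g θ := fun θ => by positivity
  have hset : ∀ t : ℝ, 0 < t → ν0 {θ | ENNReal.ofReal (t/88) < m θ} ≤ ν0 {θ | t < g θ} := by
    intro t ht
    refine measure_mono_ae ?_
    filter_upwards [hfin] with θ hθ h1
    have h2 : ENNReal.ofReal (t/88) < m θ := h1
    change t < g θ
    rw [← ENNReal.ofReal_toReal hθ.ne, ENNReal.ofReal_lt_ofReal_iff_of_nonneg (by positivity)] at h2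
    simp only [hg]
    linarith
  have hgint : ∫⁻ θ, ENNReal.ofReal (g θ) ∂ν0 = 88 * ∫⁻ θ, m θ ∂ν0 := by
    rw [← lintegral_const_mul _ hm]
    refine lintegral_congr_ae ?_
    filter_upwards [hfin] with θ hθ
    simp only [hg]
    rw [ENNReal.ofReal_mul (by norm_num), ENNReal.ofReal_toReal hθ.ne]
    norm_num
  have hexp : ∫⁻ t in Ioi (0:ℝ), ENNReal.ofReal (A * Real.exp (-(1/4) * t)) =
      ENNReal.ofReal (4 * A) := by
    rw [← ofReal_integral_eq_lintegral_ofReal]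
    · rw [integral_const_mul, integral_exp_mul_Ioi (by norm_num)]
      congr 1
      simp
      ring
    · exact (integrableOn_exp_mul_Ioi (by norm_num) 0).const_mul A
    · exact Eventually.of_forall fun t => by positivity
  rw [lintegral_eq_lintegral_meas_lt ν0 (Eventually.of_forall hf0) hfm.aemeasurable, ← hgint,
    lintegral_eq_lintegral_meas_lt ν0 (Eventually.of_forall hg0) hgm.aemeasurable, ← hexp,
    ← lintegral_add_right _ (by fun_prop)]
  refine lintegral_mono_ae ?_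
  rw [ae_restrict_iff' measurableSet_Ioi]
  exact Eventually.of_forall fun t ht => (h t ht).trans (add_le_add_left (hset t ht) _)

/-- bound of the logarithmic means -/
theorem log_mean {φ : ℂ → ℂ} (hd : DifferentiableOn ℂ φ (ball 0 1))
    (hi : InjOn φ (ball 0 1)) (hne : φ '' ball 0 1 ≠ univ)
    {D : ℝ} (hD : 1 ≤ D) {ι : Type*} (J : Finset ι) (ζ : ι → ℂ) (c : ι → ℂ)
    (hc : ∑ j ∈ J, ‖c j‖ ≤ 1) (hζ : ∀ j ∈ J, ∀ w ∈ ball (0:ℂ) 1, φ w ≠ ζ j)
    (hζD : ∀ j ∈ J, ∀ w ∈ ball (0:ℂ) 1, ‖φ w - ζ j‖ ≤ D) {ρ : ℝ} (hρ : 1/2 ≤ ρ) (hρ1 : ρ < 1) :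
    ∫⁻ θ, ENNReal.ofReal (Real.posLog ‖∑ j ∈ J, c j * (ζ j - φ (circleMap 0 ρ θ))⁻¹‖) ∂ν0 ≤
      88 * ∫⁻ θ, mx φ θ ∂ν0 + ENNReal.ofReal (4 * (10^25 * D * sawC^22)) := by
  have hρ0 : 0 ≤ ρ := by linarith
  have hS := one_le_sawC
  have hcont : Continuous fun θ : ℝ => ∑ j ∈ J, c j * (ζ j - φ (circleMap 0 ρ θ))⁻¹ := by
    refine continuous_finsetSum _ fun j hj => ?_
    refine continuous_const.mul (Continuous.inv₀ ?_ ?_)
    · exact continuous_const.sub (continuousOn_circle hd.continuousOn hρ0 hρ1)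
    · intro θ
      rw [sub_ne_zero]
      exact (hζ j hj _ (circleMap_mem hρ0 hρ1 θ)).symm
  refine layer (fun θ => Real.posLog_nonneg) ?_ (measurable_mx φ) (by positivity) ?_
  · exact (Real.continuous_posLog.comp hcont.norm).measurable
  · intro t ht
    have h1 := distr hd hi hne hD J ζ c hc hζ hζD hρ hρ1 (K := t/88) (by positivity)
      (Real.exp_pos t)
    refine (measure_mono ?_).trans (h1.trans (add_le_add_right (ENNReal.ofReal_le_ofReal ?_) _))
    · intro θ hθ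
      have h2 : t < Real.posLog ‖∑ j ∈ J, c j * (ζ j - φ (circleMap 0 ρ θ))⁻¹‖ := hθ
      change Real.exp t < ‖∑ j ∈ J, c j * (ζ j - φ (circleMap 0 ρ θ))⁻¹‖
      rw [Real.posLog_apply, lt_max_iff] at h2
      rcases h2 with h2 | h2
      · linarith
      · have h3 : 0 < ‖∑ j ∈ J, c j * (ζ j - φ (circleMap 0 ρ θ))⁻¹‖ := by
          rcases (norm_nonneg (∑ j ∈ J, c j * (ζ j - φ (circleMap 0 ρ θ))⁻¹)).eq_or_lt with h | h
          · rw [← h, Real.log_zero] at h2; linarith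
          · exact h
        exact (Real.lt_log_iff_exp_lt h3).1 h2
    · rw [mul_pow, ← Real.exp_nat_mul]
      have h4 : Real.sqrt (Real.exp t) = Real.exp (t/2) := by rw [Real.exp_half]
      rw [h4, div_eq_mul_inv, ← Real.exp_neg]
      have h5 : Real.exp (((22:ℕ):ℝ) * (t/88)) * Real.exp (-(t/2)) = Real.exp (-(1/4) * t) := by
        rw [← Real.exp_add]; congr 1; push_cast; ring
      rw [← h5]
      apply le_of_eq; ring

end Pool.Agent.Helper32.CN
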