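import Pool.Agent.Helper36.CauchyN.Univ

open Complex Metric Set Filter Topology MeasureTheory

namespace Pool.Agent.Helper32.CN

open Pool.Agent.Helper36.CN (inv inv_apply inv_mem apply_inv differentiableOn_inv isOpen_image)

theorem det_mul (w : ℂ) :
    (((ContinuousLinearMap.toSpanSingleton ℂ w : ℂ →L[ℂ] ℂ).restrictScalars ℝ : ℂ →L[ℝ] ℂ)).det
      = ‖w‖^2 := by
  rw [ContinuousLinearMap.det, ← LinearMap.det_toMatrix Complex.basisOneI, Matrix.det_fin_two]
  simp [LinearMap.toMatrix_apply, Complex.coe_basisOneI_repr, Complex.coe_basisOneI]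
  rw [← Complex.normSq_eq_norm_sq, Complex.normSq_apply]

theorem lintegral_deriv_sq {φ : ℂ → ℂ} (hd : DifferentiableOn ℂ φ (ball 0 1))
    (hi : InjOn φ (ball 0 1)) :
    ∫⁻ z in φ '' ball 0 1, ENNReal.ofReal (‖deriv (inv φ) z‖^2) ≤ volume (ball (0:ℂ) 1) := by
  have hopen : IsOpen (φ '' ball 0 1) := isOpen_image hd hi isOpen_ball subset_rfl
  have h1 : ∀ x ∈ φ '' ball 0 1, HasFDerivWithinAt (inv φ)
      ((ContinuousLinearMap.toSpanSingleton ℂ (deriv (inv φ) x) : ℂ →L[ℂ] ℂ).restrictScalars ℝ)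
      (φ '' ball 0 1) x := by
    intro x hx
    have := ((differentiableOn_inv hd hi).differentiableAt (hopen.mem_nhds hx)).hasDerivAt
    exact (this.hasFDerivAt.restrictScalars ℝ).hasFDerivWithinAt
  have h2 : InjOn (inv φ) (φ '' ball 0 1) := by
    rintro x hx y hy he
    rw [← apply_inv hx, ← apply_inv hy, he]
  have h3 := lintegral_abs_det_fderiv_eq_addHaar_image volume hopen.measurableSet h1 h2
  have h4 : ∀ x, |((ContinuousLinearMap.toSpanSingleton ℂ (deriv (inv φ) x) : ℂ →L[ℂ] ℂ).restrictScalars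
    ℝ : ℂ →L[ℝ] ℂ).det| = ‖deriv (inv φ) x‖^2 := by
    intro x
    rw [det_mul, abs_of_nonneg (by positivity)]
  simp only [h4] at h3
  rw [h3]
  refine measure_mono ?_
  rintro _ ⟨x, hx, rfl⟩
  exact inv_mem hx

theorem ae_line {φ : ℂ → ℂ} (hd : DifferentiableOn ℂ φ (ball 0 1))
    (hi : InjOn φ (ball 0 1)) (hb : Bornology.IsBounded (φ '' ball 0 1)) :
    ∀ᵐ t : ℝ, IntegrableOn (fun y : ℝ => deriv (inv φ) ((t:ℂ) + y * I))
      {y : ℝ | ((t:ℂ) + y * I) ∈ φ '' ball 0 1} := by
  have hopen : IsOpen (φ '' ball 0 1) := isOpen_image hd hi isOpen_ball subset_rfl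
  set Ω := φ '' ball 0 1 with hΩ
  set G : ℂ → ENNReal := Ω.indicator (fun z => 1 + ENNReal.ofReal (‖deriv (inv φ) z‖^2)) with hG
  have hGfin : ∫⁻ z, G z ≠ ⊤ := by
    rw [hG, lintegral_indicator hopen.measurableSet, lintegral_add_left measurable_const,
      setLIntegral_const, one_mul]
    refine ENNReal.add_ne_top.2 ⟨hb.measure_lt_top.ne, ?_⟩
    refine ne_top_of_le_ne_top ?_ (lintegral_deriv_sq hd hi)
    exact measure_ball_lt_top.ne
  have hmd : Measurable (deriv (inv φ)) := measurable_deriv _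
  have hGm : Measurable G := by
    refine Measurable.indicator ?_ hopen.measurableSet
    exact measurable_const.add (hmd.norm.pow_const 2).ennreal_ofReal
  have h1 : ∫⁻ z, G z = ∫⁻ t : ℝ, ∫⁻ y : ℝ, G ((t:ℂ) + y * I) := by
    rw [← (Complex.volume_preserving_equiv_real_prod.symm).lintegral_comp_emb
      measurableEquivRealProd.symm.measurableEmbedding G, Measure.volume_eq_prod,
      lintegral_prod (fun p : ℝ × ℝ => G (measurableEquivRealProd.symm p))
        (hGm.comp measurableEquivRealProd.symm.measurable).aemeasurable]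
    refine lintegral_congr fun t => lintegral_congr fun y => ?_
    congr 1
    rw [Complex.measurableEquivRealProd_symm_apply]
    exact Complex.ext (by simp) (by simp)
  rw [h1] at hGfin
  have hmeas : Measurable fun t : ℝ => ∫⁻ y : ℝ, G ((t:ℂ) + y * I) := by
    refine Measurable.lintegral_prod_right' (f := fun p : ℝ × ℝ => G ((p.1:ℂ) + p.2 * I)) ?_
    exact hGm.comp (by fun_prop)
  filter_upwards [ae_lt_top hmeas hGfin] with t ht
  have hline : Measurable (fun y : ℝ => (t:ℂ) + y * I) := by fun_prop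
  have hVm : MeasurableSet {y : ℝ | ((t:ℂ) + y * I) ∈ Ω} := hline hopen.measurableSet
  rw [← integrable_indicator_iff hVm]
  refine ⟨((hmd.comp hline).indicator hVm).aestronglyMeasurable, ?_⟩
  refine lt_of_le_of_lt (lintegral_mono fun y => ?_) ht
  by_cases hy : ((t:ℂ) + y * I) ∈ Ω
  · rw [indicator_of_mem (show y ∈ {y : ℝ | ((t:ℂ) + y * I) ∈ Ω} from hy), hG, indicator_of_mem hy,
      ← ofReal_norm, ← ENNReal.ofReal_one, ← ENNReal.ofReal_add zero_le_one (by positivity)]
    apply ENNReal.ofReal_le_ofReal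
    nlinarith [norm_nonneg (deriv (inv φ) ((t:ℂ) + y * I)),
      sq_nonneg (‖deriv (inv φ) ((t:ℂ) + y * I)‖ - 1)]
  · rw [indicator_of_notMem (show y ∉ {y : ℝ | ((t:ℂ) + y * I) ∈ Ω} from hy)]
    simp

end Pool.Agent.Helper32.CN
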