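import Pool.Agent.Helper32.CN.Kernel

open Complex Metric Set Filter Topology MeasureTheory

namespace Pool.Agent.Helper32.CN

variable {α : Type*} [MeasurableSpace α]

/-- regularized Cauchy integral operator -/
noncomputable def CC (ε : ℝ) (ν : Measure α) (X : α → ℂ) (g : α → ℂ) (a : α) : ℂ :=
  ∫ b, kk ε (X b) (X a) * g b ∂ν

theorem measurable_kk_comp {ε : ℝ} (hε : 0 < ε) {f g : α → ℂ} (hf : Measurable f)
    (hg : Measurable g) : Measurable fun b => kk ε (f b) (g b) :=
  (continuous_kk hε).measurable.comp (hf.prodMk hg)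

variable {ν : Measure α} {X : α → ℂ} {ε : ℝ}

theorem integrable_kk_mul (hX : Measurable X) (hε : 0 < ε) {g : α → ℂ} (hg : Integrable g ν)
    (y : ℂ) : Integrable (fun b => kk ε (X b) y * g b) ν := by
  refine Integrable.bdd_mul (c := ε⁻¹) hg
    (measurable_kk_comp hε hX measurable_const).aestronglyMeasurable ?_
  exact Filter.Eventually.of_forall fun b => norm_kk_le hε _ _

theorem norm_CC_le (hX : Measurable X) (hε : 0 < ε) {g : α → ℂ} (hg : Integrable g ν) (a : α) :
    ‖CC ε ν X g a‖ ≤ ε⁻¹ * ∫ b, ‖g b‖ ∂ν := by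
  unfold CC
  refine (norm_integral_le_integral_norm _).trans ?_
  rw [← integral_const_mul]
  refine integral_mono (integrable_kk_mul hX hε hg _).norm (hg.norm.const_mul _) fun b => ?_
  simp only [norm_mul]
  exact mul_le_mul_of_nonneg_right (norm_kk_le hε _ _) (norm_nonneg _)

theorem measurable_CC [SFinite ν] (hX : Measurable X) (hε : 0 < ε) {g : α → ℂ}
    (hg : Measurable g) : Measurable (CC ε ν X g) := by
  unfold CC
  have h : StronglyMeasurable (fun p : α × α => kk ε (X p.2) (X p.1) * g p.2) :=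
    ((measurable_kk_comp hε (hX.comp measurable_snd) (hX.comp measurable_fst)).mul
      (hg.comp measurable_snd)).stronglyMeasurable
  exact h.integral_prod_right.measurable

theorem CC_add (hX : Measurable X) (hε : 0 < ε) {g g' : α → ℂ} (hg : Integrable g ν)
    (hg' : Integrable g' ν) (a : α) :
    CC ε ν X (fun b => g b + g' b) a = CC ε ν X g a + CC ε ν X g' a := by
  unfold CC
  rw [← integral_add (integrable_kk_mul hX hε hg _) (integrable_kk_mul hX hε hg' _)]
  congr 1; ext b; ring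

theorem CC_sub (hX : Measurable X) (hε : 0 < ε) {g g' : α → ℂ} (hg : Integrable g ν)
    (hg' : Integrable g' ν) (a : α) :
    CC ε ν X (fun b => g b - g' b) a = CC ε ν X g a - CC ε ν X g' a := by
  unfold CC
  rw [← integral_sub (integrable_kk_mul hX hε hg _) (integrable_kk_mul hX hε hg' _)]
  congr 1; ext b; ring

theorem CC_const_mul (c : ℂ) (g : α → ℂ) (a : α) :
    CC ε ν X (fun b => c * g b) a = c * CC ε ν X g a := by
  unfold CC
  rw [← integral_const_mul]
  congr 1; ext b; ring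

theorem abs_Qk_le (hε : 0 < ε) (x y z : ℂ) : |Qk ε x y z| ≤ ε⁻¹ * ε⁻¹ := by
  unfold Qk
  refine (Complex.abs_re_le_norm _).trans ?_
  rw [norm_mul, RCLike.norm_conj]
  exact mul_le_mul (norm_kk_le hε _ _) (norm_kk_le hε _ _) (norm_nonneg _) (by positivity)

theorem measurable_Qk {β : Type*} [MeasurableSpace β] (hε : 0 < ε) {f g h : β → ℂ}
    (hf : Measurable f) (hg : Measurable g) (hh : Measurable h) :
    Measurable fun b => Qk ε (f b) (g b) (h b) := by
  unfold Qk
  exact Complex.measurable_re.comp ((measurable_kk_comp hε hg hf).mul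
    (Complex.continuous_conj.measurable.comp (measurable_kk_comp hε hh hf)))

theorem normSq_CC [IsFiniteMeasure ν] (hX : Measurable X) (hε : 0 < ε) {h : α → ℝ}
    (hh : Measurable h) {t : ℝ} (ht : ∀ a, |h a| ≤ t) (a : α) :
    ‖CC ε ν X (fun b => (h b : ℂ)) a‖^2 =
      ∫ p : α × α, Qk ε (X a) (X p.1) (X p.2) * (h p.1 * h p.2) ∂(ν.prod ν) := by
  set f : α → ℂ := fun b => kk ε (X b) (X a) * (h b : ℂ) with hf
  have hfm : Measurable f := (measurable_kk_comp hε hX measurable_const).mul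
    (Complex.measurable_ofReal.comp hh)
  have h1 : ((‖∫ b, f b ∂ν‖^2 : ℝ) : ℂ) = ∫ p : α × α, f p.1 * (starRingEnd ℂ) (f p.2) ∂(ν.prod ν) := by
    rw [integral_prod_mul f (fun b => (starRingEnd ℂ) (f b)), integral_conj,
      ← Complex.normSq_eq_norm_sq, Complex.normSq_eq_conj_mul_self, mul_comm]
  have hbd : ∀ b, ‖f b‖ ≤ ε⁻¹ * t := by
    intro b
    rw [hf, norm_mul, Complex.norm_real, Real.norm_eq_abs]
    exact mul_le_mul (norm_kk_le hε _ _) (ht b) (abs_nonneg _) (by positivity)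
  have hint : Integrable (fun p : α × α => f p.1 * (starRingEnd ℂ) (f p.2)) (ν.prod ν) := by
    refine Integrable.of_bound ((hfm.comp measurable_fst).mul
      (Complex.continuous_conj.measurable.comp (hfm.comp measurable_snd))).aestronglyMeasurable
      ((ε⁻¹ * t) * (ε⁻¹ * t)) (Filter.Eventually.of_forall fun p => ?_)
    rw [norm_mul, RCLike.norm_conj]
    exact mul_le_mul (hbd _) (hbd _) (norm_nonneg _) ((norm_nonneg _).trans (hbd p.1))
  have h2 : ‖∫ b, f b ∂ν‖^2 = (∫ p : α × α, f p.1 * (starRingEnd ℂ) (f p.2) ∂(ν.prod ν)).re := by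
    rw [← h1, Complex.ofReal_re]
  have h3 : (∫ p : α × α, f p.1 * (starRingEnd ℂ) (f p.2) ∂(ν.prod ν)).re =
      ∫ p : α × α, (f p.1 * (starRingEnd ℂ) (f p.2)).re ∂(ν.prod ν) :=
    (Complex.reCLM.integral_comp_comm hint).symm
  unfold CC
  rw [h2, h3]
  congr 1
  ext p
  simp only [hf]
  unfold Qk
  rw [map_mul, Complex.conj_ofReal]
  have : kk ε (X p.1) (X a) * (h p.1 : ℂ) * ((starRingEnd ℂ) (kk ε (X p.2) (X a)) * (h p.2 : ℂ)) =
      (kk ε (X p.1) (X a) * (starRingEnd ℂ) (kk ε (X p.2) (X a))) * ((h p.1 * h p.2 : ℝ) : ℂ) := by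
    push_cast; ring
  rw [this, Complex.re_mul_ofReal]

/-- the cyclic shift is measure preserving -/
theorem cyc_mp [SFinite ν] : MeasurePreserving
    (MeasurableEquiv.prodComm.trans MeasurableEquiv.prodAssoc : α × (α × α) ≃ᵐ α × (α × α))
    (ν.prod (ν.prod ν)) (ν.prod (ν.prod ν)) := by
  have h1 : MeasurePreserving (Prod.swap : α × (α × α) → (α × α) × α) (ν.prod (ν.prod ν))
    ((ν.prod ν).prod ν) := Measure.measurePreserving_swap
  exact (measurePreserving_prodAssoc ν ν ν).comp h1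

theorem triple_pos [IsFiniteMeasure ν] (hX : Measurable X) (hε : 0 < ε) {h : α → ℝ}
    (hh : Measurable h) {t : ℝ} (h0 : ∀ a, 0 ≤ h a) (ht : ∀ a, h a ≤ t) :
    ∫ a, ‖CC ε ν X (fun b => (h b : ℂ)) a‖^2 * h a ∂ν ≤
      t^3 * ∫ a, ‖CC ε ν X (fun _ => 1) a‖^2 ∂ν := by
  -- general formula
  have gen : ∀ (g : α → ℝ) (_ : Measurable g) (T : ℝ) (_ : ∀ a, |g a| ≤ T),
      Integrable (fun p : α × (α × α) => Qk ε (X p.1) (X p.2.1) (X p.2.2) *
        (g p.1 * g p.2.1 * g p.2.2)) (ν.prod (ν.prod ν)) ∧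
      ∫ a, ‖CC ε ν X (fun b => (g b : ℂ)) a‖^2 * g a ∂ν =
        ∫ p : α × (α × α), Qk ε (X p.1) (X p.2.1) (X p.2.2) * (g p.1 * g p.2.1 * g p.2.2)
          ∂(ν.prod (ν.prod ν)) := by
    intro g hg T hT
    have hm : Measurable (fun p : α × (α × α) => Qk ε (X p.1) (X p.2.1) (X p.2.2) *
        (g p.1 * g p.2.1 * g p.2.2)) := by
      refine (measurable_Qk hε (hX.comp measurable_fst) (hX.comp (measurable_fst.comp measurable_snd))
        (hX.comp (measurable_snd.comp measurable_snd))).mul ?_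
      exact ((hg.comp measurable_fst).mul (hg.comp (measurable_fst.comp measurable_snd))).mul
        (hg.comp (measurable_snd.comp measurable_snd))
    have hint : Integrable (fun p : α × (α × α) => Qk ε (X p.1) (X p.2.1) (X p.2.2) *
        (g p.1 * g p.2.1 * g p.2.2)) (ν.prod (ν.prod ν)) := by
      refine Integrable.of_bound hm.aestronglyMeasurable (ε⁻¹ * ε⁻¹ * (T * T * T))
        (Filter.Eventually.of_forall fun p => ?_)
      have hT0 : 0 ≤ T := (abs_nonneg _).trans (hT p.1)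
      rw [norm_mul, Real.norm_eq_abs, Real.norm_eq_abs, abs_mul, abs_mul]
      refine mul_le_mul (abs_Qk_le hε _ _ _) ?_ (by positivity) (by positivity)
      exact mul_le_mul (mul_le_mul (hT _) (hT _) (abs_nonneg _) hT0) (hT _) (abs_nonneg _)
        (by positivity)
    refine ⟨hint, ?_⟩
    rw [integral_prod _ hint]
    congr 1
    ext a
    rw [normSq_CC hX hε hg hT a, ← integral_mul_const]
    congr 1
    ext p
    ring
  have habs : ∀ a, |h a| ≤ t := fun a => by rw [abs_of_nonneg (h0 a)]; exact ht a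
  obtain ⟨ih, eh⟩ := gen h hh t habs
  obtain ⟨i1, e1⟩ := gen (fun _ => 1) measurable_const 1 (fun _ => by simp)
  simp only [mul_one, Complex.ofReal_one] at e1 i1
  rw [eh, e1]
  -- cyclic symmetrization
  set σ := (MeasurableEquiv.prodComm.trans MeasurableEquiv.prodAssoc : α × (α × α) ≃ᵐ α × (α × α))
    with hσ
  have hmp := cyc_mp (ν := ν)
  have hcyc : ∀ G : α × (α × α) → ℝ, ∫ p, G (σ p) ∂(ν.prod (ν.prod ν)) = ∫ p, G p ∂(ν.prod (ν.prod ν)) :=
    fun G => hmp.integral_comp' G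
  have hcyci : ∀ G : α × (α × α) → ℝ, Integrable G (ν.prod (ν.prod ν)) →
      Integrable (fun p => G (σ p)) (ν.prod (ν.prod ν)) :=
    fun G hG => hmp.integrable_comp_of_integrable hG
  set Gh : α × (α × α) → ℝ := fun p => Qk ε (X p.1) (X p.2.1) (X p.2.2) *
    (h p.1 * h p.2.1 * h p.2.2) with hGh
  set G1 : α × (α × α) → ℝ := fun p => Qk ε (X p.1) (X p.2.1) (X p.2.2) with hG1
  have three : ∀ G : α × (α × α) → ℝ, Integrable G (ν.prod (ν.prod ν)) →
      3 * ∫ p, G p ∂(ν.prod (ν.prod ν)) =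
        ∫ p, (G p + G (σ p) + G (σ (σ p))) ∂(ν.prod (ν.prod ν)) := by
    intro G hG
    have j1 := hcyci G hG
    have j2 := hcyci _ j1
    have j3 : Integrable (fun p => G p + G (σ p)) (ν.prod (ν.prod ν)) := hG.add j1
    rw [integral_add j3 j2, integral_add hG j1, hcyc G, hcyc (fun p => G (σ p)), hcyc G]
    ring
  have key : 3 * ∫ p, Gh p ∂(ν.prod (ν.prod ν)) ≤ 3 * (t^3 * ∫ p, G1 p ∂(ν.prod (ν.prod ν))) := by
    have e3 : 3 * (t^3 * ∫ p, G1 p ∂(ν.prod (ν.prod ν))) =
        t^3 * (3 * ∫ p, G1 p ∂(ν.prod (ν.prod ν))) := by ring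
    rw [e3, three Gh ih, three G1 i1, ← integral_const_mul]
    have k1 := hcyci Gh ih
    have k2 := hcyci _ k1
    have l1 := hcyci G1 i1
    have l2 := hcyci _ l1
    refine integral_mono ((ih.add k1).add k2) (((i1.add l1).add l2).const_mul _) fun p => ?_
    obtain ⟨a, b, c⟩ := p
    have s1 : σ (a, (b, c)) = (b, (c, a)) := rfl
    have s2 : σ (b, (c, a)) = (c, (a, b)) := rfl
    simp only [s1, s2, hGh, hG1]
    have hS := Qk_sym_nonneg hε (X a) (X b) (X c)
    have hprod : h a * h b * h c ≤ t^3 := by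
      have ht0 : 0 ≤ t := (h0 a).trans (ht a)
      calc h a * h b * h c ≤ t * t * t :=
            mul_le_mul (mul_le_mul (ht a) (ht b) (h0 b) ht0) (ht c) (h0 c) (by positivity)
        _ = t^3 := by ring
    calc _ = (Qk ε (X a) (X b) (X c) + Qk ε (X b) (X c) (X a) + Qk ε (X c) (X a) (X b)) *
          (h a * h b * h c) := by ring
      _ ≤ (Qk ε (X a) (X b) (X c) + Qk ε (X b) (X c) (X a) + Qk ε (X c) (X a) (X b)) * t^3 :=
          mul_le_mul_of_nonneg_left hprod hS
      _ = _ := by ring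
  linarith

end Pool.Agent.Helper32.CN
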