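import Mathlib

open Metric Set Filter Topology MeasureTheory Real

namespace Pool.Agent.Helper32.CN

open Classical in
/-- signed sum -/
noncomputable def sgnSum {ι : Type*} (s : Finset ι) (x : ι → ℂ) (t : Finset ι) : ℂ :=
  ∑ i ∈ s, (if i ∈ t then x i else - x i)

theorem sign_average {ι : Type*} (s : Finset ι) (x : ι → ℂ) {i₀ : ι} (hi : i₀ ∈ s) :
    (2:ℝ)^s.card * log⁺ ‖x i₀‖ ≤ 2 * ∑ t ∈ s.powerset, log⁺ ‖sgnSum s x t‖ := by
  classical
  set σ : Finset ι → Finset ι := fun t => symmDiff (s \ t) {i₀} with hσ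
  have hmem : ∀ t ∈ s.powerset, σ t ∈ s.powerset := by
    intro t ht
    rw [Finset.mem_powerset] at ht ⊢
    intro i hi'
    simp only [hσ, Finset.mem_symmDiff, Finset.mem_sdiff, Finset.mem_singleton] at hi'
    rcases hi' with ⟨h, _⟩ | ⟨h, _⟩
    · exact h.1
    · rw [h]; exact hi
  have hinv : ∀ t ∈ s.powerset, σ (σ t) = t := by
    intro t ht
    rw [Finset.mem_powerset] at ht
    ext i
    simp only [hσ, Finset.mem_symmDiff, Finset.mem_sdiff, Finset.mem_singleton]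
    have h1 : i ∈ t → i ∈ s := fun h => ht h
    have h2 : i = i₀ → i ∈ s := fun h => h ▸ hi
    tauto
  have hsum : ∑ t ∈ s.powerset, log⁺ ‖sgnSum s x (σ t)‖ = ∑ t ∈ s.powerset, log⁺ ‖sgnSum s x t‖ := by
    refine Finset.sum_nbij' σ σ hmem hmem hinv hinv ?_
    intro t _; rfl
  have hadd : ∀ t ∈ s.powerset, sgnSum s x t + sgnSum s x (σ t) =
      2 * (if i₀ ∈ t then x i₀ else - x i₀) := by
    intro t _
    unfold sgnSum
    rw [← Finset.sum_add_distrib, Finset.sum_eq_single i₀]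
    · have : i₀ ∈ σ t ↔ i₀ ∈ t := by
        simp only [hσ, Finset.mem_symmDiff, Finset.mem_sdiff, Finset.mem_singleton]
        tauto
      simp only [this]
      ring
    · intro i his hne
      have : i ∈ σ t ↔ i ∉ t := by
        simp only [hσ, Finset.mem_symmDiff, Finset.mem_sdiff, Finset.mem_singleton]
        tauto
      by_cases h : i ∈ t
      · simp [this, h]
      · simp [this, h]
    · intro h; exact absurd hi h
  have hkey : ∀ t ∈ s.powerset, log⁺ ‖x i₀‖ ≤ log⁺ ‖sgnSum s x t‖ + log⁺ ‖sgnSum s x (σ t)‖ := by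
    intro t ht
    have h1 := hadd t ht
    have h2 : 2 * ‖x i₀‖ ≤ ‖sgnSum s x t‖ + ‖sgnSum s x (σ t)‖ := by
      refine le_trans (le_of_eq ?_) (norm_add_le _ _)
      rw [h1, norm_mul, Complex.norm_ofNat]
      split_ifs <;> simp
    rcases le_total (‖sgnSum s x t‖) (‖sgnSum s x (σ t)‖) with h | h
    · have h3 : ‖x i₀‖ ≤ ‖sgnSum s x (σ t)‖ := by linarith
      have h4 := posLog_le_posLog (norm_nonneg _) h3
      have h5 : 0 ≤ log⁺ ‖sgnSum s x t‖ := posLog_nonneg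
      linarith
    · have h3 : ‖x i₀‖ ≤ ‖sgnSum s x t‖ := by linarith
      have h4 := posLog_le_posLog (norm_nonneg _) h3
      have h5 : 0 ≤ log⁺ ‖sgnSum s x (σ t)‖ := posLog_nonneg
      linarith
  calc (2:ℝ)^s.card * log⁺ ‖x i₀‖ = ∑ t ∈ s.powerset, log⁺ ‖x i₀‖ := by
        rw [Finset.sum_const, Finset.card_powerset, nsmul_eq_mul]; push_cast; ring
    _ ≤ ∑ t ∈ s.powerset, (log⁺ ‖sgnSum s x t‖ + log⁺ ‖sgnSum s x (σ t)‖) :=
        Finset.sum_le_sum hkey
    _ = 2 * ∑ t ∈ s.powerset, log⁺ ‖sgnSum s x t‖ := by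
        rw [Finset.sum_add_distrib, hsum]; ring

/-- From uniform bounds for all signs to a bound for the maximum. -/
theorem integral_le_of_signs {ι : Type*} (K : ι → ℝ → ℂ) (hKc : ∀ i, Continuous (K i)) {C : ℝ}
    (s : Finset ι) (c : ι → ℝ)
    (hC : ∀ c' : ι → ℝ, (∀ i, |c' i| = |c i|) →
      ∫ θ in (0:ℝ)..2*π, log⁺ ‖∑ i ∈ s, (c' i : ℂ) * K i θ‖ ≤ C)
    (ψ : ℝ → ℝ) (hψi : IntervalIntegrable ψ volume 0 (2*π))
    (hψ : ∀ θ, ψ θ ≤ 0 ∨ ∃ i ∈ s, ψ θ ≤ log⁺ ‖(c i : ℂ) * K i θ‖) :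
    ∫ θ in (0:ℝ)..2*π, ψ θ ≤ 2 * C := by
  classical
  have h2pi : (0:ℝ) ≤ 2 * π := by positivity
  have hcont : ∀ t, Continuous fun θ => sgnSum s (fun i => (c i : ℂ) * K i θ) t := by
    intro t
    unfold sgnSum
    refine continuous_finsetSum s fun i _ => ?_
    split_ifs
    · exact continuous_const.mul (hKc i)
    · exact (continuous_const.mul (hKc i)).neg
  have hint : ∀ t, IntervalIntegrable (fun θ => log⁺ ‖sgnSum s (fun i => (c i : ℂ) * K i θ) t‖)
      volume 0 (2*π) := fun t =>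
    (continuous_posLog.comp (hcont t).norm).intervalIntegrable _ _
  have h1 : ∀ θ, (2:ℝ)^s.card * ψ θ ≤
      2 * ∑ t ∈ s.powerset, log⁺ ‖sgnSum s (fun i => (c i : ℂ) * K i θ) t‖ := by
    intro θ
    rcases hψ θ with h | ⟨i, hi, h⟩
    · have a1 : (2:ℝ)^s.card * ψ θ ≤ 0 := mul_nonpos_of_nonneg_of_nonpos (by positivity) h
      have a2 : 0 ≤ ∑ t ∈ s.powerset, log⁺ ‖sgnSum s (fun i => (c i : ℂ) * K i θ) t‖ :=
        Finset.sum_nonneg fun t _ => posLog_nonneg
      linarith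
    · exact (mul_le_mul_of_nonneg_left h (by positivity)).trans
        (sign_average s (fun i => (c i : ℂ) * K i θ) hi)
  have h2 : ∫ θ in (0:ℝ)..2*π, (2:ℝ)^s.card * ψ θ ≤ ∫ θ in (0:ℝ)..2*π,
      2 * ∑ t ∈ s.powerset, log⁺ ‖sgnSum s (fun i => (c i : ℂ) * K i θ) t‖ := by
    refine intervalIntegral.integral_mono_on h2pi (hψi.const_mul _) ?_ fun θ _ => h1 θ
    refine (Continuous.intervalIntegrable ?_ _ _)
    exact continuous_const.mul (continuous_finsetSum _ fun t _ =>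
      continuous_posLog.comp (hcont t).norm)
  rw [intervalIntegral.integral_const_mul, intervalIntegral.integral_const_mul,
    intervalIntegral.integral_finsetSum (fun t _ => hint t)] at h2
  have h3 : ∑ t ∈ s.powerset, ∫ θ in (0:ℝ)..2*π,
      log⁺ ‖sgnSum s (fun i => (c i : ℂ) * K i θ) t‖ ≤ ∑ t ∈ s.powerset, C := by
    refine Finset.sum_le_sum fun t _ => ?_
    have := hC (fun i => if i ∈ t then c i else - c i) (fun i => by split_ifs <;> simp)
    refine le_trans (le_of_eq ?_) this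
    congr 1
    ext θ
    congr 2
    unfold sgnSum
    refine Finset.sum_congr rfl fun i _ => ?_
    split_ifs
    · rfl
    · push_cast; ring
  rw [Finset.sum_const, Finset.card_powerset, nsmul_eq_mul] at h3
  push_cast at h3
  have h4 : (0:ℝ) < 2^s.card := by positivity
  have h5 : (2:ℝ)^s.card * ∫ θ in (0:ℝ)..2*π, ψ θ ≤ 2^s.card * (2 * C) := by linarith
  exact le_of_mul_le_mul_left h5 h4

end Pool.Agent.Helper32.CN
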