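import Pool.Agent.Helper32.CN.Arcs
import Pool.Agent.Helper32.CN.Signs

open Complex Metric Set Filter Topology MeasureTheory Real

namespace Pool.Agent.Helper32.CN

/-- The constant `M` of the good half lemma. -/
noncomputable def Mc : ℝ := (2 * Real.exp (200 * Real.log 8))^2

theorem one_le_Mc : 1 ≤ Mc := by
  unfold Mc
  have h : 1 ≤ Real.exp (200 * Real.log 8) :=
    Real.one_le_exp (by have := Real.log_nonneg (show (1:ℝ) ≤ 8 by norm_num); positivity)
  nlinarith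

/-- nearest omitted point data -/
def Nearest (φ : ℂ → ℂ) (w ζ : ℂ) : Prop :=
  (∀ w ∈ ball (0:ℂ) 1, φ w ≠ ζ) ∧ ball (φ w) ‖φ w - ζ‖ ⊆ φ '' ball 0 1 ∧ 0 < ‖φ w - ζ‖

/-- the good part of an arc -/
def goodSet (φ : ℂ → ℂ) (ρ : ℝ) (n : ℕ) (j : ℤ) (ζ : ℂ) : Set ℝ :=
  {θ ∈ arc n j | ‖φ (circleMap 0 ρ θ) - ζ‖ ≤ ‖φ (wI n j) - ζ‖ * Mc}

theorem measurableSet_goodSet {φ : ℂ → ℂ} (hd : DifferentiableOn ℂ φ (ball 0 1)) {ρ : ℝ}
    (h0 : 0 ≤ ρ) (h1 : ρ < 1) (n : ℕ) (j : ℤ) (ζ : ℂ) : MeasurableSet (goodSet φ ρ n j ζ) := by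
  refine (measurableSet_arc n j).inter ?_
  exact (isClosed_le ((continuousOn_circle hd.continuousOn h0 h1).sub continuous_const).norm
    continuous_const).measurableSet

theorem goodSet_volume {φ : ℂ → ℂ} (hd : DifferentiableOn ℂ φ (ball 0 1))
    (hi : InjOn φ (ball 0 1)) {n : ℕ} {j : ℤ} (hj0 : 0 ≤ j) (hj1 : j < 2^n) {ζ : ℂ}
    (hζ : Nearest φ (wI n j) ζ) {ρ : ℝ} (hρ : rad (n+1) ≤ ρ) (hρ1 : ρ < 1) :
    π / 2^n ≤ volume.real (goodSet φ ρ n j ζ) := by
  have hρ0 : 0 ≤ ρ := (rad_nonneg _).trans hρ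
  obtain ⟨L, hL, hpos, h0, hform⟩ := koebe_log hd hi (wI_mem n j) hζ.1 hζ.2.1
  have hlog8 : 0 < Real.log 8 := Real.log_pos (by norm_num)
  have hT : 0 < 200 * Real.log 8 := by positivity
  have hch := arc_chebyshev hL hpos hj0 hj1 hρ hρ1 hT
  rw [h0] at hch
  have e1 : 100 * (2 * π / 2^n) * Real.log 8 / (200 * Real.log 8) = π / 2^n := by
    field_simp
    norm_num
  rw [e1] at hch
  set Bd := {θ ∈ arc n j | 200 * Real.log 8 < (L (circleMap 0 ρ θ)).re} with hBd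
  have hsub : arc n j ⊆ goodSet φ ρ n j ζ ∪ Bd := by
    intro θ hθ
    by_cases h : 200 * Real.log 8 < (L (circleMap 0 ρ θ)).re
    · right; exact ⟨hθ, h⟩
    · left
      refine ⟨hθ, (hform _ (circleMap_mem hρ0 hρ1 θ)).trans ?_⟩
      refine mul_le_mul_of_nonneg_left ?_ (norm_nonneg _)
      unfold Mc
      have h2 := Real.exp_le_exp.2 (not_lt.1 h)
      have h3 := Real.exp_pos (L (circleMap 0 ρ θ)).re
      exact pow_le_pow_left₀ (by positivity) (by linarith) 2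
  have h1 : volume (arc n j) ≤ volume (goodSet φ ρ n j ζ) + ENNReal.ofReal (π / 2^n) :=
    (measure_mono hsub).trans ((measure_union_le _ _).trans (by gcongr))
  rw [volume_arc] at h1
  have hfin : volume (goodSet φ ρ n j ζ) ≠ ⊤ := by
    refine ne_top_of_le_ne_top ?_ (measure_mono (fun θ hθ => hθ.1 : goodSet φ ρ n j ζ ⊆ arc n j))
    rw [volume_arc]; exact ENNReal.ofReal_ne_top
  have h2 := (ENNReal.toReal_le_toReal ENNReal.ofReal_ne_top
    (ENNReal.add_ne_top.2 ⟨hfin, ENNReal.ofReal_ne_top⟩)).2 h1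
  rw [ENNReal.toReal_add hfin ENNReal.ofReal_ne_top, ENNReal.toReal_ofReal (by positivity),
    ENNReal.toReal_ofReal (by positivity)] at h2
  have e2 : 2 * π / 2^n = π / 2^n + π / 2^n := by ring
  rw [Measure.real]
  linarith

/-- the stopping condition at level `k` -/
def lowP (φ : ℂ → ℂ) (k : ℕ) (n : ℕ) (j : ℤ) : Prop :=
  (2:ℝ)^k < - Real.log ‖deriv φ (wI n j)‖

theorem delta_le {φ : ℂ → ℂ} (hd : DifferentiableOn ℂ φ (ball 0 1))
    (hi : InjOn φ (ball 0 1)) {k n : ℕ} {j : ℤ} {ζ : ℂ} (hζ : Nearest φ (wI n j) ζ)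
    (hP : lowP φ k n j) : ‖φ (wI n j) - ζ‖ ≤ 2 * (2^n)⁻¹ * Real.exp (-(2:ℝ)^k) := by
  have h1 := dist_le_deriv hd hi (wI_mem n j) hζ.2.2 hζ.2.1
  rw [norm_wI] at h1
  have hne := deriv_ne_zero hd hi (wI_mem n j)
  have hpos : 0 < ‖deriv φ (wI n j)‖ := norm_pos_iff.2 hne
  have h2 : ‖deriv φ (wI n j)‖ ≤ Real.exp (-(2:ℝ)^k) := by
    rw [← Real.exp_log hpos]
    apply Real.exp_le_exp.2
    unfold lowP at hP
    linarith
  refine h1.trans ?_
  have h3 : 1 - rad n ^ 2 ≤ 2 * (2^n)⁻¹ := by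
    have : rad n = 1 - (2^n)⁻¹ := rfl
    rw [this]
    nlinarith [sq_nonneg ((2:ℝ)^n)⁻¹]
  have h4 : 0 ≤ 1 - rad n ^ 2 := by
    have a := rad_nonneg n
    have b := rad_lt_one n
    nlinarith
  exact mul_le_mul h3 h2 hpos.le (by positivity)

theorem rad_mono {n m : ℕ} (h : n ≤ m) : rad n ≤ rad m := by
  unfold rad
  have : ((2:ℝ)^m)⁻¹ ≤ (2^n)⁻¹ :=
    inv_anti₀ (by positivity) (pow_le_pow_right₀ (by norm_num) h)
  linarith

theorem integral_indicator_arc {G : Set ℝ} (hG : MeasurableSet G) (hsub : G ⊆ Ico 0 (2*π)) :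
    ∫ θ in (0:ℝ)..2*π, G.indicator (fun _ => (1:ℝ)) θ = volume.real G := by
  rw [intervalIntegral.integral_of_le (by positivity), ← integral_Icc_eq_integral_Ioc,
    integral_Icc_eq_integral_Ico, setIntegral_indicator hG, setIntegral_const, smul_eq_mul, mul_one,
    inter_eq_self_of_subset_right hsub]

theorem intervalIntegrable_indicator {G : Set ℝ} (hG : MeasurableSet G) :
    IntervalIntegrable (G.indicator (fun _ => (1:ℝ))) volume 0 (2*π) := by
  rw [intervalIntegrable_iff]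
  exact (integrableOn_const (by rw [uIoc_of_le (by positivity)]; exact measure_Ioc_lt_top.ne)).indicator hG

theorem sum_range_exp_le (K : ℕ) :
    ∑ k ∈ Finset.range K, Real.exp (-(2:ℝ)^k/2) / 4 ≤ 1 := by
  have h1 : ∀ k : ℕ, Real.exp (-(2:ℝ)^k/2) / 4 ≤ (1/2) * (1/2)^k := by
    intro k
    have h2 : (2:ℝ)^k/2 ≤ Real.exp ((2:ℝ)^k/2) := by
      have := Real.add_one_le_exp ((2:ℝ)^k/2)
      linarith
    have h3 : (0:ℝ) < 2^k := by positivity
    rw [neg_div, Real.exp_neg]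
    have h4 : (Real.exp ((2:ℝ)^k/2))⁻¹ ≤ ((2:ℝ)^k/2)⁻¹ := inv_anti₀ (by positivity) h2
    have h5 : ((2:ℝ)^k/2)⁻¹ / 4 = (1/2) * (1/2)^k := by
      rw [one_div, inv_pow, inv_div]
      field_simp
      norm_num
    linarith
  calc _ ≤ ∑ k ∈ Finset.range K, (1/2:ℝ) * (1/2)^k := Finset.sum_le_sum fun k _ => h1 k
    _ = (1/2) * ∑ k ∈ Finset.range K, (1/2:ℝ)^k := by rw [Finset.mul_sum]
    _ ≤ (1/2) * 2 := by
        gcongr
        have := geom_sum_eq (show (1/2:ℝ) ≠ 1 by norm_num) K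
        rw [this]
        have h6 : (0:ℝ) ≤ (1/2)^K := by positivity
        rw [div_le_iff_of_neg (by norm_num)]
        linarith
    _ = 1 := by norm_num

theorem stop_sum_bound {φ : ℂ → ℂ} (hd : DifferentiableOn ℂ φ (ball 0 1))
    (hi : InjOn φ (ball 0 1)) (ζ : ℕ → ℤ → ℂ) (hζ : ∀ n j, Nearest φ (wI n j) (ζ n j)) {C₁ : ℝ}
    (hUB : ∀ (s : Finset (Σ _ : ℕ, ℕ × ℤ)) (c : (Σ _ : ℕ, ℕ × ℤ) → ℝ), ∑ i ∈ s, |c i| ≤ 1 →
      ∀ m : ℕ, ∫ θ in (0:ℝ)..2*π, log⁺ ‖∑ i ∈ s, (c i : ℂ) *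
        (ζ i.2.1 i.2.2 - φ (circleMap 0 (rad (m+1)) θ))⁻¹‖ ≤ C₁) (K N : ℕ) :
    ∑ k ∈ Finset.range K, (2:ℝ)^k * ∑ I ∈ stop (lowP φ k) N, (2 * π / 2^I.1 : ℝ) ≤
      8 * (2 * C₁ + 2 * π * Real.log (8 * Mc)) := by
  classical
  set s : Finset (Σ _ : ℕ, ℕ × ℤ) := (Finset.range K).sigma (fun k => stop (lowP φ k) N) with hs
  set c : (Σ _ : ℕ, ℕ × ℤ) → ℝ := fun i => (2^i.2.1)⁻¹ * (Real.exp (-(2:ℝ)^i.1/2) / 4) with hc
  set ρ := rad (N+1) with hρ
  have hρ0 : 0 ≤ ρ := rad_nonneg _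
  have hρ1 : ρ < 1 := rad_lt_one _
  have hc0 : ∀ i, 0 < c i := fun i => by simp only [hc]; positivity
  have hsum : ∑ i ∈ s, |c i| ≤ 1 := by
    have h1 : ∑ i ∈ s, |c i| = ∑ k ∈ Finset.range K, ∑ I ∈ stop (lowP φ k) N,
        ((2:ℝ)^I.1)⁻¹ * (Real.exp (-(2:ℝ)^k/2) / 4) := by
      rw [hs, Finset.sum_sigma]
      refine Finset.sum_congr rfl fun k _ => Finset.sum_congr rfl fun I _ => ?_
      rw [abs_of_pos (hc0 _)]
    rw [h1]
    refine le_trans (Finset.sum_le_sum fun k _ => ?_) (sum_range_exp_le K)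
    rw [← Finset.sum_mul]
    have h2 := stop_sum_le (lowP φ k) N
    have h3 : ∑ I ∈ stop (lowP φ k) N, ((2:ℝ)^I.1)⁻¹ ≤ 1 := by
      have h4 : ∑ I ∈ stop (lowP φ k) N, (2 * π / 2^I.1 : ℝ) =
          2 * π * ∑ I ∈ stop (lowP φ k) N, ((2:ℝ)^I.1)⁻¹ := by
        rw [Finset.mul_sum]
        exact Finset.sum_congr rfl fun I _ => div_eq_mul_inv _ _
      rw [h4] at h2
      have h5 : (0:ℝ) < 2 * π := by positivity
      by_contra hcon
      push Not at hcon
      nlinarith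
    have h6 : 0 ≤ Real.exp (-(2:ℝ)^k/2) / 4 := by positivity
    nlinarith
  have hKc : ∀ i : (Σ _ : ℕ, ℕ × ℤ), Continuous fun θ : ℝ =>
      (ζ i.2.1 i.2.2 - φ (circleMap 0 ρ θ))⁻¹ := by
    intro i
    refine Continuous.inv₀ (continuous_const.sub (continuousOn_circle hd.continuousOn hρ0 hρ1)) ?_
    intro θ h0
    exact (hζ i.2.1 i.2.2).1 _ (circleMap_mem hρ0 hρ1 θ) (sub_eq_zero.1 h0).symm
  set G : (Σ _ : ℕ, ℕ × ℤ) → Set ℝ := fun i => goodSet φ ρ i.2.1 i.2.2 (ζ i.2.1 i.2.2) with hG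
  have hGm : ∀ i, MeasurableSet (G i) := fun i => measurableSet_goodSet hd hρ0 hρ1 _ _ _
  have hGarc : ∀ i, G i ⊆ arc i.2.1 i.2.2 := fun i θ hθ => hθ.1
  set ψ : ℝ → ℝ := fun θ => (1/4) * ∑ i ∈ s, (2:ℝ)^i.1 * (G i).indicator (fun _ => (1:ℝ)) θ -
    Real.log (8 * Mc) with hψ
  have hM := one_le_Mc
  have hlogM : 0 ≤ Real.log (8 * Mc) := Real.log_nonneg (by linarith)
  have hind0 : ∀ i θ, 0 ≤ (G i).indicator (fun _ => (1:ℝ)) θ := fun i θ =>
    indicator_nonneg (fun _ _ => zero_le_one) θ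
  have hψint : IntervalIntegrable ψ volume 0 (2*π) := by
    refine IntervalIntegrable.sub (IntervalIntegrable.const_mul ?_ _) intervalIntegrable_const
    have : (fun θ => ∑ i ∈ s, (2:ℝ)^i.1 * (G i).indicator (fun _ => (1:ℝ)) θ) =
        ∑ i ∈ s, fun θ => (2:ℝ)^i.1 * (G i).indicator (fun _ => (1:ℝ)) θ := by
      ext θ; simp
    rw [this]
    exact IntervalIntegrable.sum s fun i _ => (intervalIntegrable_indicator (hGm i)).const_mul _
  have hψb : ∀ θ, ψ θ ≤ 0 ∨ ∃ i ∈ s, ψ θ ≤ log⁺ ‖(c i : ℂ) *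
      (ζ i.2.1 i.2.2 - φ (circleMap 0 ρ θ))⁻¹‖ := by
    intro θ
    by_cases hex : ∃ i ∈ s, θ ∈ G i
    · right
      obtain ⟨i₀, hi₀, hmax⟩ := Finset.exists_max_image (s.filter (fun i => θ ∈ G i))
        (fun i => i.1) (by obtain ⟨i, h1, h2⟩ := hex; exact ⟨i, Finset.mem_filter.2 ⟨h1, h2⟩⟩)
      rw [Finset.mem_filter] at hi₀
      obtain ⟨hi₀s, hi₀G⟩ := hi₀
      refine ⟨i₀, hi₀s, ?_⟩
      -- sum bound
      have hsumb : ∑ i ∈ s, (2:ℝ)^i.1 * (G i).indicator (fun _ => (1:ℝ)) θ ≤ 2 * 2^i₀.1 := by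
        rw [hs, Finset.sum_sigma]
        have h1 : ∀ k ∈ Finset.range K, ∑ I ∈ stop (lowP φ k) N,
            (2:ℝ)^k * (G ⟨k, I⟩).indicator (fun _ => (1:ℝ)) θ ≤
            if k ≤ i₀.1 then (2:ℝ)^k else 0 := by
          intro k hk
          split_ifs with hki
          · by_cases hexI : ∃ I ∈ stop (lowP φ k) N, θ ∈ G ⟨k, I⟩
            · obtain ⟨I, hI, hIG⟩ := hexI
              rw [Finset.sum_eq_single I]
              · rw [indicator_of_mem hIG, mul_one]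
              · intro J hJ hne
                rw [indicator_of_notMem, mul_zero]
                intro hJG
                exact hne (stop_disjoint hJ hI (hGarc _ hJG) (hGarc _ hIG))
              · intro h; exact absurd hI h
            · push Not at hexI
              rw [Finset.sum_eq_zero]
              · positivity
              · intro I hI
                rw [indicator_of_notMem (hexI I hI), mul_zero]
          · rw [Finset.sum_eq_zero]
            intro I hI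
            rw [indicator_of_notMem, mul_zero]
            intro hIG
            apply hki
            exact hmax ⟨k, I⟩ (Finset.mem_filter.2
              ⟨Finset.mem_sigma.2 ⟨hk, hI⟩, hIG⟩)
        refine (Finset.sum_le_sum h1).trans ?_
        rw [← Finset.sum_filter]
        calc ∑ k ∈ (Finset.range K).filter (fun k => k ≤ i₀.1), (2:ℝ)^k
            ≤ ∑ k ∈ Finset.range (i₀.1 + 1), (2:ℝ)^k := by
              refine Finset.sum_le_sum_of_subset_of_nonneg ?_ fun _ _ _ => by positivity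
              intro k hk
              rw [Finset.mem_filter] at hk
              rw [Finset.mem_range]
              omega
          _ = 2^(i₀.1+1) - 1 := by
              rw [geom_sum_eq (by norm_num)]; norm_num
          _ ≤ 2 * 2^i₀.1 := by rw [pow_succ]; linarith
      -- lower bound for the term
      rw [hs, Finset.mem_sigma] at hi₀s
      have hstop := (mem_stop.1 hi₀s.2)
      have hP : lowP φ i₀.1 i₀.2.1 i₀.2.2 := hstop.2.2.2.1
      have hδ := delta_le hd hi (hζ i₀.2.1 i₀.2.2) hP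
      have hgood := hi₀G.2
      have hne : 0 < ‖ζ i₀.2.1 i₀.2.2 - φ (circleMap 0 ρ θ)‖ := by
        rw [norm_pos_iff, sub_ne_zero]
        exact ((hζ i₀.2.1 i₀.2.2).1 _ (circleMap_mem hρ0 hρ1 θ)).symm
      have hup : ‖ζ i₀.2.1 i₀.2.2 - φ (circleMap 0 ρ θ)‖ ≤
          (2 * (2^i₀.2.1)⁻¹ * Real.exp (-(2:ℝ)^i₀.1)) * Mc := by
        rw [norm_sub_rev]
        exact hgood.trans (mul_le_mul_of_nonneg_right hδ (by linarith))
      have hlow : Real.exp ((2:ℝ)^i₀.1/2) / (8 * Mc) ≤ ‖(c i₀ : ℂ) *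
          (ζ i₀.2.1 i₀.2.2 - φ (circleMap 0 ρ θ))⁻¹‖ := by
        rw [norm_mul, norm_inv, Complex.norm_real, Real.norm_eq_abs, abs_of_pos (hc0 _),
          ← div_eq_mul_inv, div_le_div_iff₀ (by linarith) hne]
        have h7 : Real.exp (-(2:ℝ)^i₀.1) * Real.exp ((2:ℝ)^i₀.1/2) = Real.exp (-(2:ℝ)^i₀.1/2) := by
          rw [← Real.exp_add]; congr 1; ring
        calc Real.exp ((2:ℝ)^i₀.1/2) * ‖ζ i₀.2.1 i₀.2.2 - φ (circleMap 0 ρ θ)‖
            ≤ Real.exp ((2:ℝ)^i₀.1/2) *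
              ((2 * (2^i₀.2.1)⁻¹ * Real.exp (-(2:ℝ)^i₀.1)) * Mc) :=
              mul_le_mul_of_nonneg_left hup (Real.exp_pos _).le
          _ = 2 * (2^i₀.2.1)⁻¹ * (Real.exp (-(2:ℝ)^i₀.1) * Real.exp ((2:ℝ)^i₀.1/2)) * Mc := by
              ring
          _ = c i₀ * (8 * Mc) := by
              rw [h7]; simp only [hc]; ring
      have hlog : (2:ℝ)^i₀.1/2 - Real.log (8 * Mc) ≤ log⁺ ‖(c i₀ : ℂ) *
          (ζ i₀.2.1 i₀.2.2 - φ (circleMap 0 ρ θ))⁻¹‖ := by
        have h8 : 0 < Real.exp ((2:ℝ)^i₀.1/2) / (8 * Mc) := by positivity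
        have h9 := Real.log_le_log h8 hlow
        rw [Real.log_div (Real.exp_pos _).ne' (by positivity), Real.log_exp] at h9
        refine h9.trans ?_
        rw [posLog_apply]
        exact le_max_right _ _
      have : ψ θ ≤ (2:ℝ)^i₀.1/2 - Real.log (8 * Mc) := by
        simp only [hψ]
        linarith
      exact this.trans hlog
    · left
      push Not at hex
      simp only [hψ]
      rw [Finset.sum_eq_zero]
      · linarith
      · intro i hi
        rw [indicator_of_notMem (hex i hi), mul_zero]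
  have hmain := integral_le_of_signs (C := C₁) (fun (i : (Σ _ : ℕ, ℕ × ℤ)) θ =>
    (ζ i.2.1 i.2.2 - φ (circleMap 0 ρ θ))⁻¹) hKc s c
    (fun c' hc' => hUB s c' (by simpa only [hc'] using hsum) N) ψ hψint hψb
  -- compute the integral of ψ
  have hint : ∫ θ in (0:ℝ)..2*π, ψ θ = (1/4) * ∑ i ∈ s, (2:ℝ)^i.1 * volume.real (G i) -
      2 * π * Real.log (8 * Mc) := by
    simp only [hψ]
    have hI : ∀ i ∈ s, IntervalIntegrable
        (fun θ => (2:ℝ)^i.1 * (G i).indicator (fun _ => (1:ℝ)) θ) volume 0 (2*π) :=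
      fun i _ => (intervalIntegrable_indicator (hGm i)).const_mul _
    have hI2 : IntervalIntegrable
        (fun θ => ∑ i ∈ s, (2:ℝ)^i.1 * (G i).indicator (fun _ => (1:ℝ)) θ) volume 0 (2*π) := by
      have : (fun θ => ∑ i ∈ s, (2:ℝ)^i.1 * (G i).indicator (fun _ => (1:ℝ)) θ) =
          ∑ i ∈ s, fun θ => (2:ℝ)^i.1 * (G i).indicator (fun _ => (1:ℝ)) θ := by
        ext θ; simp
      rw [this]
      exact IntervalIntegrable.sum s hI
    rw [intervalIntegral.integral_sub (hI2.const_mul _) intervalIntegrable_const,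
      intervalIntegral.integral_const_mul, intervalIntegral.integral_finsetSum hI,
      intervalIntegral.integral_const, sub_zero, smul_eq_mul]
    congr 2
    refine Finset.sum_congr rfl fun i hi' => ?_
    rw [intervalIntegral.integral_const_mul, integral_indicator_arc (hGm i)]
    rw [hs, Finset.mem_sigma] at hi'
    exact (hGarc i).trans (stop_subset hi'.2)
  rw [hint] at hmain
  have hlow : ∑ i ∈ s, (2:ℝ)^i.1 * (π / 2^i.2.1) ≤ ∑ i ∈ s, (2:ℝ)^i.1 * volume.real (G i) := by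
    refine Finset.sum_le_sum fun i hi' => ?_
    rw [hs, Finset.mem_sigma] at hi'
    have hstop := (mem_stop.1 hi'.2)
    refine mul_le_mul_of_nonneg_left ?_ (by positivity)
    exact goodSet_volume hd hi hstop.2.1 hstop.2.2.1 (hζ _ _) (rad_mono (by omega)) hρ1
  have heq : ∑ i ∈ s, (2:ℝ)^i.1 * (π / 2^i.2.1) =
      (1/2) * ∑ k ∈ Finset.range K, (2:ℝ)^k * ∑ I ∈ stop (lowP φ k) N, (2 * π / 2^I.1 : ℝ) := by
    rw [hs, Finset.sum_sigma, Finset.mul_sum]
    refine Finset.sum_congr rfl fun k _ => ?_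
    rw [Finset.mul_sum, Finset.mul_sum]
    refine Finset.sum_congr rfl fun I _ => ?_
    ring
  linarith

end Pool.Agent.Helper32.CN
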