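import Pool.Agent.Helper32.CN.Arcs

open Complex Metric Set Filter Topology MeasureTheory Real

namespace Pool.Agent.Helper32.CN

/-- Lower bound for logarithmic means of a bounded analytic function. -/
theorem circleAverage_log_lower {H : ℂ → ℂ} (hH : DifferentiableOn ℂ H (ball 0 1)) :
    ∃ C : ℝ, ∀ ρ : ℝ, 1/2 ≤ ρ → ρ < 1 → C ≤ circleAverage (fun w => Real.log ‖H w‖) 0 ρ := by
  have hA : AnalyticOnNhd ℂ H (ball 0 1) := hH.analyticOnNhd isOpen_ball
  set n : ℝ := (((meromorphicOrderAt H 0).untop₀ : ℤ) : ℝ) with hn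
  refine ⟨-(|n| * Real.log 2) + Real.log ‖meromorphicTrailingCoeffAt H 0‖, fun ρ h1 h2 => ?_⟩
  have hρ0 : 0 < ρ := by linarith
  have habs : |ρ| = ρ := abs_of_pos hρ0
  have hsub : closedBall (0:ℂ) |ρ| ⊆ ball 0 1 := by
    rw [habs]; exact closedBall_subset_ball h2
  have hA' : AnalyticOnNhd ℂ H (closedBall 0 |ρ|) := hA.mono hsub
  have hJ := hA'.meromorphicOn.circleAverage_log_norm hρ0.ne'
  rw [hJ]
  have hd0 : MeromorphicOn.divisor H (closedBall 0 |ρ|) 0 = (meromorphicOrderAt H 0).untop₀ := by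
    rw [MeromorphicOn.divisor_apply hA'.meromorphicOn (by simp)]
  rw [hd0]
  have h3 : 0 ≤ ∑ᶠ u, (MeromorphicOn.divisor H (closedBall 0 |ρ|) u : ℝ) *
      Real.log (ρ * ‖0 - u‖⁻¹) := by
    refine finsum_nonneg fun u => ?_
    by_cases hu : u ∈ closedBall (0:ℂ) |ρ|
    · refine mul_nonneg (mod_cast MeromorphicOn.AnalyticOnNhd.divisor_nonneg hA' u) ?_
      rw [zero_sub, norm_neg]
      rcases eq_or_ne u 0 with rfl | hu0
      · simp
      · apply Real.log_nonneg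
        rw [← div_eq_mul_inv, le_div_iff₀ (norm_pos_iff.2 hu0), one_mul]
        rw [mem_closedBall, dist_zero_right, habs] at hu
        exact hu
    · rw [Function.locallyFinsuppWithin.apply_eq_zero_of_notMem _ hu]
      simp
  have h4 : -(|n| * Real.log 2) ≤ n * Real.log ρ := by
    have h5 : |Real.log ρ| ≤ Real.log 2 := by
      rw [abs_le]
      constructor
      · rw [← Real.log_inv]
        exact Real.log_le_log (by norm_num) (by linarith)
      · have := Real.log_nonpos hρ0.le h2.le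
        have := Real.log_nonneg (show (1:ℝ) ≤ 2 by norm_num)
        linarith
    have h6 : |n * Real.log ρ| ≤ |n| * Real.log 2 := by
      rw [abs_mul]
      exact mul_le_mul_of_nonneg_left h5 (abs_nonneg _)
    exact (abs_le.1 h6).1
  linarith

theorem ae_ne_zero_circle {H : ℂ → ℂ} (hH : DifferentiableOn ℂ H (ball 0 1))
    (hne : ∃ w ∈ ball (0:ℂ) 1, H w ≠ 0) {ρ : ℝ} (h0 : 0 < ρ) (h1 : ρ < 1) :
    ∀ᵐ θ ∂(volume.restrict (uIoc (0:ℝ) (2*π))), H (circleMap 0 ρ θ) ≠ 0 := by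
  have hA : AnalyticOnNhd ℂ H (ball 0 1) := hH.analyticOnNhd isOpen_ball
  obtain ⟨w₀, hw₀, hne⟩ := hne
  have hcod := hA.preimage_zero_mem_codiscreteWithin hne hw₀
    ((convex_ball (0:ℂ) 1).isConnected ⟨w₀, hw₀⟩)
  have hsub : sphere (0:ℂ) |ρ| ⊆ ball 0 1 := by
    rw [abs_of_pos h0]; exact sphere_subset_closedBall.trans (closedBall_subset_ball h1)
  have h2 : H ⁻¹' {0}ᶜ ∈ codiscreteWithin (sphere (0:ℂ) |ρ|) := codiscreteWithin_mono hsub hcod
  have h3 := circleMap_preimage_codiscrete h0.ne' h2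
  have h4 := codiscreteWithin_mono (subset_univ (uIoc (0:ℝ) (2*π))) h3
  have h5 := ae_restrict_le_codiscreteWithin (μ := volume) measurableSet_uIoc h4
  filter_upwards [h5] with θ hθ
  simpa using hθ

/-- Quotients of bounded analytic functions have bounded `log⁺`-means. -/
theorem nev_bound {G H f : ℂ → ℂ} {M : ℝ}
    (hGM : ∀ w ∈ ball (0:ℂ) 1, ‖G w‖ ≤ M)
    (hH : DifferentiableOn ℂ H (ball 0 1)) (hHM : ∀ w ∈ ball (0:ℂ) 1, ‖H w‖ ≤ M)
    (hne : ∃ w ∈ ball (0:ℂ) 1, H w ≠ 0) (hf : ContinuousOn f (ball 0 1))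
    (hfe : ∀ w ∈ ball (0:ℂ) 1, f w * H w = G w) :
    ∃ C : ℝ, ∀ ρ : ℝ, 1/2 ≤ ρ → ρ < 1 →
      ∫ θ in (0:ℝ)..2*π, log⁺ ‖f (circleMap 0 ρ θ)‖ ≤ C := by
  obtain ⟨C, hC⟩ := circleAverage_log_lower hH
  refine ⟨2 * π * (log⁺ M + log⁺ M) - 2 * π * C, fun ρ h1 h2 => ?_⟩
  have h0 : 0 < ρ := by linarith
  have habs : |ρ| = ρ := abs_of_pos h0
  have hsub : sphere (0:ℂ) |ρ| ⊆ ball 0 1 := by
    rw [habs]; exact sphere_subset_closedBall.trans (closedBall_subset_ball h2)
  have hA : AnalyticOnNhd ℂ H (ball 0 1) := hH.analyticOnNhd isOpen_ball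
  have hcirc : CircleIntegrable (fun w => Real.log ‖H w‖) 0 ρ :=
    (hA.mono hsub).meromorphicOn.circleIntegrable_log_norm
  have hlogint : IntervalIntegrable (fun θ => Real.log ‖H (circleMap 0 ρ θ)‖) volume 0 (2*π) :=
    hcirc
  have hfc := continuousOn_circle hf h0.le h2
  have hi1 : IntervalIntegrable (fun θ : ℝ => log⁺ ‖f (circleMap 0 ρ θ)‖) volume 0 (2*π) :=
    (continuous_posLog.comp hfc.norm).intervalIntegrable _ _
  have hi2 : IntervalIntegrable (fun θ : ℝ => (log⁺ M + log⁺ M) -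
      Real.log ‖H (circleMap 0 ρ θ)‖) volume 0 (2*π) :=
    (intervalIntegrable_const).sub hlogint
  have h3 : ∫ θ in (0:ℝ)..2*π, log⁺ ‖f (circleMap 0 ρ θ)‖ ≤
      ∫ θ in (0:ℝ)..2*π, ((log⁺ M + log⁺ M) - Real.log ‖H (circleMap 0 ρ θ)‖) := by
    rw [intervalIntegral.integral_of_le (by positivity),
      intervalIntegral.integral_of_le (by positivity)]
    refine integral_mono_ae ?_ ?_ ?_
    · exact (intervalIntegrable_iff_integrableOn_Ioc_of_le (by positivity)).1 hi1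
    · exact (intervalIntegrable_iff_integrableOn_Ioc_of_le (by positivity)).1 hi2
    · have h4 := ae_ne_zero_circle hH hne h0 h2
      rw [uIoc_of_le (by positivity)] at h4
      filter_upwards [h4] with θ hθ
      have hmem := circleMap_mem h0.le h2 θ
      set w := circleMap 0 ρ θ
      have e1 : ‖f w‖ = ‖G w‖ * ‖H w‖⁻¹ := by
        rw [← hfe w hmem, norm_mul]
        field_simp [norm_ne_zero_iff.2 hθ]
      have e2 : log⁺ ‖f w‖ ≤ log⁺ ‖G w‖ + log⁺ (‖H w‖⁻¹) := by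
        rw [e1]; exact posLog_mul
      have e3 : log⁺ ‖G w‖ ≤ log⁺ M := posLog_le_posLog (norm_nonneg _) (hGM w hmem)
      have e4 : log⁺ ‖H w‖ ≤ log⁺ M := posLog_le_posLog (norm_nonneg _) (hHM w hmem)
      have e5 := posLog_sub_posLog_inv (x := ‖H w‖)
      linarith
  refine h3.trans ?_
  rw [intervalIntegral.integral_sub intervalIntegrable_const hlogint,
    intervalIntegral.integral_const, sub_zero, smul_eq_mul]
  have h5 := hC ρ h1 h2
  rw [circleAverage_def, smul_eq_mul] at h5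
  have h6 : 2 * π * C ≤ ∫ θ in (0:ℝ)..2*π, Real.log ‖H (circleMap 0 ρ θ)‖ := by
    have h7 := mul_le_mul_of_nonneg_left h5 (show 0 ≤ 2 * π by positivity)
    rwa [mul_inv_cancel_left₀ (by positivity)] at h7
  linarith

end Pool.Agent.Helper32.CN
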