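import Pool.Agent.Helper32.CN.NecessM
import Pool.Agent.Helper32.CN.Baire
import Pool.Agent.Helper32.CN.Nev

open Complex Metric Set Filter Topology MeasureTheory Real

namespace Pool.Agent.Helper32.CN

theorem norm_wI_sub_le {n : ℕ} {r θ : ℝ} (h0 : (2^(n+1))⁻¹ < 1 - r) (h1 : 1 - r ≤ (2^n)⁻¹)
    (hr0 : 0 ≤ r) (hr1 : r < 1) :
    ‖circleMap 0 r θ - wI n (idx n θ)‖ ≤ 8 * (2^n)⁻¹ := by
  unfold wI
  refine (norm_circleMap_sub_le (rad_nonneg n) (rad_lt_one n).le _ _).trans ?_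
  have a1 := abs_sub_ang_le (mem_arc_idx n θ)
  have h2 : (0:ℝ) < (2^n)⁻¹ := by positivity
  have a3 : π / 2^n ≤ 4 * (2^n)⁻¹ := by
    rw [div_eq_mul_inv]
    exact mul_le_mul_of_nonneg_right Real.pi_le_four h2.le
  have a2 : |r - rad n| ≤ (2^n)⁻¹ := by
    unfold rad
    rw [abs_le]
    constructor <;> linarith
  linarith

/-- generation of a radius -/
theorem exists_gen {r : ℝ} (hr0 : 0 ≤ r) (hr1 : r < 1) :
    ∃ n : ℕ, ((2:ℝ)^(n+1))⁻¹ < 1 - r ∧ 1 - r ≤ ((2:ℝ)^n)⁻¹ := by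
  classical
  have hpos : 0 < 1 - r := by linarith
  have hex : ∃ n : ℕ, ((2:ℝ)^(n+1))⁻¹ < 1 - r := by
    obtain ⟨n, hn⟩ := exists_pow_lt_of_lt_one hpos (show (1/2:ℝ) < 1 by norm_num)
    refine ⟨n, lt_of_le_of_lt ?_ hn⟩
    rw [one_div, inv_pow]
    exact inv_anti₀ (by positivity) (pow_le_pow_right₀ (by norm_num) (Nat.le_succ n))
  refine ⟨Nat.find hex, Nat.find_spec hex, ?_⟩
  rcases Nat.eq_zero_or_pos (Nat.find hex) with h | h
  · rw [h]; simp; linarith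
  · have := Nat.find_min hex (Nat.pred_lt h.ne')
    push Not at this
    have e : Nat.pred (Nat.find hex) + 1 = Nat.find hex := Nat.succ_pred_eq_of_pos h
    rwa [e] at this

/-- comparison of the derivative at a point with the one at the dyadic reference point -/
theorem deriv_wI_comp {φ : ℂ → ℂ} (hd : DifferentiableOn ℂ φ (ball 0 1))
    (hi : InjOn φ (ball 0 1)) (hne : φ '' ball 0 1 ≠ univ) {n : ℕ} {r θ : ℝ}
    (h0 : ((2:ℝ)^(n+1))⁻¹ < 1 - r) (h1 : 1 - r ≤ (2^n)⁻¹) (hr0 : 0 ≤ r) (hr1 : r < 1) :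
    ‖deriv φ (wI n (idx n θ))‖ ≤ distC 16 * ‖deriv φ (circleMap 0 r θ)‖ ∧
    ‖deriv φ (circleMap 0 r θ)‖ ≤ distC 16 * ‖deriv φ (wI n (idx n θ))‖ := by
  have hdist := norm_wI_sub_le (θ := θ) h0 h1 hr0 hr1
  have hn1 : ‖wI n (idx n θ)‖ = 1 - (2^n)⁻¹ := norm_wI _ _
  have hn2 : ‖circleMap 0 r θ‖ = r := by rw [norm_circleMap_zero, abs_of_nonneg hr0]
  have h2 : (0:ℝ) < (2^n)⁻¹ := by positivity
  have h3 : ((2:ℝ)^(n+1))⁻¹ = (2^n)⁻¹/2 := by rw [pow_succ, mul_inv]; ring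
  rw [h3] at h0
  constructor
  · refine distortion hd hi hne (by norm_num) (by rw [hn2]; exact hr1)
      (by rw [hn1]; linarith) ?_ ?_ ?_
    · rw [hn1, hn2]; linarith
    · rw [hn1, hn2]; linarith
    · rw [hn1]; linarith
  · refine distortion hd hi hne (by norm_num) (by rw [hn1]; linarith)
      (by rw [hn2]; exact hr1) ?_ ?_ ?_
    · rw [hn1, hn2]; linarith
    · rw [hn1, hn2]; linarith
    · rw [hn2, norm_sub_rev]; linarith

theorem radial_le_dyadic {φ : ℂ → ℂ} (hd : DifferentiableOn ℂ φ (ball 0 1))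
    (hi : InjOn φ (ball 0 1)) (hne : φ '' ball 0 1 ≠ univ) (θ : ℝ) :
    ⨆ r ∈ Ico (0:ℝ) 1, ENNReal.ofReal (log⁺ (‖deriv φ (circleMap 0 r θ)‖⁻¹)) ≤
      ENNReal.ofReal (log⁺ (distC 16)) +
        ⨆ n, ENNReal.ofReal (-Real.log ‖deriv φ (wI n (idx n θ))‖) := by
  refine iSup₂_le fun r hr => ?_
  obtain ⟨n, h0, h1⟩ := exists_gen hr.1 hr.2
  obtain ⟨hc, -⟩ := deriv_wI_comp (θ := θ) hd hi hne h0 h1 hr.1 hr.2
  refine le_trans ?_ (add_le_add_right (le_iSup _ n) _)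
  have hD : 0 < distC 16 := distC_pos (by norm_num)
  have hp1 : 0 < ‖deriv φ (wI n (idx n θ))‖ := norm_pos_iff.2 (deriv_ne_zero hd hi (wI_mem _ _))
  have hp2 : 0 < ‖deriv φ (circleMap 0 r θ)‖ :=
    norm_pos_iff.2 (deriv_ne_zero hd hi (circleMap_mem hr.1 hr.2 θ))
  have h2 : ‖deriv φ (circleMap 0 r θ)‖⁻¹ ≤ distC 16 * ‖deriv φ (wI n (idx n θ))‖⁻¹ := by
    rw [← div_eq_mul_inv, inv_eq_one_div, div_le_div_iff₀ hp2 hp1]
    linarith
  have h3 : log⁺ (‖deriv φ (circleMap 0 r θ)‖⁻¹) ≤ log⁺ (distC 16) +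
      log⁺ (‖deriv φ (wI n (idx n θ))‖⁻¹) :=
    (posLog_le_posLog (inv_nonneg.2 hp2.le) h2).trans posLog_mul
  refine (ENNReal.ofReal_le_ofReal h3).trans ?_
  rw [ENNReal.ofReal_add posLog_nonneg posLog_nonneg]
  refine add_le_add_right ?_ _
  rw [posLog_apply, Real.log_inv]
  rcases le_total 0 (-Real.log ‖deriv φ (wI n (idx n θ))‖) with h | h
  · rw [max_eq_right h]
  · rw [max_eq_left h]; simp

/-- positive distance between `Γ` and compact subsets of the image -/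
theorem exists_bound_inv {φ : ℂ → ℂ} (hc : ContinuousOn φ (closedBall 0 1))
    (hi : InjOn φ (closedBall 0 1)) {ρ : ℝ} (h1 : ρ < 1) :
    ∃ B : ℝ, ∀ ζ ∈ φ '' sphere 0 1, ∀ w ∈ closedBall (0:ℂ) ρ, ‖(ζ - φ w)⁻¹‖ ≤ B := by
  have hK : IsCompact (φ '' closedBall 0 ρ) :=
    (isCompact_closedBall 0 ρ).image_of_continuousOn
      (hc.mono (closedBall_subset_closedBall h1.le))
  have hS : IsCompact (φ '' sphere 0 1) :=
    (isCompact_sphere 0 1).image_of_continuousOn (hc.mono sphere_subset_closedBall)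
  have hdisj : Disjoint (φ '' sphere 0 1) (φ '' closedBall 0 ρ) := by
    rw [Set.disjoint_left]
    rintro _ ⟨u, hu, rfl⟩ ⟨v, hv, he⟩
    have := hi (closedBall_subset_closedBall h1.le hv) (sphere_subset_closedBall hu) he
    subst this
    rw [mem_sphere, dist_zero_right] at hu
    rw [mem_closedBall, dist_zero_right] at hv
    linarith
  obtain ⟨r, hr, hlt⟩ := Metric.exists_pos_forall_lt_edist hS hK.isClosed hdisj
  refine ⟨(r:ℝ)⁻¹, fun ζ hζ w hw => ?_⟩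
  have h2 := hlt ζ hζ (φ w) (mem_image_of_mem φ hw)
  rw [edist_dist, dist_eq_norm] at h2
  have h3 : (r:ℝ) < ‖ζ - φ w‖ := by
    rw [← ENNReal.ofReal_coe_nnreal] at h2
    exact (ENNReal.ofReal_lt_ofReal_iff_of_nonneg r.coe_nonneg).1 h2
  rw [norm_inv]
  exact inv_anti₀ (by exact_mod_cast hr) h3.le

/-- nearest omitted points lie on `Γ` -/
theorem exists_nearest_sphere {φ : ℂ → ℂ} (hc : ContinuousOn φ (closedBall 0 1))
    (hd : DifferentiableOn ℂ φ (ball 0 1)) (hi : InjOn φ (closedBall 0 1)) {w : ℂ}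
    (hw : w ∈ ball (0:ℂ) 1) : ∃ ζ ∈ φ '' sphere 0 1, Nearest φ w ζ := by
  have hib : InjOn φ (ball 0 1) := hi.mono ball_subset_closedBall
  have hopen : IsOpen (φ '' ball 0 1) := isOpen_image hd hib isOpen_ball subset_rfl
  have hsph : ∀ u ∈ sphere (0:ℂ) 1, φ u ∉ φ '' ball 0 1 := by
    rintro u hu ⟨v, hv, he⟩
    have := hi (ball_subset_closedBall hv) (sphere_subset_closedBall hu) he
    subst this
    rw [mem_sphere, dist_zero_right] at hu
    rw [mem_ball, dist_zero_right] at hv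
    linarith
  have hne : φ '' ball 0 1 ≠ univ := by
    intro h
    exact hsph 1 (by simp) (h ▸ mem_univ _)
  obtain ⟨ζ, hζ, hball, hpos, -⟩ := exists_nearest hopen hne (mem_image_of_mem φ hw)
  refine ⟨ζ, ?_, fun v hv he => hζ ⟨v, hv, he⟩, hball, hpos⟩
  have hclosed : IsClosed (φ '' closedBall 0 1) :=
    ((isCompact_closedBall 0 1).image_of_continuousOn hc).isClosed
  have h1 : ζ ∈ closure (ball (φ w) ‖φ w - ζ‖) := by
    rw [closure_ball _ hpos.ne', mem_closedBall, dist_comm, dist_eq_norm]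
  have h2 : ζ ∈ φ '' closedBall 0 1 :=
    closure_minimal (hball.trans (image_mono ball_subset_closedBall)) hclosed h1
  obtain ⟨u, hu, rfl⟩ := h2
  refine ⟨u, ?_, rfl⟩
  rw [mem_closedBall, dist_zero_right] at hu
  rw [mem_sphere, dist_zero_right]
  by_contra hne'
  exact hζ ⟨u, by rw [mem_ball, dist_zero_right]; exact lt_of_le_of_ne hu hne', rfl⟩

/-- **Necessity**, disc form. -/
theorem necessity_disc {φ : ℂ → ℂ} (hc : ContinuousOn φ (closedBall 0 1))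
    (hd : DifferentiableOn ℂ φ (ball 0 1)) (hi : InjOn φ (closedBall 0 1))
    (hN : ∀ (ζ : (Σ _ : ℕ, ℕ × ℤ) → ℂ) (c : (Σ _ : ℕ, ℕ × ℤ) → ℝ), (∀ i, ζ i ∈ φ '' sphere 0 1) →
      (∀ i, 0 ≤ c i) → Summable c → ∃ C : ℝ, ∀ ρ : ℝ, 1/2 ≤ ρ → ρ < 1 →
        ∫ θ in (0:ℝ)..2*π, log⁺ ‖∑' i, (c i : ℂ) * (ζ i - φ (circleMap 0 ρ θ))⁻¹‖ ≤ C) :
    ∫⁻ θ in Ico 0 (2*π), ⨆ r ∈ Ico (0:ℝ) 1,
      ENNReal.ofReal (log⁺ (‖deriv φ (circleMap 0 r θ)‖⁻¹)) ≠ ⊤ := by
  have hib : InjOn φ (ball 0 1) := hi.mono ball_subset_closedBall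
  have hne : φ '' ball 0 1 ≠ univ := by
    obtain ⟨ζ, -, h, -⟩ := exists_nearest_sphere hc hd hi (show (0:ℂ) ∈ ball (0:ℂ) 1 by simp)
    intro h'
    obtain ⟨w, hw, he⟩ : ζ ∈ φ '' ball 0 1 := h' ▸ mem_univ _
    exact h w hw he
  choose ζ hζΓ hζ using fun (n : ℕ) (j : ℤ) => exists_nearest_sphere hc hd hi (wI_mem n j)
  choose B hB using fun m : ℕ => exists_bound_inv hc hi (rad_lt_one (m+1))
  have hrad : ∀ m : ℕ, 1/2 ≤ rad (m+1) := by
    intro m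
    have := rad_mono (show 1 ≤ m + 1 by omega)
    refine le_trans (le_of_eq ?_) this
    unfold rad; norm_num
  obtain ⟨C₁, hC₁⟩ := l1_ubp
    (fun m (i : Σ _ : ℕ, ℕ × ℤ) θ => (ζ i.2.1 i.2.2 - φ (circleMap 0 (rad (m+1)) θ))⁻¹) B
    (fun m i θ => hB m _ (hζΓ _ _) _ (by
      rw [mem_closedBall, dist_zero_right, norm_circleMap_zero, abs_of_nonneg (rad_nonneg _)]))
    (fun m i => by
      refine Continuous.inv₀ (continuous_const.sub
        (continuousOn_circle hd.continuousOn (rad_nonneg _) (rad_lt_one _))) ?_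
      intro θ h0
      exact (hζ i.2.1 i.2.2).1 _ (circleMap_mem (rad_nonneg _) (rad_lt_one _) θ)
        (sub_eq_zero.1 h0).symm)
    (fun c hc0 hcs => by
      obtain ⟨C, hC⟩ := hN (fun i => ζ i.2.1 i.2.2) c (fun i => hζΓ _ _) hc0 hcs
      exact ⟨C, fun m => hC _ (hrad m) (rad_lt_one _)⟩)
  have hbound := fun K N => stop_sum_bound hd hib ζ hζ hC₁ K N
  have hdy := lintegral_iSup_le (fun n j => -Real.log ‖deriv φ (wI n j)‖) hbound
  have hfinal : ∫⁻ θ in Ico 0 (2*π), ⨆ r ∈ Ico (0:ℝ) 1,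
      ENNReal.ofReal (log⁺ (‖deriv φ (circleMap 0 r θ)‖⁻¹)) ≤
      ∫⁻ θ in Ico 0 (2*π), (ENNReal.ofReal (log⁺ (distC 16)) +
        ⨆ n, ENNReal.ofReal (-Real.log ‖deriv φ (wI n (idx n θ))‖)) :=
    lintegral_mono fun θ => radial_le_dyadic hd hib hne θ
  rw [lintegral_add_left measurable_const, setLIntegral_const, Real.volume_Ico] at hfinal
  refine ne_top_of_le_ne_top ?_ (hfinal.trans (add_le_add_right hdy _))
  exact ENNReal.add_ne_top.2 ⟨ENNReal.mul_ne_top ENNReal.ofReal_ne_top ENNReal.ofReal_ne_top,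
    ENNReal.ofReal_ne_top⟩

end Pool.Agent.Helper32.CN
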