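import Pool.Agent.Helper32.CN.Necess

open Complex Metric Set Filter Topology MeasureTheory Real

namespace Pool.Agent.Helper32.CN

/-- points below an arc satisfying `P` of generation at most `N` -/
def stopSet (P : ℕ → ℤ → Prop) (N : ℕ) : Set ℝ := ⋃ I ∈ stop P N, arc I.1 I.2

theorem measurableSet_stopSet (P : ℕ → ℤ → Prop) (N : ℕ) : MeasurableSet (stopSet P N) :=
  Finset.measurableSet_biUnion _ fun I _ => measurableSet_arc _ _

theorem mem_stopSet {P : ℕ → ℤ → Prop} {N : ℕ} {θ : ℝ} :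
    θ ∈ stopSet P N ↔ θ ∈ Ico 0 (2*π) ∧ ∃ n ≤ N, P n (idx n θ) := by
  unfold stopSet
  simp only [mem_iUnion, exists_prop]
  constructor
  · rintro ⟨I, hI, hθ⟩
    refine ⟨stop_subset hI hθ, I.1, (mem_stop.1 hI).1, ?_⟩
    rw [mem_arc_iff.1 hθ]
    exact (mem_stop.1 hI).2.2.2.1
  · rintro ⟨h1, h2⟩
    exact stop_cover h1.1 h1.2 h2

theorem stopSet_mono (P : ℕ → ℤ → Prop) : Monotone (stopSet P) := by
  intro N M h θ hθ
  rw [mem_stopSet] at hθ ⊢
  obtain ⟨h1, n, hn, h2⟩ := hθ
  exact ⟨h1, n, hn.trans h, h2⟩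

theorem volume_stopSet_le (P : ℕ → ℤ → Prop) (N : ℕ) :
    volume (stopSet P N) ≤ ENNReal.ofReal (∑ I ∈ stop P N, (2 * π / 2^I.1 : ℝ)) := by
  unfold stopSet
  refine (measure_biUnion_finset_le _ _).trans ?_
  rw [ENNReal.ofReal_sum_of_nonneg (fun I _ => by positivity)]
  exact Finset.sum_le_sum fun I _ => (volume_arc _ _).le

/-- abstract: from the stopping estimate to the integral of the dyadic maximal function -/
theorem lintegral_iSup_le (a : ℕ → ℤ → ℝ) {C : ℝ}
    (h : ∀ K N : ℕ, ∑ k ∈ Finset.range K, (2:ℝ)^k *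
      ∑ I ∈ stop (fun n j => (2:ℝ)^k < a n j) N, (2 * π / 2^I.1 : ℝ) ≤ C) :
    ∫⁻ θ in Ico 0 (2*π), ⨆ n, ENNReal.ofReal (a n (idx n θ)) ≤ ENNReal.ofReal (2 * π + C) := by
  set P : ℕ → ℕ → ℤ → Prop := fun k n j => (2:ℝ)^k < a n j with hP
  set A : ℕ → Set ℝ := fun k => ⋃ N, stopSet (P k) N with hA
  have hAm : ∀ k, MeasurableSet (A k) := fun k =>
    MeasurableSet.iUnion fun N => measurableSet_stopSet _ _
  have hC : 0 ≤ C := by simpa using h 0 0
  -- pointwise bound
  have hpt : ∀ θ ∈ Ico (0:ℝ) (2*π), ⨆ n, ENNReal.ofReal (a n (idx n θ)) ≤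
      1 + ∑' k, (A k).indicator (fun _ => (2:ENNReal)^k) θ := by
    intro θ hθ
    refine iSup_le fun n => ?_
    rcases le_or_gt (a n (idx n θ)) 1 with h1 | h1
    · refine le_trans ?_ le_self_add
      rw [← ENNReal.ofReal_one]
      exact ENNReal.ofReal_le_ofReal h1
    · -- choose k₀
      have hex : ∃ k : ℕ, a n (idx n θ) ≤ 2^k := by
        obtain ⟨k, hk⟩ := pow_unbounded_of_one_lt (a n (idx n θ)) (show (1:ℝ) < 2 by norm_num)
        exact ⟨k, hk.le⟩
      classical
      set k₀ := Nat.find hex with hk₀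
      have hk1 : a n (idx n θ) ≤ 2^k₀ := Nat.find_spec hex
      have hk2 : ∀ k < k₀, (2:ℝ)^k < a n (idx n θ) := fun k hk => not_le.1 (Nat.find_min hex hk)
      have hin : ∀ k < k₀, θ ∈ A k := by
        intro k hk
        refine mem_iUnion.2 ⟨n, mem_stopSet.2 ⟨hθ, n, le_rfl, hk2 k hk⟩⟩
      have h2 : ∑ k ∈ Finset.range k₀, (2:ENNReal)^k ≤
          ∑' k, (A k).indicator (fun _ => (2:ENNReal)^k) θ := by
        refine le_trans (le_of_eq ?_) (ENNReal.sum_le_tsum (Finset.range k₀))
        refine Finset.sum_congr rfl fun k hk => ?_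
        rw [indicator_of_mem (hin k (Finset.mem_range.1 hk))]
      have h3 : ENNReal.ofReal (a n (idx n θ)) ≤ 1 + ∑ k ∈ Finset.range k₀, (2:ENNReal)^k := by
        have h4 : (1 + ∑ k ∈ Finset.range k₀, (2:ENNReal)^k) = ENNReal.ofReal (2^k₀) := by
          have : ∀ m : ℕ, (1 + ∑ k ∈ Finset.range m, (2:ENNReal)^k) = 2^m := by
            intro m
            induction m with
            | zero => simp
            | succ m ih => rw [Finset.sum_range_succ, ← add_assoc, ih, pow_succ]; ring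
          rw [this, ENNReal.ofReal_pow (by norm_num)]
          simp
        rw [h4]
        exact ENNReal.ofReal_le_ofReal hk1
      exact h3.trans (add_le_add_right h2 1)
  refine (setLIntegral_mono' measurableSet_Ico hpt).trans ?_
  rw [lintegral_add_left measurable_const, lintegral_tsum (fun k =>
    (measurable_const.indicator (hAm k)).aemeasurable), setLIntegral_const, Real.volume_Ico,
    sub_zero, one_mul, ENNReal.ofReal_add (by positivity) hC]
  refine add_le_add_right ?_ _
  have hstep : ∀ k, ∫⁻ θ in Ico 0 (2*π), (A k).indicator (fun _ => (2:ENNReal)^k) θ ≤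
      2^k * volume (A k) := by
    intro k
    rw [← lintegral_indicator_const (hAm k)]
    exact setLIntegral_le_lintegral _ _
  refine (ENNReal.tsum_le_tsum hstep).trans ?_
  refine ENNReal.tsum_le_of_sum_range_le fun K => ?_
  have h1 : ∀ k, (2:ENNReal)^k * volume (A k) = ⨆ N, (2:ENNReal)^k * volume (stopSet (P k) N) := by
    intro k
    rw [← ENNReal.mul_iSup, ← (stopSet_mono (P k)).measure_iUnion]
  simp_rw [h1]
  rw [ENNReal.finsetSum_iSup_of_monotone]
  · refine iSup_le fun N => ?_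
    calc ∑ k ∈ Finset.range K, (2:ENNReal)^k * volume (stopSet (P k) N)
        ≤ ∑ k ∈ Finset.range K, ENNReal.ofReal ((2:ℝ)^k *
            ∑ I ∈ stop (P k) N, (2 * π / 2^I.1 : ℝ)) := by
          refine Finset.sum_le_sum fun k _ => ?_
          rw [ENNReal.ofReal_mul (by positivity), ENNReal.ofReal_pow (by norm_num)]
          simp only [ENNReal.ofReal_ofNat]
          exact mul_le_mul_right (volume_stopSet_le _ _) _
      _ = ENNReal.ofReal (∑ k ∈ Finset.range K, (2:ℝ)^k *
            ∑ I ∈ stop (P k) N, (2 * π / 2^I.1 : ℝ)) := by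
          rw [ENNReal.ofReal_sum_of_nonneg]
          intro k _
          exact mul_nonneg (by positivity) (Finset.sum_nonneg fun I _ => by positivity)
      _ ≤ ENNReal.ofReal C := ENNReal.ofReal_le_ofReal (h K N)
  · intro k N M hNM
    exact mul_le_mul_right (measure_mono (stopSet_mono (P k) hNM)) _

end Pool.Agent.Helper32.CN
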