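import Pool.Agent.Helper32.CN.Saw

open Complex Metric Set Filter Topology MeasureTheory
open scoped NNReal

namespace Pool.Agent.Helper32.CN

/-- the density `dη / (i η dθ)` of the sawtooth curve -/
noncomputable def bb (F : Set ℝ) (θ : ℝ) : ℂ := 1 + I * ((deriv (kap F) θ : ℝ) : ℂ)

theorem kap_lipschitz (F : Set ℝ) : LipschitzWith (1/16 : ℝ≥0) (kap F) := by
  refine LipschitzWith.of_dist_le_mul fun x y => ?_
  rw [Real.dist_eq, Real.dist_eq]
  have := kap_lip F x y
  simp
  linarith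

theorem abs_deriv_kap_le (F : Set ℝ) (θ : ℝ) : |deriv (kap F) θ| ≤ 1/16 := by
  have := norm_deriv_le_of_lipschitz (kap_lipschitz F) (x₀ := θ)
  simpa using this

theorem norm_bb_le (F : Set ℝ) (θ : ℝ) : ‖bb F θ‖ ≤ 2 := by
  unfold bb
  refine (norm_add_le _ _).trans ?_
  rw [norm_mul, Complex.norm_I, one_mul, Complex.norm_real, Real.norm_eq_abs, norm_one]
  have := abs_deriv_kap_le F θ
  linarith

theorem measurable_bb (F : Set ℝ) : Measurable (bb F) := by
  unfold bb
  exact measurable_const.add (measurable_const.mul (Complex.measurable_ofReal.comp (measurable_deriv _)))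

theorem ae_hasDerivAt_zz (F : Set ℝ) (s : ℝ) : ∀ᵐ θ : ℝ, HasDerivAt (zz F s) (bb F θ) θ := by
  filter_upwards [(kap_lipschitz F).ae_differentiableAt_real] with θ hθ
  have h1 : HasDerivAt (yy F s) (deriv (kap F) θ) θ := hθ.hasDerivAt.const_add s
  have h2 : HasDerivAt (fun t : ℝ => ((yy F s t : ℝ) : ℂ) * I) (((deriv (kap F) θ : ℝ) : ℂ) * I) θ :=
    h1.ofReal_comp.mul_const I
  have h3 : HasDerivAt (fun t : ℝ => (t : ℂ)) 1 θ := by
    simpa using (hasDerivAt_id θ).ofReal_comp
  unfold zz bb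
  convert! h3.add h2 using 1
  ring

theorem zz_lipschitz (F : Set ℝ) (s : ℝ) : LipschitzWith 2 (zz F s) := by
  refine LipschitzWith.of_dist_le_mul fun x y => ?_
  rw [dist_eq_norm, Real.dist_eq]
  have : zz F s x - zz F s y = ((x - y : ℝ) : ℂ) + ((yy F s x - yy F s y : ℝ) : ℂ) * I := by
    unfold zz; push_cast; ring
  rw [this]
  refine (norm_add_le _ _).trans ?_
  rw [norm_mul, Complex.norm_I, mul_one, Complex.norm_real, Complex.norm_real,
    Real.norm_eq_abs, Real.norm_eq_abs]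
  have := Saw.yy_lip (F := F) (s := s) x y
  have h0 := abs_nonneg (x - y)
  rw [NNReal.coe_ofNat]
  linarith

/-- FTC along the curve -/
theorem curve_ftc (F : Set ℝ) (s : ℝ) {G : ℂ → ℂ} (hG : ∀ θ, AnalyticAt ℂ G (zz F s θ))
    {g : ℝ → ℂ} (hg : ∀ θ, HasDerivAt G (g θ) (zz F s θ)) :
    IntervalIntegrable (fun θ => bb F θ * g θ) volume 0 (2 * Real.pi) ∧
    ∫ θ in (0:ℝ)..2 * Real.pi, bb F θ * g θ = G (zz F s (2 * Real.pi)) - G (zz F s 0) := by
  have hloc : LocallyLipschitzOn (Icc 0 (2 * Real.pi)) (fun θ => G (zz F s θ)) := by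
    intro θ _
    have h1 : ContDiffAt ℂ 1 G (zz F s θ) := (hG θ).contDiffAt
    obtain ⟨K, t, ht, hK⟩ := h1.exists_lipschitzOnWith
    refine ⟨K * 2, (zz F s) ⁻¹' t, ?_, ?_⟩
    · exact mem_nhdsWithin_of_mem_nhds ((zz_lipschitz F s).continuous.continuousAt ht)
    · exact hK.comp ((zz_lipschitz F s).lipschitzOnWith (s := (zz F s) ⁻¹' t)) (mapsTo_preimage _ _)
  obtain ⟨K, hK⟩ := hloc.exists_lipschitzOnWith_of_compact isCompact_Icc
  have hab : (0:ℝ) < 2 * Real.pi := by positivity
  refine ftc_lip hab hK ?_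
  filter_upwards [ae_hasDerivAt_zz F s] with θ hθ _
  have h1 := (hg θ).comp θ hθ
  convert! h1 using 1
  ring

namespace Saw

variable {φ : ℂ → ℂ} {F : Set ℝ} {s Λ : ℝ} (S : Saw φ F s Λ)
include S

theorem mem_ball (θ : ℝ) : exp (I * zz F s θ) ∈ ball (0:ℂ) 1 :=
  exp_I_mem (by rw [zz_im]; exact S.yy_pos θ)

theorem exp_zz_two_pi : exp (I * zz F s (2 * Real.pi)) = exp (I * zz F s 0) := by
  have := S.exp_zz_per 0 1
  simpa using this

theorem zz_two_pi : zz F s (2 * Real.pi) = zz F s 0 + 2 * Real.pi := by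
  have := S.zz_per 0 1
  simpa using this

theorem integral_bb : IntervalIntegrable (fun θ => bb F θ) volume 0 (2 * Real.pi) ∧
    ∫ θ in (0:ℝ)..2 * Real.pi, bb F θ = 2 * Real.pi := by
  have h := curve_ftc F s (G := fun z => z) (fun θ => analyticAt_id) (g := fun _ => 1)
    (fun θ => hasDerivAt_id _)
  simp only [mul_one] at h
  refine ⟨h.1, ?_⟩
  rw [h.2, S.zz_two_pi]
  ring

/-- integrals of periodic exact forms vanish -/
theorem integral_exact {q : ℂ → ℂ} (hq : DifferentiableOn ℂ q (ball 0 1)) :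
    IntervalIntegrable (fun θ => bb F θ * (I * exp (I * zz F s θ) * q (exp (I * zz F s θ))))
      volume 0 (2 * Real.pi) ∧
    ∫ θ in (0:ℝ)..2 * Real.pi,
      bb F θ * (I * exp (I * zz F s θ) * q (exp (I * zz F s θ))) = 0 := by
  obtain ⟨Q, hQ⟩ := hq.isExactOn_ball
  have hQd : DifferentiableOn ℂ Q (ball 0 1) := fun w hw =>
    (hQ w hw).differentiableAt.differentiableWithinAt
  have h := curve_ftc F s (G := fun z => Q (exp (I * z))) ?_
    (g := fun θ => I * exp (I * zz F s θ) * q (exp (I * zz F s θ))) ?_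
  · refine ⟨h.1, ?_⟩
    rw [h.2, S.exp_zz_two_pi, sub_self]
  · intro θ
    have h1 : AnalyticAt ℂ Q (exp (I * zz F s θ)) :=
      hQd.analyticAt (isOpen_ball.mem_nhds (S.mem_ball θ))
    have h2 : AnalyticAt ℂ (fun z => exp (I * z)) (zz F s θ) := by fun_prop
    exact AnalyticAt.comp (g := Q) (f := fun z => exp (I * z)) h1 h2
  · intro θ
    have h1 : HasDerivAt (fun z => exp (I * z)) (exp (I * zz F s θ) * I) (zz F s θ) := by
      simpa using ((hasDerivAt_id (zz F s θ)).const_mul I).cexp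
    have h3 := (hQ _ (S.mem_ball θ)).comp (zz F s θ) h1
    convert! h3 using 1
    ring

theorem slit {z₀ : ℂ} (hz : yy F s z₀.re < z₀.im) (θ : ℝ) :
    1 - exp (I * z₀) * exp (-(I * zz F s θ)) ∈ slitPlane := by
  by_contra hcon
  rw [Complex.mem_slitPlane_iff, not_or, not_lt, not_not] at hcon
  set u := exp (I * z₀) * exp (-(I * zz F s θ)) with hu
  have hre : 1 ≤ u.re := by
    have := hcon.1; rw [sub_re, one_re] at this; linarith
  have him : u.im = 0 := by
    have := hcon.2; rw [sub_im, one_im] at this; linarith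
  have hu' : u = (u.re : ℂ) := by
    apply Complex.ext
    · simp
    · simp [him]
  have hupos : 0 < u.re := by linarith
  have h1 : exp (I * z₀) = exp (I * (zz F s θ - Real.log u.re * I)) := by
    have e1 : I * (zz F s θ - Real.log u.re * I) = I * zz F s θ + Real.log u.re := by
      linear_combination (-(Real.log u.re : ℂ)) * I_mul_I
    rw [e1, Complex.exp_add, ← Complex.ofReal_exp, Real.exp_log hupos, ← hu', hu, Complex.exp_neg]
    have := Complex.exp_ne_zero (I * zz F s θ)
    field_simp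
  obtain ⟨k, hk⟩ := exp_I_eq h1
  have h2 : z₀ = zz F s (θ + k * (2 * Real.pi)) - Real.log u.re * I := by
    rw [S.zz_per, hk]; ring
  have h3 : z₀.re = θ + k * (2 * Real.pi) := by
    rw [h2]; simp
  have h4 : z₀.im = yy F s (θ + k * (2 * Real.pi)) - Real.log u.re := by
    rw [h2]; simp
  rw [h3, h4] at hz
  have := Real.log_nonneg hre
  linarith

theorem exp_ne {z₀ : ℂ} (hz : yy F s z₀.re < z₀.im) (θ : ℝ) :
    exp (I * zz F s θ) ≠ exp (I * z₀) := by
  intro h
  have h1 := S.slit hz θ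
  rw [← h, ← Complex.exp_add, add_neg_cancel, Complex.exp_zero, sub_self] at h1
  exact Complex.zero_notMem_slitPlane h1

/-- the pole term -/
theorem integral_pole {z₀ : ℂ} (hz : yy F s z₀.re < z₀.im) :
    IntervalIntegrable (fun θ => bb F θ *
      (exp (I * z₀) / (exp (I * zz F s θ) - exp (I * z₀)))) volume 0 (2 * Real.pi) ∧
    ∫ θ in (0:ℝ)..2 * Real.pi,
      bb F θ * (exp (I * z₀) / (exp (I * zz F s θ) - exp (I * z₀))) = 0 := by
  set w := exp (I * z₀) with hw
  have h := curve_ftc F s (G := fun z => -I * Complex.log (1 - w * exp (-(I * z)))) ?_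
    (g := fun θ => w / (exp (I * zz F s θ) - w)) ?_
  · refine ⟨h.1, ?_⟩
    rw [h.2]
    have e : exp (-(I * zz F s (2 * Real.pi))) = exp (-(I * zz F s 0)) := by
      rw [Complex.exp_neg, Complex.exp_neg, S.exp_zz_two_pi]
    rw [e, sub_self]
  · intro θ
    have h1 := S.slit hz θ
    have h2 : AnalyticAt ℂ (fun z => 1 - w * exp (-(I * z))) (zz F s θ) := by fun_prop
    exact analyticAt_const.mul (h2.clog h1)
  · intro θ
    have h1 := S.slit hz θ
    have h2 : HasDerivAt (fun z => exp (-(I * z))) (exp (-(I * zz F s θ)) * (-I)) (zz F s θ) := by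
      simpa using (((hasDerivAt_id (zz F s θ)).const_mul I).neg).cexp
    have h3 := ((h2.const_mul w).const_sub 1).clog h1
    have h4 := h3.const_mul (-I)
    convert! h4 using 1
    have hne := S.exp_ne hz θ
    have hne' : exp (I * zz F s θ) - w ≠ 0 := sub_ne_zero.2 hne
    have h0 : (1 - w * exp (-(I * zz F s θ))) ≠ 0 := Complex.slitPlane_ne_zero h1
    rw [Complex.exp_neg] at h0 ⊢
    have he := Complex.exp_ne_zero (I * zz F s θ)
    field_simp
    rw [I_sq]
    ring

theorem integral_pole' {z₀ : ℂ} (hz : yy F s z₀.re < z₀.im) :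
    IntervalIntegrable (fun θ => bb F θ *
      (exp (I * zz F s θ) / (exp (I * zz F s θ) - exp (I * z₀)))) volume 0 (2 * Real.pi) ∧
    ∫ θ in (0:ℝ)..2 * Real.pi,
      bb F θ * (exp (I * zz F s θ) / (exp (I * zz F s θ) - exp (I * z₀))) = 2 * Real.pi := by
  have e : (fun θ => bb F θ * (exp (I * zz F s θ) / (exp (I * zz F s θ) - exp (I * z₀)))) =
      fun θ => bb F θ + bb F θ * (exp (I * z₀) / (exp (I * zz F s θ) - exp (I * z₀))) := by
    ext θ
    have hne := sub_ne_zero.2 (S.exp_ne hz θ)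
    field_simp
    ring
  rw [e]
  refine ⟨S.integral_bb.1.add (S.integral_pole hz).1, ?_⟩
  rw [intervalIntegral.integral_add S.integral_bb.1 (S.integral_pole hz).1, S.integral_bb.2,
    (S.integral_pole hz).2, add_zero]

end Saw

end Pool.Agent.Helper32.CN
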