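import Pool.Agent.Helper32.CN.Arcs
import Pool.Agent.Helper32.CN.FTC

open Complex Metric Set Filter Topology MeasureTheory

namespace Pool.Agent.Helper32.CN

open Real in
theorem lip_of_local {f : ℝ → ℂ} {C ε : ℝ} (hε : 0 < ε)
    (h : ∀ x y, |x - y| ≤ ε → ‖f x - f y‖ ≤ C * |x - y|) (x y : ℝ) :
    ‖f x - f y‖ ≤ C * |x - y| := by
  obtain ⟨n, hn⟩ := exists_nat_gt (|x - y| / ε)
  have hn0 : (0:ℝ) < n := lt_of_le_of_lt (by positivity) hn
  have hn1 : n ≠ 0 := by rintro rfl; simp at hn0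
  set g : ℕ → ℝ := fun i => x + i * ((y - x) / n) with hg
  have hstep : ∀ i, |g i - g (i+1)| = |x - y| / n := by
    intro i
    have : g i - g (i+1) = (x - y) / n := by simp only [hg]; push_cast; ring
    rw [this, abs_div, abs_of_pos hn0]
  have hsmall : |x - y| / n ≤ ε := by
    rw [div_lt_iff₀ hε] at hn
    rw [div_le_iff₀ hn0]; linarith
  have h1 := dist_le_range_sum_dist (fun i => f (g i)) n
  have h2 : f (g 0) = f x := by simp [hg]
  have h3 : f (g n) = f y := by
    congr 1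
    simp only [hg]
    field_simp
    ring
  rw [h2, h3, dist_eq_norm] at h1
  refine h1.trans ?_
  calc ∑ i ∈ Finset.range n, dist (f (g i)) (f (g (i+1)))
      ≤ ∑ i ∈ Finset.range n, C * (|x - y| / n) := by
        refine Finset.sum_le_sum fun i _ => ?_
        rw [dist_eq_norm, ← hstep i]
        exact h _ _ (by rw [hstep]; exact hsmall)
    _ = C * |x - y| := by
        rw [Finset.sum_const, Finset.card_range, nsmul_eq_mul]
        field_simp

/-- slope-`1/16` height function over the good set -/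
noncomputable def kap (F : Set ℝ) (θ : ℝ) : ℝ := infDist θ F / 16

/-- height of the sawtooth curve -/
noncomputable def yy (F : Set ℝ) (s θ : ℝ) : ℝ := s + kap F θ

/-- the sawtooth curve in the upper half plane -/
noncomputable def zz (F : Set ℝ) (s θ : ℝ) : ℂ := θ + yy F s θ * I

/-- lift of `φ` to the upper half plane -/
noncomputable def Phi (φ : ℂ → ℂ) (z : ℂ) : ℂ := φ (exp (I * z))

/-- derivative of `Phi` -/
noncomputable def PhiD (φ : ℂ → ℂ) (z : ℂ) : ℂ := I * exp (I * z) * deriv φ (exp (I * z))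

/-- image of the sawtooth curve -/
noncomputable def XX (φ : ℂ → ℂ) (F : Set ℝ) (s θ : ℝ) : ℂ := Phi φ (zz F s θ)

@[simp] theorem zz_re (F : Set ℝ) (s θ : ℝ) : (zz F s θ).re = θ := by simp [zz]
@[simp] theorem zz_im (F : Set ℝ) (s θ : ℝ) : (zz F s θ).im = yy F s θ := by simp [zz]

open Real in
/-- The sawtooth set-up. -/
structure Saw (φ : ℂ → ℂ) (F : Set ℝ) (s Λ : ℝ) : Prop where
  hd : DifferentiableOn ℂ φ (ball 0 1)
  hi : InjOn φ (ball 0 1)
  hF : F.Nonempty
  hper : ∀ θ, θ + 2 * π ∈ F ↔ θ ∈ F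
  hs0 : 0 < s
  hs1 : s ≤ 7/20
  hΛ : 1 ≤ Λ
  hlow : ∀ z : ℂ, yy F s z.re / 2 ≤ z.im → Λ⁻¹ ≤ ‖deriv φ (exp (I * z))‖
  hup : ∀ z : ℂ, yy F s z.re / 2 ≤ z.im → ‖deriv φ (exp (I * z))‖ ≤ Λ

theorem kap_nonneg (F : Set ℝ) (θ : ℝ) : 0 ≤ kap F θ := by
  unfold kap; have := infDist_nonneg (x := θ) (s := F); positivity

theorem kap_lip (F : Set ℝ) (θ θ' : ℝ) : |kap F θ - kap F θ'| ≤ |θ - θ'| / 16 := by
  unfold kap
  rw [← sub_div, abs_div, abs_of_pos (show (0:ℝ) < 16 by norm_num)]
  have h := (lipschitz_infDist_pt F).dist_le_mul θ θ'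
  rw [Real.dist_eq, Real.dist_eq] at h
  simp at h
  gcongr

theorem norm_exp_I_mul (z : ℂ) : ‖exp (I * z)‖ = Real.exp (-z.im) := by
  rw [Complex.norm_exp]; simp

theorem exp_I_mem {z : ℂ} (h : 0 < z.im) : exp (I * z) ∈ ball (0:ℂ) 1 := by
  rw [mem_ball, dist_zero_right, norm_exp_I_mul, Real.exp_lt_one_iff]
  linarith

theorem exp_I_eq {z z' : ℂ} (h : exp (I * z) = exp (I * z')) : ∃ k : ℤ, z = z' + k * (2 * Real.pi) := by
  obtain ⟨k, hk⟩ := Complex.exp_eq_exp_iff_exists_int.1 h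
  refine ⟨k, ?_⟩
  have : I * z = I * (z' + k * (2 * Real.pi)) := by rw [hk]; ring
  exact mul_left_cancel₀ I_ne_zero this

theorem exp_I_circleMap (θ v : ℝ) : exp (I * (θ + v * I)) = circleMap 0 (Real.exp (-v)) θ := by
  rw [circleMap, zero_add, Complex.ofReal_exp, ← Complex.exp_add]
  congr 1
  push_cast
  linear_combination (v : ℂ) * I_mul_I

namespace Saw

variable {φ : ℂ → ℂ} {F : Set ℝ} {s Λ : ℝ} (S : Saw φ F s Λ)
include S

theorem Λpos : 0 < Λ := lt_of_lt_of_le one_pos S.hΛ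

theorem hper' (θ : ℝ) (k : ℤ) : θ + k * (2 * Real.pi) ∈ F ↔ θ ∈ F := by
  induction k using Int.induction_on with
  | zero => simp
  | succ i ih =>
    have := S.hper (θ + i * (2 * Real.pi))
    push_cast at ih ⊢
    rw [← ih, ← this]
    ring_nf
  | pred i ih =>
    have := S.hper (θ + (-(i:ℝ) - 1) * (2 * Real.pi))
    push_cast at ih ⊢
    rw [← ih, ← this]
    ring_nf

theorem infDist_per (θ : ℝ) (k : ℤ) : infDist (θ + k * (2 * Real.pi)) F = infDist θ F := by
  have key : ∀ (θ : ℝ) (k : ℤ), infDist (θ + k * (2 * Real.pi)) F ≤ infDist θ F := by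
    intro θ k
    rw [le_infDist S.hF]
    intro y hy
    have h1 := (S.hper' y k).2 hy
    refine (infDist_le_dist_of_mem h1).trans (le_of_eq ?_)
    rw [Real.dist_eq, Real.dist_eq]
    congr 1; ring
  refine le_antisymm (key θ k) ?_
  have := key (θ + k * (2 * Real.pi)) (-k)
  push_cast at this
  have e : θ + k * (2 * Real.pi) + -(k:ℝ) * (2 * Real.pi) = θ := by ring
  rwa [e] at this

theorem kap_per (θ : ℝ) (k : ℤ) : kap F (θ + k * (2 * Real.pi)) = kap F θ := by
  unfold kap; rw [S.infDist_per]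

theorem yy_per (θ : ℝ) (k : ℤ) : yy F s (θ + k * (2 * Real.pi)) = yy F s θ := by
  unfold yy; rw [S.kap_per]

theorem kap_le (θ : ℝ) : kap F θ ≤ 1/5 := by
  unfold kap
  obtain ⟨f, hf⟩ := S.hF
  have hπ : (0:ℝ) < 2 * Real.pi := by positivity
  set k := round ((θ - f) / (2 * Real.pi)) with hk
  have h1 := (S.hper' f k).2 hf
  have h2 := infDist_le_dist_of_mem (x := θ) h1
  have h3 := abs_sub_round ((θ - f) / (2 * Real.pi))
  have h4 : dist θ (f + k * (2 * Real.pi)) ≤ Real.pi := by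
    rw [Real.dist_eq]
    have : θ - (f + k * (2 * Real.pi)) = ((θ - f) / (2 * Real.pi) - k) * (2 * Real.pi) := by
      field_simp
      ring
    rw [this, abs_mul, abs_of_pos hπ]
    calc |(θ - f) / (2 * Real.pi) - k| * (2 * Real.pi) ≤ (1/2) * (2 * Real.pi) :=
          mul_le_mul_of_nonneg_right h3 hπ.le
      _ = Real.pi := by ring
  have := Real.pi_lt_d2
  linarith

theorem yy_pos (θ : ℝ) : 0 < yy F s θ := by
  unfold yy; have := kap_nonneg F θ; have := S.hs0; linarith

omit S in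
theorem s_le_yy (θ : ℝ) : s ≤ yy F s θ := by
  unfold yy; have := kap_nonneg F θ; linarith

theorem yy_le (θ : ℝ) : yy F s θ ≤ 11/20 := by
  unfold yy; have := S.kap_le θ; have := S.hs1; linarith

omit S in
theorem yy_lip (θ θ' : ℝ) : |yy F s θ - yy F s θ'| ≤ |θ - θ'| / 16 := by
  unfold yy
  have := kap_lip F θ θ'
  rwa [add_sub_add_left_eq_sub]

theorem zz_per (θ : ℝ) (k : ℤ) : zz F s (θ + k * (2 * Real.pi)) = zz F s θ + k * (2 * Real.pi) := by
  unfold zz; rw [S.yy_per]; push_cast; ring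

theorem exp_zz_per (θ : ℝ) (k : ℤ) :
    exp (I * zz F s (θ + k * (2 * Real.pi))) = exp (I * zz F s θ) := by
  rw [S.zz_per, Complex.exp_eq_exp_iff_exists_int]
  exact ⟨k, by ring⟩

theorem hasDerivAt_Phi {z : ℂ} (hz : 0 < z.im) : HasDerivAt (Phi φ) (PhiD φ z) z := by
  have h1 : HasDerivAt (fun z => exp (I * z)) (exp (I * z) * I) z := by
    simpa using ((hasDerivAt_id z).const_mul I).cexp
  have h2 : HasDerivAt φ (deriv φ (exp (I * z))) (exp (I * z)) :=
    (S.hd.differentiableAt (isOpen_ball.mem_nhds (exp_I_mem hz))).hasDerivAt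
  have h3 := h2.comp z h1
  unfold PhiD
  convert! h3 using 1
  ring

omit S in
theorem norm_PhiD (z : ℂ) : ‖PhiD φ z‖ = Real.exp (-z.im) * ‖deriv φ (exp (I * z))‖ := by
  unfold PhiD
  rw [norm_mul, norm_mul, Complex.norm_I, one_mul, norm_exp_I_mul]

theorem norm_PhiD_le {z : ℂ} (hz : yy F s z.re / 2 ≤ z.im) : ‖PhiD φ z‖ ≤ Λ := by
  rw [norm_PhiD]
  have h0 : 0 ≤ z.im := by have := S.yy_pos z.re; linarith
  have h1 : Real.exp (-z.im) ≤ 1 := by rw [Real.exp_le_one_iff]; linarith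
  have h2 := S.hup z hz
  calc _ ≤ 1 * Λ := mul_le_mul h1 h2 (norm_nonneg _) (by norm_num)
    _ = Λ := one_mul _

theorem le_norm_PhiD {z : ℂ} (hz : yy F s z.re / 2 ≤ z.im) (hz1 : z.im ≤ 1) :
    1 / (3 * Λ) ≤ ‖PhiD φ z‖ := by
  rw [norm_PhiD]
  have h2 := S.hlow z hz
  have h3 : (1/3 : ℝ) ≤ Real.exp (-z.im) := by
    have h4 : Real.exp (-1) ≤ Real.exp (-z.im) := Real.exp_le_exp.2 (by linarith)
    have h5 : (1/3:ℝ) ≤ Real.exp (-1) := by
      rw [Real.exp_neg, one_div]
      apply inv_anti₀ (Real.exp_pos 1)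
      have := Real.exp_one_lt_d9
      linarith
    linarith
  calc 1 / (3 * Λ) = (1/3) * Λ⁻¹ := by rw [one_div, mul_inv]; ring
    _ ≤ _ := mul_le_mul h3 h2 (by have := S.Λpos; positivity) (Real.exp_pos _).le

/-- segments inside the region -/
theorem segment_le {z z' : ℂ} (h : ∀ u ∈ segment ℝ z z', yy F s u.re / 2 ≤ u.im) :
    ‖Phi φ z - Phi φ z'‖ ≤ Λ * ‖z - z'‖ := by
  refine (convex_segment z z').norm_image_sub_le_of_norm_hasDerivWithin_le (f := Phi φ)
    (f' := PhiD φ) ?_ ?_ (right_mem_segment ℝ z z') (left_mem_segment ℝ z z')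
  · intro u hu
    have h1 := h u hu
    have h2 := S.yy_pos u.re
    exact (S.hasDerivAt_Phi (by linarith)).hasDerivWithinAt
  · intro u hu
    exact S.norm_PhiD_le (h u hu)

/-- vertical segments -/
theorem vertical_le {θ v v' : ℝ} (hv : yy F s θ ≤ v) (hv' : yy F s θ ≤ v') :
    ‖Phi φ (θ + v * I) - Phi φ (θ + v' * I)‖ ≤ Λ * |v - v'| := by
  refine (S.segment_le (z := θ + v * I) (z' := θ + v' * I) ?_).trans (le_of_eq ?_)
  · rintro u ⟨a, b, ha, hb, hab, rfl⟩
    have hpos := S.yy_pos θ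
    simp only [real_smul, add_re, mul_re, ofReal_re, ofReal_im, I_re, mul_zero, I_im, mul_one,
      sub_self, add_zero, add_im, mul_im, zero_mul, sub_zero, zero_add]
    have : a * θ + b * θ = θ := by rw [← add_mul, hab, one_mul]
    rw [this]
    nlinarith
  · congr 1
    have : (θ + v * I : ℂ) - (θ + v' * I) = ((v - v' : ℝ) : ℂ) * I := by push_cast; ring
    rw [this, norm_mul, Complex.norm_I, mul_one, Complex.norm_real, Real.norm_eq_abs]

theorem XX_lip (θ θ' : ℝ) : ‖XX φ F s θ - XX φ F s θ'‖ ≤ 2 * Λ * |θ - θ'| := by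
  refine lip_of_local S.hs0 (C := 2 * Λ) ?_ θ θ'
  intro x y hxy
  unfold XX
  have hΛ := S.Λpos
  refine (S.segment_le ?_).trans ?_
  · rintro u ⟨a, b, ha, hb, hab, rfl⟩
    simp only [zz, real_smul, add_re, mul_re, ofReal_re, ofReal_im, I_re, mul_zero, I_im, mul_one,
      sub_self, add_zero, add_im, mul_im, zero_mul, sub_zero, zero_add]
    have h1 := yy_lip (F := F) (s := s) (a * x + b * y) x
    have h2 := yy_lip (F := F) (s := s) (a * x + b * y) y
    have e1 : a * x + b * y - x = b * (y - x) := by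
      have : a = 1 - b := by linarith
      rw [this]; ring
    have e2 : a * x + b * y - y = a * (x - y) := by
      have : b = 1 - a := by linarith
      rw [this]; ring
    rw [e1, abs_mul, abs_of_nonneg hb, abs_sub_comm y x] at h1
    rw [e2, abs_mul, abs_of_nonneg ha] at h2
    have h3 := (abs_le.1 h1).2
    have h4 := (abs_le.1 h2).2
    have h5 := s_le_yy (F := F) (s := s) (a * x + b * y)
    have ha1 : a ≤ 1 := by linarith
    have hb1 : b ≤ 1 := by linarith
    have h0 := abs_nonneg (x - y)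
    have h6 : yy F s (a * x + b * y) - yy F s x ≤ s / 16 := by nlinarith
    have h7 : yy F s (a * x + b * y) - yy F s y ≤ s / 16 := by nlinarith
    have h8 : a * (yy F s (a * x + b * y) - s/16) ≤ a * yy F s x :=
      mul_le_mul_of_nonneg_left (by linarith) ha
    have h9 : b * (yy F s (a * x + b * y) - s/16) ≤ b * yy F s y :=
      mul_le_mul_of_nonneg_left (by linarith) hb
    have h10 : a * (yy F s (a * x + b * y) - s/16) + b * (yy F s (a * x + b * y) - s/16) =
        yy F s (a * x + b * y) - s/16 := by rw [← add_mul, hab, one_mul]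
    have := S.hs0
    linarith
  · have h1 : ‖zz F s x - zz F s y‖ ≤ 2 * |x - y| := by
      have : zz F s x - zz F s y = ((x - y : ℝ) : ℂ) + ((yy F s x - yy F s y : ℝ) : ℂ) * I := by
        unfold zz; push_cast; ring
      rw [this]
      refine (norm_add_le _ _).trans ?_
      rw [norm_mul, Complex.norm_I, mul_one, Complex.norm_real, Complex.norm_real,
        Real.norm_eq_abs, Real.norm_eq_abs]
      have := yy_lip (F := F) (s := s) x y
      have h0 := abs_nonneg (x - y)
      linarith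
    nlinarith

/-- separation of a point above the curve from the curve -/
theorem separation {z₀ : ℂ} {τ : ℝ} (hτ : z₀.im = yy F s z₀.re + τ) (hτ0 : 0 < τ) (hτ1 : τ ≤ 2/5)
    (θ : ℝ) : τ / (216 * Λ) ≤ ‖XX φ F s θ - Phi φ z₀‖ := by
  have hΛ := S.Λpos
  have him : ∀ z ∈ ball z₀ (τ/2), yy F s z.re < z.im := by
    intro z hz
    rw [mem_ball, dist_eq_norm] at hz
    have h1 := (abs_re_le_norm (z - z₀)).trans_lt hz
    have h2 := (abs_im_le_norm (z - z₀)).trans_lt hz
    rw [sub_re] at h1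
    rw [sub_im] at h2
    have h3 := yy_lip (F := F) (s := s) z.re z₀.re
    have h4 := (abs_le.1 h3).2
    have h5 := (abs_lt.1 h2).1
    linarith
  have hdiff : DifferentiableOn ℂ (Phi φ) (ball z₀ (τ/2)) := by
    intro z hz
    have := him z hz
    have := S.yy_pos z.re
    exact (S.hasDerivAt_Phi (by linarith)).differentiableAt.differentiableWithinAt
  have hinj : InjOn (Phi φ) (ball z₀ (τ/2)) := by
    intro z hz z' hz' he
    have h1 := him z hz
    have h1' := him z' hz'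
    have h2 := S.yy_pos z.re
    have h2' := S.yy_pos z'.re
    have h3 := S.hi (exp_I_mem (show 0 < z.im by linarith)) (exp_I_mem (show 0 < z'.im by linarith)) he
    obtain ⟨k, hk⟩ := exp_I_eq h3
    have h4 : ‖z - z'‖ < τ := by
      rw [mem_ball, dist_eq_norm] at hz hz'
      have : z - z' = (z - z₀) - (z' - z₀) := by ring
      rw [this]
      refine (norm_sub_le _ _).trans_lt ?_
      linarith
    have h5 : z - z' = ((k * (2 * Real.pi) : ℝ) : ℂ) := by rw [hk]; push_cast; ring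
    rw [h5, Complex.norm_real, Real.norm_eq_abs, abs_mul, abs_of_pos (by positivity : (0:ℝ) < 2 * Real.pi)] at h4
    have hk0 : k = 0 := by
      by_contra hne
      have h6 : (1:ℝ) ≤ |(k:ℝ)| := by
        rw [← Int.cast_abs]; exact_mod_cast Int.one_le_abs hne
      have := Real.pi_gt_three
      nlinarith
    rw [hk, hk0]; simp
  have hζ : XX φ F s θ ∉ Phi φ '' ball z₀ (τ/2) := by
    rintro ⟨z, hz, he⟩
    have h1 := him z hz
    have h2 := S.yy_pos z.re
    have h3 := S.yy_pos θ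
    have h4 := S.hi (exp_I_mem (show 0 < z.im by linarith))
      (exp_I_mem (z := zz F s θ) (by rw [zz_im]; exact h3)) he
    obtain ⟨k, hk⟩ := exp_I_eq h4
    rw [← S.zz_per] at hk
    rw [hk, zz_re, zz_im] at h1
    exact lt_irrefl _ h1
  have h1 := radius_mul_deriv_le (by linarith) hdiff hinj hζ
  have h0 := S.yy_pos z₀.re
  rw [(S.hasDerivAt_Phi (z := z₀) (by linarith)).deriv] at h1
  have h2 := S.le_norm_PhiD (z := z₀) (by linarith) (by have := S.yy_le z₀.re; linarith)
  rw [norm_sub_rev] at h1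
  have h3 : τ/2 * (1 / (3 * Λ)) ≤ 36 * ‖XX φ F s θ - Phi φ z₀‖ :=
    (mul_le_mul_of_nonneg_left h2 (by linarith)).trans h1
  have h4 : τ / (216 * Λ) = (τ/2 * (1 / (3 * Λ))) / 36 := by field_simp; norm_num
  rw [h4]
  linarith

theorem vertical_XX (θ : ℝ) {τ : ℝ} (hτ : 0 ≤ τ) :
    ‖Phi φ (zz F s θ + τ * I) - XX φ F s θ‖ ≤ Λ * τ := by
  have h := S.vertical_le (θ := θ) (v := yy F s θ + τ) (v' := yy F s θ) (by linarith) le_rfl
  rw [add_sub_cancel_left, abs_of_nonneg hτ] at h
  unfold XX zz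
  convert h using 4
  push_cast; ring

end Saw

end Pool.Agent.Helper32.CN
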