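import Pool.Agent.Helper32.CN.Saw
import Pool.Agent.Helper32.CN.NecessFinal

open Complex Metric Set Filter Topology MeasureTheory

namespace Pool.Agent.Helper32.CN

open Real in
/-- good set: the derivative at all reference points up to generation `N` is within `e^{±K}` -/
noncomputable def goodF (φ : ℂ → ℂ) (K : ℝ) (N : ℕ) : Set ℝ :=
  {θ | ∀ n ≤ N, |Real.log ‖deriv φ (wI n (idx n θ))‖| ≤ K}

open Real in
theorem idx_add_two_pi (n : ℕ) (θ : ℝ) : idx n (θ + 2 * π) = idx n θ + 2^n := by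
  unfold idx
  have hp : (2 * π) ≠ 0 := by positivity
  have e : (θ + 2 * π) / (2 * π) * 2^n = θ / (2 * π) * 2^n + ((2^n : ℤ) : ℝ) := by
    push_cast
    field_simp
  rw [e, Int.floor_add_intCast]

open Real in
theorem wI_add (n : ℕ) (j : ℤ) : wI n (j + 2^n) = wI n j := by
  unfold wI
  have e : ang n (j + 2^n) = ang n j + 2 * π := by
    unfold ang
    push_cast
    have h2 : ((2:ℝ)^n) ≠ 0 := by positivity
    field_simp
    ring
  rw [e]
  exact periodic_circleMap 0 (rad n) (ang n j)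

theorem wI_zero (j : ℤ) : wI 0 j = 0 := by
  unfold wI rad
  simp [circleMap]

open Real in
theorem goodF_per (φ : ℂ → ℂ) (K : ℝ) (N : ℕ) (θ : ℝ) :
    θ + 2 * π ∈ goodF φ K N ↔ θ ∈ goodF φ K N := by
  unfold goodF
  simp only [Set.mem_ofPred_eq, idx_add_two_pi, wI_add]

/-- comparison of the derivative on the sawtooth region with the one at good reference points -/
theorem goodF_comp {φ : ℂ → ℂ} (hd : DifferentiableOn ℂ φ (ball 0 1))
    (hi : InjOn φ (ball 0 1)) (hne : φ '' ball 0 1 ≠ univ) {K : ℝ} {N : ℕ} {s : ℝ} (hs0 : 0 < s)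
    (hN : ((2:ℝ)^N)⁻¹ ≤ 1 - Real.exp (-(s/2))) (hF : (goodF φ K N).Nonempty) {z : ℂ}
    (hz : yy (goodF φ K N) s z.re / 2 ≤ z.im) :
    ∃ u ∈ ball (0:ℂ) 1, |Real.log ‖deriv φ u‖| ≤ K ∧
      ‖deriv φ u‖ ≤ distC 100 * ‖deriv φ (exp (I * z))‖ ∧
      ‖deriv φ (exp (I * z))‖ ≤ distC 100 * ‖deriv φ u‖ := by
  set F := goodF φ K N with hFdef
  set v := z.im with hv
  have hsy := Saw.s_le_yy (F := F) (s := s) z.re
  have hv0 : s / 2 ≤ v := by linarith
  have hvpos : 0 < v := by linarith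
  have hzeq : z = z.re + v * I := (re_add_im z).symm
  have hw : exp (I * z) = circleMap 0 (Real.exp (-v)) z.re := by
    conv_lhs => rw [hzeq]
    exact exp_I_circleMap _ _
  set r := Real.exp (-v) with hr
  have hr0 : 0 < r := Real.exp_pos _
  have hr1 : r < 1 := by rw [hr, Real.exp_lt_one_iff]; linarith
  have hNr : ((2:ℝ)^N)⁻¹ ≤ 1 - r := by
    have : r ≤ Real.exp (-(s/2)) := Real.exp_le_exp.2 (by linarith)
    linarith
  obtain ⟨n, hn1, hn2⟩ := exists_gen hr0.le hr1
  have hnN : n ≤ N := by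
    by_contra h
    push Not at h
    have h1 : ((2:ℝ)^n)⁻¹ < ((2:ℝ)^N)⁻¹ :=
      inv_strictAnti₀ (by positivity) (pow_lt_pow_right₀ (by norm_num) h)
    linarith
  have hwn : ‖exp (I * z)‖ = r := by rw [norm_exp_I_mul]
  have hwb : exp (I * z) ∈ ball (0:ℂ) 1 := exp_I_mem hvpos
  -- the good angle
  have hkap : kap F z.re ≤ 2 * v - s := by unfold yy at hz; linarith
  have hdist : infDist z.re F < 33 * v := by unfold kap at hkap; linarith
  obtain ⟨θ', hθ'F, hθ'⟩ := (infDist_lt_iff hF).1 hdist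
  refine ⟨wI n (idx n θ'), wI_mem _ _, hθ'F n hnN, ?_⟩
  have h2 : (0:ℝ) < (2^n)⁻¹ := by positivity
  have h3 : ((2:ℝ)^(n+1))⁻¹ = (2^n)⁻¹/2 := by rw [pow_succ, mul_inv]; ring
  rw [h3] at hn1
  have hn0 : ‖wI n (idx n θ')‖ = 1 - (2^n)⁻¹ := norm_wI _ _
  have hclose : ‖exp (I * z) - wI n (idx n θ')‖ ≤ 100 * (1 - r) := by
    rcases Nat.eq_zero_or_pos n with h | h
    · subst h
      rw [wI_zero, sub_zero, hwn]
      norm_num at hn1
      linarith
    · have hhalf : ((2:ℝ)^n)⁻¹ ≤ 1/2 := by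
        have : (2:ℝ)^1 ≤ 2^n := pow_le_pow_right₀ (by norm_num) h
        rw [pow_one] at this
        rw [one_div]
        exact inv_anti₀ (by norm_num) this
      have hr2 : 1/2 ≤ r := by linarith
      have hv1 : v ≤ 2 * (1 - r) := by
        have h4 : Real.log r = -v := by rw [hr, Real.log_exp]
        have h5 : 1 - r⁻¹ ≤ Real.log r := Real.one_sub_inv_le_log_of_pos hr0
        have h6 : r⁻¹ - 1 ≤ 2 * (1 - r) := by
          rw [sub_le_iff_le_add, inv_le_iff_one_le_mul₀ hr0]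
          nlinarith
        linarith
      rw [hw]
      have h7 : ‖circleMap 0 r z.re - circleMap 0 r θ'‖ ≤ 33 * v := by
        refine (norm_circleMap_sub_le hr0.le hr1.le _ _).trans ?_
        rw [sub_self, abs_zero, zero_add]
        rw [Real.dist_eq] at hθ'
        exact hθ'.le
      have h8 : ‖circleMap 0 r θ' - wI n (idx n θ')‖ ≤ 8 * (2^n)⁻¹ :=
        norm_wI_sub_le (by rw [h3]; exact hn1) hn2 hr0.le hr1
      have h9 : ‖circleMap 0 r z.re - wI n (idx n θ')‖ ≤ 33 * v + 8 * (2^n)⁻¹ := by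
        calc _ = ‖(circleMap 0 r z.re - circleMap 0 r θ') +
            (circleMap 0 r θ' - wI n (idx n θ'))‖ := by congr 1; ring
          _ ≤ _ := norm_add_le _ _
          _ ≤ _ := add_le_add h7 h8
      linarith
  constructor
  · refine distortion hd hi hne (by norm_num) (by rw [hwn]; exact hr1)
      (by rw [hn0]; linarith) ?_ ?_ ?_
    · rw [hn0, hwn]; linarith
    · rw [hn0, hwn]; linarith
    · rw [hn0]; linarith
  · refine distortion hd hi hne (by norm_num) (by rw [hn0]; linarith)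
      (by rw [hwn]; exact hr1) ?_ ?_ ?_
    · rw [hn0, hwn]; linarith
    · rw [hn0, hwn]; linarith
    · rw [hwn, norm_sub_rev]; exact hclose

/-- constant of the sawtooth construction -/
noncomputable def sawC : ℝ := max 1 (distC 100)

theorem one_le_sawC : 1 ≤ sawC := le_max_left _ _

theorem saw_goodF {φ : ℂ → ℂ} (hd : DifferentiableOn ℂ φ (ball 0 1))
    (hi : InjOn φ (ball 0 1)) (hne : φ '' ball 0 1 ≠ univ) {K : ℝ} (hK : 0 ≤ K) {N : ℕ} {s : ℝ}
    (hs0 : 0 < s) (hs1 : s ≤ 7/20) (hN : ((2:ℝ)^N)⁻¹ ≤ 1 - Real.exp (-(s/2)))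
    (hF : (goodF φ K N).Nonempty) : Saw φ (goodF φ K N) s (sawC * Real.exp K) where
  hd := hd
  hi := hi
  hF := hF
  hper := goodF_per φ K N
  hs0 := hs0
  hs1 := hs1
  hΛ := by
    have h1 := one_le_sawC
    have h2 : 1 ≤ Real.exp K := Real.one_le_exp hK
    nlinarith
  hlow := by
    intro z hz
    obtain ⟨u, hu, hlog, h1, h2⟩ := goodF_comp hd hi hne hs0 hN hF hz
    have hup : 0 < ‖deriv φ u‖ := norm_pos_iff.2 (deriv_ne_zero hd hi hu)
    have h3 : Real.exp (-K) ≤ ‖deriv φ u‖ := by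
      rw [← Real.exp_log hup]
      exact Real.exp_le_exp.2 (by linarith [(abs_le.1 hlog).1])
    have h4 : distC 100 ≤ sawC := le_max_right _ _
    have h5 : Real.exp (-K) ≤ sawC * ‖deriv φ (exp (I * z))‖ :=
      h3.trans (h1.trans (mul_le_mul_of_nonneg_right h4 (norm_nonneg _)))
    have h6 : 0 < sawC := by have := one_le_sawC; linarith
    rw [inv_le_iff_one_le_mul₀ (by positivity)]
    have h7 : Real.exp (-K) * Real.exp K = 1 := by rw [← Real.exp_add]; simp
    calc 1 = Real.exp (-K) * Real.exp K := h7.symm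
      _ ≤ (sawC * ‖deriv φ (exp (I * z))‖) * Real.exp K :=
        mul_le_mul_of_nonneg_right h5 (Real.exp_pos _).le
      _ = _ := by ring
  hup := by
    intro z hz
    obtain ⟨u, hu, hlog, h1, h2⟩ := goodF_comp hd hi hne hs0 hN hF hz
    have hup : 0 < ‖deriv φ u‖ := norm_pos_iff.2 (deriv_ne_zero hd hi hu)
    have h3 : ‖deriv φ u‖ ≤ Real.exp K := by
      rw [← Real.exp_log hup]
      exact Real.exp_le_exp.2 (by linarith [(abs_le.1 hlog).2])
    have h4 : distC 100 ≤ sawC := le_max_right _ _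
    have h6 : 0 < sawC := by have := one_le_sawC; linarith
    calc _ ≤ _ := h2
      _ ≤ sawC * Real.exp K := mul_le_mul h4 h3 (norm_nonneg _) h6.le

end Pool.Agent.Helper32.CN
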