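import Pool.Agent.Helper32.CN.UBfin
import Pool.Agent.Helper32.CN.Geo
import Pool.Agent.Helper32.CN.Line

open Complex Metric Set Filter Topology MeasureTheory

namespace Pool.Agent.Helper32.CN

open Real in
/-- **Uniform bound.** The logarithmic means of Cauchy sums with total mass one are bounded,
uniformly in the radius and the sum, when the maximal function of `log⁺ (1/|φ'|)` is integrable. -/
theorem ub_atoms {Γ : Set ℂ} {φ : ℂ → ℂ} (hφ : DifferentiableOn ℂ φ (ball 0 1))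
    (hinj : InjOn φ (ball 0 1)) (hb : Bornology.IsBounded (φ '' ball 0 1)) (γ : ℝ → ℂ)
    (hγ : ContinuousOn γ (Icc 0 1)) (hlen : eVariationOn γ (Icc 0 1) ≠ ⊤) (hΓ : Γ = γ '' Icc 0 1)
    (hdisj : Disjoint (φ '' ball 0 1) Γ) (hfr : frontier (φ '' ball 0 1) ⊆ Γ)
    (hM : ∫⁻ θ in Ico 0 (2 * π), ⨆ r ∈ Ico (0:ℝ) 1,
      ENNReal.ofReal (Real.log (‖deriv φ (circleMap 0 r θ)‖⁻¹)) ≠ ⊤) :
    ∃ C : ℝ, ∀ (J : Finset ℕ) (ζ c : ℕ → ℂ), (∀ j ∈ J, ζ j ∈ Γ) → ∑ j ∈ J, ‖c j‖ ≤ 1 →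
      ∀ r, 1/2 ≤ r → r < 1 →
        Real.circleAverage (fun z => Real.posLog ‖∑ j ∈ J, c j * (ζ j - φ z)⁻¹‖) 0 r ≤ C := by
  have hcomp : IsCompact Γ := hΓ ▸ isCompact_Icc.image_of_continuousOn hγ
  obtain ⟨C, hC⟩ := exists_oscBound (fun φ h1 h2 h3 => ae_line h1 h2 h3) hφ hinj hb hγ hlen
    (hΓ ▸ hfr)
  exact ub_of_osc hφ hinj hdisj hcomp.isBounded hb hC hM

end Pool.Agent.Helper32.CN
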