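import Pool.Agent.Helper32.CN.UBaux

open Complex Metric Set Filter Topology MeasureTheory

namespace Pool.Agent.Helper32.CN

open Real in
theorem lintegral_mx_lt {φ : ℂ → ℂ} (hd : DifferentiableOn ℂ φ (ball 0 1))
    (hi : InjOn φ (ball 0 1)) (hne : φ '' ball 0 1 ≠ univ) {C : ℝ} (hC : OscBound φ C)
    (hM : ∫⁻ θ in Ico 0 (2 * π), ⨆ r ∈ Ico (0:ℝ) 1,
      ENNReal.ofReal (Real.log (‖deriv φ (circleMap 0 r θ)‖⁻¹)) ≠ ⊤) :
    ∫⁻ θ, mx φ θ ∂ν0 ≠ ⊤ := by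
  unfold ν0
  have hpt : ∀ θ, mx φ θ ≤ (⨆ n, ENNReal.ofReal (Real.log ‖deriv φ (wI n (idx n θ))‖)) +
      (ENNReal.ofReal (log⁺ (distC 16)) +
        ⨆ r ∈ Ico (0:ℝ) 1, ENNReal.ofReal (Real.log (‖deriv φ (circleMap 0 r θ)‖⁻¹))) := by
    intro θ
    refine le_trans ?_ (add_le_add_right (mminus_le hd hi hne θ) _)
    unfold mx
    refine iSup_le fun n => ?_
    rcases le_total 0 (Real.log ‖deriv φ (wI n (idx n θ))‖) with h | h
    · rw [abs_of_nonneg h]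
      exact le_add_right (le_iSup (fun n => ENNReal.ofReal (Real.log ‖deriv φ (wI n (idx n θ))‖)) n)
    · rw [abs_of_nonpos h]
      exact le_add_left (le_iSup (fun n => ENNReal.ofReal (-Real.log ‖deriv φ (wI n (idx n θ))‖)) n)
  have hmeas : Measurable fun θ =>
      ⨆ n, ENNReal.ofReal (Real.log ‖deriv φ (wI n (idx n θ))‖) := by
    refine Measurable.iSup fun n => ?_
    have h : Measurable (fun j : ℤ => ENNReal.ofReal (Real.log ‖deriv φ (wI n j)‖)) :=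
      measurable_from_top
    exact h.comp (measurable_idx n)
  refine ne_top_of_le_ne_top ?_ (lintegral_mono hpt)
  rw [lintegral_add_left hmeas, lintegral_add_left measurable_const]
  refine ENNReal.add_ne_top.2 ⟨ne_top_of_le_ne_top ENNReal.ofReal_ne_top (mplus_le hd hi hC),
    ENNReal.add_ne_top.2 ⟨?_, hM⟩⟩
  rw [lintegral_const, Measure.restrict_apply_univ, Real.volume_Ico]
  exact ENNReal.mul_ne_top ENNReal.ofReal_ne_top ENNReal.ofReal_ne_top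

open Real in
/-- uniform bound for the logarithmic means of Cauchy sums, given the geometric input -/
theorem ub_of_osc {φ : ℂ → ℂ} (hd : DifferentiableOn ℂ φ (ball 0 1))
    (hi : InjOn φ (ball 0 1)) {Γ : Set ℂ} (hdisj : Disjoint (φ '' ball 0 1) Γ)
    (hbd : Bornology.IsBounded Γ) (hbφ : Bornology.IsBounded (φ '' ball 0 1))
    {C : ℝ} (hC : OscBound φ C)
    (hM : ∫⁻ θ in Ico 0 (2 * π), ⨆ r ∈ Ico (0:ℝ) 1,
      ENNReal.ofReal (Real.log (‖deriv φ (circleMap 0 r θ)‖⁻¹)) ≠ ⊤) :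
    ∃ C : ℝ, ∀ (J : Finset ℕ) (ζ c : ℕ → ℂ), (∀ j ∈ J, ζ j ∈ Γ) → ∑ j ∈ J, ‖c j‖ ≤ 1 →
      ∀ r, 1/2 ≤ r → r < 1 →
        Real.circleAverage (fun z => Real.posLog ‖∑ j ∈ J, c j * (ζ j - φ z)⁻¹‖) 0 r ≤ C := by
  have hne : φ '' ball 0 1 ≠ univ := by
    intro h
    rw [h] at hbφ
    exact absurd hbφ (NormedSpace.unbounded_univ ℝ ℂ)
  obtain ⟨D₀, hD₀⟩ := (hbφ.union hbd).exists_norm_le
  set D := max 1 (2 * D₀) with hD
  have hfin := lintegral_mx_lt hd hi hne hC hM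
  set B := 88 * ∫⁻ θ, mx φ θ ∂ν0 + ENNReal.ofReal (4 * (10^25 * D * sawC^22)) with hB
  have hBfin : B ≠ ⊤ :=
    ENNReal.add_ne_top.2 ⟨ENNReal.mul_ne_top (by simp) hfin, ENNReal.ofReal_ne_top⟩
  refine ⟨(2 * π)⁻¹ * B.toReal, fun J ζ c hζ hc r hr hr1 => ?_⟩
  have hr0 : 0 ≤ r := by linarith
  have hζ' : ∀ j ∈ J, ∀ w ∈ ball (0:ℂ) 1, φ w ≠ ζ j := by
    intro j hj w hw he
    exact Set.disjoint_left.1 hdisj (mem_image_of_mem φ hw) (he ▸ hζ j hj)
  have hζD : ∀ j ∈ J, ∀ w ∈ ball (0:ℂ) 1, ‖φ w - ζ j‖ ≤ D := by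
    intro j hj w hw
    have h1 := hD₀ _ (Or.inl (mem_image_of_mem φ hw))
    have h2 := hD₀ _ (Or.inr (hζ j hj))
    calc ‖φ w - ζ j‖ ≤ ‖φ w‖ + ‖ζ j‖ := norm_sub_le _ _
      _ ≤ 2 * D₀ := by linarith
      _ ≤ D := le_max_right _ _
  have h1 := log_mean hd hi hne (le_max_left 1 (2 * D₀)) J ζ c hc hζ' hζD hr hr1
  rw [Real.circleAverage_def, smul_eq_mul]
  refine mul_le_mul_of_nonneg_left ?_ (by positivity)
  have hcont : Continuous fun θ : ℝ => ∑ j ∈ J, c j * (ζ j - φ (circleMap 0 r θ))⁻¹ := by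
    refine continuous_finsetSum _ fun j hj => ?_
    refine continuous_const.mul (Continuous.inv₀ ?_ ?_)
    · exact continuous_const.sub (continuousOn_circle hd.continuousOn hr0 hr1)
    · intro θ
      rw [sub_ne_zero]
      exact (hζ' j hj _ (circleMap_mem hr0 hr1 θ)).symm
  have hc2 : Continuous fun θ : ℝ =>
      Real.posLog ‖∑ j ∈ J, c j * (ζ j - φ (circleMap 0 r θ))⁻¹‖ :=
    Real.continuous_posLog.comp hcont.norm
  have hint : Integrable (fun θ : ℝ =>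
      Real.posLog ‖∑ j ∈ J, c j * (ζ j - φ (circleMap 0 r θ))⁻¹‖) ν0 := by
    rw [integrable_ν0]
    exact hc2.intervalIntegrable _ _
  rw [← integral_ν0 (fun θ : ℝ =>
      Real.posLog ‖∑ j ∈ J, c j * (ζ j - φ (circleMap 0 r θ))⁻¹‖),
    integral_eq_lintegral_of_nonneg_ae (Eventually.of_forall fun θ => Real.posLog_nonneg)
      hint.aestronglyMeasurable]
  exact ENNReal.toReal_mono hBfin h1

end Pool.Agent.Helper32.CN
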